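import Mathlib
set_option autoImplicit false

namespace Pool.Agent.TH77.AN
open Filter Topology Set

/-- JOB G. A complete group with small closed normal subgroups `N i` embeds as a closed subgroup of
the product of the quotients. -/
theorem embed_prod {G : Type*} [Group G] [TopologicalSpace G] [IsTopologicalGroup G] [T2Space G]
    (hcomp : ∀ ℱ : Filter G, ℱ.NeBot →
      (∀ U ∈ 𝓝 (1 : G), ∃ A ∈ ℱ, ∀ x ∈ A, ∀ y ∈ A, x⁻¹ * y ∈ U) → ∃ g, ℱ ≤ 𝓝 g)
    {ι : Type*} (N : ι → Subgroup G) [∀ i, (N i).Normal] (hcl : ∀ i, IsClosed (N i : Set G))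
    (hN : ∀ U ∈ 𝓝 (1 : G), ∃ i, (N i : Set G) ⊆ U) :
    IsEmbedding (fun (g : G) (i : ι) => (QuotientGroup.mk g : G ⧸ N i)) ∧
    IsClosed (range (fun (g : G) (i : ι) => (QuotientGroup.mk g : G ⧸ N i))) := by
  set φ : G → (∀ i, G ⧸ N i) := fun g i => (QuotientGroup.mk g : G ⧸ N i) with hφ
  have hφc : Continuous φ := continuous_pi fun i => QuotientGroup.continuous_mk
  -- neighbourhoods
  have hnb : ∀ (i : ι) (a : G) (V : Set G), V ∈ 𝓝 (1 : G) → ∀ x : (∀ i, G ⧸ N i),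
      x i = QuotientGroup.mk a → φ ⁻¹' {y | y i ∈ (QuotientGroup.mk : G → G ⧸ N i) ''
        ((fun v => a * v) '' V)} ∈ comap φ (𝓝 x) := by
    intro i a V hV x hx
    refine preimage_mem_comap ?_
    have h1 : (fun v => a * v) '' V ∈ 𝓝 a := by
      have h2 := (Homeomorph.mulLeft a).isOpenMap.image_mem_nhds hV
      rw [Homeomorph.coe_mulLeft] at h2
      have h3 : (fun x => a * x) (1 : G) = a := mul_one a
      rw [h3] at h2
      exact h2
    have h2 : (QuotientGroup.mk : G → G ⧸ N i) '' ((fun v => a * v) '' V) ∈ 𝓝 (x i) := by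
      rw [hx]
      exact QuotientGroup.isOpenMap_coe.image_mem_nhds h1
    exact (continuous_apply i).continuousAt h2
  have hmem : ∀ (i : ι) (a : G) (V : Set G) (g : G), g ∈ φ ⁻¹' {y | y i ∈ (QuotientGroup.mk :
      G → G ⧸ N i) '' ((fun v => a * v) '' V)} → ∃ v ∈ V, ∃ n ∈ N i, g = a * v * n := by
    intro i a V g hg
    obtain ⟨_, ⟨v, hv, rfl⟩, h2⟩ := hg
    refine ⟨v, hv, (a * v)⁻¹ * g, ?_, by group⟩
    exact QuotientGroup.eq.1 h2
  have hind : IsInducing φ := by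
    rw [isInducing_iff_nhds]
    intro g
    refine le_antisymm (map_le_iff_le_comap.1 hφc.continuousAt) ?_
    intro U hU
    have hU1 : (fun v => g * v) ⁻¹' U ∈ 𝓝 (1 : G) := by
      have h1 : ContinuousAt (fun v => g * v) (1 : G) := (continuous_const_mul g).continuousAt
      apply h1
      have h3 : (fun v => g * v) (1 : G) = g := mul_one g
      rw [h3]
      exact hU
    obtain ⟨V, hV, hVU⟩ := exists_nhds_one_split hU1
    obtain ⟨i, hi⟩ := hN V hV
    refine mem_of_superset (hnb i g V hV (φ g) rfl) ?_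
    intro h hh
    obtain ⟨v, hv, n, hn, rfl⟩ := hmem i g V h hh
    have h1 := hVU v hv n (hi hn)
    rw [mul_assoc]
    exact h1
  refine ⟨hind.isEmbedding, ?_⟩
  refine isClosed_of_closure_subset ?_
  intro x hx
  have hne : (comap φ (𝓝 x)).NeBot := by
    rw [comap_neBot_iff_frequently]
    exact mem_closure_iff_frequently.1 hx
  obtain ⟨g, hg⟩ := hcomp (comap φ (𝓝 x)) hne (by
    intro U hU
    obtain ⟨V, hV, hVU⟩ := exists_nhds_one_split hU
    obtain ⟨i, hi⟩ := hN V hV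
    obtain ⟨W, hW, hWV⟩ := exists_nhds_split_inv hV
    have hW' : W⁻¹ ∈ 𝓝 (1 : G) := inv_mem_nhds_one G hW
    obtain ⟨a, ha⟩ := QuotientGroup.mk_surjective (x i)
    refine ⟨_, hnb i a W⁻¹ hW' x ha.symm, ?_⟩
    intro g hg h hh
    obtain ⟨v, hv, n, hn, rfl⟩ := hmem i a _ g hg
    obtain ⟨w, hw, m, hm, rfl⟩ := hmem i a _ h hh
    have h1 : v⁻¹ * w ∈ V := by
      have h2 := hWV v⁻¹ (by simpa using hv) w⁻¹ (by simpa using hw)
      rwa [div_eq_mul_inv, inv_inv] at h2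
    have h3 : (v⁻¹ * w)⁻¹ * n⁻¹ * ((v⁻¹ * w)⁻¹)⁻¹ * m ∈ N i :=
      (N i).mul_mem (Subgroup.Normal.conj_mem inferInstance _ ((N i).inv_mem hn) _) hm
    have h4 := hVU _ h1 _ (hi h3)
    have h5 : (a * v * n)⁻¹ * (a * w * m) =
        v⁻¹ * w * ((v⁻¹ * w)⁻¹ * n⁻¹ * ((v⁻¹ * w)⁻¹)⁻¹ * m) := by group
    rw [h5]
    exact h4)
  have hT : ∀ i, T2Space (G ⧸ N i) := by
    intro i
    have := hcl i
    infer_instance
  refine ⟨g, ?_⟩
  have h1 : Tendsto φ (comap φ (𝓝 x)) (𝓝 x) := tendsto_comap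
  have h2 : Tendsto φ (comap φ (𝓝 x)) (𝓝 (φ g)) := hφc.continuousAt.mono_left hg
  exact tendsto_nhds_unique h2 h1

end Pool.Agent.TH77.AN
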