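import Pool.Agent.TH477.PA.Defs
set_option autoImplicit false
open Finset Pool.Agent.TH477.PA

namespace Pool.Agent.TH883.J645

theorem J6_embed {n r : ℕ} (hn : 1 ≤ n) (G : SimpleGraph (Fin n)) (A : Finset (Fin r))
    (cls : Fin n → ℕ) (U : Set (Fin n)) (β δ : ℝ) (hβ : 0 < β) (hβ1 : β ≤ 1) (hδ : 0 < δ)
    (ψ : Sym2 (Fin n) → Fin r) (hPR : PR G A cls U β δ ψ) (m : ℕ) (J : Fin m → ℕ)
    (X : Fin m → Finset (Fin n)) (hX : ∀ t, ∀ x ∈ X t, x ∈ U ∧ cls x = J t)
    (hcard : ∀ t, ((m : ℝ) + 1) * δ * n ≤ β ^ m * ((X t).card : ℝ))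
    (col : Fin m → Fin m → Fin r) (hcol : ∀ t t', t < t' → (J t ≠ J t' ∨ col t t' ∈ A)) :
    ∃ a : Fin m → Fin n, (∀ t, a t ∈ X t) ∧
      ∀ t t', t < t' → G.Adj (a t) (a t') ∧ ψ s(a t, a t') = col t t' := by
  classical
  have hδn : 0 < δ * n := mul_pos hδ (by exact_mod_cast hn)
  induction m with
  | zero => exact ⟨fun t => t.elim0, fun t => t.elim0, fun t => t.elim0⟩
  | succ m ih =>
    have hβm : β ^ (m + 1) ≤ 1 := pow_le_one₀ hβ.le hβ1
    have hXc : ∀ t, ((m : ℝ) + 2) * (δ * n) ≤ ((X t).card : ℝ) := by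
      intro t
      have h1 := hcard t
      push_cast at h1
      have h2 : β ^ (m + 1) * ((X t).card : ℝ) ≤ 1 * ((X t).card : ℝ) :=
        mul_le_mul_of_nonneg_right hβm (by positivity)
      nlinarith
    have hXd : ∀ t, δ * n ≤ ((X t).card : ℝ) := by
      intro t
      have h1 := hXc t
      have h2 : 0 ≤ ((m : ℝ) + 1) * (δ * n) := by positivity
      nlinarith
    -- the neighbourhoods
    let N : Fin m → Fin n → Finset (Fin n) := fun t x =>
      (X t.succ).filter (fun v => G.Adj x v ∧ ψ s(x, v) = col 0 t.succ)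
    let Bad : Fin m → Finset (Fin n) := fun t =>
      (X 0).filter (fun x => ((N t x).card : ℝ) < β * ((X t.succ).card : ℝ))
    have hBad : ∀ t, ((Bad t).card : ℝ) < δ * n := by
      intro t
      by_contra hcon
      push Not at hcon
      have h1 := hPR (J 0) (J t.succ) (Bad t) (X t.succ)
        (fun x hx => hX 0 x (Finset.mem_filter.1 hx).1) (fun y hy => hX _ y hy) hcon (hXd _)
        (col 0 t.succ) (hcol 0 t.succ (Fin.succ_pos t))
      have h2 : ∑ x ∈ Bad t, ∑ y ∈ X t.succ, ind (G.Adj x y ∧ ψ s(x, y) = col 0 t.succ) =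
          ∑ x ∈ Bad t, ((N t x).card : ℝ) := by
        refine Finset.sum_congr rfl fun x _ => ?_
        rw [← card_filter_ind]
      rw [h2] at h1
      have hne : (Bad t).Nonempty := by
        rw [← Finset.card_pos]
        have : (0 : ℝ) < (Bad t).card := lt_of_lt_of_le hδn hcon
        exact_mod_cast this
      have h3 : ∑ x ∈ Bad t, ((N t x).card : ℝ) < ∑ x ∈ Bad t, β * ((X t.succ).card : ℝ) :=
        Finset.sum_lt_sum_of_nonempty hne fun x hx => (Finset.mem_filter.1 hx).2
      rw [Finset.sum_const, nsmul_eq_mul] at h3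
      have h4 : β * ((Bad t).card : ℝ) * ((X t.succ).card : ℝ) =
          ((Bad t).card : ℝ) * (β * ((X t.succ).card : ℝ)) := by ring
      linarith
    -- choose `a₀`
    obtain ⟨a₀, ha₀, hgood⟩ : ∃ a₀ ∈ X 0, ∀ t : Fin m, a₀ ∉ Bad t := by
      by_contra hcon
      push Not at hcon
      have h1 : X 0 ⊆ Finset.univ.biUnion Bad := by
        intro x hx
        obtain ⟨t, ht⟩ := hcon x hx
        exact Finset.mem_biUnion.2 ⟨t, Finset.mem_univ _, ht⟩
      have h2 : ((X 0).card : ℝ) ≤ ∑ t : Fin m, ((Bad t).card : ℝ) := by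
        have := (Finset.card_le_card h1).trans Finset.card_biUnion_le
        exact_mod_cast this
      have h3 : ∑ t : Fin m, ((Bad t).card : ℝ) ≤ ∑ _t : Fin m, δ * n :=
        Finset.sum_le_sum fun t _ => (hBad t).le
      rw [Finset.sum_const, Finset.card_univ, Fintype.card_fin, nsmul_eq_mul] at h3
      have h4 := hXc 0
      nlinarith
    have hN : ∀ t : Fin m, β * ((X t.succ).card : ℝ) ≤ ((N t a₀).card : ℝ) := by
      intro t
      by_contra hcon
      push Not at hcon
      exact hgood t (Finset.mem_filter.2 ⟨ha₀, hcon⟩)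
    obtain ⟨a', ha'1, ha'2⟩ := ih (fun t => J t.succ) (fun t => N t a₀)
      (fun t x hx => hX _ x (Finset.mem_filter.1 hx).1)
      (by
        intro t
        have h1 := hcard t.succ
        push_cast at h1
        have h2 : β ^ m * (β * ((X t.succ).card : ℝ)) ≤ β ^ m * ((N t a₀).card : ℝ) :=
          mul_le_mul_of_nonneg_left (hN t) (by positivity)
        have h3 : β ^ (m + 1) * ((X t.succ).card : ℝ) = β ^ m * (β * ((X t.succ).card : ℝ)) := by
          ring
        nlinarith)
      (fun t t' => col t.succ t'.succ)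
      (fun t t' htt => hcol _ _ (Fin.succ_lt_succ_iff.2 htt))
    refine ⟨Fin.cons a₀ a', ?_, ?_⟩
    · intro t
      refine Fin.cases ?_ (fun i => ?_) t
      · exact ha₀
      · exact (Finset.mem_filter.1 (ha'1 i)).1
    · intro t t' htt
      induction t using Fin.cases with
      | zero =>
        induction t' using Fin.cases with
        | zero => exact absurd htt (lt_irrefl _)
        | succ j => exact (Finset.mem_filter.1 (ha'1 j)).2
      | succ i =>
        induction t' using Fin.cases with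
        | zero => exact absurd htt (not_lt.2 (Fin.zero_le _))
        | succ j => exact ha'2 i j (Fin.succ_lt_succ_iff.1 htt)

end Pool.Agent.TH883.J645
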