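import Mathlib
set_option autoImplicit false
open MeasureTheory

namespace Pool.Agent.TH883.J706

theorem exists_pos_le {ι : Type*} [Finite ι] (f : ι → ℝ) (hf : ∀ i, 0 < f i) :
    ∃ δ : ℝ, 0 < δ ∧ ∀ i, δ ≤ f i := by
  have h1 : ∀ᶠ δ in nhdsWithin (0 : ℝ) (Set.Ioi 0), ∀ i, δ ≤ f i := by
    rw [Filter.eventually_all]
    intro i
    filter_upwards [Ioc_mem_nhdsGT (hf i)] with δ hδ using hδ.2
  obtain ⟨δ, h2, h3⟩ := (h1.and self_mem_nhdsWithin).exists
  exact ⟨δ, h3, h2⟩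

theorem exists_discs (μ : Measure ℂ) [IsProbabilityMeasure μ]
    (hinf : ¬ ∃ F : Finset ℂ, ∀ᵐ z ∂μ, z ∈ F) (M : ℕ) :
    ∃ (z : Fin M → ℂ) (δ : ℝ), 0 < δ ∧ (∀ l, 0 < μ (Metric.closedBall (z l) δ)) ∧
      (∀ l l', l ≠ l' → ∀ s ∈ Metric.closedBall (z l) δ, ∀ t ∈ Metric.closedBall (z l') δ,
        δ ≤ ‖s - t‖) := by
  classical
  have hsup : μ.support.Infinite := by
    intro hfin
    apply hinf
    refine ⟨hfin.toFinset, ?_⟩
    have h1 : μ.support ∈ ae μ := Measure.support_mem_ae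
    filter_upwards [h1] with z hz
    exact hfin.mem_toFinset.2 hz
  set f := hsup.natEmbedding with hf
  let z : Fin M → ℂ := fun l => (f l : ℂ)
  have hinj : ∀ l l' : Fin M, l ≠ l' → z l ≠ z l' := by
    intro l l' hne h
    apply hne
    have h2 : f (l : ℕ) = f (l' : ℕ) := Subtype.ext h
    exact Fin.ext (f.injective h2)
  obtain ⟨δ, hδ, hδ2⟩ := exists_pos_le
    (fun p : Fin M × Fin M => if p.1 = p.2 then (1 : ℝ) else ‖z p.1 - z p.2‖ / 3) (by
      intro p
      by_cases h : p.1 = p.2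
      · simp only [if_pos h]; norm_num
      · simp only [if_neg h]
        have : 0 < ‖z p.1 - z p.2‖ := norm_pos_iff.2 (sub_ne_zero.2 (hinj _ _ h))
        linarith)
  refine ⟨z, δ, hδ, ?_, ?_⟩
  · intro l
    have h1 : z l ∈ μ.support := (f (l : ℕ)).2
    exact (Measure.mem_support_iff_forall _).1 h1 _ (Metric.closedBall_mem_nhds _ hδ)
  · intro l l' hne s hs t ht
    have h1 := hδ2 (l, l')
    simp only [if_neg hne] at h1
    rw [mem_closedBall_iff_norm] at hs ht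
    have h2 : ‖z l - z l'‖ ≤ ‖s - t‖ + ‖s - z l‖ + ‖t - z l'‖ := by
      have e : z l - z l' = (s - t) - (s - z l) + (t - z l') := by ring
      rw [e]
      refine (norm_add_le _ _).trans ?_
      gcongr
      exact norm_sub_le _ _
    linarith

end Pool.Agent.TH883.J706
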