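import Mathlib
set_option autoImplicit false

namespace Pool.Agent.TH883.J709

theorem cube_le_exp (K a : ℝ) (ha : 0 < a) :
    ∃ n0 : ℕ, ∀ n : ℕ, n0 ≤ n → K * ((n : ℝ) + 1) ^ 3 ≤ Real.exp (a * n) := by
  obtain ⟨m, hm⟩ := exists_nat_gt (192 * |K| / a ^ 4)
  refine ⟨m + 1, fun n hn => ?_⟩
  have hn1 : (1 : ℝ) ≤ n := by exact_mod_cast (by omega : 1 ≤ n)
  have hmn : (m : ℝ) ≤ n := by exact_mod_cast (by omega : m ≤ n)
  have h1 := Real.pow_div_factorial_le_exp (a * n) (by positivity) 4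
  refine le_trans ?_ h1
  have h2 : ((n : ℝ) + 1) ^ 3 ≤ (2 * n) ^ 3 := pow_le_pow_left₀ (by positivity) (by linarith) 3
  have h3 : K * ((n : ℝ) + 1) ^ 3 ≤ |K| * (2 * n) ^ 3 := by
    calc K * ((n : ℝ) + 1) ^ 3 ≤ |K| * ((n : ℝ) + 1) ^ 3 :=
          mul_le_mul_of_nonneg_right (le_abs_self K) (by positivity)
      _ ≤ _ := mul_le_mul_of_nonneg_left h2 (abs_nonneg K)
  refine h3.trans ?_
  rw [div_lt_iff₀ (by positivity)] at hm
  have h4 : (m : ℝ) * a ^ 4 ≤ n * a ^ 4 := mul_le_mul_of_nonneg_right hmn (by positivity)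
  have h5 : 192 * |K| ≤ n * a ^ 4 := by linarith
  have h6 : (Nat.factorial 4 : ℝ) = 24 := by norm_num [Nat.factorial]
  rw [h6, le_div_iff₀ (by norm_num)]
  have h7 : 192 * |K| * (n : ℝ) ^ 3 ≤ n * a ^ 4 * (n : ℝ) ^ 3 :=
    mul_le_mul_of_nonneg_right h5 (by positivity)
  nlinarith

theorem exists_ge_mul (a b : ℝ) (ha : 0 < a) : ∃ n0 : ℕ, ∀ n : ℕ, n0 ≤ n → b ≤ a * n := by
  obtain ⟨m, hm⟩ := exists_nat_gt (b / a)
  refine ⟨m, fun n hn => ?_⟩
  rw [div_lt_iff₀ ha] at hm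
  have : (m : ℝ) ≤ n := by exact_mod_cast hn
  nlinarith

theorem one_sub_ge (x : ℝ) (h0 : 0 ≤ x) (h1 : x ≤ 1 / 2) : Real.exp (-(2 * x)) ≤ 1 - x := by
  have h2 : 2 * x + 1 ≤ Real.exp (2 * x) := Real.add_one_le_exp _
  rw [Real.exp_neg]
  have h3 : (Real.exp (2 * x))⁻¹ ≤ (2 * x + 1)⁻¹ := inv_anti₀ (by linarith) h2
  refine h3.trans ?_
  rw [inv_eq_one_div, div_le_iff₀ (by linarith)]
  nlinarith

theorem numerics (ε : ℝ) (hε : 0 < ε) (L : ℝ) (hL : 2560 / ε ≤ L) (hL2 : 4 ≤ L) (c : ℝ)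
    (hc0 : 0 < c) (hc1 : c ≤ 1) (M0 M : ℕ) :
    ∃ κ0 : ℝ, 0 < κ0 ∧ ∃ n0 : ℕ, ∀ n : ℕ, n0 ≤ n → ∀ k : ℕ, (k:ℝ) ≤ κ0 * n → 160 * M + 160 ≤ k →
      ∀ U : ℝ, 0 ≤ U → ∀ q : ℝ, q = Real.exp ((ε * n + k * U) / 320) →
        64 * ((n:ℝ)+1)^2 * ((k:ℝ)+((2*(k+1)+M0+M : ℕ):ℝ)+1) * (256*L)^(k+(2*(k+1)+M0+M)+2) ≤ q ∧
        q⁻¹ ≤ (1/L)^k * (1-2/L)^n ∧
        2^k * (1+2/L)^n ≤ q ∧
        7 * (q⁻¹)^40 ≤ c * Real.exp (-U) ∧
        (q⁻¹)^2 ≤ (c * Real.exp (-U))^M ∧
        Real.exp (-(ε * n)) * Real.exp (-(k * U)) = (q⁻¹)^320 := by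
  have hL0 : 0 < L := by linarith
  set l : ℝ := Real.log (256 * L) with hl
  have hexp1 : Real.exp 1 ≤ 256 * L := by
    have := Real.exp_one_lt_d9
    linarith
  have hl1 : 1 ≤ l := by
    rw [hl, Real.le_log_iff_exp_le (by positivity)]
    exact hexp1
  have hlL : Real.log L ≤ l := Real.log_le_log hL0 (by linarith)
  have hlog0 : 0 ≤ Real.log L := Real.log_nonneg (by linarith)
  have hexpl : Real.exp l = 256 * L := Real.exp_log (by positivity)
  have h2L : 2 / L ≤ ε / 1280 := by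
    rw [div_le_div_iff₀ hL0 (by norm_num)]
    rw [div_le_iff₀ hε] at hL
    linarith
  set κ0 : ℝ := min 1 (ε / (2880 * l)) with hκ
  have hκ0 : 0 < κ0 := lt_min one_pos (by positivity)
  have hκ1 : κ0 ≤ 1 := min_le_left _ _
  have hκl : κ0 * l ≤ ε / 2880 := by
    have h1 : κ0 ≤ ε / (2880 * l) := min_le_right _ _
    have h2 : κ0 * l ≤ ε / (2880 * l) * l := mul_le_mul_of_nonneg_right h1 (by linarith)
    have h3 : ε / (2880 * l) * l = ε / 2880 := by field_simp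
    linarith
  have hκε : κ0 ≤ ε / 2880 := by
    have h1 : κ0 * 1 ≤ κ0 * l := mul_le_mul_of_nonneg_left hl1 hκ0.le
    linarith
  set K1 : ℝ := 64 * (3 + M0 + M) * Real.exp (l * (4 + M0 + M)) with hK1
  obtain ⟨n1, hn1⟩ := cube_le_exp K1 (ε / 480) (by positivity)
  obtain ⟨n2, hn2⟩ := exists_ge_mul (ε / 8) (Real.log (7 / c)) (by positivity)
  obtain ⟨n3, hn3⟩ := exists_ge_mul (ε / 160) (M * Real.log (1 / c)) (by positivity)
  refine ⟨κ0, hκ0, n1 + n2 + n3, ?_⟩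
  intro n hn k hk hkM U hU q hq
  have hn0 : (0 : ℝ) ≤ n := Nat.cast_nonneg n
  have hk0 : (0 : ℝ) ≤ k := Nat.cast_nonneg k
  have hkU : 0 ≤ (k : ℝ) * U := mul_nonneg hk0 hU
  have hkl : (k : ℝ) * l ≤ ε / 2880 * n := by
    calc (k : ℝ) * l ≤ κ0 * n * l := mul_le_mul_of_nonneg_right hk (by linarith)
      _ = κ0 * l * n := by ring
      _ ≤ _ := mul_le_mul_of_nonneg_right hκl hn0
  have hkε : (k : ℝ) ≤ ε / 2880 * n := hk.trans (mul_le_mul_of_nonneg_right hκε hn0)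
  have hkn : (k : ℝ) ≤ n := by
    refine hk.trans ?_
    calc κ0 * n ≤ 1 * n := mul_le_mul_of_nonneg_right hκ1 hn0
      _ = n := one_mul _
  have hqinv : q⁻¹ = Real.exp (-((ε * n + k * U) / 320)) := by rw [hq, Real.exp_neg]
  have hqpow : ∀ j : ℕ, (q⁻¹) ^ j = Real.exp (-(j * ((ε * n + k * U) / 320))) := by
    intro j
    rw [hqinv, ← Real.exp_nat_mul]
    congr 1
    ring
  have hq1 : Real.exp (ε / 320 * n) ≤ q := by
    rw [hq, Real.exp_le_exp]
    have : 0 ≤ (k : ℝ) * U / 320 := by positivity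
    linarith
  refine ⟨?_, ?_, ?_, ?_, ?_, ?_⟩
  · refine le_trans ?_ hq1
    have e1 : (256 * L) ^ (k + (2 * (k + 1) + M0 + M) + 2) =
        Real.exp (l * (4 + M0 + M)) * Real.exp (3 * (k * l)) := by
      rw [← hexpl, ← Real.exp_nat_mul, ← Real.exp_add]
      congr 1
      push_cast
      ring
    have e2 : Real.exp (3 * ((k : ℝ) * l)) ≤ Real.exp (ε / 960 * n) := by
      rw [Real.exp_le_exp]
      linarith
    have e3 : (k : ℝ) + ((2 * (k + 1) + M0 + M : ℕ) : ℝ) + 1 ≤ (3 + M0 + M) * (n + 1) := by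
      push_cast
      have hM0 : (0 : ℝ) ≤ M0 := Nat.cast_nonneg _
      have hM : (0 : ℝ) ≤ M := Nat.cast_nonneg _
      nlinarith [mul_nonneg hM0 hn0, mul_nonneg hM hn0]
    rw [e1]
    have e4 : Real.exp (ε / 320 * n) = Real.exp (ε / 480 * n) * Real.exp (ε / 960 * n) := by
      rw [← Real.exp_add]
      congr 1
      ring
    rw [e4]
    have e5 := hn1 n (by omega)
    calc 64 * ((n : ℝ) + 1) ^ 2 * ((k : ℝ) + ((2 * (k + 1) + M0 + M : ℕ) : ℝ) + 1) *
          (Real.exp (l * (4 + M0 + M)) * Real.exp (3 * (k * l)))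
        ≤ 64 * ((n : ℝ) + 1) ^ 2 * ((3 + M0 + M) * (n + 1)) *
          (Real.exp (l * (4 + M0 + M)) * Real.exp (ε / 960 * n)) := by
          gcongr
      _ = (K1 * ((n : ℝ) + 1) ^ 3) * Real.exp (ε / 960 * n) := by
          rw [hK1]
          ring
      _ ≤ _ := mul_le_mul_of_nonneg_right e5 (Real.exp_pos _).le
  · have e1 : q⁻¹ ≤ Real.exp (-(ε / 320 * n)) := by
      rw [hqinv, Real.exp_le_exp]
      have : 0 ≤ (k : ℝ) * U / 320 := by positivity
      linarith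
    refine e1.trans ?_
    have e2 : (1 / L) ^ k = Real.exp (-(k * Real.log L)) := by
      rw [Real.exp_neg, Real.exp_nat_mul, Real.exp_log hL0, one_div, inv_pow]
    have e3 : Real.exp (-(4 / L * n)) ≤ (1 - 2 / L) ^ n := by
      have h1 := one_sub_ge (2 / L) (by positivity) (by
        rw [div_le_div_iff₀ hL0 (by norm_num)]; linarith)
      have h2 : Real.exp (-(4 / L * n)) = Real.exp (-(2 * (2 / L))) ^ n := by
        rw [← Real.exp_nat_mul]
        congr 1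
        ring
      rw [h2]
      exact pow_le_pow_left₀ (Real.exp_pos _).le h1 n
    have e4 : Real.exp (-(ε / 320 * n)) ≤ Real.exp (-(k * Real.log L)) * Real.exp (-(4 / L * n)) := by
      rw [← Real.exp_add, Real.exp_le_exp]
      have h1 : (k : ℝ) * Real.log L ≤ k * l := mul_le_mul_of_nonneg_left hlL hk0
      have h2 : 4 / L = 2 * (2 / L) := by ring
      have h3 : 4 / L * n ≤ ε / 640 * n := by
        refine mul_le_mul_of_nonneg_right ?_ hn0
        rw [h2]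
        linarith
      have h4 : 0 ≤ ε * n := by positivity
      linarith
    rw [e2]
    exact e4.trans (mul_le_mul_of_nonneg_left e3 (Real.exp_pos _).le)
  · refine le_trans ?_ hq1
    have e1 : (2 : ℝ) ^ k ≤ Real.exp k := by
      have h1 : (2 : ℝ) ≤ Real.exp 1 := by
        have := Real.add_one_le_exp 1
        linarith
      calc (2 : ℝ) ^ k ≤ Real.exp 1 ^ k := pow_le_pow_left₀ (by norm_num) h1 k
        _ = Real.exp k := by rw [← Real.exp_nat_mul, mul_one]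
    have e2 : (1 + 2 / L) ^ n ≤ Real.exp (2 / L * n) := by
      have h1 : 1 + 2 / L ≤ Real.exp (2 / L) := by
        have := Real.add_one_le_exp (2 / L)
        linarith
      calc (1 + 2 / L) ^ n ≤ Real.exp (2 / L) ^ n := pow_le_pow_left₀ (by positivity) h1 n
        _ = Real.exp (2 / L * n) := by
          rw [← Real.exp_nat_mul]
          congr 1
          ring
    calc (2 : ℝ) ^ k * (1 + 2 / L) ^ n ≤ Real.exp k * Real.exp (2 / L * n) :=
          mul_le_mul e1 e2 (by positivity) (Real.exp_pos _).le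
      _ = Real.exp (k + 2 / L * n) := by rw [Real.exp_add]
      _ ≤ _ := by
          rw [Real.exp_le_exp]
          have h3 : 2 / L * n ≤ ε / 1280 * n := mul_le_mul_of_nonneg_right h2L hn0
          have h4 : 0 ≤ ε * n := by positivity
          linarith
  · rw [hqpow]
    have e1 : (7 : ℝ) = Real.exp (Real.log 7) := (Real.exp_log (by norm_num)).symm
    have e2 : c = Real.exp (Real.log c) := (Real.exp_log hc0).symm
    have hk160 : (160 : ℝ) ≤ k := by exact_mod_cast (by omega : 160 ≤ k)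
    have h1 : U ≤ k * U / 8 := by nlinarith
    have h2 := hn2 n (by omega)
    rw [Real.log_div (by norm_num) hc0.ne'] at h2
    rw [e1]
    conv_rhs => rw [e2]
    rw [← Real.exp_add, ← Real.exp_add, Real.exp_le_exp]
    push_cast
    linarith
  · rw [hqpow, mul_pow]
    have e2 : c ^ M = Real.exp (M * Real.log c) := by
      rw [Real.exp_nat_mul, Real.exp_log hc0]
    have e3 : Real.exp (-U) ^ M = Real.exp (-(M * U)) := by
      rw [← Real.exp_nat_mul]
      congr 1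
      ring
    rw [e2, e3, ← Real.exp_add, Real.exp_le_exp]
    have hkMr : (160 : ℝ) * M ≤ k := by exact_mod_cast (by omega : 160 * M ≤ k)
    have h1 : (M : ℝ) * U ≤ k * U / 160 := by nlinarith
    have h2 := hn3 n (by omega)
    rw [one_div, Real.log_inv] at h2
    push_cast
    linarith
  · rw [hqpow, ← Real.exp_add]
    congr 1
    push_cast
    ring

end Pool.Agent.TH883.J709
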