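import Mathlib
set_option autoImplicit false
open MeasureTheory
open scoped ENNReal

namespace Pool.Agent.TH883.J707

/-- three classes of complex numbers by modulus -/
def cls (T1 T2 : ℝ) (c : Fin 3) : Set ℂ :=
  if c = 0 then {z | ‖z‖ ≤ T1} else if c = 1 then {z | T1 < ‖z‖ ∧ ‖z‖ ≤ T2} else {z | T2 < ‖z‖}

theorem measurableSet_cls (T1 T2 : ℝ) (c : Fin 3) : MeasurableSet (cls T1 T2 c) := by
  unfold cls
  split_ifs
  · exact measurableSet_le measurable_norm measurable_const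
  · exact (measurableSet_lt measurable_const measurable_norm).inter
      (measurableSet_le measurable_norm measurable_const)
  · exact measurableSet_lt measurable_const measurable_norm

theorem mem_cls_zero {T1 T2 : ℝ} {z : ℂ} : z ∈ cls T1 T2 0 ↔ ‖z‖ ≤ T1 := by
  unfold cls
  rw [if_pos rfl]
  rfl

theorem mem_cls_one {T1 T2 : ℝ} {z : ℂ} : z ∈ cls T1 T2 1 ↔ T1 < ‖z‖ ∧ ‖z‖ ≤ T2 := by
  unfold cls
  rw [if_neg (by decide), if_pos rfl]
  rfl

theorem mem_cls_two {T1 T2 : ℝ} {z : ℂ} : z ∈ cls T1 T2 2 ↔ T2 < ‖z‖ := by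
  unfold cls
  rw [if_neg (by decide), if_neg (by decide)]
  rfl

theorem fin3 (c : Fin 3) : c = 0 ∨ c = 1 ∨ c = 2 := by
  revert c; decide

theorem cls_spec {T1 T2 : ℝ} (hT : T1 ≤ T2) {z : ℂ} {c : Fin 3} (h : z ∈ cls T1 T2 c) :
    (c ≠ 0 ↔ T1 < ‖z‖) ∧ (c = 2 ↔ T2 < ‖z‖) := by
  rcases fin3 c with rfl | rfl | rfl
  · rw [mem_cls_zero] at h
    constructor
    · exact ⟨fun h1 => absurd rfl h1, fun h1 => absurd h (not_le.2 h1)⟩
    · exact ⟨fun h1 => absurd h1 (by decide), fun h1 => absurd (h.trans hT) (not_le.2 h1)⟩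
  · rw [mem_cls_one] at h
    constructor
    · exact ⟨fun _ => h.1, fun _ => by decide⟩
    · exact ⟨fun h1 => absurd h1 (by decide), fun h1 => absurd h.2 (not_le.2 h1)⟩
  · rw [mem_cls_two] at h
    constructor
    · exact ⟨fun _ => lt_of_le_of_lt hT h, fun _ => by decide⟩
    · exact ⟨fun _ => h, fun _ => rfl⟩

theorem fin3_eq : ∀ c c' : Fin 3, (c ≠ 0 ↔ c' ≠ 0) → (c = 2 ↔ c' = 2) → c = c' := by decide

theorem cls_unique {T1 T2 : ℝ} (hT : T1 ≤ T2) {z : ℂ} {c c' : Fin 3} (h : z ∈ cls T1 T2 c)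
    (h' : z ∈ cls T1 T2 c') : c = c' := by
  obtain ⟨h1, h2⟩ := cls_spec hT h
  obtain ⟨h3, h4⟩ := cls_spec hT h'
  exact fin3_eq c c' (h1.trans h3.symm) (h2.trans h4.symm)

/-- the class of a complex number -/
noncomputable def vc (T1 T2 : ℝ) (z : ℂ) : Fin 3 :=
  if ‖z‖ ≤ T1 then 0 else if ‖z‖ ≤ T2 then 1 else 2

theorem mem_cls_vc (T1 T2 : ℝ) (z : ℂ) : z ∈ cls T1 T2 (vc T1 T2 z) := by
  unfold vc
  split_ifs with h1 h2
  · exact mem_cls_zero.2 h1
  · exact mem_cls_one.2 ⟨not_le.1 h1, h2⟩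
  · exact mem_cls_two.2 (not_le.1 h2)

theorem pi_cond {n : ℕ} (μ : Measure ℂ) [IsProbabilityMeasure μ] (C : Fin n → Set ℂ)
    (h0 : ∀ i, μ (C i) ≠ 0) (G : Set (Fin n → ℂ))
    (hG : MeasurableSet G) :
    Measure.pi (fun _ : Fin n => μ) (G ∩ Set.univ.pi C) =
      (∏ i, μ (C i)) * Measure.pi (fun i => ProbabilityTheory.cond μ (C i)) G := by
  have hprob : ∀ i, IsProbabilityMeasure (ProbabilityTheory.cond μ (C i)) := fun i =>
    ProbabilityTheory.cond_isProbabilityMeasure (h0 i)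
  have e1 : Measure.pi (fun i => ProbabilityTheory.cond μ (C i)) =
      (∏ i, (μ (C i))⁻¹) • Measure.pi (fun i => μ.restrict (C i)) := by
    refine (Measure.pi_eq fun s hs => ?_)
    rw [Measure.smul_apply, Measure.pi_pi, smul_eq_mul, ← Finset.prod_mul_distrib]
    refine Finset.prod_congr rfl fun i _ => ?_
    rw [ProbabilityTheory.cond, Measure.smul_apply, smul_eq_mul]
  have e2 : Measure.pi (fun _ : Fin n => μ) (G ∩ Set.univ.pi C) =
      Measure.pi (fun i => μ.restrict (C i)) G := by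
    rw [← Measure.restrict_apply hG, Measure.restrict_pi_pi]
  rw [e2, e1, Measure.smul_apply, smul_eq_mul, ← mul_assoc, ← Finset.prod_mul_distrib]
  have e3 : ∏ i, (μ (C i) * (μ (C i))⁻¹) = 1 := by
    refine Finset.prod_eq_one fun i _ => ?_
    exact ENNReal.mul_inv_cancel (h0 i) (measure_ne_top _ _)
  rw [e3, one_mul]

open Classical in
theorem scale_sum {n : ℕ} (μ : Measure ℂ) [IsProbabilityMeasure μ] (k : ℕ) (t0 : ℝ) (ht0 : 0 < t0)
    (G : Set (Fin n → ℂ)) (hG : MeasurableSet G)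
    (hGL : ∀ y ∈ G, k + 1 ≤ (Finset.univ.filter (fun i => t0 < ‖y i‖)).card)
    (ε0 : ℝ≥0∞)
    (hcore : ∀ (s : ℕ) (v : Fin n → Fin 3),
      (Finset.univ.filter (fun i => v i = 2)).card ≤ k →
      k + 1 ≤ (Finset.univ.filter (fun i => v i ≠ 0)).card →
      (∀ i, μ (cls (t0 * 2 ^ s) (t0 * 2 ^ (s+1)) (v i)) ≠ 0) →
      Measure.pi (fun i => ProbabilityTheory.cond μ (cls (t0 * 2 ^ s) (t0 * 2 ^ (s+1)) (v i))) G ≤ ε0) :
    Measure.pi (fun _ : Fin n => μ) G ≤ ε0 := by
  have hT : ∀ s : ℕ, t0 * 2 ^ s ≤ t0 * 2 ^ (s + 1) := by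
    intro s
    refine mul_le_mul_of_nonneg_left ?_ ht0.le
    exact pow_le_pow_right₀ (by norm_num) (by omega)
  have hT2 : ∀ s s' : ℕ, s ≤ s' → t0 * 2 ^ s ≤ t0 * 2 ^ s' := by
    intro s s' h
    refine mul_le_mul_of_nonneg_left ?_ ht0.le
    exact pow_le_pow_right₀ (by norm_num) h
  -- the good pairs
  let Gd : ℕ × (Fin n → Fin 3) → Prop := fun p =>
    (Finset.univ.filter (fun i => p.2 i = 2)).card ≤ k ∧
      k + 1 ≤ (Finset.univ.filter (fun i => p.2 i ≠ 0)).card
  let B : ℕ × (Fin n → Fin 3) → Set (Fin n → ℂ) := fun p =>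
    Set.univ.pi (fun i => cls (t0 * 2 ^ p.1) (t0 * 2 ^ (p.1 + 1)) (p.2 i))
  have hBm : ∀ p, MeasurableSet (B p) := fun p =>
    MeasurableSet.univ_pi fun i => measurableSet_cls _ _ _
  let B' : ℕ × (Fin n → Fin 3) → Set (Fin n → ℂ) := fun p => if Gd p then B p else ∅
  have hB'm : ∀ p, MeasurableSet (B' p) := by
    intro p
    show MeasurableSet (if Gd p then B p else ∅)
    split_ifs
    · exact hBm p
    · exact MeasurableSet.empty
  have hBspec : ∀ (p : ℕ × (Fin n → Fin 3)) (y : Fin n → ℂ), y ∈ B p →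
      (Finset.univ.filter (fun i => p.2 i = 2)) =
        (Finset.univ.filter (fun i => t0 * 2 ^ (p.1 + 1) < ‖y i‖)) ∧
      (Finset.univ.filter (fun i => p.2 i ≠ 0)) =
        (Finset.univ.filter (fun i => t0 * 2 ^ p.1 < ‖y i‖)) := by
    intro p y hy
    have h1 : ∀ i, y i ∈ cls (t0 * 2 ^ p.1) (t0 * 2 ^ (p.1 + 1)) (p.2 i) := fun i =>
      hy i (Set.mem_univ i)
    constructor
    · ext i
      simp only [Finset.mem_filter, Finset.mem_univ, true_and]
      exact (cls_spec (hT _) (h1 i)).2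
    · ext i
      simp only [Finset.mem_filter, Finset.mem_univ, true_and]
      exact (cls_spec (hT _) (h1 i)).1
  -- covering
  have hcov : G ⊆ ⋃ p, (G ∩ B' p) := by
    intro y hy
    have hex : ∃ s : ℕ, (Finset.univ.filter (fun i => t0 * 2 ^ s < ‖y i‖)).card ≤ k := by
      obtain ⟨m, hm⟩ := exists_nat_gt ((∑ i, ‖y i‖) / t0)
      refine ⟨m, ?_⟩
      have h1 : (Finset.univ.filter (fun i => t0 * 2 ^ m < ‖y i‖)) = ∅ := by
        rw [Finset.filter_eq_empty_iff]
        intro i _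
        rw [not_lt]
        have h2 : ‖y i‖ ≤ ∑ i, ‖y i‖ :=
          Finset.single_le_sum (f := fun i => ‖y i‖) (fun _ _ => norm_nonneg _)
            (Finset.mem_univ i)
        rw [div_lt_iff₀ ht0] at hm
        have h3 : (m : ℝ) ≤ 2 ^ m := by exact_mod_cast Nat.lt_two_pow_self.le
        have h4 : (m : ℝ) * t0 ≤ 2 ^ m * t0 := mul_le_mul_of_nonneg_right h3 ht0.le
        linarith
      rw [h1, Finset.card_empty]
      exact Nat.zero_le _
    have hs := Nat.find_spec hex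
    set s' := Nat.find hex with hs'
    have hs0 : s' ≠ 0 := by
      intro h0
      rw [h0, pow_zero, mul_one] at hs
      have := hGL y hy
      omega
    obtain ⟨s, hss⟩ : ∃ s, s' = s + 1 := ⟨s' - 1, by omega⟩
    have hlt : k + 1 ≤ (Finset.univ.filter (fun i => t0 * 2 ^ s < ‖y i‖)).card := by
      have := Nat.find_min hex (m := s) (by rw [← hs']; omega)
      omega
    rw [hss] at hs
    rw [Set.mem_iUnion]
    let v : Fin n → Fin 3 := fun i => vc (t0 * 2 ^ s) (t0 * 2 ^ (s + 1)) (y i)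
    have hyB : y ∈ B (s, v) := fun i _ => mem_cls_vc _ _ _
    obtain ⟨h1, h2⟩ := hBspec (s, v) y hyB
    have hgd : Gd (s, v) := by
      constructor
      · rw [h1]; exact hs
      · rw [h2]; exact hlt
    refine ⟨(s, v), hy, ?_⟩
    show y ∈ (if Gd (s, v) then B (s, v) else ∅)
    rw [if_pos hgd]
    exact hyB
  -- disjointness
  have hdisj : Pairwise (Function.onFun Disjoint B') := by
    intro p p' hne
    rw [Function.onFun, Set.disjoint_left]
    intro y hy hy'
    have hgd : Gd p ∧ y ∈ B p := by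
      by_cases h : Gd p
      · refine ⟨h, ?_⟩
        have h2 : y ∈ (if Gd p then B p else ∅) := hy
        rwa [if_pos h] at h2
      · have h2 : y ∈ (if Gd p then B p else ∅) := hy
        rw [if_neg h] at h2
        exact absurd h2 (Set.notMem_empty _)
    have hgd' : Gd p' ∧ y ∈ B p' := by
      by_cases h : Gd p'
      · refine ⟨h, ?_⟩
        have h2 : y ∈ (if Gd p' then B p' else ∅) := hy'
        rwa [if_pos h] at h2
      · have h2 : y ∈ (if Gd p' then B p' else ∅) := hy'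
        rw [if_neg h] at h2
        exact absurd h2 (Set.notMem_empty _)
    -- two scales are impossible
    have key : ∀ q q' : ℕ × (Fin n → Fin 3), (Gd q ∧ y ∈ B q) → (Gd q' ∧ y ∈ B q') →
        ¬ q.1 < q'.1 := by
      intro q q' h h' hlt
      obtain ⟨⟨h1, _⟩, h2⟩ := h
      obtain ⟨⟨_, h3⟩, h4⟩ := h'
      rw [(hBspec q y h2).1] at h1
      rw [(hBspec q' y h4).2] at h3
      have h5 : (Finset.univ.filter (fun i => t0 * 2 ^ q'.1 < ‖y i‖)) ⊆
          (Finset.univ.filter (fun i => t0 * 2 ^ (q.1 + 1) < ‖y i‖)) := by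
        intro i hi
        rw [Finset.mem_filter] at hi ⊢
        exact ⟨hi.1, lt_of_le_of_lt (hT2 _ _ (by omega)) hi.2⟩
      have h6 := Finset.card_le_card h5
      omega
    have h1 := key p p' hgd hgd'
    have h2 := key p' p hgd' hgd
    have h3 : p.1 = p'.1 := by omega
    apply hne
    refine Prod.ext h3 ?_
    funext i
    have h4 := hgd.2 i (Set.mem_univ i)
    have h5 := hgd'.2 i (Set.mem_univ i)
    simp only at h4 h5
    rw [← h3] at h5
    exact cls_unique (hT _) h4 h5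
  -- the estimate of one term
  have hterm : ∀ p, Measure.pi (fun _ : Fin n => μ) (G ∩ B' p) ≤
      ε0 * Measure.pi (fun _ : Fin n => μ) (B' p) := by
    intro p
    by_cases hgd : Gd p
    · have hB' : B' p = B p := if_pos hgd
      rw [hB']
      by_cases h0 : ∀ i, μ (cls (t0 * 2 ^ p.1) (t0 * 2 ^ (p.1 + 1)) (p.2 i)) ≠ 0
      · show Measure.pi (fun _ : Fin n => μ) (G ∩ Set.univ.pi (fun i =>
            cls (t0 * 2 ^ p.1) (t0 * 2 ^ (p.1 + 1)) (p.2 i))) ≤ ε0 *
          Measure.pi (fun _ : Fin n => μ) (Set.univ.pi (fun i =>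
            cls (t0 * 2 ^ p.1) (t0 * 2 ^ (p.1 + 1)) (p.2 i)))
        rw [pi_cond μ _ h0 G hG, Measure.pi_pi, mul_comm]
        exact mul_le_mul_left (hcore p.1 p.2 hgd.1 hgd.2 h0) _
      · push Not at h0
        obtain ⟨i, hi⟩ := h0
        have h1 : Measure.pi (fun _ : Fin n => μ) (B p) = 0 := by
          show Measure.pi (fun _ : Fin n => μ) (Set.univ.pi (fun i =>
            cls (t0 * 2 ^ p.1) (t0 * 2 ^ (p.1 + 1)) (p.2 i))) = 0
          rw [Measure.pi_pi]
          exact Finset.prod_eq_zero (Finset.mem_univ i) hi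
        have h2 : Measure.pi (fun _ : Fin n => μ) (G ∩ B p) = 0 :=
          measure_mono_null Set.inter_subset_right h1
        rw [h2]
        exact zero_le
    · have hB' : B' p = ∅ := if_neg hgd
      rw [hB', Set.inter_empty, measure_empty]
      exact zero_le
  calc Measure.pi (fun _ : Fin n => μ) G
      ≤ Measure.pi (fun _ : Fin n => μ) (⋃ p, (G ∩ B' p)) := measure_mono hcov
    _ ≤ ∑' p, Measure.pi (fun _ : Fin n => μ) (G ∩ B' p) := measure_iUnion_le _
    _ ≤ ∑' p, ε0 * Measure.pi (fun _ : Fin n => μ) (B' p) := ENNReal.tsum_le_tsum hterm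
    _ = ε0 * ∑' p, Measure.pi (fun _ : Fin n => μ) (B' p) := ENNReal.tsum_mul_left
    _ = ε0 * Measure.pi (fun _ : Fin n => μ) (⋃ p, B' p) := by
        rw [measure_iUnion hdisj hB'm]
    _ ≤ ε0 * 1 := mul_le_mul_right prob_le_one _
    _ = ε0 := mul_one _

end Pool.Agent.TH883.J707
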