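import Pool.Agent.TH196.Loew.Defs

/-! Job 2890 (LOEWNER J2, helper883 for helper196): the formula for `QQ ff` away from `0`. -/

set_option autoImplicit false
open Complex
open scoped ContDiff

namespace Pool.Agent.TH883.LW

open Pool.Agent.TH196.Loew

/-! ### The derivation `𝔅 = conj z (∂_x + i ∂_y)` -/

/-- `∂_x + i ∂_y` -/
noncomputable def Dd (g : ℂ → ℂ) (z : ℂ) : ℂ := fderiv ℝ g z 1 + I * fderiv ℝ g z I

/-- `𝔅 g (z) = d` -/
def HasB (g : ℂ → ℂ) (d z : ℂ) : Prop :=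
  DifferentiableAt ℝ g z ∧ (starRingEnd ℂ) z * Dd g z = d

theorem HasB.const (c z : ℂ) : HasB (fun _ => c) 0 z := by
  refine ⟨differentiableAt_const c, ?_⟩
  unfold Dd
  simp

theorem HasB.add {g h : ℂ → ℂ} {a b z : ℂ} (hg : HasB g a z) (hh : HasB h b z) :
    HasB (fun w => g w + h w) (a + b) z := by
  refine ⟨hg.1.add hh.1, ?_⟩
  unfold Dd
  rw [fderiv_fun_add hg.1 hh.1, ← hg.2, ← hh.2]
  unfold Dd
  simp only [ContinuousLinearMap.add_apply]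
  ring

theorem HasB.mul {g h : ℂ → ℂ} {a b z : ℂ} (hg : HasB g a z) (hh : HasB h b z) :
    HasB (fun w => g w * h w) (a * h z + g z * b) z := by
  refine ⟨hg.1.mul hh.1, ?_⟩
  unfold Dd
  rw [fderiv_fun_mul hg.1 hh.1, ← hg.2, ← hh.2]
  unfold Dd
  simp only [ContinuousLinearMap.add_apply, ContinuousLinearMap.smul_apply, smul_eq_mul]
  ring

theorem HasB.comp {g φ : ℂ → ℂ} {a z φ' : ℂ} (hφ : HasDerivAt φ φ' (g z)) (hg : HasB g a z) :
    HasB (fun w => φ (g w)) (φ' * a) z := by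
  have h1 : HasFDerivAt (fun w => φ (g w)) _ z :=
    (hφ.hasFDerivAt.restrictScalars ℝ).comp z hg.1.hasFDerivAt
  refine ⟨h1.differentiableAt, ?_⟩
  unfold Dd
  rw [h1.fderiv, ← hg.2]
  unfold Dd
  simp only [ContinuousLinearMap.comp_apply, ContinuousLinearMap.coe_restrictScalars',
    ContinuousLinearMap.toSpanSingleton_apply, smul_eq_mul]
  ring

theorem HasB.congr_d {g : ℂ → ℂ} {a b z : ℂ} (hg : HasB g a z) (h : a = b) : HasB g b z := h ▸ hg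

theorem HasB.const_mul {g : ℂ → ℂ} {a z : ℂ} (c : ℂ) (hg : HasB g a z) :
    HasB (fun w => c * g w) (c * a) z :=
  ((HasB.const c z).mul hg).congr_d (by ring)

theorem HasB.sub {g h : ℂ → ℂ} {a b z : ℂ} (hg : HasB g a z) (hh : HasB h b z) :
    HasB (fun w => g w - h w) (a - b) z := by
  have h1 := hg.add (hh.const_mul (-1))
  have h2 : (fun w => g w - h w) = fun w => g w + (-1) * h w := by
    funext w; ring
  rw [h2]
  exact h1.congr_d (by ring)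

theorem HasB.inv {g : ℂ → ℂ} {a z : ℂ} (hg : HasB g a z) (h0 : g z ≠ 0) :
    HasB (fun w => (g w)⁻¹) (-a / (g z) ^ 2) z :=
  (HasB.comp (φ := fun w => w⁻¹) (hasDerivAt_inv h0) hg).congr_d (by ring)

theorem HasB.cexp {g : ℂ → ℂ} {a z : ℂ} (hg : HasB g a z) :
    HasB (fun w => Complex.exp (g w)) (Complex.exp (g z) * a) z :=
  HasB.comp (φ := Complex.exp) (Complex.hasDerivAt_exp (g z)) hg

theorem HasB.zpow {g : ℂ → ℂ} {a z : ℂ} (hg : HasB g a z) (h0 : g z ≠ 0) (k : ℤ) :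
    HasB (fun w => g w ^ k) (k * g z ^ (k - 1) * a) z :=
  HasB.comp (φ := fun w => w ^ k) (hasDerivAt_zpow k (g z) (Or.inl h0)) hg

theorem HasB.pow {g : ℂ → ℂ} {a z : ℂ} (hg : HasB g a z) (k : ℕ) :
    HasB (fun w => g w ^ k) (k * g z ^ (k - 1) * a) z :=
  HasB.comp (φ := fun w => w ^ k) (hasDerivAt_pow k (g z)) hg

theorem HasB.list_sum {α : Type*} (l : List α) {g : α → ℂ → ℂ} {d : α → ℂ} {z : ℂ}
    (h : ∀ m ∈ l, HasB (g m) (d m) z) :
    HasB (fun w => (l.map fun m => g m w).sum) (l.map d).sum z := by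
  induction l with
  | nil =>
    simp only [List.map_nil, List.sum_nil]
    exact HasB.const 0 z
  | cons m l ih =>
    simp only [List.map_cons, List.sum_cons]
    exact (h m List.mem_cons_self).add (ih fun m' hm' => h m' (List.mem_cons_of_mem _ hm'))

theorem HasB.congr_ev {g h : ℂ → ℂ} {a z : ℂ} (hg : HasB g a z) (hgh : h =ᶠ[nhds z] g) :
    HasB h a z := by
  refine ⟨hg.1.congr_of_eventuallyEq hgh, ?_⟩
  unfold Dd
  rw [hgh.fderiv_eq]
  exact hg.2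

theorem B_id (z : ℂ) : HasB (fun w => w) 0 z := by
  refine ⟨differentiableAt_id, ?_⟩
  unfold Dd
  rw [fderiv_id']
  simp

theorem B_conj (z : ℂ) : HasB (fun w => (starRingEnd ℂ) w) (2 * (starRingEnd ℂ) z) z := by
  have h1 : HasFDerivAt (fun w : ℂ => (starRingEnd ℂ) w)
      ((Complex.conjCLE : ℂ ≃L[ℝ] ℂ) : ℂ →L[ℝ] ℂ) z :=
    (Complex.conjCLE : ℂ ≃L[ℝ] ℂ).hasFDerivAt
  refine ⟨h1.differentiableAt, ?_⟩
  unfold Dd
  rw [h1.fderiv]
  simp
  ring_nf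

theorem B_re (z : ℂ) : HasB (fun w => (w.re : ℂ)) ((starRingEnd ℂ) z) z := by
  have h1 : HasFDerivAt (fun w : ℂ => ((w.re : ℝ) : ℂ))
      (Complex.ofRealCLM.comp Complex.reCLM) z :=
    (Complex.ofRealCLM.comp Complex.reCLM).hasFDerivAt
  refine ⟨h1.differentiableAt, ?_⟩
  unfold Dd
  rw [h1.fderiv]
  simp

theorem B_im (z : ℂ) : HasB (fun w => (w.im : ℂ)) ((starRingEnd ℂ) z * I) z := by
  have h1 : HasFDerivAt (fun w : ℂ => ((w.im : ℝ) : ℂ))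
      (Complex.ofRealCLM.comp Complex.imCLM) z :=
    (Complex.ofRealCLM.comp Complex.imCLM).hasFDerivAt
  refine ⟨h1.differentiableAt, ?_⟩
  unfold Dd
  rw [h1.fderiv]
  simp

/-! ### The functions `u`, `V`, `W` -/

theorem uu_eq (w : ℂ) : (uu w : ℂ) = (w * (starRingEnd ℂ) w)⁻¹ := by
  unfold uu
  rw [Complex.mul_conj, Complex.normSq_eq_norm_sq]
  push_cast
  rfl

theorem uu_pos {z : ℂ} (hz : z ≠ 0) : 0 < uu z := by
  unfold uu
  have : 0 < ‖z‖ := norm_pos_iff.2 hz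
  positivity

theorem uu_xy {z : ℂ} (hz : z ≠ 0) : (uu z : ℂ) * ((z.re : ℂ) ^ 2 + (z.im : ℂ) ^ 2) = 1 := by
  have h1 : uu z * (z.re ^ 2 + z.im ^ 2) = 1 := by
    unfold uu
    have h2 : ‖z‖ ^ 2 = z.re ^ 2 + z.im ^ 2 := by
      rw [Complex.sq_norm, Complex.normSq_apply]; ring
    rw [← h2]
    have : 0 < ‖z‖ := norm_pos_iff.2 hz
    field_simp
  exact_mod_cast h1

theorem B_uu {z : ℂ} (hz : z ≠ 0) : HasB (fun w => (uu w : ℂ)) (-2 * (uu z : ℂ)) z := by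
  have h0 : z * (starRingEnd ℂ) z ≠ 0 := mul_ne_zero hz (by simpa using hz)
  have h1 := ((B_id z).mul (B_conj z)).inv h0
  have h2 : (fun w => (uu w : ℂ)) = fun w => (w * (starRingEnd ℂ) w)⁻¹ := funext uu_eq
  rw [h2]
  refine h1.congr_d ?_
  rw [uu_eq]
  field_simp
  ring

/-- `exp (-u)` -/
noncomputable def EE (w : ℂ) : ℂ := ((Real.exp (-uu w) : ℝ) : ℂ)

theorem B_EE {z : ℂ} (hz : z ≠ 0) : HasB EE (2 * (uu z : ℂ) * EE z) z := by
  have h1 := ((B_uu hz).const_mul (-1)).cexp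
  have h2 : EE = fun w => Complex.exp (-1 * (uu w : ℂ)) := by
    funext w
    unfold EE
    push_cast
    congr 1
    ring
  have h3 : EE z = Complex.exp (-1 * (uu z : ℂ)) := by rw [h2]
  rw [h3]
  nth_rewrite 1 [h2]
  refine h1.congr_d ?_
  ring

theorem VV_ne (z : ℂ) : VV z ≠ 0 := by
  unfold VV
  exact Complex.exp_ne_zero _

theorem B_VV {z : ℂ} (hz : z ≠ 0) : HasB VV (I * (uu z : ℂ) ^ 2 * VV z) z := by
  have h1 := (((B_uu hz).pow 2).const_mul (-(I / 4))).cexp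
  have h2 : VV = fun w => Complex.exp (-(I / 4) * (uu w : ℂ) ^ 2) := by
    funext w
    unfold VV
    congr 1
    ring
  have h3 : VV z = Complex.exp (-(I / 4) * (uu z : ℂ) ^ 2) := by rw [h2]
  rw [h3]
  nth_rewrite 1 [h2]
  refine h1.congr_d ?_
  push_cast
  ring

/-- numerator of `W` -/
noncomputable def aW (w : ℂ) : ℂ := 4 * (w.re : ℂ) + (uu w : ℂ) ^ 2 * (w.im : ℂ) * I

/-- denominator of `W` -/
noncomputable def bW (w : ℂ) : ℂ := 4 * (w.re : ℂ) - (uu w : ℂ) ^ 2 * (w.im : ℂ) * I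

theorem WW_eq (w : ℂ) : WW w = aW w * (bW w)⁻¹ := by
  unfold WW aW bW
  rw [div_eq_mul_inv]

theorem aW_ne {z : ℂ} (hz : z ≠ 0) : aW z ≠ 0 := by
  have hu := uu_pos hz
  intro h
  have h1 : (aW z).re = 4 * z.re := by
    unfold aW
    simp [Complex.add_re, Complex.mul_re, ← Complex.ofReal_pow]
  have h2 : (aW z).im = uu z ^ 2 * z.im := by
    unfold aW
    simp [Complex.add_im, Complex.mul_im, ← Complex.ofReal_pow]
  rw [h] at h1 h2
  simp only [Complex.zero_re, Complex.zero_im] at h1 h2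
  apply hz
  apply Complex.ext
  · simp only [Complex.zero_re]; linarith
  · simp only [Complex.zero_im]
    rcases mul_eq_zero.1 h2.symm with h3 | h3
    · exact absurd h3 (by positivity)
    · exact h3

theorem bW_ne {z : ℂ} (hz : z ≠ 0) : bW z ≠ 0 := by
  have hu := uu_pos hz
  intro h
  have h1 : (bW z).re = 4 * z.re := by
    unfold bW
    simp [Complex.sub_re, Complex.mul_re, ← Complex.ofReal_pow]
  have h2 : (bW z).im = -(uu z ^ 2 * z.im) := by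
    unfold bW
    simp [Complex.sub_im, Complex.mul_im, ← Complex.ofReal_pow]
  rw [h] at h1 h2
  simp only [Complex.zero_re, Complex.zero_im] at h1 h2
  apply hz
  apply Complex.ext
  · simp only [Complex.zero_re]; linarith
  · simp only [Complex.zero_im]
    rcases mul_eq_zero.1 (neg_eq_zero.1 h2.symm) with h3 | h3
    · exact absurd h3 (by positivity)
    · exact h3

theorem WW_ne {z : ℂ} (hz : z ≠ 0) : WW z ≠ 0 := by
  rw [WW_eq]
  exact mul_ne_zero (aW_ne hz) (inv_ne_zero (bW_ne hz))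

/-- `ω` -/
noncomputable def omg (w : ℂ) : ℂ :=
  (uu w : ℂ) ^ 2 * (2 + WW w + (WW w)⁻¹) / 8 + 2 * (2 - WW w - (WW w)⁻¹) / (uu w : ℂ) ^ 2 +
    2 * (WW w - (WW w)⁻¹)

theorem omg_eq {z : ℂ} (hz : z ≠ 0) : omg z = (8 * (uu z : ℂ) +
    32 * I * (z.re : ℂ) * (z.im : ℂ) * (uu z : ℂ) ^ 2) / (aW z * bW z) := by
  have ha := aW_ne hz
  have hb := bW_ne hz
  have hu : (uu z : ℂ) ≠ 0 := by
    have := uu_pos hz
    exact_mod_cast this.ne'
  have hxy := uu_xy hz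
  have hI : I ^ 2 = -1 := Complex.I_sq
  have h1 : 2 + WW z + (WW z)⁻¹ = 64 * (z.re : ℂ) ^ 2 / (aW z * bW z) := by
    rw [WW_eq]
    field_simp
    unfold aW bW
    ring
  have h2 : 2 - WW z - (WW z)⁻¹ = 4 * (uu z : ℂ) ^ 4 * (z.im : ℂ) ^ 2 / (aW z * bW z) := by
    rw [WW_eq]
    field_simp
    unfold aW bW
    linear_combination (-4 * (uu z : ℂ) ^ 4 * (z.im : ℂ) ^ 2) * hI
  have h3 : WW z - (WW z)⁻¹ = 16 * I * (z.re : ℂ) * (uu z : ℂ) ^ 2 * (z.im : ℂ) /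
      (aW z * bW z) := by
    rw [WW_eq]
    field_simp
    unfold aW bW
    ring
  unfold omg
  rw [h1, h2, h3]
  field_simp
  linear_combination 64 * hxy

theorem B_WW {z : ℂ} (hz : z ≠ 0) : HasB WW (-(WW z * omg z)) z := by
  have ha := aW_ne hz
  have hb := bW_ne hz
  have hxy := uu_xy hz
  have hI : I ^ 2 = -1 := Complex.I_sq
  have h1 : HasB aW _ z := ((B_re z).const_mul 4).add
    ((((B_uu hz).pow 2).mul (B_im z)).mul (HasB.const I z))
  have h2 : HasB bW _ z := ((B_re z).const_mul 4).sub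
    ((((B_uu hz).pow 2).mul (B_im z)).mul (HasB.const I z))
  have h3 := h1.mul (h2.inv hb)
  have h4 : WW = fun w => aW w * (bW w)⁻¹ := funext WW_eq
  rw [h4]
  refine h3.congr_d ?_
  simp only
  rw [omg_eq hz]
  have hcz : (starRingEnd ℂ) z = (z.re : ℂ) - (z.im : ℂ) * I := by
    apply Complex.ext <;> simp
  rw [hcz]
  field_simp
  unfold aW bW
  push_cast
  linear_combination (-8 * (uu z : ℂ)) * hxy + (8 * (uu z : ℂ) ^ 2 * ((z.re : ℂ) ^ 2 +
    (z.im : ℂ) ^ 2) - 8 * (z.re : ℂ) * (z.im : ℂ) * (uu z : ℂ) ^ 2 * I) * hI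

/-- `𝔅 ω` -/
noncomputable def dmg (w : ℂ) : ℂ :=
  -4 * (uu w : ℂ) ^ 2 * (2 + WW w + (WW w)⁻¹) / 8 -
    (uu w : ℂ) ^ 2 * (WW w - (WW w)⁻¹) * omg w / 8 +
    8 * (2 - WW w - (WW w)⁻¹) / (uu w : ℂ) ^ 2 + 2 * (WW w - (WW w)⁻¹) * omg w / (uu w : ℂ) ^ 2 -
    2 * (WW w + (WW w)⁻¹) * omg w

theorem uu_ne {z : ℂ} (hz : z ≠ 0) : (uu z : ℂ) ≠ 0 := by
  have := uu_pos hz
  exact_mod_cast this.ne'

theorem B_omg {z : ℂ} (hz : z ≠ 0) : HasB omg (dmg z) z := by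
  have hW := WW_ne hz
  have hu := uu_ne hz
  have b1 := (B_uu hz).pow 2
  have b2 := B_WW hz
  have b3 := b2.inv hW
  have c1 := ((HasB.const 2 z).add b2).add b3
  have c2 := ((HasB.const 2 z).sub b2).sub b3
  have c3 := b2.sub b3
  have d1 := (b1.mul c1).mul (HasB.const (1 / 8) z)
  have d2 := (c2.const_mul 2).mul (b1.inv (pow_ne_zero 2 hu))
  have d3 := c3.const_mul 2
  have e := (d1.add d2).add d3
  have h1 : omg = fun w => (uu w : ℂ) ^ 2 * (2 + WW w + (WW w)⁻¹) * (1 / 8) +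
      2 * (2 - WW w - (WW w)⁻¹) * ((uu w : ℂ) ^ 2)⁻¹ + 2 * (WW w - (WW w)⁻¹) := by
    funext w
    unfold omg
    ring
  rw [h1]
  refine e.congr_d ?_
  unfold dmg
  push_cast
  field_simp
  ring

/-- `λ` -/
noncomputable def lam (j k : ℤ) (w : ℂ) : ℂ :=
  2 * (uu w : ℂ) + 4 + I * j * (uu w : ℂ) ^ 2 - k * omg w

theorem B_lam (j k : ℤ) {z : ℂ} (hz : z ≠ 0) :
    HasB (lam j k) (-4 * (uu z : ℂ) - 4 * I * j * (uu z : ℂ) ^ 2 - k * dmg z) z := by
  have h1 := (((B_uu hz).const_mul 2).add (HasB.const 4 z)).add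
    (((B_uu hz).pow 2).const_mul (I * j))
  have h2 := h1.sub ((B_omg hz).const_mul (k : ℂ))
  have h3 : lam j k = fun w => 2 * (uu w : ℂ) + 4 + I * j * (uu w : ℂ) ^ 2 - k * omg w := rfl
  rw [h3]
  refine h2.congr_d ?_
  push_cast
  ring

/-- the modes `E u^{-2} V^j W^k` -/
noncomputable def TT (j k : ℤ) (w : ℂ) : ℂ :=
  EE w * ((uu w : ℂ) ^ 2)⁻¹ * VV w ^ j * WW w ^ k

theorem B_TT (j k : ℤ) {z : ℂ} (hz : z ≠ 0) : HasB (TT j k) (lam j k z * TT j k z) z := by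
  have hW := WW_ne hz
  have hV := VV_ne z
  have hu := uu_ne hz
  have h1 := (((B_EE hz).mul (((B_uu hz).pow 2).inv (pow_ne_zero 2 hu))).mul
    ((B_VV hz).zpow hV j)).mul ((B_WW hz).zpow hW k)
  have h3 : TT j k = fun w => EE w * ((uu w : ℂ) ^ 2)⁻¹ * VV w ^ j * WW w ^ k := rfl
  rw [h3]
  refine h1.congr_d ?_
  rw [zpow_sub_one₀ hV, zpow_sub_one₀ hW]
  unfold lam
  push_cast
  field_simp
  ring

theorem B_lT (j k : ℤ) {z : ℂ} (hz : z ≠ 0) : HasB (fun w => lam j k w * TT j k w)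
    ((-4 * (uu z : ℂ) - 4 * I * j * (uu z : ℂ) ^ 2 - k * dmg z + lam j k z ^ 2) * TT j k z) z :=
  ((B_lam j k hz).mul (B_TT j k hz)).congr_d (by ring)

/-! ### The function -/

/-- the extension of `ff` near points away from `0` -/
noncomputable def FF (w : ℂ) : ℂ := EE w +
  4 * (modes.map fun m => m.2.2 * TT m.1 m.2.1 w).sum

/-- `𝔅 F` -/
noncomputable def HH (w : ℂ) : ℂ := 2 * (uu w : ℂ) * EE w +
  4 * (modes.map fun m => m.2.2 * (lam m.1 m.2.1 w * TT m.1 m.2.1 w)).sum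

theorem B_FF {z : ℂ} (hz : z ≠ 0) : HasB FF (HH z) z :=
  (B_EE hz).add ((HasB.list_sum modes (g := fun m w => m.2.2 * TT m.1 m.2.1 w)
    (d := fun m => m.2.2 * (lam m.1 m.2.1 z * TT m.1 m.2.1 z))
    fun m _ => (B_TT m.1 m.2.1 hz).const_mul m.2.2).const_mul 4)

theorem B_HH {z : ℂ} (hz : z ≠ 0) : HasB HH ((4 * (uu z : ℂ) ^ 2 - 4 * (uu z : ℂ)) * EE z +
    4 * (modes.map fun m => m.2.2 * ((-4 * (uu z : ℂ) - 4 * I * m.1 * (uu z : ℂ) ^ 2 -
      m.2.1 * dmg z + lam m.1 m.2.1 z ^ 2) * TT m.1 m.2.1 z)).sum) z := by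
  have h1 := ((B_uu hz).const_mul 2).mul (B_EE hz)
  have h2 := (HasB.list_sum modes (g := fun m w => m.2.2 * (lam m.1 m.2.1 w * TT m.1 m.2.1 w))
    (d := fun m => m.2.2 * ((-4 * (uu z : ℂ) - 4 * I * m.1 * (uu z : ℂ) ^ 2 -
      m.2.1 * dmg z + lam m.1 m.2.1 z ^ 2) * TT m.1 m.2.1 z))
    fun m _ => (B_lT m.1 m.2.1 hz).const_mul m.2.2).const_mul 4
  refine (h1.add h2).congr_d ?_
  ring

/-! ### `ff` and `FF` -/

theorem conj_VV (w : ℂ) : (starRingEnd ℂ) (VV w) = (VV w)⁻¹ := by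
  unfold VV
  rw [← Complex.exp_conj, ← Complex.exp_neg]
  congr 1
  have h2 : (starRingEnd ℂ) (4 : ℂ) = 4 := by
    rw [show (4 : ℂ) = ((4 : ℝ) : ℂ) by norm_num, Complex.conj_ofReal]
  rw [map_neg, map_div₀, map_mul, map_pow, Complex.conj_ofReal, Complex.conj_I, h2]
  ring

theorem conj_aW (w : ℂ) : (starRingEnd ℂ) (aW w) = bW w := by
  unfold aW bW
  have h2 : (starRingEnd ℂ) (4 : ℂ) = 4 := by
    rw [show (4 : ℂ) = ((4 : ℝ) : ℂ) by norm_num, Complex.conj_ofReal]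
  rw [map_add, map_mul, map_mul, map_mul, map_pow, Complex.conj_ofReal, Complex.conj_ofReal,
    Complex.conj_ofReal, Complex.conj_I, h2]
  ring

theorem conj_bW (w : ℂ) : (starRingEnd ℂ) (bW w) = aW w := by
  rw [← conj_aW, Complex.conj_conj]

theorem conj_WW (w : ℂ) : (starRingEnd ℂ) (WW w) = (WW w)⁻¹ := by
  rw [WW_eq, map_mul, map_inv₀, conj_aW, conj_bW, mul_inv, inv_inv, mul_comm]

theorem conj_pp (w : ℂ) : (starRingEnd ℂ) (pp (VV w) (WW w)) = pp (VV w) (WW w) := by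
  unfold pp modes
  generalize halfModes = l
  induction l with
  | nil => simp
  | cons m l ih =>
    rw [List.flatMap_cons, List.map_append, List.sum_append, map_add, ih]
    congr 1
    simp only [List.map_cons, List.map_nil, List.sum_cons, List.sum_nil, map_add, map_mul,
      map_zpow₀, map_div₀, map_sub, Complex.conj_I, conj_VV, conj_WW, map_intCast, inv_zpow',
      neg_neg, map_zero]
    have h2 : (starRingEnd ℂ) (200 : ℂ) = 200 := by
      rw [show (200 : ℂ) = ((200 : ℝ) : ℂ) by norm_num, Complex.conj_ofReal]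
    rw [h2]
    ring

theorem gg_real (w : ℂ) : (((gg w).re : ℝ) : ℂ) = gg w := by
  apply Complex.conj_eq_iff_re.1
  unfold gg
  have h2 : (starRingEnd ℂ) (4 : ℂ) = 4 := by
    rw [show (4 : ℂ) = ((4 : ℝ) : ℂ) by norm_num, Complex.conj_ofReal]
  rw [map_add, map_mul, map_mul, map_pow, Complex.conj_ofReal, h2, conj_pp, map_one]

theorem ff_eq {w : ℂ} (hw : w ≠ 0) : ((ff w : ℝ) : ℂ) = FF w := by
  unfold ff
  rw [if_neg hw]
  push_cast
  rw [gg_real]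
  unfold FF gg pp
  have h4 : (‖w‖ : ℂ) ^ 4 = ((uu w : ℂ) ^ 2)⁻¹ := by
    unfold uu
    push_cast
    rw [inv_pow, inv_inv]
    ring
  have hE : EE w = Complex.exp (-(uu w : ℂ)) := by
    unfold EE
    push_cast
    rfl
  rw [h4, ← hE, mul_add, mul_one]
  congr 1
  rw [← mul_assoc, ← List.sum_map_mul_left, ← List.sum_map_mul_left]
  congr 1
  apply List.map_congr_left
  intro m _
  unfold TT
  ring

/-! ### Smoothness -/

theorem cd_uu {z : ℂ} (hz : z ≠ 0) : ContDiffAt ℝ 2 uu z := by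
  unfold uu
  have h1 : ContDiffAt ℝ 2 (fun w : ℂ => ‖w‖ ^ 2) z := (contDiff_norm_sq ℝ).contDiffAt
  exact h1.inv (by
    have : 0 < ‖z‖ := norm_pos_iff.2 hz
    positivity)

theorem cd_ofReal {g : ℂ → ℝ} {z : ℂ} (hg : ContDiffAt ℝ 2 g z) :
    ContDiffAt ℝ 2 (fun w => (g w : ℂ)) z :=
  Complex.ofRealCLM.contDiff.contDiffAt.comp z hg

theorem cd_zpow {g : ℂ → ℂ} {z : ℂ} (hg : ContDiffAt ℝ 2 g z) (h0 : g z ≠ 0) (k : ℤ) :
    ContDiffAt ℝ 2 (fun w => g w ^ k) z := by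
  cases k with
  | ofNat n =>
    simp only [Int.ofNat_eq_natCast, zpow_natCast]
    exact hg.pow n
  | negSucc n =>
    simp only [zpow_negSucc]
    exact (hg.pow (n + 1)).inv (pow_ne_zero _ h0)

theorem cd_VV {z : ℂ} (hz : z ≠ 0) : ContDiffAt ℝ 2 VV z := by
  have h1 : ContDiffAt ℝ 2 (fun w => -(I * (uu w : ℂ) ^ 2 / 4)) z :=
    ((contDiffAt_const.mul ((cd_ofReal (cd_uu hz)).pow 2)).div_const 4).neg
  exact Complex.contDiff_exp.contDiffAt.comp z h1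

theorem cd_WW {z : ℂ} (hz : z ≠ 0) : ContDiffAt ℝ 2 WW z := by
  have hx : ContDiffAt ℝ 2 (fun w : ℂ => (w.re : ℂ)) z :=
    cd_ofReal Complex.reCLM.contDiff.contDiffAt
  have hy : ContDiffAt ℝ 2 (fun w : ℂ => (w.im : ℂ)) z :=
    cd_ofReal Complex.imCLM.contDiff.contDiffAt
  have hu := (cd_ofReal (cd_uu hz)).pow 2
  have ha : ContDiffAt ℝ 2 aW z :=
    (contDiffAt_const.mul hx).add ((hu.mul hy).mul contDiffAt_const)
  have hb : ContDiffAt ℝ 2 bW z :=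
    (contDiffAt_const.mul hx).sub ((hu.mul hy).mul contDiffAt_const)
  have h4 : WW = fun w => aW w * (bW w)⁻¹ := funext WW_eq
  rw [h4]
  exact ha.mul (hb.inv (bW_ne hz))

theorem cd_list {α : Type*} (l : List α) {g : α → ℂ → ℂ} {z : ℂ}
    (h : ∀ m ∈ l, ContDiffAt ℝ 2 (g m) z) :
    ContDiffAt ℝ 2 (fun w => (l.map fun m => g m w).sum) z := by
  induction l with
  | nil =>
    simp only [List.map_nil, List.sum_nil]
    exact contDiffAt_const
  | cons m l ih =>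
    simp only [List.map_cons, List.sum_cons]
    exact (h m List.mem_cons_self).add (ih fun m' hm' => h m' (List.mem_cons_of_mem _ hm'))

theorem cd_gg {z : ℂ} (hz : z ≠ 0) : ContDiffAt ℝ 2 gg z := by
  have h1 : ContDiffAt ℝ 2 (fun w => pp (VV w) (WW w)) z := by
    unfold pp
    exact cd_list modes (g := fun m w => m.2.2 * VV w ^ m.1 * WW w ^ m.2.1) fun m _ =>
      (contDiffAt_const.mul (cd_zpow (cd_VV hz) (VV_ne z) m.1)).mul
        (cd_zpow (cd_WW hz) (WW_ne hz) m.2.1)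
  have h2 : ContDiffAt ℝ 2 (fun w : ℂ => (‖w‖ : ℂ) ^ 4) z := by
    have h3 : (fun w : ℂ => (‖w‖ : ℂ) ^ 4) = fun w => (((‖w‖ ^ 2 : ℝ) : ℂ)) ^ 2 := by
      funext w
      push_cast
      ring
    rw [h3]
    exact (cd_ofReal (contDiff_norm_sq ℝ).contDiffAt).pow 2
  unfold gg
  exact contDiffAt_const.add ((contDiffAt_const.mul h2).mul h1)

theorem cd_ff {z : ℂ} (hz : z ≠ 0) : ContDiffAt ℝ 2 ff z := by
  have h1 : ContDiffAt ℝ 2 (fun w => Real.exp (-uu w) * (gg w).re) z :=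
    (Real.contDiff_exp.contDiffAt.comp z (cd_uu hz).neg).mul
      (Complex.reCLM.contDiff.contDiffAt.comp z (cd_gg hz))
  refine h1.congr_of_eventuallyEq ?_
  filter_upwards [isOpen_ne.mem_nhds hz] with w hw
  unfold ff
  rw [if_neg hw]

/-! ### `QQ` as an iterated derivation -/

theorem QQ_eq {f : ℂ → ℝ} {z : ℂ} (hf : ContDiffAt ℝ 2 f z) :
    QQ f z = Dd (Dd (fun w => (f w : ℂ))) z := by
  have hsym : IsSymmSndFDerivAt ℝ f z := hf.isSymmSndFDerivAt (by simp)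
  have hd : DifferentiableAt ℝ (fderiv ℝ f) z :=
    (hf.fderiv_right (m := 1) (by norm_num)).differentiableAt (by norm_num)
  have hev : ∀ᶠ w in nhds z, DifferentiableAt ℝ f w := by
    have h1 := hf.eventually (by simp)
    filter_upwards [h1] with w hw
    exact hw.differentiableAt (by norm_num)
  have h1 : Dd (fun w => (f w : ℂ)) =ᶠ[nhds z] fun w =>
      ((fderiv ℝ f w 1 : ℝ) : ℂ) + I * ((fderiv ℝ f w I : ℝ) : ℂ) := by
    filter_upwards [hev] with w hw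
    have h2 : HasFDerivAt (fun w => (f w : ℂ)) (Complex.ofRealCLM.comp (fderiv ℝ f w)) w :=
      Complex.ofRealCLM.hasFDerivAt.comp w hw.hasFDerivAt
    unfold Dd
    rw [h2.fderiv]
    rfl
  have h3 : ∀ m : ℂ, HasFDerivAt (fun w => ((fderiv ℝ f w m : ℝ) : ℂ))
      (Complex.ofRealCLM.comp ((ContinuousLinearMap.apply ℝ ℝ m).comp
        (fderiv ℝ (fderiv ℝ f) z))) z := by
    intro m
    exact Complex.ofRealCLM.hasFDerivAt.comp z
      ((ContinuousLinearMap.apply ℝ ℝ m).hasFDerivAt.comp z hd.hasFDerivAt)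
  have h4 : HasFDerivAt (fun w => ((fderiv ℝ f w 1 : ℝ) : ℂ) + I * ((fderiv ℝ f w I : ℝ) : ℂ))
      (_ + I • _) z := (h3 1).add ((h3 I).const_mul I)
  have h5 : Dd (Dd (fun w => (f w : ℂ))) z =
      (((fderiv ℝ (fderiv ℝ f) z 1 1 : ℝ) : ℂ) + I * ((fderiv ℝ (fderiv ℝ f) z 1 I : ℝ) : ℂ)) +
      I * (((fderiv ℝ (fderiv ℝ f) z I 1 : ℝ) : ℂ) +
        I * ((fderiv ℝ (fderiv ℝ f) z I I : ℝ) : ℂ)) := by
    unfold Dd at h1 ⊢
    rw [h1.fderiv_eq, h4.fderiv]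
    rfl
  rw [h5]
  unfold QQ
  rw [iteratedFDeriv_two_apply, iteratedFDeriv_two_apply, iteratedFDeriv_two_apply]
  simp only [Matrix.cons_val_zero, Matrix.cons_val_one]
  have h6 : fderiv ℝ (fderiv ℝ f) z I 1 = fderiv ℝ (fderiv ℝ f) z 1 I := hsym I 1
  rw [h6]
  have hI : I ^ 2 = -1 := Complex.I_sq
  push_cast
  linear_combination (-((fderiv ℝ (fderiv ℝ f) z I I : ℝ) : ℂ)) * hI

/-! ### The final algebra -/

theorem om_eq {z : ℂ} (hz : z ≠ 0) : om ((uu z : ℂ)⁻¹) (WW z) * (uu z : ℂ) ^ 2 = omg z := by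
  have hu := uu_ne hz
  unfold om omg
  field_simp

theorem dom_eq {z : ℂ} (hz : z ≠ 0) : dom ((uu z : ℂ)⁻¹) (WW z) * (uu z : ℂ) ^ 4 = dmg z := by
  have hu := uu_ne hz
  have h1 : om ((uu z : ℂ)⁻¹) (WW z) = omg z / (uu z : ℂ) ^ 2 := by
    rw [← om_eq hz]
    field_simp
  unfold dom dmg
  rw [h1]
  field_simp

theorem mu_eq (j k : ℤ) {z : ℂ} (hz : z ≠ 0) :
    mu j k ((uu z : ℂ)⁻¹) (WW z) * (uu z : ℂ) ^ 2 = lam j k z := by
  have hu := uu_ne hz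
  unfold mu lam
  rw [← om_eq hz]
  field_simp
  ring

theorem AA_eq (j k : ℤ) {z : ℂ} (hz : z ≠ 0) :
    AA j k ((uu z : ℂ)⁻¹) (WW z) * (uu z : ℂ) ^ 4 =
      lam j k z ^ 2 + (-4 * (uu z : ℂ) - 4 * I * j * (uu z : ℂ) ^ 2 - k * dmg z) -
        2 * lam j k z := by
  have hu := uu_ne hz
  unfold AA
  rw [← mu_eq j k hz, ← dom_eq hz]
  field_simp

theorem QQ_ff (z : ℂ) (hz : z ≠ 0) :
    QQ ff z = 4 * (uu z : ℂ) ^ 4 * ((Real.exp (-uu z) : ℝ) : ℂ) * z ^ 2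
      * GG ((uu z : ℂ)⁻¹) (VV z) (WW z) := by
  have hu := uu_ne hz
  have hcz : (starRingEnd ℂ) z ≠ 0 := by simpa using hz
  rw [QQ_eq (cd_ff hz)]
  have h1 : ∀ w : ℂ, w ≠ 0 → Dd (fun w => ((ff w : ℝ) : ℂ)) w =
      ((starRingEnd ℂ) w)⁻¹ * HH w := by
    intro w hw
    have hev : (fun w => ((ff w : ℝ) : ℂ)) =ᶠ[nhds w] FF := by
      filter_upwards [isOpen_ne.mem_nhds hw] with v hv
      exact ff_eq hv
    have h2 := ((B_FF hw).congr_ev hev).2
    have hcw : (starRingEnd ℂ) w ≠ 0 := by simpa using hw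
    rw [← h2]
    field_simp
  have h3 : Dd (fun w => ((ff w : ℝ) : ℂ)) =ᶠ[nhds z] fun w => ((starRingEnd ℂ) w)⁻¹ * HH w := by
    filter_upwards [isOpen_ne.mem_nhds hz] with w hw
    exact h1 w hw
  have h4 := (((B_conj z).inv hcz).mul (B_HH hz)).congr_ev h3
  have h5 : Dd (Dd (fun w => ((ff w : ℝ) : ℂ))) z = ((starRingEnd ℂ) z)⁻¹ *
      ((starRingEnd ℂ) z * Dd (Dd (fun w => ((ff w : ℝ) : ℂ))) z) := by
    field_simp
  rw [h5, h4.2]
  have hcz2 : ((starRingEnd ℂ) z)⁻¹ = z * (uu z : ℂ) := by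
    rw [uu_eq]
    field_simp
  have h6 : EE z = ((Real.exp (-uu z) : ℝ) : ℂ) := rfl
  rw [← h6]
  have h7 : (modes.map fun m => m.2.2 * ((-4 * (uu z : ℂ) - 4 * I * m.1 * (uu z : ℂ) ^ 2 -
      m.2.1 * dmg z + lam m.1 m.2.1 z ^ 2) * TT m.1 m.2.1 z)).sum -
      2 * (modes.map fun m => m.2.2 * (lam m.1 m.2.1 z * TT m.1 m.2.1 z)).sum =
      EE z * (uu z : ℂ) ^ 2 * (modes.map fun m => m.2.2 * VV z ^ m.1 * WW z ^ m.2.1 *
        AA m.1 m.2.1 ((uu z : ℂ)⁻¹) (WW z)).sum := by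
    generalize modes = l
    induction l with
    | nil => simp
    | cons m l ih =>
      simp only [List.map_cons, List.sum_cons]
      have h8 := AA_eq m.1 m.2.1 hz
      have h9 : TT m.1 m.2.1 z = EE z * ((uu z : ℂ) ^ 2)⁻¹ * VV z ^ m.1 * WW z ^ m.2.1 := rfl
      have h10 : m.2.2 * ((-4 * (uu z : ℂ) - 4 * I * m.1 * (uu z : ℂ) ^ 2 -
          m.2.1 * dmg z + lam m.1 m.2.1 z ^ 2) * TT m.1 m.2.1 z) -
          2 * (m.2.2 * (lam m.1 m.2.1 z * TT m.1 m.2.1 z)) =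
          EE z * (uu z : ℂ) ^ 2 * (m.2.2 * VV z ^ m.1 * WW z ^ m.2.1 *
            AA m.1 m.2.1 ((uu z : ℂ)⁻¹) (WW z)) := by
        generalize AA m.1 m.2.1 (uu z : ℂ)⁻¹ (WW z) = A at h8
        have e : EE z * (uu z : ℂ) ^ 2 * (m.2.2 * VV z ^ m.1 * WW z ^ m.2.1 * A) =
            EE z * ((uu z : ℂ) ^ 2)⁻¹ * m.2.2 * VV z ^ m.1 * WW z ^ m.2.1 *
              (A * (uu z : ℂ) ^ 4) := by
          field_simp
        rw [h9, e, h8]
        ring
      linear_combination ih + h10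
  have h11 : -(2 * (starRingEnd ℂ) z) / (starRingEnd ℂ) z ^ 2 = -2 * ((starRingEnd ℂ) z)⁻¹ := by
    field_simp
  rw [h11, hcz2]
  unfold GG HH
  have h12 : (uu z : ℂ) * (uu z : ℂ)⁻¹ = 1 := mul_inv_cancel₀ hu
  linear_combination (4 * z ^ 2 * (uu z : ℂ) ^ 2) * h7 + (8 * z ^ 2 * (uu z : ℂ) ^ 3 * EE z) * h12

end Pool.Agent.TH883.LW
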