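import Pool.Agent.TH387.EI.Defs
import Pool.Agent.H770R2.Kad.Kap

/-! Job 2958 (EI-4b2, helper883 for helper387): projections without proper subprojections are
minimal. -/

set_option autoImplicit false
open scoped ComplexOrder InnerProductSpace
noncomputable section

namespace Pool.Agent.TH883.EIS
universe u

open Pool.Agent.TH387.EI

variable {H : Type u} [NormedAddCommGroup H] [InnerProductSpace ℂ H] [CompleteSpace H]

theorem comm_posPart {x y : H →L[ℂ] H} (hx : IsSelfAdjoint x) (h : x * y = y * x) :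
    x⁺ * y = y * x⁺ := by
  rw [CFC.posPart_def, cfcₙ_eq_cfc]
  exact (hx.commute_cfc h _)

theorem comm_negPart {x y : H →L[ℂ] H} (hx : IsSelfAdjoint x) (h : x * y = y * x) :
    x⁻ * y = y * x⁻ := by
  rw [← CFC.posPart_neg]
  exact comm_posPart hx.neg (by rw [neg_mul, mul_neg, h])

theorem posPart_sq {x : H →L[ℂ] H} (hx : IsSelfAdjoint x) : x⁺ * x⁺ = x⁺ * x := by
  have h1 := CFC.posPart_mul_negPart x
  have h2 := CFC.posPart_sub_negPart x hx
  calc x⁺ * x⁺ = x⁺ * (x⁺ - x⁻) := by rw [mul_sub, h1, sub_zero]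
    _ = x⁺ * x := by rw [h2]

theorem posPart_e {x e : H →L[ℂ] H} (hx : IsSelfAdjoint x) (he : IsStarProjection e)
    (h : x * e = x) : x⁺ * e = x⁺ := by
  have hsa : IsSelfAdjoint (x⁺) := (CFC.posPart_nonneg x).isSelfAdjoint
  have h1 : x⁺ * (1 - e) = 0 := by
    rw [← norm_eq_zero]
    have h2 : star (x⁺ * (1 - e)) * (x⁺ * (1 - e)) = 0 := by
      rw [star_mul, hsa.star_eq]
      calc star (1 - e) * x⁺ * (x⁺ * (1 - e)) = star (1 - e) * (x⁺ * x⁺) * (1 - e) := by
            noncomm_ring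
        _ = star (1 - e) * (x⁺ * x) * (1 - e) := by rw [posPart_sq hx]
        _ = star (1 - e) * x⁺ * (x - x * e) := by noncomm_ring
        _ = 0 := by rw [h, sub_self, mul_zero]
    have h3 := CStarRing.norm_star_mul_self (x := x⁺ * (1 - e))
    rw [h2, norm_zero] at h3
    exact mul_self_eq_zero.1 h3.symm
  have h4 : x⁺ * (1 - e) = x⁺ - x⁺ * e := by rw [mul_sub, mul_one]
  rw [h4] at h1
  exact (sub_eq_zero.1 h1).symm

theorem negPart_e {x e : H →L[ℂ] H} (hx : IsSelfAdjoint x) (he : IsStarProjection e)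
    (h : x * e = x) : x⁻ * e = x⁻ := by
  rw [← CFC.posPart_neg]
  exact posPart_e hx.neg he (by rw [neg_mul, h])

/-- the dichotomy -/
theorem inj_or_zero (S : Set (H →L[ℂ] H)) (hS : ∀ y ∈ S, star y ∈ S) (e : H →L[ℂ] H)
    (he : IsStarProjection e) (heS : Cm S e)
    (h : ∀ f : H →L[ℂ] H, IsStarProjection f → Cm S f → e * f = f → f = 0 ∨ f = e)
    (x : H →L[ℂ] H) (hxS : Cm S x) (hxe : x * e = x) :
    x = 0 ∨ ∀ v, e v = v → x v = 0 → v = 0 := by
  set K : Submodule ℂ H := (LinearMap.ker ((1 - e : H →L[ℂ] H) : H →ₗ[ℂ] H)) ⊓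
    (LinearMap.ker (x : H →ₗ[ℂ] H)) with hK
  have hmem : ∀ v, v ∈ K ↔ e v = v ∧ x v = 0 := by
    intro v
    rw [hK, Submodule.mem_inf, LinearMap.mem_ker, LinearMap.mem_ker]
    constructor
    · rintro ⟨h1, h2⟩
      refine ⟨?_, h2⟩
      have h3 : v - e v = 0 := h1
      exact (sub_eq_zero.1 h3).symm
    · rintro ⟨h1, h2⟩
      refine ⟨?_, h2⟩
      show v - e v = 0
      rw [h1, sub_self]
  have hcl : IsClosed (K : Set H) := by
    have : (K : Set H) = {v | e v = v} ∩ {v | x v = 0} := by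
      ext v
      exact hmem v
    rw [this]
    exact (isClosed_eq e.continuous continuous_id).inter (isClosed_eq x.continuous continuous_const)
  have : CompleteSpace K := hcl.completeSpace_coe
  have hinv : ∀ y ∈ S, ∀ v ∈ K, y v ∈ K := by
    intro y hy v hv
    rw [hmem] at hv ⊢
    obtain ⟨h1, h2⟩ := hv
    have a1 : y (e v) = e (y v) := congrArg (fun T : H →L[ℂ] H => T v) (heS y hy)
    have a2 : y (x v) = x (y v) := congrArg (fun T : H →L[ℂ] H => T v) (hxS y hy)
    refine ⟨?_, ?_⟩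
    · rw [← a1, h1]
    · rw [← a2, h2, map_zero]
  have hp : Cm S K.starProjection := by
    intro y hy
    ext v
    exact (H770R2.Kad.proj_comm K y (hinv y hy) (hinv _ (hS y hy)) v).symm
  have hep : e * K.starProjection = K.starProjection := by
    ext v
    have h1 : K.starProjection v ∈ K := K.starProjection_apply_mem v
    exact ((hmem _).1 h1).1
  rcases h K.starProjection isStarProjection_starProjection hp hep with h0 | h0
  · right
    intro v h1 h2
    have h3 : K.starProjection v = v :=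
      Submodule.starProjection_eq_self_iff.2 ((hmem v).2 ⟨h1, h2⟩)
    rw [h0] at h3
    exact h3.symm
  · left
    rw [← hxe, ← h0]
    ext v
    have h1 : K.starProjection v ∈ K := K.starProjection_apply_mem v
    exact ((hmem _).1 h1).2

theorem pos_or_neg (S : Set (H →L[ℂ] H)) (hS : ∀ y ∈ S, star y ∈ S) (e : H →L[ℂ] H)
    (he : IsStarProjection e) (heS : Cm S e)
    (h : ∀ f : H →L[ℂ] H, IsStarProjection f → Cm S f → e * f = f → f = 0 ∨ f = e)
    (x : H →L[ℂ] H) (hx : IsSelfAdjoint x) (hxS : Cm S x) (hxe : x * e = x) :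
    0 ≤ x ∨ x ≤ 0 := by
  have hp : Cm S (x⁺) := fun y hy => (comm_posPart hx (hxS y hy).symm).symm
  have hn : Cm S (x⁻) := fun y hy => (comm_negPart hx (hxS y hy).symm).symm
  have hpe := posPart_e hx he hxe
  have hne := negPart_e hx he hxe
  rcases inj_or_zero S hS e he heS h _ hp hpe with h1 | h1
  · right
    exact (CFC.posPart_eq_zero_iff x hx).1 h1
  · left
    rw [← CFC.negPart_eq_zero_iff x hx]
    have hsa : IsSelfAdjoint (x⁻) := (CFC.negPart_nonneg x).isSelfAdjoint
    have hne' : e * x⁻ = x⁻ := by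
      have := congrArg star hne
      rw [star_mul, hsa.star_eq, he.isSelfAdjoint.star_eq] at this
      exact this
    ext v
    apply h1
    · exact congrArg (fun T : H →L[ℂ] H => T v) hne'
    · exact congrArg (fun T : H →L[ℂ] H => T v) (CFC.posPart_mul_negPart x)

theorem sa_case (S : Set (H →L[ℂ] H)) (hS : ∀ y ∈ S, star y ∈ S) (e : H →L[ℂ] H)
    (he : IsStarProjection e) (heS : Cm S e)
    (h : ∀ f : H →L[ℂ] H, IsStarProjection f → Cm S f → e * f = f → f = 0 ∨ f = e)
    (T : H →L[ℂ] H) (hT : Cm S T) (hsa : IsSelfAdjoint T) : ∃ c : ℂ, e * T * e = c • e := by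
  have hee : e * e = e := he.isIdempotentElem
  have hes : star e = e := he.isSelfAdjoint.star_eq
  set z := e * T * e with hz
  have hzsa : IsSelfAdjoint z := by
    rw [isSelfAdjoint_iff, hz, star_mul, star_mul, hes, hsa.star_eq, mul_assoc]
  have hze : z * e = z := by rw [hz, mul_assoc, hee]
  have hez : e * z = z := by rw [hz, ← mul_assoc, ← mul_assoc, hee]
  have hzS : Cm S z := by
    intro y hy
    rw [hz]
    have h1 := heS y hy
    have h2 := hT y hy
    calc y * (e * T * e) = (y * e) * T * e := by noncomm_ring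
      _ = e * (y * T) * e := by rw [h1]; noncomm_ring
      _ = e * T * (y * e) := by rw [h2]; noncomm_ring
      _ = e * T * e * y := by rw [h1]; noncomm_ring
  by_cases he0 : e = 0
  · exact ⟨0, by rw [hz, he0]; simp⟩
  -- the comparison
  have hcmp : ∀ c : ℝ, (∀ v, e v = v → c * ‖v‖ ^ 2 ≤ (⟪v, z v⟫_ℂ).re) ∨
      (∀ v, e v = v → (⟪v, z v⟫_ℂ).re ≤ c * ‖v‖ ^ 2) := by
    intro c
    have hx : IsSelfAdjoint (z - (c : ℂ) • e) := by
      refine hzsa.sub ?_
      rw [isSelfAdjoint_iff, star_smul, hes]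
      simp
    have hxS : Cm S (z - (c : ℂ) • e) := by
      intro y hy
      rw [mul_sub, sub_mul, hzS y hy, mul_smul_comm, smul_mul_assoc, heS y hy]
    have hxe : (z - (c : ℂ) • e) * e = z - (c : ℂ) • e := by
      rw [sub_mul, hze, smul_mul_assoc, hee]
    have hval : ∀ v, e v = v → ⟪v, (z - (c : ℂ) • e) v⟫_ℂ = ⟪v, z v⟫_ℂ - ((c * ‖v‖ ^ 2 : ℝ) : ℂ) := by
      intro v hv
      have : (z - (c : ℂ) • e) v = z v - (c : ℂ) • v := by
        show z v - (c : ℂ) • e v = _
        rw [hv]
      rw [this, inner_sub_right, inner_smul_right, inner_self_eq_norm_sq_to_K]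
      push_cast
      rfl
    rcases pos_or_neg S hS e he heS h _ hx hxS hxe with h1 | h1
    · left
      intro v hv
      have h2 := (ContinuousLinearMap.nonneg_iff_isPositive _).1 h1
      have h3 := h2.inner_nonneg_right v
      rw [hval v hv] at h3
      have h4 := (Complex.le_def.1 h3).1
      simp only [Complex.zero_re, Complex.sub_re, Complex.ofReal_re] at h4
      linarith
    · right
      intro v hv
      have h2 := (ContinuousLinearMap.nonneg_iff_isPositive _).1 (neg_nonneg.2 h1)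
      have h3 := h2.inner_nonneg_right v
      have h5 : ⟪v, (-(z - (c : ℂ) • e)) v⟫_ℂ = -⟪v, (z - (c : ℂ) • e) v⟫_ℂ := by
        rw [neg_apply, inner_neg_right]
      rw [h5, hval v hv] at h3
      have h4 := (Complex.le_def.1 h3).1
      simp only [Complex.zero_re, Complex.neg_re, Complex.sub_re, Complex.ofReal_re] at h4
      linarith
  -- bounds
  have hbd : ∀ v, |(⟪v, z v⟫_ℂ).re| ≤ ‖z‖ * ‖v‖ ^ 2 := by
    intro v
    refine (Complex.abs_re_le_norm _).trans ((norm_inner_le_norm _ _).trans ?_)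
    have := z.le_opNorm v
    nlinarith [norm_nonneg v, norm_nonneg (z v)]
  obtain ⟨v0, hv0, hv0e⟩ : ∃ v0 : H, v0 ≠ 0 ∧ e v0 = v0 := by
    by_contra hcon
    push Not at hcon
    apply he0
    ext v
    by_contra hv
    exact hcon (e v) hv (congrArg (fun T : H →L[ℂ] H => T v) hee)
  have hv0n : 0 < ‖v0‖ ^ 2 := by
    have := norm_pos_iff.2 hv0
    positivity
  set A : Set ℝ := {c | ∀ v, e v = v → c * ‖v‖ ^ 2 ≤ (⟪v, z v⟫_ℂ).re} with hA
  have hne : A.Nonempty := ⟨-‖z‖, fun v _ => by
    have := (abs_le.1 (hbd v)).1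
    linarith⟩
  have hbdd : BddAbove A := by
    refine ⟨‖z‖, fun c hc => ?_⟩
    have h1 := hc v0 hv0e
    have h2 := (abs_le.1 (hbd v0)).2
    have h3 : c * ‖v0‖ ^ 2 ≤ ‖z‖ * ‖v0‖ ^ 2 := by linarith
    exact le_of_mul_le_mul_right h3 hv0n
  set c0 := sSup A with hc0
  have hval : ∀ v, e v = v → (⟪v, z v⟫_ℂ).re = c0 * ‖v‖ ^ 2 := by
    intro v hv
    by_cases hv' : v = 0
    · rw [hv']; simp
    have hvn : 0 < ‖v‖ ^ 2 := by
      have := norm_pos_iff.2 hv'
      positivity
    apply le_antisymm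
    · -- for c > c0, z ≤ c
      have h1 : ∀ c, c0 < c → (⟪v, z v⟫_ℂ).re / ‖v‖ ^ 2 ≤ c := by
        intro c hc
        rcases hcmp c with h2 | h2
        · exact absurd (le_csSup hbdd (show c ∈ A from h2)) (not_le.2 hc)
        · rw [div_le_iff₀ hvn]
          exact h2 v hv
      have h3 := le_of_forall_gt_imp_ge_of_dense h1
      rwa [div_le_iff₀ hvn] at h3
    · have h1 : c0 ≤ (⟪v, z v⟫_ℂ).re / ‖v‖ ^ 2 := by
        apply csSup_le hne
        intro c hc
        rw [le_div_iff₀ hvn]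
        exact hc v hv
      rwa [le_div_iff₀ hvn] at h1
  refine ⟨(c0 : ℂ), ?_⟩
  rw [← sub_eq_zero]
  have hzero : ∀ v, ⟪(z - (c0 : ℂ) • e) v, v⟫_ℂ = 0 := by
    intro v
    set w := e v with hw
    have hwe : e w = w := congrArg (fun T : H →L[ℂ] H => T v) hee
    have h1 : (z - (c0 : ℂ) • e) v = z w - (c0 : ℂ) • w := by
      show z v - (c0 : ℂ) • e v = _
      have : z v = z (e v) := (congrArg (fun T : H →L[ℂ] H => T v) hze).symm
      rw [this]
    have h2 : ⟪z w - (c0 : ℂ) • w, v⟫_ℂ = ⟪z w - (c0 : ℂ) • w, w⟫_ℂ := by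
      have h3 : z w - (c0 : ℂ) • w = e (z w - (c0 : ℂ) • w) := by
        rw [map_sub, map_smul, hwe]
        congr 1
        exact (congrArg (fun T : H →L[ℂ] H => T w) hez).symm
      rw [h3]
      nth_rewrite 1 [← hes]
      rw [ContinuousLinearMap.star_eq_adjoint, ContinuousLinearMap.adjoint_inner_left]
      rw [← h3, hw]
    rw [h1, h2, inner_sub_left, inner_smul_left, inner_self_eq_norm_sq_to_K]
    have h4 : ⟪z w, w⟫_ℂ = ⟪w, z w⟫_ℂ := by
      nth_rewrite 1 [← hzsa.star_eq]
      rw [ContinuousLinearMap.star_eq_adjoint, ContinuousLinearMap.adjoint_inner_left]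
    have h5 : ⟪z w, w⟫_ℂ = (((⟪w, z w⟫_ℂ).re : ℝ) : ℂ) := by
      apply Complex.ext
      · rw [h4]; simp
      · have h6 : (starRingEnd ℂ) ⟪w, z w⟫_ℂ = ⟪w, z w⟫_ℂ := by
          rw [inner_conj_symm, h4]
        rw [h4, Complex.ofReal_im]
        exact Complex.conj_eq_iff_im.1 h6
    rw [h5, hval w hwe]
    simp
  have h7 := (inner_map_self_eq_zero (((z - (c0 : ℂ) • e) : H →L[ℂ] H) : H →ₗ[ℂ] H)).1 hzero
  ext v
  exact congrArg (fun T : H →ₗ[ℂ] H => T v) h7

end Pool.Agent.TH883.EIS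

namespace Pool.Agent.TH387.EI
universe u

variable {H : Type u} [NormedAddCommGroup H] [InnerProductSpace ℂ H] [CompleteSpace H]

theorem scalar_of_min (S : Set (H →L[ℂ] H)) (hS : ∀ y ∈ S, star y ∈ S) (e : H →L[ℂ] H)
    (he : IsStarProjection e) (heS : Cm S e)
    (h : ∀ f : H →L[ℂ] H, IsStarProjection f → Cm S f → e * f = f → f = 0 ∨ f = e)
    (T : H →L[ℂ] H) (hT : Cm S T) : ∃ c : ℂ, e * T * e = c • e := by
  have hTs : Cm S (star T) := by
    intro y hy
    have h1 := congrArg star (hT (star y) (hS y hy))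
    rw [star_mul, star_mul, star_star] at h1
    exact h1.symm
  have hA : Cm S (T + star T) := by
    intro y hy
    rw [mul_add, add_mul, hT y hy, hTs y hy]
  have hB : Cm S (Complex.I • (T - star T)) := by
    intro y hy
    rw [mul_smul_comm, smul_mul_assoc, mul_sub, sub_mul, hT y hy, hTs y hy]
  obtain ⟨a, ha⟩ := Pool.Agent.TH883.EIS.sa_case S hS e he heS h (T + star T) hA (by
    rw [isSelfAdjoint_iff, star_add, star_star, add_comm])
  obtain ⟨b, hb⟩ := Pool.Agent.TH883.EIS.sa_case S hS e he heS h (Complex.I • (T - star T)) hB (by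
    rw [isSelfAdjoint_iff, star_smul, star_sub, star_star]
    simp only [Complex.star_def, Complex.conj_I, neg_smul, ← smul_neg, neg_sub])
  refine ⟨a / 2 - Complex.I * b / 2, ?_⟩
  have h1 : T = (1 / 2 : ℂ) • (T + star T) - (Complex.I / 2) • (Complex.I • (T - star T)) := by
    rw [smul_smul]
    have h2 : Complex.I / 2 * Complex.I = -(1 / 2) := by
      have := Complex.I_mul_I
      linear_combination (1 / 2 : ℂ) * this
    rw [h2]
    module
  calc e * T * e = (1 / 2 : ℂ) • (e * (T + star T) * e) -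
        (Complex.I / 2) • (e * (Complex.I • (T - star T)) * e) := by
        nth_rewrite 1 [h1]
        rw [mul_sub, sub_mul, mul_smul_comm, smul_mul_assoc, mul_smul_comm (Complex.I / 2),
          smul_mul_assoc (Complex.I / 2)]
    _ = (a / 2 - Complex.I * b / 2) • e := by
        rw [ha, hb, smul_smul, smul_smul, ← sub_smul]
        congr 1
        ring

end Pool.Agent.TH387.EI
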