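import Pool.Agent.TH477.PA.Defs
set_option autoImplicit false
open Finset Pool.Agent.TH477.PA

namespace Pool.Agent.TH883.J641

theorem sum_id (k : ℕ) : ∑ j ∈ Icc 1 (k - 1), j = k.choose 2 := by
  have h : ∀ u : ℕ, ∑ j ∈ Icc 1 u, j = (u+1).choose 2 := by
    intro u
    induction u with
    | zero => simp
    | succ u ih =>
      rw [Finset.sum_Icc_succ_top (by omega), ih, Nat.choose_succ_succ' (u+1) 1,
        Nat.choose_one_right]
      ring
  rcases Nat.eq_zero_or_pos k with rfl | hk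
  · simp
  · obtain ⟨u, rfl⟩ : ∃ u, k = u + 1 := ⟨k - 1, by omega⟩
    exact h u

theorem count_ge (u p : ℕ) (hp : 1 ≤ p) :
    ∑ j ∈ Icc 1 u, (if j < p then 0 else 1) = u + 1 - p := by
  have h1 : ∑ j ∈ Icc 1 u, (if j < p then 0 else 1) =
      ((Icc 1 u).filter (fun j => ¬ j < p)).card := by
    rw [Finset.card_filter]
    refine Finset.sum_congr rfl fun j _ => ?_
    by_cases h : j < p
    · rw [if_pos h, if_neg (by simpa using h)]
    · rw [if_neg h, if_pos (by simpa using h)]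
  rw [h1]
  have h2 : (Icc 1 u).filter (fun j => ¬ j < p) = Icc p u := by
    ext j
    rw [Finset.mem_filter, Finset.mem_Icc, Finset.mem_Icc]
    omega
  rw [h2, Nat.card_Icc]

theorem eq_of_sum {u : ℕ} {m f : ℕ → ℕ} (hle : ∀ j ∈ Icc 1 u, m j ≤ f j)
    (h : ∑ j ∈ Icc 1 u, f j ≤ ∑ j ∈ Icc 1 u, m j) : ∀ j, 1 ≤ j → j ≤ u → m j = f j := by
  have h2 := (Finset.sum_eq_sum_iff_of_le hle).1 (le_antisymm (Finset.sum_le_sum hle) h)
  intro j h3 h4
  exact h2 j (Finset.mem_Icc.2 ⟨h3, h4⟩)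

theorem aux1 {m : ℕ} {y j : ℝ} (h : (m : ℝ) * y ≤ j) (hj : j < y) (hy : 0 < y) : m = 0 := by
  by_contra hne
  have h2 : (1 : ℝ) ≤ m := by exact_mod_cast Nat.one_le_iff_ne_zero.2 hne
  have h3 : 1 * y ≤ m * y := mul_le_mul_of_nonneg_right h2 hy.le
  linarith

theorem aux2 {m : ℕ} {y j : ℝ} (h : (m : ℝ) * y ≤ j) (hj : j < 2 * y) (hy : 0 < y) : m ≤ 1 := by
  by_contra hne
  have h2 : (2 : ℝ) ≤ m := by exact_mod_cast (by omega : 2 ≤ m)
  have h3 : 2 * y ≤ m * y := mul_le_mul_of_nonneg_right h2 hy.le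
  linarith

theorem aux_e {u y L a b c1 c2 : ℝ} (hy1 : 1 < y) (hyu : y ≤ u / 2) (hu : 3 ≤ u)
    (hAR' : (u - 1) * b < (u - y) * c2) (e1 : c1 ≤ c2) (e2 : a + c2 ≤ c1 + b)
    (e3 : (u - y) * L ≤ u * a) (e4 : y * c1 ≤ a + (y - 1) * L) : False := by
  have hy0 : 0 < y := by linarith
  have e5 : (u - y) * c1 ≤ (u - 1) * a := by
    have h1 : (u - y) * (y * c1) ≤ (u - y) * (a + (y - 1) * L) :=
      mul_le_mul_of_nonneg_left e4 (by linarith)
    have h2 : (y - 1) * ((u - y) * L) ≤ (y - 1) * (u * a) :=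
      mul_le_mul_of_nonneg_left e3 (by linarith)
    have h3 : y * ((u - y) * c1) ≤ y * ((u - 1) * a) := by linarith
    exact le_of_mul_le_mul_left h3 hy0
  have e6 : 0 ≤ (y - 1) * (c2 - c1) := mul_nonneg (by linarith) (by linarith)
  have e7 : (u - 1) * (a - b) ≤ (u - 1) * (c1 - c2) :=
    mul_le_mul_of_nonneg_left (by linarith) (by linarith)
  linarith

theorem J2_AC
    (hAR : ∀ (u : ℕ), 3 ≤ u → ∀ (y : ℝ), 1 < y → y ≤ u / 2 → ∀ (N : ℕ), 3 ≤ N →
      ∀ (m : ℕ → ℕ), (∀ j, 1 ≤ j → j ≤ u → (m j : ℝ) * y ≤ j) → N ≤ ∑ j ∈ Icc 1 u, m j →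
      ((u : ℝ) - 1) * Real.log ((N : ℝ) - 1) <
      ((u : ℝ) - y) * Real.log ((((u + 1).choose 2 : ℕ) : ℝ) - 1))
    (k D r : ℕ) (ℓ : ℝ) (hO : Opt k D r ℓ) (q : ℕ) (hq : 1 ≤ q) (m : ℕ → ℕ)
    (hm : ∀ j, 1 ≤ j → j ≤ k - 1 → (m j : ℝ) * (Real.log r - Real.log q) ≤ j * ℓ)
    (hmj : ∀ j, m j ≤ j) (hN : q + D ≤ ∑ j ∈ Icc 1 (k - 1), m j) :
    (q + D = k.choose 2 ∧ ℓ = Real.log r - Real.log q ∧ ∀ j, 1 ≤ j → j ≤ k - 1 → m j = j) ∨
    (∃ p, k ≤ 2 * p ∧ p + q + D = k ∧ 2 ≤ q ∧ (p : ℝ) * ℓ = Real.log r - Real.log q ∧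
      ∀ j, 1 ≤ j → j ≤ k - 1 → m j = if j < p then 0 else 1) := by
  obtain ⟨hk, hD, hDC, hr, hpos, o1, o2, o3⟩ := hO
  obtain ⟨u, hu⟩ : ∃ u, k = u + 1 := ⟨k - 1, by omega⟩
  have hu1 : k - 1 = u := by omega
  rw [hu1] at hN hm o1 ⊢
  set C := k.choose 2 with hC
  have hCu : (u + 1).choose 2 = C := by rw [hC, hu]
  set L := Real.log r with hL
  set lam := L - Real.log q with hlam
  have hsumC : ∑ j ∈ Icc 1 u, j = C := by
    have := sum_id k
    rwa [hu1] at this
  have hSle : ∑ j ∈ Icc 1 u, m j ≤ C := by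
    rw [← hsumC]
    exact Finset.sum_le_sum fun j _ => hmj j
  have hqC : q ≤ C - D := by omega
  have hqr : q < r := by omega
  have hq0 : (0 : ℝ) < q := by exact_mod_cast hq
  have hlam0 : 0 < lam := by
    rw [hlam, hL, sub_pos]
    exact Real.log_lt_log hq0 (by exact_mod_cast hqr)
  set y := lam / ℓ with hy
  have hyl : y * ℓ = lam := div_mul_cancel₀ _ hpos.ne'
  have hy0 : 0 < y := div_pos hlam0 hpos
  have hmy : ∀ j, 1 ≤ j → j ≤ u → (m j : ℝ) * y ≤ j := by
    intro j h1 h2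
    rw [hy, ← mul_div_assoc, div_le_iff₀ hpos]
    exact hm j h1 h2
  have hlogCD : Real.log q ≤ Real.log ((C - D : ℕ) : ℝ) :=
    Real.log_le_log hq0 (by exact_mod_cast hqC)
  -- (a)
  have hy1 : 1 ≤ y := by
    by_contra hcon
    push Not at hcon
    have h1 : y * ℓ < 1 * ℓ := mul_lt_mul_of_pos_right hcon hpos
    linarith
  -- (b)
  rcases hy1.eq_or_lt with hy1 | hy1
  · left
    rw [← hy1, one_mul] at hyl
    have h1 : Real.log ((C - D : ℕ) : ℝ) ≤ Real.log q := by linarith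
    have hCD0 : (0 : ℝ) < ((C - D : ℕ) : ℝ) := by
      exact_mod_cast (by omega : 0 < C - D)
    have h2 : ((C - D : ℕ) : ℝ) ≤ q := (Real.log_le_log_iff hCD0 hq0).1 h1
    have h3 : C - D ≤ q := by exact_mod_cast h2
    have h4 : q + D = C := by omega
    refine ⟨h4, hyl, ?_⟩
    exact eq_of_sum (f := fun j => j) (fun j _ => hmj j) (by rw [hsumC, ← h4]; exact hN)
  -- (c)
  by_cases hyu : (u : ℝ) < y
  · exfalso
    have h1 : ∑ j ∈ Icc 1 u, m j = 0 := by
      refine Finset.sum_eq_zero fun j hj => ?_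
      rw [Finset.mem_Icc] at hj
      have h4 : (j : ℝ) ≤ u := by exact_mod_cast hj.2
      exact aux1 (hmy j hj.1 hj.2) (lt_of_le_of_lt h4 hyu) hy0
    omega
  push Not at hyu
  have hq2 : 2 ≤ q := by
    by_contra hcon
    have hq1 : q = 1 := by omega
    have h1 : lam = L := by
      rw [hlam, hq1]
      simp
    have h2 : (u : ℝ) ≤ y := by
      by_contra h3
      push Not at h3
      have : y * ℓ < u * ℓ := mul_lt_mul_of_pos_right h3 hpos
      linarith
    have h3 : y = u := le_antisymm hyu h2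
    have h4 : ∑ j ∈ Icc 1 u, m j ≤ ∑ j ∈ Icc 1 u, (if j < u then 0 else 1) := by
      refine Finset.sum_le_sum fun j hj => ?_
      rw [Finset.mem_Icc] at hj
      have h5 := hmy j hj.1 hj.2
      rw [h3] at h5
      by_cases h6 : j < u
      · rw [if_pos h6]
        have h8 : (j : ℝ) < u := by exact_mod_cast h6
        exact (aux1 h5 h8 (h3 ▸ hy0)).le
      · rw [if_neg h6]
        have h8 : (j : ℝ) ≤ u := by exact_mod_cast hj.2
        exact aux2 h5 (by rw [← h3] at h8 ⊢; linarith) (h3 ▸ hy0)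
    rw [count_ge u u (by omega)] at h4
    omega
  by_cases hyh : (u : ℝ) / 2 < y
  · -- (d)
    right
    set p := ⌈y⌉₊ with hp
    have hyp : y ≤ p := Nat.le_ceil y
    have hpu : p ≤ u := Nat.ceil_le.2 hyu
    have hp1 : 1 ≤ p := by
      have : (1 : ℝ) < p := lt_of_lt_of_le hy1 hyp
      have : 1 < p := by exact_mod_cast this
      omega
    have hk2 : k ≤ 2 * p := by
      have h1 : (u : ℝ) < 2 * p := by linarith
      have h2 : u < 2 * p := by exact_mod_cast h1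
      omega
    have hmle : ∀ j ∈ Icc 1 u, m j ≤ if j < p then 0 else 1 := by
      intro j hj
      rw [Finset.mem_Icc] at hj
      have h5 := hmy j hj.1 hj.2
      by_cases h6 : j < p
      · rw [if_pos h6]
        exact (aux1 h5 (Nat.lt_ceil.1 h6) hy0).le
      · rw [if_neg h6]
        have h8 : (j : ℝ) ≤ u := by exact_mod_cast hj.2
        exact aux2 h5 (by linarith) hy0
    have hsum := Finset.sum_le_sum hmle
    rw [count_ge u p hp1] at hsum
    have h1 : p + (k - p - D) + D = k := by omega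
    have h2 : q ≤ k - p - D := by omega
    have h3 := o3 p (k - p - D) hk2 h1 (by omega)
    have h4 : Real.log q ≤ Real.log ((k - p - D : ℕ) : ℝ) :=
      Real.log_le_log hq0 (by exact_mod_cast h2)
    have h5 : y * ℓ ≤ p * ℓ := mul_le_mul_of_nonneg_right hyp hpos.le
    have h6 : (p : ℝ) * ℓ = lam := by linarith
    have h7 : Real.log ((k - p - D : ℕ) : ℝ) ≤ Real.log q := by linarith
    have hc0 : (0 : ℝ) < ((k - p - D : ℕ) : ℝ) := by
      exact_mod_cast (by omega : 0 < k - p - D)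
    have h8 : ((k - p - D : ℕ) : ℝ) ≤ q := (Real.log_le_log_iff hc0 hq0).1 h7
    have h9 : k - p - D ≤ q := by exact_mod_cast h8
    refine ⟨p, hk2, by omega, hq2, h6, ?_⟩
    refine eq_of_sum (f := fun j => if j < p then 0 else 1) hmle ?_
    rw [count_ge u p hp1]
    omega
  · -- (e)
    exfalso
    push Not at hyh
    have hu3 : 3 ≤ u := by
      have : (2 : ℝ) < u := by linarith
      have : 2 < u := by exact_mod_cast this
      omega
    have hAR' := hAR u hu3 y hy1 hyh (q + D) (by omega) m hmy hN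
    rw [hCu] at hAR'
    set a := Real.log q with ha
    set b := Real.log (((q + D : ℕ) : ℝ) - 1) with hb
    set c1 := Real.log ((C - D : ℕ) : ℝ) with hc1
    set c2 := Real.log ((C : ℝ) - 1) with hc2
    have hDr : (1 : ℝ) ≤ D := by exact_mod_cast hD
    have hqr' : (2 : ℝ) ≤ q := by exact_mod_cast hq2
    have hCDr : ((C - D : ℕ) : ℝ) = (C : ℝ) - D := by
      rw [Nat.cast_sub (by omega)]
    have hqCr : (q : ℝ) ≤ (C : ℝ) - D := by
      rw [← hCDr]
      exact_mod_cast hqC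
    have e1 : c1 ≤ c2 := by
      rw [hc1, hc2]
      refine Real.log_le_log ?_ ?_
      · rw [hCDr]; linarith
      · rw [hCDr]; linarith
    have e2 : a + c2 ≤ c1 + b := by
      have g1 : (C : ℝ) - 1 ≠ 0 := by intro h; linarith
      have g2 : ((C - D : ℕ) : ℝ) ≠ 0 := by rw [hCDr]; intro h; linarith
      have g3 : ((q + D : ℕ) : ℝ) - 1 ≠ 0 := by push_cast; intro h; linarith
      rw [ha, hc2, hc1, hb, ← Real.log_mul hq0.ne' g1, ← Real.log_mul g2 g3]
      refine Real.log_le_log ?_ ?_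
      · refine mul_pos hq0 ?_
        linarith
      · rw [hCDr]
        push_cast
        have h1 : 0 ≤ ((D : ℝ) - 1) * ((C : ℝ) - D - q) :=
          mul_nonneg (by linarith) (by linarith)
        linarith
    have hur : (3 : ℝ) ≤ u := by exact_mod_cast hu3
    have e3 : ((u : ℝ) - y) * L ≤ u * a := by
      have h1 : y * ((u : ℝ) * ℓ) ≤ y * L := mul_le_mul_of_nonneg_left o1 hy0.le
      have h2 : y * ((u : ℝ) * ℓ) = u * lam := by rw [← hyl]; ring
      rw [h2, hlam] at h1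
      linarith
    have e4 : y * c1 ≤ a + (y - 1) * L := by
      have h1 : y * ℓ ≤ y * (L - c1) := mul_le_mul_of_nonneg_left o2 hy0.le
      rw [hyl, hlam] at h1
      linarith
    exact aux_e hy1 hyh hur hAR' e1 e2 e3 e4

end Pool.Agent.TH883.J641
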