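import Pool.Agent.TH477.PA.Defs
set_option autoImplicit false
open Finset Pool.Agent.TH477.PA

namespace Pool.Agent.TH883.J646

theorem core {n r : ℕ} {G : SimpleGraph (Fin n)} {A₁ A₂ : Finset (Fin r)}
    {cls₁ cls₂ : Fin n → ℕ} {U : Set (Fin n)} {ε β δ : ℝ} (hβ : 0 < β) (hδ : 0 < δ)
    (hε : ε < β * δ ^ 2) (hn : 2 ≤ δ * n) {ψ : Sym2 (Fin n) → Fin r}
    (hPR : PR G A₁ cls₁ U β δ ψ)
    (hin : ∑ x, ∑ y, ind (x ∈ U ∧ y ∈ U ∧ cls₂ x = cls₂ y ∧ G.Adj x y ∧ ψ s(x, y) ∉ A₂)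
      ≤ ε * n ^ 2)
    {i j : ℕ} {X Y : Finset (Fin n)} (hX : ∀ x ∈ X, x ∈ U ∧ cls₁ x = i)
    (hY : ∀ y ∈ Y, y ∈ U ∧ cls₁ y = j) (hXY : ∀ x ∈ X, ∀ y ∈ Y, cls₂ x = cls₂ y)
    (hXc : δ * n ≤ (X.card : ℝ)) (hYc : δ * n ≤ (Y.card : ℝ)) {a : Fin r}
    (ha : i ≠ j ∨ a ∈ A₁) (ha2 : a ∉ A₂) : False := by
  have hn0 : (0 : ℝ) < n := by
    by_contra hcon
    push Not at hcon
    have : δ * n ≤ 0 := mul_nonpos_of_nonneg_of_nonpos hδ.le hcon
    linarith
  have h1 := hPR i j X Y hX hY hXc hYc a ha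
  have h2 : ∑ x ∈ X, ∑ y ∈ Y, ind (G.Adj x y ∧ ψ s(x, y) = a) ≤
      ∑ x, ∑ y, ind (x ∈ U ∧ y ∈ U ∧ cls₂ x = cls₂ y ∧ G.Adj x y ∧ ψ s(x, y) ∉ A₂) := by
    calc ∑ x ∈ X, ∑ y ∈ Y, ind (G.Adj x y ∧ ψ s(x, y) = a)
        ≤ ∑ x ∈ X, ∑ y ∈ Y,
            ind (x ∈ U ∧ y ∈ U ∧ cls₂ x = cls₂ y ∧ G.Adj x y ∧ ψ s(x, y) ∉ A₂) := by
          refine Finset.sum_le_sum fun x hx => Finset.sum_le_sum fun y hy => ind_mono ?_
          rintro ⟨h3, h4⟩
          exact ⟨(hX x hx).1, (hY y hy).1, hXY x hx y hy, h3, by rw [h4]; exact ha2⟩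
      _ ≤ ∑ x ∈ X, ∑ y,
            ind (x ∈ U ∧ y ∈ U ∧ cls₂ x = cls₂ y ∧ G.Adj x y ∧ ψ s(x, y) ∉ A₂) := by
          refine Finset.sum_le_sum fun x _ => ?_
          exact Finset.sum_le_sum_of_subset_of_nonneg (Finset.subset_univ _)
            fun _ _ _ => ind_nonneg _
      _ ≤ _ := Finset.sum_le_sum_of_subset_of_nonneg (Finset.subset_univ _)
            fun _ _ _ => Finset.sum_nonneg fun _ _ => ind_nonneg _
  have h3 : β * ((δ * n) * (δ * n)) ≤ β * ((X.card : ℝ) * Y.card) := by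
    refine mul_le_mul_of_nonneg_left ?_ hβ.le
    exact mul_le_mul hXc hYc (by positivity) (by positivity)
  have h4 : ε * (n : ℝ) ^ 2 < β * δ ^ 2 * (n : ℝ) ^ 2 :=
    mul_lt_mul_of_pos_right hε (by positivity)
  nlinarith

/-- the set of vertices of `U` with classes `i` and `j` -/
noncomputable def S {n : ℕ} (cls cls' : Fin n → ℕ) (U : Set (Fin n)) (i j : ℕ) :
    Finset (Fin n) := by
  classical exact Finset.univ.filter (fun x => x ∈ U ∧ cls x = i ∧ cls' x = j)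

theorem mem_S {n : ℕ} {cls cls' : Fin n → ℕ} {U : Set (Fin n)} {i j : ℕ} {x : Fin n} :
    x ∈ S cls cls' U i j ↔ x ∈ U ∧ cls x = i ∧ cls' x = j := by
  classical
  unfold S
  rw [Finset.mem_filter]
  exact ⟨fun h => h.2, fun h => ⟨Finset.mem_univ _, h⟩⟩

theorem S_comm {n : ℕ} {cls cls' : Fin n → ℕ} {U : Set (Fin n)} {i j : ℕ} :
    S cls cls' U i j = S cls' cls U j i := by
  ext x
  rw [mem_S, mem_S]
  tauto

theorem card_S {n : ℕ} {cls cls' : Fin n → ℕ} {U : Set (Fin n)} {i j : ℕ} :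
    ((S cls cls' U i j).card : ℝ) = ∑ x, ind (x ∈ U ∧ cls x = i ∧ cls' x = j) := by
  classical
  unfold S
  rw [card_filter_ind]

/-- at most one large intersection -/
theorem unique {n r p : ℕ} {G : SimpleGraph (Fin n)} {A A' : Finset (Fin r)}
    (hA : A ≠ univ) {cls cls' : Fin n → ℕ} {U : Set (Fin n)} {η ε β δ : ℝ} (hβ : 0 < β)
    (hδ : 0 < δ) (hε : ε < β * δ ^ 2) (hn : 2 ≤ δ * n) {ψ : Sym2 (Fin n) → Fin r}
    (h : Valid G p A cls U η ε β δ ψ) (hPR : PR G A' cls' U β δ ψ) {i j j' : ℕ}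
    (h1 : δ * n ≤ ((S cls cls' U i j).card : ℝ)) (h2 : δ * n ≤ ((S cls cls' U i j').card : ℝ)) :
    j = j' := by
  by_contra hne
  obtain ⟨a, ha⟩ : ∃ a, a ∉ A := by
    by_contra hcon
    push Not at hcon
    exact hA (Finset.eq_univ_iff_forall.2 hcon)
  refine core hβ hδ hε hn hPR h.inside (i := j) (j := j') (X := S cls cls' U i j)
    (Y := S cls cls' U i j') ?_ ?_ ?_ h1 h2 (Or.inl hne) ha
  · intro x hx
    rw [mem_S] at hx
    exact ⟨hx.1, hx.2.2⟩
  · intro x hx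
    rw [mem_S] at hx
    exact ⟨hx.1, hx.2.2⟩
  · intro x hx y hy
    rw [mem_S] at hx hy
    rw [hx.2.1, hy.2.1]

/-- splitting a class -/
theorem split {n : ℕ} {cls cls' : Fin n → ℕ} {U : Set (Fin n)} {p' : ℕ}
    (hlt : ∀ x, cls' x < p') (hU : ∑ x : Fin n, ind (x ∉ U) ≤ 1) (i : ℕ)
    (P : ℕ → Prop) [DecidablePred P] :
    ∑ x, ind (cls x = i ∧ P (cls' x)) ≤
      ∑ j ∈ (Finset.range p').filter P, ((S cls cls' U i j).card : ℝ) + 1 := by
  have h1 : ∀ x, ind (cls x = i ∧ P (cls' x)) ≤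
      ∑ j ∈ (Finset.range p').filter P, ind (x ∈ U ∧ cls x = i ∧ cls' x = j) + ind (x ∉ U) := by
    intro x
    have hs : 0 ≤ ∑ j ∈ (Finset.range p').filter P, ind (x ∈ U ∧ cls x = i ∧ cls' x = j) :=
      Finset.sum_nonneg fun _ _ => ind_nonneg _
    by_cases hx : x ∈ U
    · by_cases hp : cls x = i ∧ P (cls' x)
      · have h2 : ind (x ∈ U ∧ cls x = i ∧ cls' x = cls' x) ≤
            ∑ j ∈ (Finset.range p').filter P, ind (x ∈ U ∧ cls x = i ∧ cls' x = j) :=
          Finset.single_le_sum (f := fun j => ind (x ∈ U ∧ cls x = i ∧ cls' x = j))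
            (fun _ _ => ind_nonneg _)
            (Finset.mem_filter.2 ⟨Finset.mem_range.2 (hlt x), hp.2⟩)
        rw [ind_pos ⟨hx, hp.1, rfl⟩] at h2
        rw [ind_pos hp]
        linarith [ind_nonneg (x ∉ U)]
      · rw [ind_neg hp]
        linarith [ind_nonneg (x ∉ U)]
    · rw [ind_pos hx]
      linarith [ind_le_one (cls x = i ∧ P (cls' x))]
  calc ∑ x, ind (cls x = i ∧ P (cls' x))
      ≤ ∑ x, (∑ j ∈ (Finset.range p').filter P, ind (x ∈ U ∧ cls x = i ∧ cls' x = j) +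
          ind (x ∉ U)) := Finset.sum_le_sum fun x _ => h1 x
    _ = ∑ j ∈ (Finset.range p').filter P, ((S cls cls' U i j).card : ℝ) +
          ∑ x, ind (x ∉ U) := by
        rw [Finset.sum_add_distrib, Finset.sum_comm]
        congr 1
        exact Finset.sum_congr rfl fun j _ => card_S.symm
    _ ≤ _ := by linarith

/-- every class has a large intersection -/
theorem exists_large {n r p p' K : ℕ} (hK : 1 ≤ K) (hp : 1 ≤ p) (hpK : p ≤ K)
    (hpK' : p' ≤ K) {G : SimpleGraph (Fin n)} {A : Finset (Fin r)} {cls cls' : Fin n → ℕ}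
    {U : Set (Fin n)} (hU : ∑ x : Fin n, ind (x ∉ U) ≤ 1) {η ε β δ : ℝ} (hδ : 0 < δ)
    (hη : η ≤ 1 / (8 * K)) (hδ1 : δ ≤ 1 / (8 * K ^ 2)) (hn : 2 ≤ δ * n)
    {ψ : Sym2 (Fin n) → Fin r} (h : Valid G p A cls U η ε β δ ψ) (hlt' : ∀ x, cls' x < p')
    {i : ℕ} (hi : i < p) : ∃ j, j < p' ∧ δ * n ≤ ((S cls cls' U i j).card : ℝ) := by
  by_contra hcon
  push Not at hcon
  have hn0 : (0 : ℝ) < n := by
    by_contra hcon
    push Not at hcon
    have : δ * n ≤ 0 := mul_nonpos_of_nonneg_of_nonpos hδ.le hcon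
    linarith
  have hK0 : (0 : ℝ) < K := by exact_mod_cast hK
  have hK1 : (1 : ℝ) ≤ K := by exact_mod_cast hK
  have hp0 : (0 : ℝ) < p := by exact_mod_cast hp
  have h1 := split (cls := cls) hlt' hU i (fun _ => True)
  have h2 : ∑ j ∈ (Finset.range p').filter (fun _ => True), ((S cls cls' U i j).card : ℝ) ≤
      ∑ _j ∈ (Finset.range p').filter (fun _ => True), δ * n := by
    refine Finset.sum_le_sum fun j hj => ?_
    exact (hcon j (Finset.mem_range.1 (Finset.mem_filter.1 hj).1)).le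
  rw [Finset.sum_const, nsmul_eq_mul, Finset.filter_true, Finset.card_range] at h2
  have h3 : ∑ x, ind (cls x = i ∧ True) = ∑ x, ind (cls x = i) :=
    Finset.sum_congr rfl fun x _ => ind_congr (by tauto)
  rw [h3] at h1
  simp only [Finset.filter_true] at h1 h2
  have h4 := (abs_le.1 (h.size i hi)).1
  have h5 : (n : ℝ) / K ≤ n / p := by
    refine div_le_div_of_nonneg_left hn0.le hp0 ?_
    exact_mod_cast hpK
  have h6 : η * n ≤ 1 / (8 * K) * n := mul_le_mul_of_nonneg_right hη hn0.le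
  have h7 : (p' : ℝ) * (δ * n) ≤ K * (1 / (8 * K ^ 2) * n) := by
    refine mul_le_mul (by exact_mod_cast hpK') ?_ (by positivity) hK0.le
    exact mul_le_mul_of_nonneg_right hδ1 hn0.le
  have h8 : (K : ℝ) * (1 / (8 * K ^ 2) * n) = (n / K) / 8 := by
    field_simp
  have h9 : 1 / (8 * (K : ℝ)) * n = (n / K) / 8 := by
    field_simp
  have h10 : δ * n ≤ (n / K) / 8 := by
    have h11 : δ * n ≤ K * (δ * n) := by
      have : 0 ≤ δ * n := by positivity
      nlinarith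
    have h12 : (K : ℝ) * (δ * n) ≤ K * (1 / (8 * K ^ 2) * n) :=
      mul_le_mul_of_nonneg_left (mul_le_mul_of_nonneg_right hδ1 hn0.le) hK0.le
    linarith
  have h13 : 0 < (n : ℝ) / K := div_pos hn0 hK0
  linarith

/-- a class is almost contained in the corresponding class -/
theorem almost_sub {n p' K : ℕ} (hpK' : p' ≤ K) {cls cls' : Fin n → ℕ}
    {U : Set (Fin n)} (hU : ∑ x : Fin n, ind (x ∉ U) ≤ 1) {δ : ℝ} (hK : 1 ≤ K)
    (hn : 2 ≤ δ * n) (hlt' : ∀ x, cls' x < p') {i j : ℕ}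
    (hu : ∀ j', j' ≠ j → ((S cls cls' U i j').card : ℝ) < δ * n) :
    ∑ x, ind (cls x = i ∧ cls' x ≠ j) ≤ 2 * K * δ * n := by
  have h1 := split (cls := cls) hlt' hU i (fun j' => j' ≠ j)
  have h2 : ∑ j' ∈ (Finset.range p').filter (fun j' => j' ≠ j), ((S cls cls' U i j').card : ℝ) ≤
      ∑ _j' ∈ (Finset.range p').filter (fun j' => j' ≠ j), δ * n :=
    Finset.sum_le_sum fun j' hj' => (hu j' (Finset.mem_filter.1 hj').2).le
  rw [Finset.sum_const, nsmul_eq_mul] at h2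
  have h3 : (((Finset.range p').filter (fun j' => j' ≠ j)).card : ℝ) ≤ K := by
    have := (Finset.card_filter_le (Finset.range p') (fun j' => j' ≠ j))
    rw [Finset.card_range] at this
    exact_mod_cast this.trans hpK'
  have h4 : (((Finset.range p').filter (fun j' => j' ≠ j)).card : ℝ) * (δ * n) ≤ K * (δ * n) :=
    mul_le_mul_of_nonneg_right h3 (by linarith)
  have h5 : (1 : ℝ) ≤ K := by exact_mod_cast hK
  nlinarith

theorem J7_agree {n r p p' : ℕ} (K : ℕ) (hK : 1 ≤ K) (hp : 1 ≤ p) (hpK : p ≤ K) (hp' : 1 ≤ p')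
    (hpK' : p' ≤ K) (G : SimpleGraph (Fin n)) (A A' : Finset (Fin r)) (hA : A ≠ univ)
    (hA' : A' ≠ univ) (cls cls' : Fin n → ℕ)
    (U : Set (Fin n)) (hU : ∑ x : Fin n, ind (x ∉ U) ≤ 1) (η ε β δ : ℝ) (hβ : 0 < β) (hδ : 0 < δ)
    (hη : η ≤ 1 / (8 * K)) (hδ1 : δ ≤ 1 / (8 * K ^ 2)) (hε : ε < β * δ ^ 2)
    (hn : 2 ≤ δ * n) (ψ : Sym2 (Fin n) → Fin r) (h : Valid G p A cls U η ε β δ ψ)
    (h' : Valid G p' A' cls' U η ε β δ ψ) :
    p = p' ∧ A = A' ∧ ∃ π : ℕ → ℕ, (∀ i, i < p → π i < p) ∧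
      (∀ i j, i < p → j < p → π i = π j → i = j) ∧
      ∀ i, i < p → ∑ x, ind (cls x = i ∧ cls' x ≠ π i) ≤ 2 * K * δ * n ∧
        ∑ x, ind (cls x ≠ i ∧ cls' x = π i) ≤ 2 * K * δ * n := by
  classical
  -- uniqueness in both directions
  have hun : ∀ i j j', δ * n ≤ ((S cls cls' U i j).card : ℝ) →
      δ * n ≤ ((S cls cls' U i j').card : ℝ) → j = j' :=
    fun i j j' h1 h2 => unique hA hβ hδ hε hn h h'.rich h1 h2
  have hun' : ∀ i i' j, δ * n ≤ ((S cls cls' U i j).card : ℝ) →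
      δ * n ≤ ((S cls cls' U i' j).card : ℝ) → i = i' := by
    intro i i' j h1 h2
    rw [S_comm] at h1 h2
    exact unique hA' hβ hδ hε hn h' h.rich h1 h2
  have hex : ∀ i, ∃ j, i < p → (j < p' ∧ δ * n ≤ ((S cls cls' U i j).card : ℝ)) := by
    intro i
    by_cases hi : i < p
    · obtain ⟨j, hj⟩ := exists_large hK hp hpK hpK' hU hδ hη hδ1 hn h h'.lt hi
      exact ⟨j, fun _ => hj⟩
    · exact ⟨0, fun h1 => absurd h1 hi⟩
  have hex' : ∀ j, ∃ i, j < p' → (i < p ∧ δ * n ≤ ((S cls cls' U i j).card : ℝ)) := by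
    intro j
    by_cases hj : j < p'
    · obtain ⟨i, hi⟩ := exists_large hK hp' hpK' hpK hU hδ hη hδ1 hn h' h.lt hj
      rw [S_comm] at hi
      exact ⟨i, fun _ => hi⟩
    · exact ⟨0, fun h1 => absurd h1 hj⟩
  choose π hπ using hex
  choose σ hσ using hex'
  have hinj : ∀ i j, i < p → j < p → π i = π j → i = j := by
    intro i j hi hj hij
    have h1 := (hπ i hi).2
    rw [hij] at h1
    exact hun' i j (π j) h1 (hπ j hj).2
  have hinj' : ∀ i j, i < p' → j < p' → σ i = σ j → i = j := by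
    intro i j hi hj hij
    have h1 := (hσ i hi).2
    rw [hij] at h1
    exact hun (σ j) i j h1 (hσ j hj).2
  have hpp : p = p' := by
    apply le_antisymm
    · have := Finset.card_le_card_of_injOn (s := Finset.range p) (t := Finset.range p') π
        (fun i hi => by
          rw [Finset.mem_coe, Finset.mem_range] at hi ⊢
          exact (hπ i hi).1)
        (fun i hi j hj hij => by
          rw [Finset.mem_coe, Finset.mem_range] at hi hj
          exact hinj i j hi hj hij)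
      rwa [Finset.card_range, Finset.card_range] at this
    · have := Finset.card_le_card_of_injOn (s := Finset.range p') (t := Finset.range p) σ
        (fun i hi => by
          rw [Finset.mem_coe, Finset.mem_range] at hi ⊢
          exact (hσ i hi).1)
        (fun i hi j hj hij => by
          rw [Finset.mem_coe, Finset.mem_range] at hi hj
          exact hinj' i j hi hj hij)
      rwa [Finset.card_range, Finset.card_range] at this
  have hAA : A = A' := by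
    apply Finset.Subset.antisymm
    · intro a ha
      by_contra ha'
      have h1 := (hπ 0 (by omega)).2
      refine core hβ hδ hε hn h.rich h'.inside (i := 0) (j := 0) (X := S cls cls' U 0 (π 0))
        (Y := S cls cls' U 0 (π 0)) ?_ ?_ ?_ h1 h1 (Or.inr ha) ha'
      · intro x hx
        rw [mem_S] at hx
        exact ⟨hx.1, hx.2.1⟩
      · intro x hx
        rw [mem_S] at hx
        exact ⟨hx.1, hx.2.1⟩
      · intro x hx y hy
        rw [mem_S] at hx hy
        rw [hx.2.2, hy.2.2]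
    · intro a ha
      by_contra ha'
      have h1 := (hπ 0 (by omega)).2
      refine core hβ hδ hε hn h'.rich h.inside (i := π 0) (j := π 0)
        (X := S cls cls' U 0 (π 0))
        (Y := S cls cls' U 0 (π 0)) ?_ ?_ ?_ h1 h1 (Or.inr ha) ha'
      · intro x hx
        rw [mem_S] at hx
        exact ⟨hx.1, hx.2.2⟩
      · intro x hx
        rw [mem_S] at hx
        exact ⟨hx.1, hx.2.2⟩
      · intro x hx y hy
        rw [mem_S] at hx hy
        rw [hx.2.1, hy.2.1]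
  refine ⟨hpp, hAA, π, ?_, hinj, ?_⟩
  · intro i hi
    rw [hpp]
    exact (hπ i hi).1
  · intro i hi
    obtain ⟨h1, h2⟩ := hπ i hi
    constructor
    · refine almost_sub hpK' hU hK hn h'.lt fun j' hj' => ?_
      by_contra hcon
      push Not at hcon
      exact hj' (hun i j' (π i) hcon h2)
    · have h3 : ∑ x, ind (cls x ≠ i ∧ cls' x = π i) = ∑ x, ind (cls' x = π i ∧ cls x ≠ i) :=
        Finset.sum_congr rfl fun x _ => ind_congr (by tauto)
      rw [h3]
      refine almost_sub hpK hU hK hn h.lt fun i' hi' => ?_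
      by_contra hcon
      push Not at hcon
      rw [S_comm] at hcon
      exact hi' (hun' i' i (π i) hcon h2)

end Pool.Agent.TH883.J646
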