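import Mathlib
set_option autoImplicit false

namespace Pool.Agent.TH77.AN
open LieAlgebra

theorem j880_prime_bracket {L : Type*} [LieRing L] [LieAlgebra ℝ L] {I A B : LieIdeal ℝ L}
    (hco : IsCoatom I) (hperf : ¬ ⁅(⊤ : LieIdeal ℝ L), (⊤ : LieIdeal ℝ L)⁆ ≤ I)
    (h : ⁅A, B⁆ ≤ I) : A ≤ I ∨ B ≤ I := by
  by_contra hn
  push Not at hn
  obtain ⟨hA, hB⟩ := hn
  have h1 : A ⊔ I = ⊤ := by
    refine (hco.2 _ ?_)
    exact right_lt_sup.2 hA
  have h2 : B ⊔ I = ⊤ := by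
    refine (hco.2 _ ?_)
    exact right_lt_sup.2 hB
  apply hperf
  calc ⁅(⊤ : LieIdeal ℝ L), (⊤ : LieIdeal ℝ L)⁆ = ⁅A ⊔ I, B ⊔ I⁆ := by rw [h1, h2]
    _ ≤ I := by
      rw [LieSubmodule.sup_lie, LieSubmodule.lie_sup, sup_le_iff, sup_le_iff]
      refine ⟨⟨h, ?_⟩, ?_⟩
      · exact LieSubmodule.lie_le_right I A
      · exact LieSubmodule.lie_le_left I _

theorem j880_prime_inf {L : Type*} [LieRing L] [LieAlgebra ℝ L] {I A B : LieIdeal ℝ L}
    (hco : IsCoatom I) (hperf : ¬ ⁅(⊤ : LieIdeal ℝ L), (⊤ : LieIdeal ℝ L)⁆ ≤ I)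
    (h : A ⊓ B ≤ I) : A ≤ I ∨ B ≤ I :=
  j880_prime_bracket hco hperf (le_trans (LieSubmodule.lie_le_inf A B) h)

theorem j880_not_inf_le {L : Type*} [LieRing L] [LieAlgebra ℝ L] {I : LieIdeal ℝ L}
    (hco : IsCoatom I) (hperf : ¬ ⁅(⊤ : LieIdeal ℝ L), (⊤ : LieIdeal ℝ L)⁆ ≤ I)
    (h : LieIdeal ℝ L) (hh : ¬ h ≤ I) (S : Finset (LieIdeal ℝ L))
    (hS : ∀ J ∈ S, ¬ J ≤ I) : ¬ h ⊓ S.inf id ≤ I := by
  classical
  induction S using Finset.induction_on with
  | empty =>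
    intro h1
    rw [Finset.inf_empty, inf_top_eq] at h1
    exact hh h1
  | insert J S _ ih =>
    intro h1
    rw [Finset.inf_insert, id, inf_left_comm] at h1
    rcases j880_prime_inf hco hperf h1 with h2 | h2
    · exact hS J (Finset.mem_insert_self _ _) h2
    · exact ih (fun K hK => hS K (Finset.mem_insert_of_mem hK)) h2

/-- JOB E1. Chinese remainder theorem for maximal ideals with non-abelian quotient. -/
theorem crt {L : Type*} [LieRing L] [LieAlgebra ℝ L] (S : Finset (LieIdeal ℝ L))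
    (hco : ∀ I ∈ S, IsCoatom I)
    (hperf : ∀ I ∈ S, ¬ ⁅(⊤ : LieIdeal ℝ L), (⊤ : LieIdeal ℝ L)⁆ ≤ I) (h : LieIdeal ℝ L)
    (hh : ⁅(⊤ : LieIdeal ℝ L), (⊤ : LieIdeal ℝ L)⁆ ≤ h) (c : LieIdeal ℝ L → L) :
    ∃ x ∈ h, ∀ I ∈ S, x - c I ∈ I := by
  classical
  have key : ∀ I : LieIdeal ℝ L, ∃ x : L, I ∈ S → x ∈ h ⊓ (S.erase I).inf id ∧ x - c I ∈ I := by
    intro I
    by_cases hI : I ∈ S
    · have h1 : ¬ h ⊓ (S.erase I).inf id ≤ I := by
        refine j880_not_inf_le (hco I hI) (hperf I hI) h (fun h2 => hperf I hI (hh.trans h2)) _ ?_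
        intro J hJ hle
        rw [Finset.mem_erase] at hJ
        rcases (hco J hJ.2).le_iff.1 hle with h2 | h2
        · exact (hco I hI).1 h2
        · exact hJ.1 h2.symm
      have h2 : (h ⊓ (S.erase I).inf id) ⊔ I = ⊤ := (hco I hI).2 _ (right_lt_sup.2 h1)
      have h3 : c I ∈ (h ⊓ (S.erase I).inf id) ⊔ I := by
        rw [h2]
        exact LieSubmodule.mem_top _
      rw [LieSubmodule.mem_sup] at h3
      obtain ⟨x, hx, y, hy, hxy⟩ := h3
      refine ⟨x, fun _ => ⟨hx, ?_⟩⟩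
      have h4 : x - c I = -y := by rw [← hxy]; abel
      rw [h4]
      exact neg_mem hy
    · exact ⟨0, fun h1 => absurd h1 hI⟩
  choose x hx using key
  refine ⟨∑ I ∈ S, x I, ?_, ?_⟩
  · refine sum_mem fun I hI => ?_
    exact ((LieSubmodule.mem_inf _ _ _).1 (hx I hI).1).1
  · intro I hI
    rw [← Finset.add_sum_erase S x hI]
    have h1 : x I + ∑ J ∈ S.erase I, x J - c I = (x I - c I) + ∑ J ∈ S.erase I, x J := by abel
    rw [h1]
    refine add_mem (hx I hI).2 (sum_mem fun J hJ => ?_)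
    have h2 := ((LieSubmodule.mem_inf _ _ _).1 (hx J (Finset.mem_of_mem_erase hJ)).1).2
    have h3 : (S.erase J).inf id ≤ I := by
      refine Finset.inf_le (f := id) ?_
      rw [Finset.mem_erase]
      exact ⟨fun h4 => (Finset.ne_of_mem_erase hJ) h4.symm, hI⟩
    exact h3 h2

/-- the quotient map -/
def j880_pr {L : Type*} [LieRing L] [LieAlgebra ℝ L] (R : LieIdeal ℝ L) : L →ₗ⁅ℝ⁆ L ⧸ R :=
  { (LieSubmodule.Quotient.mk' R : L →ₗ[ℝ] L ⧸ R) with
    map_lie' := fun {_ _} => rfl }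

theorem j880_pr_surj {L : Type*} [LieRing L] [LieAlgebra ℝ L] (R : LieIdeal ℝ L) :
    Function.Surjective (j880_pr R) :=
  LieSubmodule.Quotient.surjective_mk' R

theorem j880_pr_eq_zero {L : Type*} [LieRing L] [LieAlgebra ℝ L] (R : LieIdeal ℝ L) (x : L) :
    j880_pr R x = 0 ↔ x ∈ R :=
  LieSubmodule.Quotient.mk_eq_zero R

theorem j880_derived_le_comap {L : Type*} [LieRing L] [LieAlgebra ℝ L] (R : LieIdeal ℝ L)
    (I : LieIdeal ℝ (L ⧸ R)) (k : ℕ) :
    derivedSeriesOfIdeal ℝ L k (I.comap (j880_pr R))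
      ≤ (derivedSeriesOfIdeal ℝ (L ⧸ R) k I).comap (j880_pr R) := by
  induction k with
  | zero => exact le_rfl
  | succ k ih =>
    rw [derivedSeriesOfIdeal_succ, derivedSeriesOfIdeal_succ]
    exact (LieSubmodule.mono_lie ih ih).trans (LieIdeal.comap_bracket_le _)

theorem j880_trivial_radical_quot {L : Type*} [LieRing L] [LieAlgebra ℝ L] [FiniteDimensional ℝ L] :
    HasTrivialRadical ℝ (L ⧸ radical ℝ L) := by
  rw [hasTrivialRadical_iff_no_solvable_ideals]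
  intro I hI
  obtain ⟨k, hk⟩ := (LieAlgebra.isSolvable_iff ℝ I).1 hI
  rw [LieIdeal.derivedSeries_eq_bot_iff] at hk
  obtain ⟨m, hm⟩ := IsSolvable.solvable ℝ (radical ℝ L)
  rw [LieIdeal.derivedSeries_eq_bot_iff] at hm
  have h1 : derivedSeriesOfIdeal ℝ L k (I.comap (j880_pr (radical ℝ L))) ≤ radical ℝ L := by
    refine (j880_derived_le_comap (radical ℝ L) I k).trans ?_
    rw [hk]
    intro x hx
    rw [LieIdeal.mem_comap, LieSubmodule.mem_bot, j880_pr_eq_zero] at hx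
    exact hx
  have h2 : derivedSeriesOfIdeal ℝ L (m + k) (I.comap (j880_pr (radical ℝ L))) = ⊥ := by
    rw [derivedSeriesOfIdeal_add]
    have := derivedSeriesOfIdeal_mono h1 m
    rw [hm] at this
    exact le_bot_iff.1 this
  have h3 : IsSolvable (I.comap (j880_pr (radical ℝ L))) := by
    refine IsSolvable.mk (R := ℝ) (k := m + k) ?_
    rw [LieIdeal.derivedSeries_eq_bot_iff]
    exact h2
  have h4 : I.comap (j880_pr (radical ℝ L)) ≤ radical ℝ L := (LieIdeal.solvable_iff_le_radical ℝ L _).1 h3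
  rw [eq_bot_iff]
  intro y hy
  obtain ⟨x, rfl⟩ := j880_pr_surj _ y
  have : x ∈ I.comap (j880_pr (radical ℝ L)) := by rw [LieIdeal.mem_comap]; exact hy
  rw [LieSubmodule.mem_bot, j880_pr_eq_zero]
  exact h4 this

/-- JOB E2. In a finite-dimensional real Lie algebra, an element outside the radical is outside
some maximal ideal with non-abelian quotient. -/
theorem exists_coatom {L : Type*} [LieRing L] [LieAlgebra ℝ L] [FiniteDimensional ℝ L]
    (v : L) (hv : v ∉ radical ℝ L) : ∃ I : LieIdeal ℝ L, IsCoatom I ∧ v ∉ I ∧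
      ¬ ⁅(⊤ : LieIdeal ℝ L), (⊤ : LieIdeal ℝ L)⁆ ≤ I ∧ radical ℝ L ≤ I := by
  set R := radical ℝ L with hR
  have htr : HasTrivialRadical ℝ (L ⧸ R) := j880_trivial_radical_quot
  have hkil : IsKilling ℝ (L ⧸ R) := inferInstance
  have hss : IsSemisimple ℝ (L ⧸ R) := inferInstance
  have hcomp : ComplementedLattice (LieIdeal ℝ (L ⧸ R)) :=
    complementedLattice_of_sSup_atoms_eq_top IsSemisimple.sSup_atoms_eq_top
  have hv0 : j880_pr R v ≠ 0 := fun h => hv ((j880_pr_eq_zero R v).1 h)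
  have hsp : LieSubmodule.lieSpan ℝ (L ⧸ R) {j880_pr R v} ≠ ⊥ := by
    intro h
    have h1 : j880_pr R v ∈ LieSubmodule.lieSpan ℝ (L ⧸ R) {j880_pr R v} :=
      LieSubmodule.subset_lieSpan rfl
    rw [h, LieSubmodule.mem_bot] at h1
    exact hv0 h1
  obtain ⟨A, hA, hAle⟩ := (eq_bot_or_exists_atom_le
    (LieSubmodule.lieSpan ℝ (L ⧸ R) {j880_pr R v})).resolve_left hsp
  obtain ⟨C, hC⟩ := exists_isCompl A
  have hCc : IsCoatom C := hC.isAtom_iff_isCoatom.1 hA
  have hAC : ¬ A ≤ C := by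
    intro h
    have h1 := hC.disjoint.eq_bot
    rw [inf_eq_left.2 h] at h1
    exact hA.1 h1
  have hvC : j880_pr R v ∉ C := by
    intro h
    apply hAC
    refine hAle.trans ?_
    rw [LieSubmodule.lieSpan_le, Set.singleton_subset_iff]
    exact h
  have hRI : R ≤ LieIdeal.comap (j880_pr R) C := by
    intro x hx
    rw [LieIdeal.mem_comap, (j880_pr_eq_zero R x).2 hx]
    exact C.zero_mem
  have hvI : v ∉ LieIdeal.comap (j880_pr R) C := by
    rw [LieIdeal.mem_comap]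
    exact hvC
  refine ⟨LieIdeal.comap (j880_pr R) C, ⟨?_, ?_⟩, hvI, ?_, hRI⟩
  · intro h
    rw [h] at hvI
    exact hvI (LieSubmodule.mem_top _)
  · intro J hJ
    have h1 : C < LieIdeal.map (j880_pr R) J := by
      refine lt_of_le_of_ne ?_ ?_
      · intro y hy
        obtain ⟨x, rfl⟩ := j880_pr_surj R y
        refine LieIdeal.mem_map (hJ.le ?_)
        rw [LieIdeal.mem_comap]
        exact hy
      · intro h
        apply not_le_of_gt hJ
        intro x hx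
        rw [LieIdeal.mem_comap, h]
        exact LieIdeal.mem_map hx
    have h2 := hCc.2 _ h1
    rw [eq_top_iff]
    intro x _
    have h3 : j880_pr R x ∈ LieIdeal.map (j880_pr R) J := by
      rw [h2]
      exact LieSubmodule.mem_top _
    obtain ⟨z, hz⟩ := LieIdeal.mem_map_of_surjective (j880_pr_surj R) h3
    have h4 : x - z ∈ R := by
      rw [← j880_pr_eq_zero, map_sub, hz, sub_self]
    have h5 : x = (x - z) + z := by abel
    rw [h5]
    exact add_mem (hJ.le (hRI h4)) z.2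
  · intro h
    apply IsSemisimple.non_abelian_of_isAtom A hA
    constructor
    intro a b
    have h1 : ⁅(a : L ⧸ R), (b : L ⧸ R)⁆ = 0 := by
      obtain ⟨x, hx⟩ := j880_pr_surj R a
      obtain ⟨y, hy⟩ := j880_pr_surj R b
      have h2 : ⁅x, y⁆ ∈ LieIdeal.comap (j880_pr R) C :=
        h (LieSubmodule.lie_mem_lie (LieSubmodule.mem_top _) (LieSubmodule.mem_top _))
      rw [LieIdeal.mem_comap, LieHom.map_lie, hx, hy] at h2
      have h3 : ⁅(a : L ⧸ R), (b : L ⧸ R)⁆ ∈ A := lie_mem_right ℝ _ A a b b.2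
      have h4 : ⁅(a : L ⧸ R), (b : L ⧸ R)⁆ ∈ A ⊓ C := (LieSubmodule.mem_inf _ _ _).2 ⟨h3, h2⟩
      rw [hC.disjoint.eq_bot, LieSubmodule.mem_bot] at h4
      exact h4
    apply Subtype.ext
    exact h1

end Pool.Agent.TH77.AN
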