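import Pool.Agent.TH62.PL.Stms
set_option autoImplicit false
open Pool.Agent.TH62.PL
open scoped BigOperators commutatorElement

namespace Pool.Agent.TH883.J725

/-- in a finite nilpotent group the commutator subgroup consists of non-generators -/
theorem nil_gen {P : Type*} [Group P] [Finite P] [Group.IsNilpotent P] (H : Subgroup P)
    (h : commutator P ⊔ H = ⊤) : H = ⊤ := by
  rcases eq_top_or_exists_le_coatom H with h1 | ⟨M, hM, hHM⟩
  · exact h1
  · exfalso
    haveI hn : M.Normal :=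
      Subgroup.NormalizerCondition.normal_of_coatom M Group.normalizerCondition_of_isNilpotent hM
    have h2 : commutator P ⊔ M = ⊤ := top_le_iff.1 (h ▸ sup_le_sup le_rfl hHM)
    haveI : Nontrivial (P ⧸ M) := QuotientGroup.nontrivial_iff.2 hM.1
    have h3 := IsSolvable.commutator_lt_top_of_nontrivial (G := P ⧸ M)
    have hs : Function.Surjective (QuotientGroup.mk' M) := QuotientGroup.mk'_surjective M
    have h4 : commutator (P ⧸ M) = ⊤ := by
      have h5 := congrArg (Subgroup.map (QuotientGroup.mk' M)) h2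
      rw [Subgroup.map_sup, Subgroup.map_top_of_surjective _ hs, QuotientGroup.map_mk'_self,
        sup_bot_eq, commutator_def, Subgroup.map_commutator,
        Subgroup.map_top_of_surjective _ hs, ← commutator_def] at h5
      exact h5
    exact h3.ne h4

section

variable {G k V : Type} [Group G] [Field k] [AddCommGroup V] [Module k V]

theorem DS_normal (i : ℕ) : (DS (⊤ : Subgroup G) i).Normal := by
  induction i with
  | zero => exact inferInstanceAs (⊤ : Subgroup G).Normal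
  | succ i ih =>
    haveI := ih
    exact Subgroup.commutator_normal _ _

theorem DS_le (i : ℕ) : DS (⊤ : Subgroup G) (i + 1) ≤ DS (⊤ : Subgroup G) i :=
  Subgroup.commutator_le_self _

theorem mem_cm {ρ : G →* Module.End k V} {W : Submodule k V} {D : Subgroup G} {g : G}
    (hg : g ∈ D) {w : V} (hw : w ∈ W) : ρ g w - w ∈ cm ρ W D :=
  Submodule.subset_span ⟨g, hg, w, hw, rfl⟩

theorem rho_mul (ρ : G →* Module.End k V) (a b : G) (v : V) : ρ (a * b) v = ρ a (ρ b v) := by
  rw [map_mul]; rfl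

theorem rho_inv_self (ρ : G →* Module.End k V) (a : G) (v : V) : ρ a⁻¹ (ρ a v) = v := by
  rw [← rho_mul, inv_mul_cancel, map_one]; rfl

theorem rho_self_inv (ρ : G →* Module.End k V) (a : G) (v : V) : ρ a (ρ a⁻¹ v) = v := by
  rw [← rho_mul, mul_inv_cancel, map_one]; rfl

/-- `[V, N]` is invariant -/
theorem cm_inv (ρ : G →* Module.End k V) (N : Subgroup G) (hN : N.Normal) (g : G) :
    cm ρ ⊤ N ≤ (cm ρ ⊤ N).comap (ρ g) := by
  refine Submodule.span_le.2 ?_
  rintro _ ⟨n, hn, w, _, rfl⟩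
  show ρ g (ρ n w - w) ∈ cm ρ ⊤ N
  have h1 : ρ g (ρ n w - w) = ρ (g * n * g⁻¹) (ρ g w) - ρ g w := by
    rw [map_sub, ← rho_mul, ← rho_mul]
    congr 3
    group
  rw [h1]
  exact mem_cm (hN.conj_mem n hn g) Submodule.mem_top

/-- `(D_j - 1) V ≤ V_j` -/
theorem lemma0 (ρ : G →* Module.End k V) : ∀ j : ℕ, ∀ g ∈ DS (⊤ : Subgroup G) j, ∀ v : V,
    ρ g v - v ∈ VC ρ (DS (⊤ : Subgroup G)) ⊤ j
  | 0 => fun _ _ _ => Submodule.mem_top
  | j + 1 => by
    have ih := lemma0 ρ j
    set W := VC ρ (DS (⊤ : Subgroup G)) ⊤ (j + 1) with hW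
    let S : Subgroup G :=
      { carrier := {g | ∀ v : V, ρ g v - v ∈ W}
        mul_mem' := by
          intro a b ha hb v
          have e : ρ (a * b) v - v = (ρ a (ρ b v) - ρ b v) + (ρ b v - v) := by
            rw [rho_mul]; abel
          rw [e]
          exact W.add_mem (ha _) (hb _)
        one_mem' := by
          intro v
          rw [map_one]
          show v - v ∈ W
          rw [sub_self]
          exact W.zero_mem
        inv_mem' := by
          intro a ha v
          have e : ρ a⁻¹ v - v = -(ρ a (ρ a⁻¹ v) - ρ a⁻¹ v) := by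
            rw [rho_self_inv]; abel
          rw [e]
          exact W.neg_mem (ha _) }
    have hS : DS (⊤ : Subgroup G) (j + 1) ≤ S := by
      refine Subgroup.commutator_le.2 fun a ha b hb => ?_
      intro v
      set u := ρ (b * a)⁻¹ v with hu
      have hv : v = ρ (b * a) u := (rho_self_inv ρ _ v).symm
      have e1 : ρ ⁅a, b⁆ v = ρ (a * b) u := by
        conv_lhs => rw [hv]
        rw [← rho_mul]
        congr 2
        rw [commutatorElement_def]
        group
      have e2 : ρ ⁅a, b⁆ v - v = (ρ a (ρ b u - u) - (ρ b u - u)) -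
          (ρ b (ρ a u - u) - (ρ a u - u)) := by
        rw [e1]
        conv_lhs => rw [hv]
        rw [rho_mul, rho_mul, map_sub, map_sub]
        abel
      rw [e2]
      exact W.sub_mem (mem_cm ha (ih b hb u)) (mem_cm hb (ih a ha u))
    intro g hg v
    exact hS hg v

variable {Ω : Type} [Fintype Ω] [MulAction G Ω] {ρ : G →* Module.End k V}
  {e : Ω → Module.End k V}

theorem equi_apply (h : PS ρ e) (g : G) (ω : Ω) (v : V) : ρ g (e ω v) = e (g • ω) (ρ g v) := by
  have := LinearMap.congr_fun (h.equi g ω) v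
  exact this

theorem idem_apply (h : PS ρ e) (ω : Ω) (v : V) : e ω (e ω v) = e ω v := by
  have := LinearMap.congr_fun (h.idem ω) v
  exact this

theorem orth_apply (h : PS ρ e) {ω ω' : Ω} (hne : ω ≠ ω') (v : V) : e ω (e ω' v) = 0 := by
  have := LinearMap.congr_fun (h.orth ω ω' hne) v
  exact this

theorem sum_apply (h : PS ρ e) (v : V) : ∑ ω, e ω v = v := by
  have := LinearMap.congr_fun h.sum v
  rw [LinearMap.sum_apply] at this
  exact this

theorem e_ne_zero [Nontrivial V] [MulAction.IsPretransitive G Ω] (h : PS ρ e) (ω : Ω) :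
    e ω ≠ 0 := by
  intro h0
  obtain ⟨v, hv⟩ := exists_ne (0 : V)
  apply hv
  rw [← sum_apply h v]
  refine Finset.sum_eq_zero fun ω' _ => ?_
  obtain ⟨g, hg⟩ := MulAction.exists_smul_eq G ω ω'
  have h1 := equi_apply h g ω (ρ g⁻¹ v)
  rw [h0, hg, rho_self_inv] at h1
  rw [← h1]
  simp

theorem fix_of_one (h : PS ρ e) {ω : Ω} (hne : e ω ≠ 0) {g : G} (hg : ∀ v, ρ g v = v) :
    g • ω = ω := by
  by_contra hcon
  apply hne
  ext v
  have h1 := equi_apply h g ω v
  rw [hg, hg] at h1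
  rw [← idem_apply h, h1, LinearMap.zero_apply]
  have h2 := orth_apply h (Ne.symm hcon) v
  have h3 : e ω (e ω v) = e ω (e (g • ω) v) := by rw [h1]
  rw [← h1, h3, h2]

/-- if `x` lies in the block `ω` then `g x` has no component in other blocks than `g ω` -/
theorem e_rho_eq_zero (h : PS ρ e) {ω ω' : Ω} {x : V} (hx : e ω x = x) {g : G}
    (hne : g • ω ≠ ω') : e ω' (ρ g x) = 0 := by
  rw [← hx, equi_apply h]
  exact orth_apply h (Ne.symm hne) _

theorem sum_mul_sum' (h : PS ρ e) [DecidableEq Ω] (S T : Finset Ω) :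
    (∑ ω ∈ S, e ω) * (∑ ω ∈ T, e ω) = ∑ ω ∈ S ∩ T, e ω := by
  rw [Finset.sum_mul_sum, ← Finset.filter_mem_eq_inter, Finset.sum_filter]
  refine Finset.sum_congr rfl fun ω _ => ?_
  by_cases hω : ω ∈ T
  · rw [if_pos hω, Finset.sum_eq_single_of_mem ω hω]
    · exact h.idem ω
    · intro ω' _ hne
      exact h.orth _ _ (Ne.symm hne)
  · rw [if_neg hω]
    refine Finset.sum_eq_zero fun ω' hω' => ?_
    refine h.orth _ _ ?_
    rintro rfl
    exact hω hω'

/-! ### the orbits of a normal subgroup -/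

variable (Ω) in
/-- the orbit relation of `N` -/
def ns (N : Subgroup G) : Setoid Ω where
  r a b := ∃ n ∈ N, n • a = b
  iseqv :=
    { refl := fun a => ⟨1, N.one_mem, one_smul _ _⟩
      symm := by
        rintro a b ⟨n, hn, rfl⟩
        exact ⟨n⁻¹, N.inv_mem hn, inv_smul_smul _ _⟩
      trans := by
        rintro a b c ⟨n, hn, rfl⟩ ⟨m, hm, rfl⟩
        exact ⟨m * n, N.mul_mem hm hn, mul_smul _ _ _⟩ }

variable (Ω) in
/-- the set of orbits -/
def OQ (N : Subgroup G) : Type := Quotient (ns Ω N)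

/-- the class of a point -/
def cl (N : Subgroup G) (ω : Ω) : OQ Ω N := Quotient.mk _ ω

theorem cl_eq_iff {N : Subgroup G} {ω ω' : Ω} : cl N ω = cl N ω' ↔ ∃ n ∈ N, n • ω = ω' :=
  Quotient.eq (r := ns Ω N)

theorem cl_surj (N : Subgroup G) (Δ : OQ Ω N) : ∃ ω, cl N ω = Δ := Quotient.exists_rep Δ

noncomputable instance (N : Subgroup G) : Fintype (OQ Ω N) := by
  haveI : Finite (OQ Ω N) := Finite.of_surjective (cl (Ω := Ω) N) (fun Δ => cl_surj N Δ)
  exact Fintype.ofFinite _

/-- the action on the set of orbits -/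
def actQ (N : Subgroup G) (hN : N.Normal) : MulAction G (OQ Ω N) where
  smul g := Quotient.map (fun ω => g • ω) (by
    rintro a b ⟨n, hn, rfl⟩
    refine ⟨g * n * g⁻¹, hN.conj_mem n hn g, ?_⟩
    rw [← mul_smul, ← mul_smul]
    congr 1
    group)
  one_smul := by
    rintro ⟨ω⟩
    show cl N ((1 : G) • ω) = cl N ω
    rw [one_smul]
  mul_smul := by
    rintro a b ⟨ω⟩
    show cl N ((a * b) • ω) = cl N (a • b • ω)
    rw [mul_smul]

theorem smul_cl (N : Subgroup G) (hN : N.Normal) (g : G) (ω : Ω) :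
    (actQ (Ω := Ω) N hN).toSMul.smul g (cl N ω) = cl N (g • ω) := rfl

open Classical in
/-- the sum of the idempotents of an orbit -/
noncomputable def eQ (e : Ω → Module.End k V) (N : Subgroup G) (Δ : OQ Ω N) : Module.End k V :=
  ∑ ω ∈ Finset.univ.filter (fun ω => cl N ω = Δ), e ω

theorem eQ_idem (h : PS ρ e) (N : Subgroup G) (Δ : OQ Ω N) : eQ e N Δ * eQ e N Δ = eQ e N Δ := by
  classical
  unfold eQ
  rw [sum_mul_sum' h, Finset.inter_self]

theorem eQ_orth (h : PS ρ e) (N : Subgroup G) (Δ Δ' : OQ Ω N) (hne : Δ ≠ Δ') :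
    eQ e N Δ * eQ e N Δ' = 0 := by
  classical
  unfold eQ
  rw [sum_mul_sum' h]
  refine Finset.sum_eq_zero fun ω hω => ?_
  rw [Finset.mem_inter, Finset.mem_filter, Finset.mem_filter] at hω
  exact absurd (hω.1.2.symm.trans hω.2.2) hne

theorem eQ_sum (h : PS ρ e) (N : Subgroup G) : ∑ Δ : OQ Ω N, eQ e N Δ = 1 := by
  classical
  unfold eQ
  rw [Finset.sum_fiberwise (f := e) (g := cl N)]
  exact h.sum

theorem eQ_equi (h : PS ρ e) (N : Subgroup G) (hN : N.Normal) (g : G) (ω₀ : Ω) :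
    ρ g * eQ e N (cl N ω₀) = eQ e N (cl N (g • ω₀)) * ρ g := by
  classical
  unfold eQ
  rw [Finset.mul_sum, Finset.sum_mul]
  have key : ∀ (g : G) (ω ω₀ : Ω), cl N ω = cl N ω₀ → cl N (g • ω) = cl N (g • ω₀) := by
    intro g ω ω₀ hω
    rw [cl_eq_iff] at hω ⊢
    obtain ⟨n, hn, rfl⟩ := hω
    refine ⟨g * n * g⁻¹, hN.conj_mem n hn g, ?_⟩
    rw [← mul_smul, ← mul_smul]
    congr 1
    group
  refine Finset.sum_nbij' (fun ω => g • ω) (fun ω => g⁻¹ • ω) ?_ ?_ ?_ ?_ ?_
  · intro ω hω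
    rw [Finset.mem_filter] at hω ⊢
    exact ⟨Finset.mem_univ _, key g _ _ hω.2⟩
  · intro ω hω
    rw [Finset.mem_filter] at hω ⊢
    refine ⟨Finset.mem_univ _, ?_⟩
    have := key g⁻¹ _ _ hω.2
    rwa [inv_smul_smul] at this
  · intro ω _
    exact inv_smul_smul _ _
  · intro ω _
    exact smul_inv_smul _ _
  · intro ω _
    exact h.equi g ω

theorem eQ_comm (h : PS ρ e) (N : Subgroup G) (hN : N.Normal) {n : G} (hn : n ∈ N)
    (Δ : OQ Ω N) (v : V) : eQ e N Δ (ρ n v) = ρ n (eQ e N Δ v) := by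
  obtain ⟨ω, rfl⟩ := cl_surj N Δ
  have h1 : cl N (n • ω) = cl N ω := cl_eq_iff.2 ⟨n⁻¹, N.inv_mem hn, inv_smul_smul _ _⟩
  have h2 := eQ_equi h N hN n ω
  rw [h1] at h2
  have := LinearMap.congr_fun h2 v
  exact this.symm

/-! ### the quotient module -/

/-- the quotient representation -/
def rq (ρ : G →* Module.End k V) (W : Submodule k V) (hW : ∀ g, W ≤ W.comap (ρ g)) :
    G →* Module.End k (V ⧸ W) where
  toFun g := W.mapQ W (ρ g) (hW g)
  map_one' := by
    apply Submodule.linearMap_qext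
    ext v
    show Submodule.Quotient.mk (ρ 1 v) = Submodule.Quotient.mk v
    rw [map_one]
    rfl
  map_mul' := by
    intro a b
    apply Submodule.linearMap_qext
    ext v
    show Submodule.Quotient.mk (ρ (a * b) v) = Submodule.Quotient.mk (ρ a (ρ b v))
    rw [rho_mul]

theorem rq_mk (W : Submodule k V) (hW : ∀ g, W ≤ W.comap (ρ g)) (g : G) (v : V) :
    rq ρ W hW g (Submodule.Quotient.mk v) = Submodule.Quotient.mk (ρ g v) := rfl

theorem VC_quot (W : Submodule k V) (hW : ∀ g, W ≤ W.comap (ρ g)) (D : ℕ → Subgroup G) :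
    ∀ j : ℕ, VC (rq ρ W hW) D ⊤ j ≤ (VC ρ D ⊤ j).map W.mkQ
  | 0 => by
    show (⊤ : Submodule k (V ⧸ W)) ≤ (⊤ : Submodule k V).map W.mkQ
    rw [Submodule.map_top, Submodule.range_mkQ]
  | j + 1 => by
    have ih := VC_quot W hW D j
    refine Submodule.span_le.2 ?_
    rintro _ ⟨g, hg, w, hw, rfl⟩
    obtain ⟨v, hv, rfl⟩ := ih hw
    exact ⟨ρ g v - v, mem_cm hg hv, rfl⟩

theorem PS_quot (h : PS ρ e) (N : Subgroup G) (hN : N.Normal)
    (hE : ∀ Δ : OQ Ω N, cm ρ ⊤ N ≤ (cm ρ ⊤ N).comap (eQ e N Δ)) :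
    letI := actQ (Ω := Ω) N hN
    PS (rq ρ (cm ρ ⊤ N) (cm_inv ρ N hN)) (fun Δ => (cm ρ ⊤ N).mapQ (cm ρ ⊤ N) (eQ e N Δ) (hE Δ)) := by
  letI := actQ (Ω := Ω) N hN
  refine ⟨?_, ?_, ?_, ?_⟩
  · intro Δ
    apply Submodule.linearMap_qext
    ext v
    show Submodule.Quotient.mk (eQ e N Δ (eQ e N Δ v)) = Submodule.Quotient.mk (eQ e N Δ v)
    congr 1
    exact LinearMap.congr_fun (eQ_idem h N Δ) v
  · intro Δ Δ' hne
    apply Submodule.linearMap_qext
    ext v
    show Submodule.Quotient.mk (eQ e N Δ (eQ e N Δ' v)) = (0 : V ⧸ cm ρ ⊤ N)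
    have := LinearMap.congr_fun (eQ_orth h N Δ Δ' hne) v
    have h2 : eQ e N Δ (eQ e N Δ' v) = 0 := this
    rw [h2]
    rfl
  · apply Submodule.linearMap_qext
    ext v
    rw [LinearMap.comp_apply, LinearMap.sum_apply]
    have h1 : ∀ Δ : OQ Ω N, ((cm ρ ⊤ N).mapQ (cm ρ ⊤ N) (eQ e N Δ) (hE Δ))
        ((cm ρ ⊤ N).mkQ v) = (cm ρ ⊤ N).mkQ (eQ e N Δ v) := fun Δ => rfl
    simp only [h1]
    rw [← map_sum]
    have h2 := LinearMap.congr_fun (eQ_sum h N) v
    rw [LinearMap.sum_apply] at h2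
    rw [h2]
    rfl
  · intro g Δ
    obtain ⟨ω, rfl⟩ := cl_surj N Δ
    apply Submodule.linearMap_qext
    ext v
    show Submodule.Quotient.mk (ρ g (eQ e N (cl N ω) v)) =
      Submodule.Quotient.mk (eQ e N (cl N (g • ω)) (ρ g v))
    congr 1
    exact LinearMap.congr_fun (eQ_equi h N hN g ω) v

theorem cm_eQ (h : PS ρ e) (N : Subgroup G) (hN : N.Normal) (Δ : OQ Ω N) :
    cm ρ ⊤ N ≤ (cm ρ ⊤ N).comap (eQ e N Δ) := by
  refine Submodule.span_le.2 ?_
  rintro _ ⟨n, hn, w, _, rfl⟩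
  show eQ e N Δ (ρ n w - w) ∈ cm ρ ⊤ N
  rw [map_sub, eQ_comm h N hN hn]
  exact mem_cm hn Submodule.mem_top

/-! ### orbit sizes -/

open Classical in
theorem fiber_card {p : ℕ} [Fact p.Prime] (N : Subgroup G)
    (hp : ∀ n ∈ N, ∀ ω : Ω, n ^ p • ω = ω) (hmove : ∀ ω : Ω, ∃ n ∈ N, n • ω ≠ ω)
    (Δ : OQ Ω N) : p ∣ (Finset.univ.filter (fun ω => cl N ω = Δ)).card := by
  obtain ⟨ω₀, rfl⟩ := cl_surj N Δ
  let P : Subgroup (Equiv.Perm Ω) := N.map (MulAction.toPermHom G Ω)
  have hP : IsPGroup p P := by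
    rintro ⟨σ, n, hn, rfl⟩
    refine ⟨1, ?_⟩
    apply Subtype.ext
    rw [pow_one]
    show (MulAction.toPermHom G Ω n) ^ p = 1
    rw [← map_pow]
    ext ω
    exact hp n hn ω
  have horb : MulAction.orbit P ω₀ =
      ((Finset.univ.filter (fun ω => cl N ω = cl N ω₀) : Finset Ω) : Set Ω) := by
    ext ω
    rw [Finset.coe_filter]
    simp only [Finset.mem_univ, true_and]
    constructor
    · rintro ⟨⟨σ, n, hn, rfl⟩, rfl⟩
      exact cl_eq_iff.2 ⟨n⁻¹, N.inv_mem hn, inv_smul_smul _ _⟩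
    · intro hω
      obtain ⟨n, hn, h1⟩ := cl_eq_iff.1 (Eq.symm hω)
      exact ⟨⟨MulAction.toPermHom G Ω n, n, hn, rfl⟩, h1⟩
  obtain ⟨m, hm⟩ := hP.card_orbit ω₀
  rw [horb, Nat.card_coe_set_eq, Set.ncard_coe_finset] at hm
  rw [hm]
  have hm0 : m ≠ 0 := by
    rintro rfl
    rw [pow_zero] at hm
    obtain ⟨n, hn, hne⟩ := hmove ω₀
    rw [Finset.card_eq_one] at hm
    obtain ⟨a, ha⟩ := hm
    have h1 : ω₀ ∈ Finset.univ.filter (fun ω => cl N ω = cl N ω₀) := by simp
    have h2 : n • ω₀ ∈ Finset.univ.filter (fun ω => cl N ω = cl N ω₀) := by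
      rw [Finset.mem_filter]
      exact ⟨Finset.mem_univ _, cl_eq_iff.2 ⟨n⁻¹, N.inv_mem hn, inv_smul_smul _ _⟩⟩
    rw [ha, Finset.mem_singleton] at h1 h2
    exact hne (h2.trans h1.symm)
  exact dvd_pow_self p hm0

/-- `C_V(N) ≤ [V, N]` -/
theorem inv_le {p : ℕ} [Fact p.Prime] [CharP k p] (h : PS ρ e) (N : Subgroup G)
    (hp : ∀ n ∈ N, ∀ ω : Ω, n ^ p • ω = ω) (hmove : ∀ ω : Ω, ∃ n ∈ N, n • ω ≠ ω)
    {v : V} (hv : ∀ n ∈ N, ρ n v = v) : v ∈ cm ρ ⊤ N := by
  classical
  rw [← Submodule.Quotient.mk_eq_zero]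
  have h1 : (Submodule.Quotient.mk v : V ⧸ cm ρ ⊤ N) =
      ∑ ω, (cm ρ ⊤ N).mkQ (e ω v) := by
    rw [← map_sum, sum_apply h]
    rfl
  rw [h1, ← Finset.sum_fiberwise (g := cl N)]
  refine Finset.sum_eq_zero fun Δ _ => ?_
  obtain ⟨ω₀, rfl⟩ := cl_surj N Δ
  have h2 : ∀ ω ∈ Finset.univ.filter (fun ω => cl N ω = cl N ω₀),
      (cm ρ ⊤ N).mkQ (e ω v) = (cm ρ ⊤ N).mkQ (e ω₀ v) := by
    intro ω hω
    rw [Finset.mem_filter] at hω
    obtain ⟨n, hn, h3⟩ := cl_eq_iff.1 (Eq.symm hω.2)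
    rw [← sub_eq_zero, ← map_sub]
    show (Submodule.Quotient.mk (e ω v - e ω₀ v) : V ⧸ cm ρ ⊤ N) = 0
    rw [Submodule.Quotient.mk_eq_zero]
    have h4 := equi_apply h n ω₀ v
    rw [h3, hv n hn] at h4
    rw [← h4]
    exact mem_cm hn Submodule.mem_top
  rw [Finset.sum_congr rfl h2, Finset.sum_const]
  obtain ⟨c, hc⟩ := fiber_card N hp hmove (cl N ω₀)
  have h5 : ((Finset.univ.filter (fun ω => cl N ω = cl N ω₀)).card : k) = 0 := by
    rw [hc, Nat.cast_mul, CharP.cast_eq_zero, zero_mul]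
  rw [← Nat.cast_smul_eq_nsmul k, h5, zero_smul]

/-- coprime elements -/
theorem coprime_elt (T : Module.End k V) {m : ℕ} (hT : T ^ m = 1) (hm : (m : k) ≠ 0) (v : V) :
    ∃ v', T v - v = T (T v' - v') - (T v' - v') := by
  set A := ∑ t ∈ Finset.range m, T ^ t with hA
  set Q := ∑ t ∈ Finset.range m, ∑ s ∈ Finset.range t, T ^ s with hQ
  have h1 : (T - 1) * A = 0 := by
    rw [hA, mul_geom_sum, hT, sub_self]
  have h2 : (T - 1) * Q = A - (m : k) • 1 := by
    rw [hQ, Finset.mul_sum]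
    have : ∀ t ∈ Finset.range m, (T - 1) * ∑ s ∈ Finset.range t, T ^ s = T ^ t - 1 := by
      intro t _
      rw [mul_geom_sum]
    rw [Finset.sum_congr rfl this, Finset.sum_sub_distrib, ← hA]
    congr 1
    rw [Finset.sum_const, Finset.card_range, Nat.cast_smul_eq_nsmul k]
  have h3 : (T - 1) * ((T - 1) * Q) = -((m : k) • (T - 1)) := by
    rw [h2, mul_sub, h1, zero_sub, mul_smul_comm, mul_one]
  refine ⟨-((m : k)⁻¹ • Q v), ?_⟩
  have h4 : (T - 1) ((T - 1) (Q v)) = -((m : k) • ((T - 1) v)) := LinearMap.congr_fun h3 v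
  have h5 : ∀ x, (T - 1) x = T x - x := fun x => rfl
  have h6 : T v - v = (T - 1) ((T - 1) (-((m : k)⁻¹ • Q v))) := by
    rw [map_neg, map_neg, map_smul, map_smul, h4, smul_neg, neg_neg, smul_smul,
      inv_mul_cancel₀ hm, one_smul, h5]
  rw [h6, h5, h5]

theorem pow_eq_of_sq_zero (T : Module.End k V) (h : (T - 1) * (T - 1) = 0) (m : ℕ) :
    T ^ m = 1 + (m : k) • (T - 1) := by
  induction m with
  | zero => simp
  | succ m ih =>
    have h2 : (T - 1) * T = T - 1 := by
      have h3 := h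
      rw [mul_sub, mul_one, sub_eq_zero] at h3
      exact h3
    rw [pow_succ, ih, add_mul, one_mul, smul_mul_assoc, h2]
    push_cast
    rw [add_smul, one_smul]
    abel

end

theorem core_aux (p : ℕ) [Fact p.Prime] (k G : Type) [Field k] [CharP k p] [Group G] [Finite G] :
    ∀ (i : ℕ) (V Ω : Type) [AddCommGroup V] [Module k V] [Fintype Ω] [MulAction G Ω]
    [MulAction.IsPretransitive G Ω] [Nontrivial V] (ρ : G →* Module.End k V)
    (e : Ω → Module.End k V), PS ρ e →
    VC ρ (DS (⊤ : Subgroup G)) ⊤ (i + 1) = ⊥ →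
    ∀ g ∈ DS (⊤ : Subgroup G) i, ∀ ω : Ω, g • ω = ω := by
  intro i
  induction i with
  | zero =>
    intro V Ω _ _ _ _ _ _ ρ e h hV g hg ω
    refine fix_of_one h (e_ne_zero h ω) fun v => ?_
    have h1 : ρ g v - v ∈ VC ρ (DS (⊤ : Subgroup G)) ⊤ (0 + 1) := mem_cm hg Submodule.mem_top
    rw [hV, Submodule.mem_bot, sub_eq_zero] at h1
    exact h1
  | succ i ih =>
    intro V Ω _ _ _ _ _ _ ρ e h hV
    classical
    by_contra hcon
    push Not at hcon
    obtain ⟨g₀, hg₀, ω₀, hω₀⟩ := hcon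
    set N := DS (⊤ : Subgroup G) (i + 1) with hN
    set B := DS (⊤ : Subgroup G) i with hB
    have hNn : N.Normal := DS_normal (i + 1)
    have hNB : N ≤ B := DS_le i
    have hNBc : N = ⁅B, B⁆ := rfl
    -- `N` moves every point
    have hmove : ∀ ω : Ω, ∃ n ∈ N, n • ω ≠ ω := by
      intro ω
      obtain ⟨g, hg⟩ := MulAction.exists_smul_eq G ω₀ ω
      refine ⟨g * g₀ * g⁻¹, hNn.conj_mem g₀ hg₀ g, ?_⟩
      intro h1
      apply hω₀
      rw [← hg, mul_smul, mul_smul, inv_smul_smul] at h1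
      exact smul_left_cancel g h1
    -- `N` centralises `V_{i+1}`
    have hcent : ∀ n ∈ N, ∀ v ∈ VC ρ (DS (⊤ : Subgroup G)) ⊤ (i + 1), ρ n v = v := by
      intro n hn v hv
      have h1 : ρ n v - v ∈ VC ρ (DS (⊤ : Subgroup G)) ⊤ (i + 1 + 1) := mem_cm hn hv
      rw [hV, Submodule.mem_bot, sub_eq_zero] at h1
      exact h1
    have hNN : ∀ n ∈ N, ∀ n' ∈ N, ∀ v, ρ n (ρ n' v - v) = ρ n' v - v := by
      intro n hn n' hn' v
      exact hcent n hn _ (lemma0 ρ (i + 1) n' hn' v)
    have hp : ∀ n ∈ N, ∀ ω : Ω, n ^ p • ω = ω := by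
      intro n hn ω
      refine fix_of_one h (e_ne_zero h ω) fun v => ?_
      have h1 : (ρ n - 1) * (ρ n - 1) = 0 := by
        ext v
        show ρ n (ρ n v - v) - (ρ n v - v) = 0
        rw [hNN n hn n hn, sub_self]
      have h2 := pow_eq_of_sq_zero (ρ n) h1 p
      rw [CharP.cast_eq_zero, zero_smul, add_zero] at h2
      rw [map_pow, h2]
      rfl
    set W := cm ρ ⊤ N with hW
    have hinvW : ∀ v, (∀ n ∈ N, ρ n v = v) → v ∈ W := fun v hv => inv_le h N hp hmove hv
    have hWtop : W ≠ ⊤ := by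
      intro htop
      obtain ⟨n, hn, hne⟩ := hmove ω₀
      apply hne
      refine fix_of_one h (e_ne_zero h ω₀) fun v => ?_
      have h1 : W ≤ LinearMap.ker (ρ n - 1) := by
        refine Submodule.span_le.2 ?_
        rintro _ ⟨n', hn', w, _, rfl⟩
        show ρ n (ρ n' w - w) - (ρ n' w - w) = 0
        rw [hNN n hn n' hn', sub_self]
      have h2 : v ∈ LinearMap.ker (ρ n - 1) := h1 (htop ▸ Submodule.mem_top)
      rw [LinearMap.mem_ker] at h2
      exact sub_eq_zero.1 h2
    haveI : Nontrivial (V ⧸ W) := Submodule.Quotient.nontrivial_iff.2 hWtop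
    letI := actQ (Ω := Ω) N hNn
    haveI : MulAction.IsPretransitive G (OQ Ω N) := by
      refine ⟨fun Δ Δ' => ?_⟩
      obtain ⟨ω, rfl⟩ := cl_surj N Δ
      obtain ⟨ω', rfl⟩ := cl_surj N Δ'
      obtain ⟨g, hg⟩ := MulAction.exists_smul_eq G ω ω'
      refine ⟨g, ?_⟩
      rw [← hg]
      rfl
    have hB' := ih (V ⧸ W) (OQ Ω N) (rq ρ W (cm_inv ρ N hNn)) _
      (PS_quot h N hNn (cm_eQ h N hNn)) (by
        rw [eq_bot_iff]
        refine (VC_quot W (cm_inv ρ N hNn) _ (i + 1)).trans ?_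
        rw [Submodule.map_le_iff_le_comap]
        intro v hv
        show (Submodule.Quotient.mk v : V ⧸ W) ∈ (⊥ : Submodule k (V ⧸ W))
        rw [Submodule.mem_bot, Submodule.Quotient.mk_eq_zero]
        exact hinvW v fun n hn => hcent n hn v hv)
    have hBN : ∀ b ∈ B, ∀ ω : Ω, ∃ n ∈ N, n • ω = b • ω := by
      intro b hb ω
      have h1 : cl N (b • ω) = cl N ω := hB' b hb (cl N ω)
      exact cl_eq_iff.1 h1.symm
    -- coprime elements of `B` act trivially
    have hcop : ∀ b ∈ B, ∀ m : ℕ, b ^ m = 1 → (m : k) ≠ 0 → ∀ ω : Ω, b • ω = ω := by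
      intro b hb m hbm hm ω
      by_contra hne
      have h1 : ∀ v, ρ b v - v ∈ VC ρ (DS (⊤ : Subgroup G)) ⊤ (i + 1) := by
        intro v
        obtain ⟨v', hv'⟩ := coprime_elt (ρ b) (m := m) (by rw [← map_pow, hbm, map_one]) hm v
        rw [hv']
        exact mem_cm hb (lemma0 ρ i b hb v')
      obtain ⟨x, hx⟩ : ∃ x, e ω x ≠ 0 := by
        by_contra hcon
        push Not at hcon
        apply e_ne_zero h ω
        ext x
        exact hcon x
      set v := e ω x with hv
      have hev : e ω v = v := idem_apply h ω x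
      -- every element of `N` moving `ω` moves it to `b⁻¹`-image
      have h2 : ∀ n ∈ N, n • ω ≠ ω → n • b • ω = ω := by
        intro n hn hnω
        by_contra h3
        have h4 : ρ n (ρ b v - v) = ρ b v - v := hcent n hn _ (h1 v)
        have h5 := congrArg (e ω) h4
        rw [map_sub, map_sub, map_sub, ← rho_mul, e_rho_eq_zero h hev (g := n * b)
          (by rw [mul_smul]; exact h3), e_rho_eq_zero h hev hnω, e_rho_eq_zero h hev hne, hev] at h5
        apply hx
        rw [sub_zero, zero_sub] at h5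
        exact neg_eq_zero.1 h5.symm
      have h3 : ∀ n ∈ N, n • ω = ω ∨ n • ω = b • ω := by
        intro n hn
        by_cases hnω : n • ω = ω
        · exact Or.inl hnω
        · right
          have h4 : n⁻¹ • ω ≠ ω := by
            intro h5
            apply hnω
            rw [inv_smul_eq_iff] at h5
            exact h5.symm
          have h5 := h2 n⁻¹ (N.inv_mem hn) h4
          rw [inv_smul_eq_iff] at h5
          exact h5.symm
      -- all orbits have two elements
      have h4 : ∀ ω₁ : Ω, ∃ ω₂ : Ω, ∀ n ∈ N, n • ω₁ = ω₁ ∨ n • ω₁ = ω₂ := by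
        intro ω₁
        obtain ⟨g, hg⟩ := MulAction.exists_smul_eq G ω ω₁
        refine ⟨g • b • ω, fun n hn => ?_⟩
        have h5 := h3 (g⁻¹ * n * g) (by
          have := hNn.conj_mem n hn g⁻¹
          rwa [inv_inv] at this)
        rw [mul_smul, mul_smul, hg] at h5
        rcases h5 with h5 | h5
        · left
          rw [inv_smul_eq_iff, hg] at h5
          exact h5
        · right
          rw [inv_smul_eq_iff] at h5
          exact h5
      -- so the commutators of `B` act trivially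
      have h5 : ∀ n ∈ N, ∀ ω₁ : Ω, n • ω₁ = ω₁ := by
        intro n hn ω₁
        let S : Subgroup G := MulAction.stabilizer G ω₁
        have h6 : N ≤ S := by
          rw [hNBc]
          refine Subgroup.commutator_le.2 fun a ha a' ha' => ?_
          obtain ⟨ω₂, hω₂⟩ := h4 ω₁
          have h7 : ∀ c ∈ B, c • ω₁ = ω₁ ∨ c • ω₁ = ω₂ := by
            intro c hc
            obtain ⟨n', hn', h8⟩ := hBN c hc ω₁
            rw [← h8]
            exact hω₂ n' hn'
          have h8 : ∀ c ∈ B, c • ω₁ = ω₂ → c • ω₂ = ω₁ ∨ ω₁ = ω₂ := by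
            intro c hc h9
            have h10 := h7 (c * c) (B.mul_mem hc hc)
            rw [mul_smul, h9] at h10
            rcases h10 with h10 | h10
            · exact Or.inl h10
            · right
              have : c • ω₁ = c • ω₂ := by rw [h9, h10]
              exact smul_left_cancel c this
          -- commuting
          have h9 : ∀ a ∈ B, ∀ a' ∈ B, a • a' • ω₁ = a' • a • ω₁ := by
            intro a ha a' ha'
            rcases h7 a ha with ha1 | ha1
            · rcases h7 a' ha' with ha2 | ha2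
              · rw [ha1, ha2, ha1]
              · rw [ha1, ha2]
                -- a ω₂ = ω₂
                have h10 := h7 (a * a') (B.mul_mem ha ha')
                rw [mul_smul, ha2] at h10
                rcases h10 with h10 | h10
                · have : a • ω₂ = a • ω₁ := by rw [h10, ha1]
                  have h11 := smul_left_cancel a this
                  rw [h11, ha1]
                · exact h10
            · rcases h7 a' ha' with ha2 | ha2
              · rw [ha1, ha2, ha1]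
                have h10 := h7 (a' * a) (B.mul_mem ha' ha)
                rw [mul_smul, ha1] at h10
                rcases h10 with h10 | h10
                · have : a' • ω₂ = a' • ω₁ := by rw [h10, ha2]
                  have h11 := smul_left_cancel a' this
                  rw [h11, ha2]
                · exact h10.symm
              · rw [ha1, ha2]
                rcases h8 a ha ha1 with h10 | h10
                · rcases h8 a' ha' ha2 with h11 | h11
                  · rw [h10, h11]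
                  · rw [← h11, ha1, ha2]
                · rw [← h10, ha1, ha2]
          show ⁅a, a'⁆ • ω₁ = ω₁
          rw [commutatorElement_def, mul_smul, mul_smul, mul_smul,
            h9 a⁻¹ (B.inv_mem ha) a'⁻¹ (B.inv_mem ha'), smul_inv_smul, smul_inv_smul]
        exact h6 hn
      obtain ⟨n, hn, hne'⟩ := hmove ω₀
      exact hne' (h5 n hn ω₀)
    -- the image of `B` is a `p`-group
    let f := MulAction.toPermHom G Ω
    let P : Subgroup (Equiv.Perm Ω) := B.map f
    have hP : IsPGroup p P := by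
      rintro ⟨σ, b, hb, rfl⟩
      obtain ⟨s, r, hr, hsr⟩ := Nat.exists_eq_pow_mul_and_not_dvd
        (orderOf_pos b).ne' p (Fact.out (p := p.Prime)).ne_one
      refine ⟨s, ?_⟩
      apply Subtype.ext
      show (f b) ^ p ^ s = 1
      rw [← map_pow]
      ext ω
      refine hcop (b ^ p ^ s) (B.pow_mem hb _) r ?_ ?_ ω
      · rw [← pow_mul, ← hsr, pow_orderOf_eq_one]
      · intro h0
        exact hr ((CharP.cast_eq_zero_iff k p r).1 h0)
    haveI : Group.IsNilpotent P := hP.isNilpotent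
    have hgen : commutator P ⊔ MulAction.stabilizer P ω₀ = ⊤ := by
      rw [eq_top_iff]
      rintro ⟨σ, b, hb, rfl⟩ _
      obtain ⟨n, hn, hnb⟩ := hBN b hb ω₀
      have h1 : f n ∈ (commutator P).map P.subtype := by
        rw [Subgroup.map_subtype_commutator]
        show f n ∈ ⁅B.map f, B.map f⁆
        rw [← Subgroup.map_commutator]
        exact ⟨n, hn, rfl⟩
      obtain ⟨y, hy, hyn⟩ := h1
      have h2 : (⟨f b, b, hb, rfl⟩ : P) = y * (y⁻¹ * ⟨f b, b, hb, rfl⟩) := by group
      rw [h2]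
      refine Subgroup.mul_mem_sup hy ?_
      rw [MulAction.mem_stabilizer_iff, mul_smul, inv_smul_eq_iff]
      show (f b) ω₀ = (y : Equiv.Perm Ω) ω₀
      have h3 : (y : Equiv.Perm Ω) = f n := hyn
      rw [h3]
      exact hnb.symm
    have htop := nil_gen _ hgen
    obtain ⟨n, hn, hne⟩ := hmove ω₀
    apply hne
    have h1 : (⟨f n, n, hNB hn, rfl⟩ : P) ∈ MulAction.stabilizer P ω₀ := htop ▸ Subgroup.mem_top _
    exact h1

theorem lemICore : LemICoreStm := by
  intro p _ k G V Ω _ _ _ _ _ _ _ _ _ _ ρ e h _ i hV g hg ω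
  exact core_aux p k G i V Ω ρ e h hV g hg ω

end Pool.Agent.TH883.J725
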