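import Pool.Agent.TH62.PL.Stms
set_option autoImplicit false
open Pool.Agent.TH62.PL

namespace Pool.Agent.TH883.J728

section

variable {k M : Type} [Field k] [CommGroup M] {β : M → M → k}

theorem b_one_left (h1 : ∀ x y z, β (x * y) z = β x z * β y z) (h0 : ∀ x y, β x y ≠ 0) (y : M) :
    β 1 y = 1 := by
  have h := h1 1 1 y
  rw [one_mul] at h
  have h2 := h0 1 y
  have : β 1 y * 1 = β 1 y * β 1 y := by rw [mul_one]; exact h
  exact (mul_left_cancel₀ h2 this).symm

theorem b_one_right (h2 : ∀ x y z, β x (y * z) = β x y * β x z) (h0 : ∀ x y, β x y ≠ 0) (y : M) :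
    β y 1 = 1 := by
  have h := h2 y 1 1
  rw [one_mul] at h
  have h3 := h0 y 1
  have : β y 1 * 1 = β y 1 * β y 1 := by rw [mul_one]; exact h
  exact (mul_left_cancel₀ h3 this).symm

theorem b_inv_left (h1 : ∀ x y z, β (x * y) z = β x z * β y z) (h0 : ∀ x y, β x y ≠ 0)
    (x y : M) : β x⁻¹ y = (β x y)⁻¹ := by
  have h := h1 x⁻¹ x y
  rw [inv_mul_cancel, b_one_left h1 h0] at h
  exact eq_inv_of_mul_eq_one_left h.symm

theorem b_inv_right (h2 : ∀ x y z, β x (y * z) = β x y * β x z) (h0 : ∀ x y, β x y ≠ 0)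
    (x y : M) : β x y⁻¹ = (β x y)⁻¹ := by
  have h := h2 x y⁻¹ y
  rw [inv_mul_cancel, b_one_right h2 h0] at h
  exact eq_inv_of_mul_eq_one_left h.symm

theorem eq_one_of_eq_inv (h0 : ∀ x y, β x y ≠ 0) (hsq : ∀ x y, β x y ^ 2 = 1 → β x y = 1)
    {x y : M} (h : β x y = (β x y)⁻¹) : β x y = 1 := by
  apply hsq
  rw [pow_two]
  conv_lhs => rw [h]
  rw [← h]
  conv_lhs =>
    congr
    · rw [h]
  exact inv_mul_cancel₀ (h0 x y)

theorem b_inv_inv (h1 : ∀ x y z, β (x * y) z = β x z * β y z)
    (h2 : ∀ x y z, β x (y * z) = β x y * β x z) (h0 : ∀ x y, β x y ≠ 0)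
    (x y : M) : β x⁻¹ y⁻¹ = β x y := by
  rw [b_inv_left h1 h0, b_inv_right h2 h0, inv_inv]

end

theorem lemW : LemWStm := by
  classical
  intro k M _ _ β h1 h2 h0 hsq s
  induction s using Finset.induction_on with
  | empty =>
    intro _ _ _ g hg _ hgb x w hx
    refine ⟨g x * x⁻¹, w * (g w)⁻¹, ?_, ?_, ?_, ?_⟩
    · rw [map_mul, hg, map_inv, mul_inv_rev, inv_inv]
    · rw [map_mul, map_inv, hg, mul_inv_rev, inv_inv]
    · set y := g x * x⁻¹ with hy
      have hgy : g y = y⁻¹ := by
        rw [hy, map_mul, hg, map_inv, mul_inv_rev, inv_inv]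
      have e1 : β y (g w) = (β y w)⁻¹ := by
        have h3 := hgb y (g w)
        rw [hg, hgy, b_inv_left h1 h0] at h3
        exact h3.symm
      rw [h2, b_inv_right h2 h0, e1, inv_inv]
      intro h3
      apply hx
      apply hsq
      rw [pow_two]
      exact h3
    · intro h hh
      exact absurd hh (Finset.notMem_empty _)
  | insert h s hs ih =>
    intro hinv hcomm hb g hg hgc hgb x w hx
    obtain ⟨y, u, hgy, hgu, hyu, hsyu⟩ := ih
      (fun h' hh' => hinv h' (Finset.mem_insert_of_mem hh'))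
      (fun h' hh' h'' hh'' => hcomm h' (Finset.mem_insert_of_mem hh') h''
        (Finset.mem_insert_of_mem hh''))
      (fun h' hh' => hb h' (Finset.mem_insert_of_mem hh')) g hg
      (fun h' hh' => hgc h' (Finset.mem_insert_of_mem hh')) hgb x w hx
    have hh := hinv h (Finset.mem_insert_self _ _)
    have hhb := hb h (Finset.mem_insert_self _ _)
    have hhg := hgc h (Finset.mem_insert_self _ _)
    have hhc : ∀ h' ∈ s, ∀ z, h (h' z) = h' (h z) := fun h' hh' =>
      hcomm h (Finset.mem_insert_self _ _) h' (Finset.mem_insert_of_mem hh')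
    -- action on the new elements
    have hp : ∀ z, h (z * h z) = z * h z := by
      intro z
      rw [map_mul, hh, mul_comm]
    have hm : ∀ z, h (z * (h z)⁻¹) = (z * (h z)⁻¹)⁻¹ := by
      intro z
      rw [map_mul, map_inv, hh, mul_inv_rev, inv_inv]
    have hgp : ∀ z, g z = z⁻¹ → g (z * h z) = (z * h z)⁻¹ := by
      intro z hz
      rw [map_mul, ← hhg, hz, map_inv, mul_inv_rev, mul_comm]
    have hgm : ∀ z, g z = z⁻¹ → g (z * (h z)⁻¹) = (z * (h z)⁻¹)⁻¹ := by
      intro z hz
      rw [map_mul, map_inv, ← hhg, hz, map_inv, inv_inv, mul_inv_rev, inv_inv, mul_comm]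
    have hfp : ∀ h' ∈ s, ∀ z, h' z = z → h' (z * h z) = z * h z := by
      intro h' hh' z hz
      rw [map_mul, ← hhc h' hh', hz]
    have hfm : ∀ h' ∈ s, ∀ z, h' z = z → h' (z * (h z)⁻¹) = z * (h z)⁻¹ := by
      intro h' hh' z hz
      rw [map_mul, map_inv, ← hhc h' hh', hz]
    have hip : ∀ h' ∈ s, ∀ z, h' z = z⁻¹ → h' (z * h z) = (z * h z)⁻¹ := by
      intro h' hh' z hz
      rw [map_mul, ← hhc h' hh', hz, map_inv, mul_inv_rev, mul_comm]
    have him : ∀ h' ∈ s, ∀ z, h' z = z⁻¹ → h' (z * (h z)⁻¹) = (z * (h z)⁻¹)⁻¹ := by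
      intro h' hh' z hz
      rw [map_mul, map_inv, ← hhc h' hh', hz, map_inv, inv_inv, mul_inv_rev, inv_inv, mul_comm]
    set yp := y * h y with hyp
    set ym := y * (h y)⁻¹ with hym
    set up := u * h u with hup
    set um := u * (h u)⁻¹ with hum
    have c1 : β yp um = 1 := by
      apply eq_one_of_eq_inv h0 hsq
      have h3 := hhb yp um
      rw [hp y, hm u, b_inv_right h2 h0] at h3
      exact h3.symm
    have c2 : β ym up = 1 := by
      apply eq_one_of_eq_inv h0 hsq
      have h3 := hhb ym up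
      rw [hm y, hp u, b_inv_left h1 h0] at h3
      exact h3.symm
    have e1 : yp * ym = y * y := by
      rw [hyp, hym]
      calc y * h y * (y * (h y)⁻¹) = y * y * (h y * (h y)⁻¹) := by
            rw [mul_assoc, mul_assoc]
            congr 1
            rw [mul_left_comm]
        _ = y * y := by rw [mul_inv_cancel, mul_one]
    have e2 : up * um = u * u := by
      rw [hup, hum]
      calc u * h u * (u * (h u)⁻¹) = u * u * (h u * (h u)⁻¹) := by
            rw [mul_assoc, mul_assoc]
            congr 1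
            rw [mul_left_comm]
        _ = u * u := by rw [mul_inv_cancel, mul_one]
    have e3 : β yp up * β ym um = β (y * y) (u * u) := by
      have g1 := h1 yp ym (up * um)
      have g2 := h2 yp up um
      have g3 := h2 ym up um
      rw [c1, mul_one] at g2
      rw [c2, one_mul] at g3
      rw [← e1, ← e2, g1, g2, g3]
    have e4 : β (y * y) (u * u) ≠ 1 := by
      intro h3
      apply hyu
      apply hsq
      rw [pow_two, ← h1]
      apply hsq
      rw [pow_two, ← h2]
      exact h3
    by_cases hcase : β yp up = 1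
    · have h3 : β ym um ≠ 1 := by
        intro h4
        rw [hcase, h4, one_mul] at e3
        exact e4 e3.symm
      refine ⟨ym, um, hgm y hgy, hgm u hgu, h3, ?_⟩
      intro h' hh'
      rw [Finset.mem_insert] at hh'
      rcases hh' with rfl | hh'
      · right
        exact ⟨hm y, hm u⟩
      · rcases hsyu h' hh' with ⟨h4, h5⟩ | ⟨h4, h5⟩
        · left
          exact ⟨hfm h' hh' y h4, hfm h' hh' u h5⟩
        · right
          exact ⟨him h' hh' y h4, him h' hh' u h5⟩
    · refine ⟨yp, up, hgp y hgy, hgp u hgu, hcase, ?_⟩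
      intro h' hh'
      rw [Finset.mem_insert] at hh'
      rcases hh' with rfl | hh'
      · left
        exact ⟨hp y, hp u⟩
      · rcases hsyu h' hh' with ⟨h4, h5⟩ | ⟨h4, h5⟩
        · left
          exact ⟨hfp h' hh' y h4, hfp h' hh' u h5⟩
        · right
          exact ⟨hip h' hh' y h4, hip h' hh' u h5⟩

end Pool.Agent.TH883.J728
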