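import Pool.Agent.TH62.PL.Stms
set_option autoImplicit false
open Pool.Agent.TH62.PL
open scoped BigOperators

namespace Pool.Agent.TH883.J729

section pairing

variable {G k : Type} [Group G] [Field k]

/-- the commutator pairing -/
def bb (c : G → k) (x y : G) : k := c (x * y * x⁻¹ * y⁻¹)

variable {q : ℕ} {Q Z : Subgroup G} {c : G → k}

theorem c_one (h : QC q Q Z c) : c 1 = 1 := by
  have h1 := h.cmul 1 Z.one_mem 1 Z.one_mem
  rw [one_mul] at h1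
  have h2 : c 1 * 1 = c 1 * c 1 := by rw [mul_one]; exact h1
  exact (mul_left_cancel₀ (h.cne 1 Z.one_mem) h2).symm

theorem c_pow (h : QC q Q Z c) {z : G} (hz : z ∈ Z) (n : ℕ) : c (z ^ n) = c z ^ n := by
  induction n with
  | zero => rw [pow_zero, pow_zero, c_one h]
  | succ n ih => rw [pow_succ, pow_succ, h.cmul _ (Z.pow_mem hz n) _ hz, ih]

theorem q_odd [Fact q.Prime] (hq : q ≠ 2) : Odd q := (Fact.out (p := q.Prime)).odd_of_ne_two hq

/-- elements of `Q` have odd order -/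
theorem odd_pow [Fact q.Prime] (h : QC q Q Z c) (hq : q ≠ 2) {x : G} (hx : x ∈ Q) :
    ∃ n : ℕ, Odd n ∧ x ^ n = 1 := by
  obtain ⟨m, hm⟩ := h.pg ⟨x, hx⟩
  refine ⟨q ^ m, (q_odd hq).pow, ?_⟩
  have := congrArg Subtype.val hm
  exact this

theorem eq_one_of_sq {H : Type*} [Monoid H] {x : H} {n : ℕ} (hn : Odd n) (h1 : x ^ n = 1)
    (h2 : x ^ 2 = 1) : x = 1 := by
  obtain ⟨m, rfl⟩ := hn
  rw [pow_succ, pow_mul, h2, one_pow, one_mul] at h1
  exact h1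

theorem c_sq [Fact q.Prime] (h : QC q Q Z c) (hq : q ≠ 2) {z : G} (hz : z ∈ Z)
    (h2 : c z ^ 2 = 1) : c z = 1 := by
  obtain ⟨n, hn, h1⟩ := odd_pow h hq (h.ZQ hz)
  refine eq_one_of_sq hn ?_ h2
  rw [← c_pow h hz, h1, c_one h]

theorem bb_mul_left (h : QC q Q Z c) {x y z : G} (hx : x ∈ Q) (hy : y ∈ Q) (hz : z ∈ Q) :
    bb c (x * y) z = bb c x z * bb c y z := by
  unfold bb
  have h1 := h.comm x hx z hz
  have h2 := h.comm y hy z hz
  rw [mul_comm, ← h.cmul _ h2 _ h1]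
  congr 1
  have h3 := h.cent _ h2 x hx
  have h4 : x * y * z * (x * y)⁻¹ * z⁻¹ =
      x * (y * z * y⁻¹ * z⁻¹) * (z * x⁻¹ * z⁻¹) := by group
  rw [h4, ← h3]
  group

theorem bb_mul_right (h : QC q Q Z c) {x y z : G} (hx : x ∈ Q) (hy : y ∈ Q) (hz : z ∈ Q) :
    bb c x (y * z) = bb c x y * bb c x z := by
  unfold bb
  have h1 := h.comm x hx y hy
  have h2 := h.comm x hx z hz
  rw [← h.cmul _ h1 _ h2]
  congr 1
  have h3 := h.cent _ h2 y hy
  have h4 : x * (y * z) * x⁻¹ * (y * z)⁻¹ =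
      (x * y * x⁻¹) * ((x * z * x⁻¹ * z⁻¹) * y⁻¹) := by group
  have h5 : (x * z * x⁻¹ * z⁻¹) * y⁻¹ = y⁻¹ * (x * z * x⁻¹ * z⁻¹) := by
    exact h.cent _ h2 _ (Q.inv_mem hy)
  rw [h4, h5]
  group

theorem bb_ne_zero (h : QC q Q Z c) {x y : G} (hx : x ∈ Q) (hy : y ∈ Q) : bb c x y ≠ 0 :=
  h.cne _ (h.comm x hx y hy)

theorem bb_sq [Fact q.Prime] (h : QC q Q Z c) (hq : q ≠ 2) {x y : G} (hx : x ∈ Q) (hy : y ∈ Q)
    (h2 : bb c x y ^ 2 = 1) : bb c x y = 1 := c_sq h hq (h.comm x hx y hy) h2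

theorem bb_Z_left (h : QC q Q Z c) {z x : G} (hz : z ∈ Z) (hx : x ∈ Q) : bb c z x = 1 := by
  unfold bb
  rw [h.cent z hz x hx, mul_assoc, mul_assoc, ← mul_assoc z, mul_inv_cancel, one_mul,
    mul_inv_cancel, c_one h]

theorem bb_Z_right (h : QC q Q Z c) {z x : G} (hz : z ∈ Z) (hx : x ∈ Q) : bb c x z = 1 := by
  unfold bb
  rw [← h.cent z hz x hx, mul_inv_cancel_right, mul_inv_cancel, c_one h]

theorem bb_congr (h : QC q Q Z c) {x x' y y' : G} (hx : x ∈ Q) (_ : x' ∈ Q) (hy : y ∈ Q)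
    (_ : y' ∈ Q) (h1 : x⁻¹ * x' ∈ Z) (h2 : y⁻¹ * y' ∈ Z) : bb c x y = bb c x' y' := by
  have e1 : x' = x * (x⁻¹ * x') := by group
  have e2 : y' = y * (y⁻¹ * y') := by group
  rw [e1, e2, bb_mul_left h hx (h.ZQ h1) (Q.mul_mem hy (h.ZQ h2)),
    bb_mul_right h hx hy (h.ZQ h2), bb_Z_right h h2 hx, mul_one,
    bb_Z_left h h1 (Q.mul_mem hy (h.ZQ h2)), mul_one]

theorem bb_conj {g : G} (h : QC q Q Z c) (hg : ∀ z ∈ Z, g * z = z * g) {x y : G} (hx : x ∈ Q)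
    (hy : y ∈ Q) : bb c (g * x * g⁻¹) (g * y * g⁻¹) = bb c x y := by
  unfold bb
  congr 1
  have h1 := hg _ (h.comm x hx y hy)
  have h2 : g * x * g⁻¹ * (g * y * g⁻¹) * (g * x * g⁻¹)⁻¹ * (g * y * g⁻¹)⁻¹ =
      g * (x * y * x⁻¹ * y⁻¹) * g⁻¹ := by group
  rw [h2, h1, mul_inv_cancel_right]

/-- exactness -/
theorem exact_fix [Fact q.Prime] (h : QC q Q Z c) (hq : q ≠ 2) {g : G}
    (hg : ∀ z ∈ Z, g * z = z * g) (hg2 : ∀ x ∈ Q, g * g * x = x * (g * g)) {y : G} (hy : y ∈ Q)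
    (h1 : y⁻¹ * (g * y * g⁻¹) ∈ Z) : g * y * g⁻¹ = y := by
  set z := y⁻¹ * (g * y * g⁻¹) with hz
  have e1 : g * y * g⁻¹ = y * z := by rw [hz]; group
  have e2 : g * z * g⁻¹ = z := by rw [hg z h1, mul_inv_cancel_right]
  have e3 : g * (g * y * g⁻¹) * g⁻¹ = y := by
    have := hg2 y hy
    calc g * (g * y * g⁻¹) * g⁻¹ = (g * g * y) * (g * g)⁻¹ := by group
      _ = y := by rw [this, mul_inv_cancel_right]
  have e4 : g * (y * z) * g⁻¹ = y * z * z := by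
    calc g * (y * z) * g⁻¹ = (g * y * g⁻¹) * (g * z * g⁻¹) := by group
      _ = y * z * z := by rw [e1, e2]
  rw [e1, e4] at e3
  have e5 : z ^ 2 = 1 := by
    rw [mul_assoc] at e3
    rw [pow_two]
    exact mul_eq_left.1 e3
  obtain ⟨n, hn, h2⟩ := odd_pow h hq (h.ZQ h1)
  have e6 := eq_one_of_sq hn h2 e5
  rw [e1, e6, mul_one]

/-! ### the quotient `Q/Z` -/

section quot

variable (Q Z)

/-- the quotient -/
abbrev MM [Z.Normal] : Type := ↥Q ⧸ (Z.subgroupOf Q)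

variable [hZn : Z.Normal] [hQn : Q.Normal]

/-- conjugation on the quotient -/
noncomputable def cj (g : G) : MM Q Z →* MM Q Z :=
  QuotientGroup.map (Z.subgroupOf Q) (Z.subgroupOf Q) (MulAut.conjNormal g).toMonoidHom (by
    intro x hx
    rw [Subgroup.mem_comap, Subgroup.mem_subgroupOf]
    rw [Subgroup.mem_subgroupOf] at hx
    show g * (x : G) * g⁻¹ ∈ Z
    exact hZn.conj_mem _ hx g)

theorem cj_mk (g : G) (x : Q) : cj Q Z g (QuotientGroup.mk x) =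
    QuotientGroup.mk ⟨g * x * g⁻¹, hQn.conj_mem x x.2 g⟩ := rfl

theorem cj_mul (g h : G) (m : MM Q Z) : cj Q Z (g * h) m = cj Q Z g (cj Q Z h m) := by
  induction m using QuotientGroup.induction_on with
  | H x =>
    rw [cj_mk, cj_mk, cj_mk]
    congr 1
    apply Subtype.ext
    show g * h * (x : G) * (g * h)⁻¹ = g * (h * (x : G) * h⁻¹) * g⁻¹
    group

theorem cj_one (m : MM Q Z) : cj Q Z 1 m = m := by
  induction m using QuotientGroup.induction_on with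
  | H x =>
    rw [cj_mk]
    congr 1
    apply Subtype.ext
    show 1 * (x : G) * 1⁻¹ = x
    group

/-- conjugation as an automorphism -/
noncomputable def cja (g : G) : MulAut (MM Q Z) :=
  MonoidHom.toMulEquiv (cj Q Z g) (cj Q Z g⁻¹)
    (by
      refine MonoidHom.ext fun m => ?_
      show cj Q Z g⁻¹ (cj Q Z g m) = m
      rw [← cj_mul, inv_mul_cancel, cj_one])
    (by
      refine MonoidHom.ext fun m => ?_
      show cj Q Z g (cj Q Z g⁻¹ m) = m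
      rw [← cj_mul, mul_inv_cancel, cj_one])

theorem cja_apply (g : G) (m : MM Q Z) : cja Q Z g m = cj Q Z g m := rfl

end quot

theorem weights (hW : LemWStm) [Fact q.Prime] (h : QC q Q Z c) (hq : q ≠ 2) (s : Finset G)
    (hsZ : ∀ g ∈ s, ∀ z ∈ Z, g * z = z * g) (hs2 : ∀ g ∈ s, ∀ x ∈ Q, g * g * x = x * (g * g))
    (hsc : ∀ g ∈ s, ∀ g' ∈ s, ∀ x ∈ Q,
      (g * g') * x * (g * g')⁻¹ = (g' * g) * x * (g' * g)⁻¹)
    {g1 g2 : G} (hg1 : g1 ∈ s) (hg2 : g2 ∈ s) {x w : G} (hx : x ∈ Q) (hw : w ∈ Q)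
    (hxw : bb c ((g1⁻¹ * g2) * x * (g1⁻¹ * g2)⁻¹ * x⁻¹) w ≠ 1) :
    ∃ y ∈ Q, ∃ u ∈ Q, bb c y u ≠ 1 ∧ (y⁻¹)⁻¹ * (g1 * (g2 * y * g2⁻¹) * g1⁻¹) ∈ Z ∧
      ∀ g ∈ s, (y⁻¹ * (g * y * g⁻¹) ∈ Z ∧ u⁻¹ * (g * u * g⁻¹) ∈ Z) ∨
        (y * (g * y * g⁻¹) ∈ Z ∧ u * (g * u * g⁻¹) ∈ Z) := by
  classical
  haveI hZn : Z.Normal := h.Zn
  haveI hQn : Q.Normal := h.Qn
  letI iC : CommGroup (MM Q Z) :=
    { (inferInstance : Group (MM Q Z)) with
      mul_comm := by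
        intro a b
        induction a using QuotientGroup.induction_on with
        | H a =>
          induction b using QuotientGroup.induction_on with
          | H b =>
            rw [← QuotientGroup.mk_mul, ← QuotientGroup.mk_mul, QuotientGroup.eq,
              Subgroup.mem_subgroupOf]
            have h1 := h.comm _ (Q.inv_mem b.2) _ (Q.inv_mem a.2)
            show (((a : G) * b)⁻¹ * ((b : G) * a)) ∈ Z
            have h2 : (((a : G) * b)⁻¹ * ((b : G) * a)) =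
                (b : G)⁻¹ * (a : G)⁻¹ * ((b : G)⁻¹)⁻¹ * ((a : G)⁻¹)⁻¹ := by group
            rw [h2]
            exact h1 }
  let β : MM Q Z → MM Q Z → k := fun m m' => bb c (m.out : Q) (m'.out : Q)
  have hβ : ∀ a b : Q, β (QuotientGroup.mk a) (QuotientGroup.mk b) = bb c (a : G) (b : G) := by
    intro a b
    refine bb_congr h (Subtype.prop _) a.2 (Subtype.prop _) b.2 ?_ ?_
    · have h1 : (QuotientGroup.mk (Quotient.out (QuotientGroup.mk a : MM Q Z)) : MM Q Z) =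
          QuotientGroup.mk a := QuotientGroup.out_eq' _
      rw [QuotientGroup.eq, Subgroup.mem_subgroupOf] at h1
      exact h1
    · have h1 : (QuotientGroup.mk (Quotient.out (QuotientGroup.mk b : MM Q Z)) : MM Q Z) =
          QuotientGroup.mk b := QuotientGroup.out_eq' _
      rw [QuotientGroup.eq, Subgroup.mem_subgroupOf] at h1
      exact h1
  have hmk : ∀ m : MM Q Z, ∃ a : Q, QuotientGroup.mk a = m := fun m =>
    QuotientGroup.mk_surjective m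
  have hβg : ∀ g : G, (∀ z ∈ Z, g * z = z * g) → ∀ a b : MM Q Z,
      β (cja Q Z g a) (cja Q Z g b) = β a b := by
    intro g hg a b
    obtain ⟨a, rfl⟩ := hmk a
    obtain ⟨b, rfl⟩ := hmk b
    rw [cja_apply, cja_apply, cj_mk, cj_mk, hβ, hβ]
    exact bb_conj h hg a.2 b.2
  have hinv : ∀ g ∈ s, ∀ m : MM Q Z, cja Q Z g (cja Q Z g m) = m := by
    intro g hg m
    obtain ⟨a, rfl⟩ := hmk m
    rw [cja_apply, cja_apply, cj_mk, cj_mk]
    congr 1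
    apply Subtype.ext
    have h1 := hs2 g hg a a.2
    show g * (g * (a : G) * g⁻¹) * g⁻¹ = a
    calc g * (g * (a : G) * g⁻¹) * g⁻¹ = (g * g * a) * (g * g)⁻¹ := by group
      _ = a := by rw [h1, mul_inv_cancel_right]
  have hcomm : ∀ g ∈ s, ∀ g' ∈ s, ∀ m : MM Q Z,
      cja Q Z g (cja Q Z g' m) = cja Q Z g' (cja Q Z g m) := by
    intro g hg g' hg' m
    obtain ⟨a, rfl⟩ := hmk m
    rw [cja_apply, cja_apply, cja_apply, cja_apply, cj_mk, cj_mk, cj_mk, cj_mk]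
    congr 1
    apply Subtype.ext
    have h1 := hsc g hg g' hg' a a.2
    show g * (g' * (a : G) * g'⁻¹) * g⁻¹ = g' * (g * (a : G) * g⁻¹) * g'⁻¹
    calc g * (g' * (a : G) * g'⁻¹) * g⁻¹ = (g * g') * a * (g * g')⁻¹ := by group
      _ = (g' * g) * a * (g' * g)⁻¹ := h1
      _ = _ := by group
  obtain ⟨ym, um, hy1, _, hyu, hs⟩ := hW k (MM Q Z) β
    (by
      intro a b d
      obtain ⟨a, rfl⟩ := hmk a
      obtain ⟨b, rfl⟩ := hmk b
      obtain ⟨d, rfl⟩ := hmk d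
      have h1 : (QuotientGroup.mk a * QuotientGroup.mk b : MM Q Z) = QuotientGroup.mk (a * b) := rfl
      rw [h1, hβ, hβ, hβ]
      exact bb_mul_left h a.2 b.2 d.2)
    (by
      intro a b d
      obtain ⟨a, rfl⟩ := hmk a
      obtain ⟨b, rfl⟩ := hmk b
      obtain ⟨d, rfl⟩ := hmk d
      have h1 : (QuotientGroup.mk b * QuotientGroup.mk d : MM Q Z) = QuotientGroup.mk (b * d) := rfl
      rw [h1, hβ, hβ, hβ]
      exact bb_mul_right h a.2 b.2 d.2)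
    (by
      intro a b
      obtain ⟨a, rfl⟩ := hmk a
      obtain ⟨b, rfl⟩ := hmk b
      rw [hβ]
      exact bb_ne_zero h a.2 b.2)
    (by
      intro a b
      obtain ⟨a, rfl⟩ := hmk a
      obtain ⟨b, rfl⟩ := hmk b
      rw [hβ]
      exact bb_sq h hq a.2 b.2)
    (s.image (cja Q Z))
    (by
      intro f hf m
      obtain ⟨g, hg, rfl⟩ := Finset.mem_image.1 hf
      exact hinv g hg m)
    (by
      intro f hf f' hf' m
      obtain ⟨g, hg, rfl⟩ := Finset.mem_image.1 hf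
      obtain ⟨g', hg', rfl⟩ := Finset.mem_image.1 hf'
      exact hcomm g hg g' hg' m)
    (by
      intro f hf a b
      obtain ⟨g, hg, rfl⟩ := Finset.mem_image.1 hf
      exact hβg g (hsZ g hg) a b)
    (cja Q Z g1 * cja Q Z g2)
    (by
      intro m
      show cja Q Z g1 (cja Q Z g2 (cja Q Z g1 (cja Q Z g2 m))) = m
      rw [hcomm g2 hg2 g1 hg1, hinv g1 hg1, hinv g2 hg2])
    (by
      intro f hf m
      obtain ⟨g, hg, rfl⟩ := Finset.mem_image.1 hf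
      show cja Q Z g (cja Q Z g1 (cja Q Z g2 m)) = cja Q Z g1 (cja Q Z g2 (cja Q Z g m))
      rw [hcomm g hg g1 hg1, hcomm g hg g2 hg2])
    (by
      intro a b
      show β (cja Q Z g1 (cja Q Z g2 a)) (cja Q Z g1 (cja Q Z g2 b)) = β a b
      rw [hβg g1 (hsZ g1 hg1), hβg g2 (hsZ g2 hg2)])
    (QuotientGroup.mk ⟨x, hx⟩) (QuotientGroup.mk ⟨w, hw⟩)
    (by
      intro h1
      apply hxw
      have h2 : (cja Q Z g1 * cja Q Z g2) (QuotientGroup.mk ⟨x, hx⟩) *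
          (QuotientGroup.mk ⟨x, hx⟩ : MM Q Z)⁻¹ =
          QuotientGroup.mk ⟨(g1 * (g2 * x * g2⁻¹) * g1⁻¹) * x⁻¹,
            Q.mul_mem (hQn.conj_mem _ (hQn.conj_mem _ hx g2) g1) (Q.inv_mem hx)⟩ := rfl
      rw [h2, hβ] at h1
      rw [← h1]
      refine bb_congr h ?_ ?_ hw hw ?_ ?_
      · exact Q.mul_mem (hQn.conj_mem _ hx _) (Q.inv_mem hx)
      · exact Q.mul_mem (hQn.conj_mem _ (hQn.conj_mem _ hx g2) g1) (Q.inv_mem hx)
      · -- conjugation by `g1` and `g1⁻¹` agree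
        have h3 : g1 * (g2 * x * g2⁻¹) * g1⁻¹ = (g1⁻¹ * g2) * x * (g1⁻¹ * g2)⁻¹ := by
          have h4 := hs2 g1 hg1 _ (hQn.conj_mem _ (hQn.conj_mem _ hx g2) g1⁻¹)
          set t := g1⁻¹ * (g2 * x * g2⁻¹) * g1⁻¹⁻¹ with ht
          have h5 : (g1⁻¹ * g2) * x * (g1⁻¹ * g2)⁻¹ = t := by rw [ht]; group
          have h6 : g1 * (g2 * x * g2⁻¹) * g1⁻¹ = g1 * g1 * t * (g1 * g1)⁻¹ := by rw [ht]; group
          rw [h5, h6, h4, mul_inv_cancel_right]
        show ((g1⁻¹ * g2) * x * (g1⁻¹ * g2)⁻¹ * x⁻¹)⁻¹ *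
          ((g1 * (g2 * x * g2⁻¹) * g1⁻¹) * x⁻¹) ∈ Z
        rw [h3]
        have h5 : ((g1⁻¹ * g2) * x * (g1⁻¹ * g2)⁻¹ * x⁻¹)⁻¹ *
            ((g1⁻¹ * g2) * x * (g1⁻¹ * g2)⁻¹ * x⁻¹) = 1 := inv_mul_cancel _
        rw [h5]
        exact Z.one_mem
      · rw [inv_mul_cancel]
        exact Z.one_mem)
  obtain ⟨y, rfl⟩ := hmk ym
  obtain ⟨u, rfl⟩ := hmk um
  rw [hβ] at hyu
  refine ⟨y, y.2, u, u.2, hyu, ?_, ?_⟩
  · have h1 : (QuotientGroup.mk ⟨g1 * (g2 * (y : G) * g2⁻¹) * g1⁻¹,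
        hQn.conj_mem _ (hQn.conj_mem _ y.2 g2) g1⟩ : MM Q Z) = QuotientGroup.mk y⁻¹ := hy1
    have h2 := h1.symm
    rw [QuotientGroup.eq, Subgroup.mem_subgroupOf] at h2
    exact h2
  · intro g hg
    rcases hs (cja Q Z g) (Finset.mem_image_of_mem _ hg) with ⟨h1, h2⟩ | ⟨h1, h2⟩
    · left
      have h1' : (QuotientGroup.mk ⟨g * (y : G) * g⁻¹, hQn.conj_mem _ y.2 g⟩ : MM Q Z) =
          QuotientGroup.mk y := h1
      have h2' : (QuotientGroup.mk ⟨g * (u : G) * g⁻¹, hQn.conj_mem _ u.2 g⟩ : MM Q Z) =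
          QuotientGroup.mk u := h2
      have h1'' := h1'.symm
      have h2'' := h2'.symm
      rw [QuotientGroup.eq, Subgroup.mem_subgroupOf] at h1'' h2''
      exact ⟨h1'', h2''⟩
    · right
      have h1' : (QuotientGroup.mk ⟨g * (y : G) * g⁻¹, hQn.conj_mem _ y.2 g⟩ : MM Q Z) =
          QuotientGroup.mk y⁻¹ := h1
      have h2' : (QuotientGroup.mk ⟨g * (u : G) * g⁻¹, hQn.conj_mem _ u.2 g⟩ : MM Q Z) =
          QuotientGroup.mk u⁻¹ := h2
      have h1'' := h1'.symm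
      have h2'' := h2'.symm
      rw [QuotientGroup.eq, Subgroup.mem_subgroupOf] at h1'' h2''
      constructor
      · have h3 : ((y : G)⁻¹)⁻¹ * (g * (y : G) * g⁻¹) ∈ Z := h1''
        rwa [inv_inv] at h3
      · have h3 : ((u : G)⁻¹)⁻¹ * (g * (u : G) * g⁻¹) ∈ Z := h2''
        rwa [inv_inv] at h3

theorem same_conj [Fact q.Prime] (h : QC q Q Z c) (hq : q ≠ 2) {g g' : G}
    (hg : ∀ z ∈ Z, g * z = z * g) (hg' : ∀ z ∈ Z, g' * z = z * g')
    (hg2 : ∀ x ∈ Q, g * g * x = x * (g * g)) (hg2' : ∀ x ∈ Q, g' * g' * x = x * (g' * g'))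
    (hgg : ∀ x ∈ Q, (g * g') * x * (g * g')⁻¹ = (g' * g) * x * (g' * g)⁻¹) {y : G} (hy : y ∈ Q)
    (h1 : y * (g * y * g⁻¹) ∈ Z) (h2 : y * (g' * y * g'⁻¹) ∈ Z) :
    g * y * g⁻¹ = g' * y * g'⁻¹ := by
  set z := (g * y * g⁻¹)⁻¹ * (g' * y * g'⁻¹) with hz
  have hzZ : z ∈ Z := by
    have e0 : z = (y * (g * y * g⁻¹))⁻¹ * (y * (g' * y * g'⁻¹)) := by rw [hz]; group
    rw [e0]
    exact Z.mul_mem (Z.inv_mem h1) h2
  have e1 : g' * y * g'⁻¹ = g * y * g⁻¹ * z := by rw [hz]; group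
  have c1 : g * z * g⁻¹ = z := by rw [hg z hzZ, mul_inv_cancel_right]
  have c2 : g' * z * g'⁻¹ = z := by rw [hg' z hzZ, mul_inv_cancel_right]
  have e2 : (g * g') * y * (g * g')⁻¹ = y * z := by
    calc (g * g') * y * (g * g')⁻¹ = g * (g' * y * g'⁻¹) * g⁻¹ := by group
      _ = g * (g * y * g⁻¹ * z) * g⁻¹ := by rw [e1]
      _ = (g * g * y) * (g * g)⁻¹ * (g * z * g⁻¹) := by group
      _ = y * z := by rw [hg2 y hy, mul_inv_cancel_right, c1]
  have e3 : y = y * z * z := by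
    calc y = (g' * g' * y) * (g' * g')⁻¹ := by rw [hg2' y hy, mul_inv_cancel_right]
      _ = g' * (g' * y * g'⁻¹) * g'⁻¹ := by group
      _ = g' * (g * y * g⁻¹ * z) * g'⁻¹ := by rw [e1]
      _ = ((g' * g) * y * (g' * g)⁻¹) * (g' * z * g'⁻¹) := by group
      _ = y * z * z := by rw [← hgg y hy, e2, c2]
  have e5 : z ^ 2 = 1 := by
    rw [mul_assoc] at e3
    rw [pow_two]
    exact mul_eq_left.1 e3.symm
  obtain ⟨n, hn, h3⟩ := odd_pow h hq (h.ZQ hzZ)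
  have e6 := eq_one_of_sq hn h3 e5
  rw [e1, e6, mul_one]

section ops

variable {V : Type} [AddCommGroup V] [Module k V] {ρ : G →* Module.End k V} {e : Module.End k V}

theorem shift (hc : WC q ρ Q Z e c) {x : G} (hx : x ∈ Q) (a : k) (g : G) :
    ρ x * (a • (ρ g * e)) * ρ x⁻¹ = a • (ρ (x * (g * x⁻¹ * g⁻¹)) * (ρ g * e)) := by
  have h1 : ρ (x * (g * x⁻¹ * g⁻¹)) * (ρ g * e) = ρ x * (ρ g * e) * ρ x⁻¹ := by
    have h2 : x * (g * x⁻¹ * g⁻¹) * g = x * g * x⁻¹ := by group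
    rw [← mul_assoc, ← map_mul, h2, map_mul, map_mul, mul_assoc, hc.commQ _ (Q.inv_mem hx)]
    simp only [mul_assoc]
  rw [h1, mul_smul_comm, smul_mul_assoc]

theorem minus_fix (hc : WC q ρ Q Z e c) (s : Finset G) (a : G → k) (P : G → Prop)
    [DecidablePred P] {x x' : G} (hx : x ∈ Q) (h1 : ∀ g ∈ s, ¬ P g → g * x * g⁻¹ = x)
    (h2 : ∀ g ∈ s, P g → g * x⁻¹ * g⁻¹ = x') (hsum : ∑ g ∈ s, a g • (ρ g * e) = 0) :
    ρ (x * x') * ∑ g ∈ s.filter P, a g • (ρ g * e) =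
      ∑ g ∈ s.filter P, a g • (ρ g * e) := by
  have e1 : ∑ g ∈ s, a g • (ρ (x * (g * x⁻¹ * g⁻¹)) * (ρ g * e)) = 0 := by
    have e2 : ρ x * (∑ g ∈ s, a g • (ρ g * e)) * ρ x⁻¹ = 0 := by rw [hsum, mul_zero, zero_mul]
    rw [Finset.mul_sum, Finset.sum_mul] at e2
    rw [← e2]
    refine Finset.sum_congr rfl fun g _ => ?_
    exact (shift hc hx (a g) g).symm
  rw [← Finset.sum_filter_add_sum_filter_not s P] at e1 hsum
  have e3 : ∑ g ∈ s.filter P, a g • (ρ (x * (g * x⁻¹ * g⁻¹)) * (ρ g * e)) =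
      ρ (x * x') * ∑ g ∈ s.filter P, a g • (ρ g * e) := by
    rw [Finset.mul_sum]
    refine Finset.sum_congr rfl fun g hg => ?_
    obtain ⟨hg1, hg2⟩ := Finset.mem_filter.1 hg
    rw [h2 g hg1 hg2, mul_smul_comm]
  have e4 : ∑ g ∈ s.filter (fun g => ¬ P g), a g • (ρ (x * (g * x⁻¹ * g⁻¹)) * (ρ g * e)) =
      ∑ g ∈ s.filter (fun g => ¬ P g), a g • (ρ g * e) := by
    refine Finset.sum_congr rfl fun g hg => ?_
    obtain ⟨hg1, hg2⟩ := Finset.mem_filter.1 hg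
    have h3 : x * (g * x⁻¹ * g⁻¹) = 1 := by
      have h4 := h1 g hg1 hg2
      calc x * (g * x⁻¹ * g⁻¹) = x * (g * x * g⁻¹)⁻¹ := by group
        _ = 1 := by rw [h4, mul_inv_cancel]
    rw [h3, map_one, one_mul]
  rw [e3, e4] at e1
  exact add_right_cancel (e1.trans hsum.symm)

theorem inv_fix {x : G} {R : Module.End k V} (h : ρ x * R = R) : ρ x⁻¹ * R = R := by
  have h1 : ρ x⁻¹ * (ρ x * R) = R := by
    rw [← mul_assoc, ← map_mul, inv_mul_cancel, map_one, one_mul]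
  rw [h] at h1
  exact h1

/-- `y'` is `y * y` up to `Z` -/
theorem sq_mod (h : QC q Q Z c) {g y : G} (hy : y ∈ Q)
    (h1 : y * (g * y * g⁻¹) ∈ Z) : (y * y)⁻¹ * (y * (g * y⁻¹ * g⁻¹)) ∈ Z := by
  have e1 : (y * y)⁻¹ * (y * (g * y⁻¹ * g⁻¹)) = y⁻¹ * (g * y * g⁻¹)⁻¹ := by group
  rw [e1]
  have h2 := h.cent _ (Z.inv_mem h1) y hy
  have e2 : y⁻¹ * (g * y * g⁻¹)⁻¹ = y⁻¹ * ((y * (g * y * g⁻¹))⁻¹ * y) := by group
  rw [e2, h2, inv_mul_cancel_left]
  exact Z.inv_mem h1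

theorem bb_sq_mod [Fact q.Prime] (h : QC q Q Z c) (hq : q ≠ 2) {y y' u u' : G} (hy : y ∈ Q)
    (hy' : y' ∈ Q) (hu : u ∈ Q) (hu' : u' ∈ Q) (h1 : (y * y)⁻¹ * y' ∈ Z)
    (h2 : (u * u)⁻¹ * u' ∈ Z) (h3 : bb c y' u' = 1) : bb c y u = 1 := by
  have e1 : bb c (y * y) (u * u) = 1 := by
    rw [bb_congr h (Q.mul_mem hy hy) hy' (Q.mul_mem hu hu) hu' h1 h2, h3]
  rw [bb_mul_right h (Q.mul_mem hy hy) hu hu, ← pow_two] at e1
  have e2 := bb_sq h hq (Q.mul_mem hy hy) hu e1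
  rw [bb_mul_left h hy hy hu, ← pow_two] at e2
  exact bb_sq h hq hy hu e2

theorem core (hW : LemWStm) [Fact q.Prime] (hq : q ≠ 2) (hc : WC q ρ Q Z e c) (a : G → k) :
    ∀ (n : ℕ) (s : Finset G), s.card = n → s.Nonempty → (∀ g ∈ s, a g ≠ 0) →
    (∀ g ∈ s, ∀ z ∈ Z, g * z = z * g) → (∀ g ∈ s, ∀ x ∈ Q, g * g * x = x * (g * g)) →
    (∀ g ∈ s, ∀ g' ∈ s, ∀ x ∈ Q, (g * g') * x * (g * g')⁻¹ = (g' * g) * x * (g' * g)⁻¹) →
    ∑ g ∈ s, a g • (ρ g * e) = 0 → ∃ g ∈ s, ∃ g' ∈ s, g ≠ g' ∧ TrivOn Q c (g⁻¹ * g') := by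
  classical
  have h : QC q Q Z c := hc.toQC
  intro n
  induction n using Nat.strong_induction_on with
  | _ n ih =>
    intro s hn hne ha hsZ hs2 hsc hsum
    by_contra hcon
    push Not at hcon
    -- two distinct elements
    have htwo : ∃ g1 ∈ s, ∃ g2 ∈ s, g1 ≠ g2 := by
      by_contra hno
      push Not at hno
      obtain ⟨g, hg⟩ := hne
      have hs1 : s = {g} := by
        ext x
        rw [Finset.mem_singleton]
        constructor
        · intro hx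
          exact hno x hx g hg
        · rintro rfl
          exact hg
      rw [hs1, Finset.sum_singleton] at hsum
      rcases smul_eq_zero.1 hsum with h1 | h1
      · exact ha g hg h1
      · apply hc.ne
        have h2 : ρ g⁻¹ * (ρ g * e) = e := by
          rw [← mul_assoc, ← map_mul, inv_mul_cancel, map_one, one_mul]
        rw [h1, mul_zero] at h2
        exact h2.symm
    obtain ⟨g1, hg1, g2, hg2, hg12⟩ := htwo
    have hnt := hcon g1 hg1 g2 hg2 hg12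
    unfold TrivOn at hnt
    push Not at hnt
    obtain ⟨x, hx, w, hw, hxw⟩ := hnt
    obtain ⟨y, hy, u, hu, hyu, h12, hpm⟩ := weights hW h hq s hsZ hs2 hsc hg1 hg2 hx hw hxw
    have hnyy : ¬ (y * y ∈ Z) := by
      intro h1
      apply hyu
      apply bb_sq h hq hy hu
      rw [pow_two, ← bb_mul_left h hy hy hu]
      exact bb_Z_left h h1 hu
    have hfixy : ∀ g ∈ s, y⁻¹ * (g * y * g⁻¹) ∈ Z → g * y * g⁻¹ = y := fun g hg h1 =>
      exact_fix h hq (hsZ g hg) (hs2 g hg) hy h1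
    have hfixu : ∀ g ∈ s, u⁻¹ * (g * u * g⁻¹) ∈ Z → g * u * g⁻¹ = u := fun g hg h1 =>
      exact_fix h hq (hsZ g hg) (hs2 g hg) hu h1
    rw [inv_inv] at h12
    set P : G → Prop := fun g => y * (g * y * g⁻¹) ∈ Z ∧ u * (g * u * g⁻¹) ∈ Z with hP
    have hplus : ∀ g ∈ s, ¬ P g → g * y * g⁻¹ = y ∧ g * u * g⁻¹ = u := by
      intro g hg hn
      rcases hpm g hg with h1 | h1
      · exact ⟨hfixy g hg h1.1, hfixu g hg h1.2⟩
      · exact absurd h1 hn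
    have hnb : ¬ (P g1 ∧ P g2) := by
      rintro ⟨h1, h2⟩
      apply hnyy
      have h3 := h1.1
      have h4 := h2.1
      set z1 := y * (g1 * y * g1⁻¹) with hz1
      set z2 := y * (g2 * y * g2⁻¹) with hz2
      have e2 : g2 * y * g2⁻¹ = y⁻¹ * z2 := by rw [hz2]; group
      have e1 : g1 * y * g1⁻¹ = y⁻¹ * z1 := by rw [hz1]; group
      have e3 : g1 * z2 * g1⁻¹ = z2 := by rw [hsZ g1 hg1 z2 h4, mul_inv_cancel_right]
      have e4 : g1 * (g2 * y * g2⁻¹) * g1⁻¹ = z1⁻¹ * y * z2 := by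
        calc g1 * (g2 * y * g2⁻¹) * g1⁻¹ = (g1 * y * g1⁻¹)⁻¹ * (g1 * z2 * g1⁻¹) := by
              rw [e2]; group
          _ = z1⁻¹ * y * z2 := by rw [e1, e3]; group
      rw [e4] at h12
      have e5 := h.cent _ (Z.inv_mem h3) y hy
      have e6 : y * y = y * (z1⁻¹ * y * z2) * z2⁻¹ * z1 := by
        rw [e5]; group
      rw [e6]
      exact Z.mul_mem (Z.mul_mem h12 (Z.inv_mem h4)) h3
    have hnn : P g1 ∨ P g2 := by
      by_contra hno
      push Not at hno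
      apply hnyy
      have h1 := (hplus g1 hg1 hno.1).1
      have h2 := (hplus g2 hg2 hno.2).1
      rw [h2, h1] at h12
      exact h12
    have hmne : (s.filter P).Nonempty := by
      rcases hnn with h1 | h1
      · exact ⟨g1, Finset.mem_filter.2 ⟨hg1, h1⟩⟩
      · exact ⟨g2, Finset.mem_filter.2 ⟨hg2, h1⟩⟩
    have hlt : (s.filter P).card < n := by
      rw [← hn]
      apply Finset.card_lt_card
      rw [Finset.filter_ssubset]
      by_contra hno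
      push Not at hno
      exact hnb ⟨hno g1 hg1, hno g2 hg2⟩
    obtain ⟨g0, hg0⟩ := hmne
    obtain ⟨hg0s, hg0P⟩ := Finset.mem_filter.1 hg0
    have hsamey : ∀ g ∈ s, P g → g * y⁻¹ * g⁻¹ = g0 * y⁻¹ * g0⁻¹ := by
      intro g hg hPg
      have h1 := same_conj h hq (hsZ g hg) (hsZ g0 hg0s) (hs2 g hg) (hs2 g0 hg0s)
        (hsc g hg g0 hg0s) hy hPg.1 hg0P.1
      have h2 := congrArg (fun t => t⁻¹) h1
      calc g * y⁻¹ * g⁻¹ = (g * y * g⁻¹)⁻¹ := by group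
        _ = (g0 * y * g0⁻¹)⁻¹ := h2
        _ = _ := by group
    have hsameu : ∀ g ∈ s, P g → g * u⁻¹ * g⁻¹ = g0 * u⁻¹ * g0⁻¹ := by
      intro g hg hPg
      have h1 := same_conj h hq (hsZ g hg) (hsZ g0 hg0s) (hs2 g hg) (hs2 g0 hg0s)
        (hsc g hg g0 hg0s) hu hPg.2 hg0P.2
      have h2 := congrArg (fun t => t⁻¹) h1
      calc g * u⁻¹ * g⁻¹ = (g * u * g⁻¹)⁻¹ := by group
        _ = (g0 * u * g0⁻¹)⁻¹ := h2
        _ = _ := by group
    have hfy := minus_fix hc s a P hy (fun g hg hn => (hplus g hg hn).1) hsamey hsum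
    have hfu := minus_fix hc s a P hu (fun g hg hn => (hplus g hg hn).2) hsameu hsum
    set y' := y * (g0 * y⁻¹ * g0⁻¹) with hy'
    set u' := u * (g0 * u⁻¹ * g0⁻¹) with hu'
    set R := ∑ g ∈ s.filter P, a g • (ρ g * e) with hR
    have hy'Q : y' ∈ Q := Q.mul_mem hy (h.Qn.conj_mem _ (Q.inv_mem hy) g0)
    have hu'Q : u' ∈ Q := Q.mul_mem hu (h.Qn.conj_mem _ (Q.inv_mem hu) g0)
    have hζZ : y' * u' * y'⁻¹ * u'⁻¹ ∈ Z := h.comm y' hy'Q u' hu'Q
    have hζR : ρ (y' * u' * y'⁻¹ * u'⁻¹) * R = R := by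
      rw [map_mul, map_mul, map_mul, mul_assoc, inv_fix hfu, mul_assoc, inv_fix hfy, mul_assoc,
        hfu, hfy]
    have hζc : ρ (y' * u' * y'⁻¹ * u'⁻¹) * R = c (y' * u' * y'⁻¹ * u'⁻¹) • R := by
      rw [hR, Finset.mul_sum, Finset.smul_sum]
      refine Finset.sum_congr rfl fun g hg => ?_
      obtain ⟨hgs, _⟩ := Finset.mem_filter.1 hg
      rw [mul_smul_comm, ← mul_assoc, ← map_mul, ← hsZ g hgs _ hζZ, map_mul, mul_assoc,
        hc.sc _ hζZ, mul_smul_comm, smul_comm]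
    have hR0 : R = 0 := by
      by_contra hR0
      apply hyu
      refine bb_sq_mod h hq hy hy'Q hu hu'Q (sq_mod h hy hg0P.1) (sq_mod h hu hg0P.2) ?_
      rw [hζR] at hζc
      have h1 : (c (y' * u' * y'⁻¹ * u'⁻¹) - 1) • R = 0 := by
        rw [sub_smul, one_smul, ← hζc, sub_self]
      rcases smul_eq_zero.1 h1 with h2 | h2
      · exact sub_eq_zero.1 h2
      · exact absurd h2 hR0
    obtain ⟨g, hg, g', hg', hne', ht⟩ := ih _ hlt (s.filter P) rfl ⟨g0, hg0⟩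
      (fun g hg => ha g (Finset.mem_filter.1 hg).1) (fun g hg => hsZ g (Finset.mem_filter.1 hg).1)
      (fun g hg => hs2 g (Finset.mem_filter.1 hg).1)
      (fun g hg g' hg' => hsc g (Finset.mem_filter.1 hg).1 g' (Finset.mem_filter.1 hg').1) hR0
    exact hcon g (Finset.mem_filter.1 hg).1 g' (Finset.mem_filter.1 hg').1 hne' ht

end ops

end pairing

theorem sepF2 (hW : LemWStm) : SepF2Stm := by
  intro q _ k G V _ _ _ _ _ ρ Q Z e c hq hc s hs a ha hsZ hs2 hsc hsum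
  exact core hW hq hc a s.card s rfl hs ha hsZ hs2 hsc hsum

end Pool.Agent.TH883.J729
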