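import Pool.Agent.TH77.PathN
set_option autoImplicit false
set_option linter.unusedSectionVars false

namespace Pool.Agent.TH77
open Filter Topology Metric Set
namespace PL

variable {ι : Type*} {H : ι → Type*} {E : ι → Type*} [∀ i, Group (H i)]
  [∀ i, TopologicalSpace (H i)] [∀ i, IsTopologicalGroup (H i)] [∀ i, T2Space (H i)]
  [∀ i, NormedAddCommGroup (E i)] [∀ i, NormedSpace ℝ (E i)] [∀ i, FiniteDimensional ℝ (E i)]
  (L : ∀ i, LG (H i) (E i))

/-- The bracket of the product. -/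
noncomputable def brP (X Y : ∀ i, E i) : ∀ i, E i := fun i => (L i).ad (X i) (Y i)

theorem j960_anti (X Y : ∀ i, E i) : brP L X Y = - brP L Y X := by
  funext i
  have h1 := (L i).ad_self (X i + Y i)
  have h2 := (L i).ad_self (X i)
  have h3 := (L i).ad_self (Y i)
  simp only [map_add, add_apply, h2, h3, zero_add, add_zero] at h1
  exact eq_neg_of_add_eq_zero_right h1

/-- the adjoint operator -/
noncomputable def j960_ad (X : ∀ i, E i) : (∀ i, E i) →ₗ[ℝ] (∀ i, E i) where
  toFun Y := brP L X Y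
  map_add' := by
    intro Y Z
    funext i
    exact map_add _ _ _
  map_smul' := by
    intro c Y
    funext i
    exact map_smul _ _ _

theorem j960_ad_pow (X Y : ∀ i, E i) (n : ℕ) (i : ι) :
    (j960_ad L X ^ n) Y i = (((L i).ad (X i)) ^ n) (Y i) := by
  induction n generalizing Y with
  | zero => rfl
  | succ n ih =>
    rw [pow_succ, Module.End.mul_apply, ih, pow_succ]
    rfl

theorem j960_AdP_ex (X Y : ∀ i, E i) (i : ι) :
    AdP L (ex L X) Y i = NormedSpace.exp ((L i).ad (X i)) (Y i) := by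
  show ((L i).Ad ((L i).exp (X i)) : E i →L[ℝ] E i) (Y i) = _
  rw [(L i).Ad_exp]

/-- general lemma A -/
theorem j960_A {h : Submodule ℝ (∀ i, E i)} (hcl : IsClosed (h : Set (∀ i, E i))) {X Y : ∀ i, E i}
    (hX : ∀ Z ∈ h, brP L X Z ∈ h) (hXY : brP L X Y ∈ h) : AdP L (ex L X) Y - Y ∈ h := by
  have hpow : ∀ n : ℕ, (j960_ad L X ^ (n + 1)) Y ∈ h := by
    intro n
    induction n with
    | zero =>
      rw [zero_add, pow_one]
      exact hXY
    | succ n ih =>
      rw [pow_succ', Module.End.mul_apply]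
      exact hX _ ih
  have ht : Tendsto (fun n : ℕ => ∑ j ∈ Finset.range n,
      (((j + 1).factorial : ℝ)⁻¹) • (j960_ad L X ^ (j + 1)) Y) atTop (𝓝 (AdP L (ex L X) Y - Y)) := by
    rw [tendsto_pi_nhds]
    intro i
    have : CompleteSpace (E i) := FiniteDimensional.complete ℝ (E i)
    have h1 := NormedSpace.exp_series_hasSum_exp' (𝕂 := ℝ) ((L i).ad (X i))
    have h2 := h1.mapL (ContinuousLinearMap.apply ℝ (E i) (Y i))
    have h3 : HasSum (fun n : ℕ => ((n.factorial : ℝ)⁻¹) • (((L i).ad (X i)) ^ n) (Y i))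
        (NormedSpace.exp ((L i).ad (X i)) (Y i)) := h2
    rw [← hasSum_nat_add_iff' 1] at h3
    have h4 := h3.tendsto_sum_nat
    rw [Finset.sum_range_one, pow_zero, Nat.factorial_zero, Nat.cast_one, inv_one, one_smul] at h4
    have h5 : (AdP L (ex L X) Y - Y) i = NormedSpace.exp ((L i).ad (X i)) (Y i) -
        (1 : E i →L[ℝ] E i) (Y i) := by
      rw [Pi.sub_apply, j960_AdP_ex]
      rfl
    rw [h5]
    refine h4.congr fun n => ?_
    rw [Finset.sum_apply]
    refine Finset.sum_congr rfl fun j _ => ?_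
    rw [Pi.smul_apply, j960_ad_pow]
  refine hcl.mem_of_tendsto ht (Eventually.of_forall fun n => ?_)
  exact Submodule.sum_mem _ fun j _ => Submodule.smul_mem _ _ (hpow j)

/-- general lemma B -/
theorem j960_B {h : Submodule ℝ (∀ i, E i)} (hcl : IsClosed (h : Set (∀ i, E i))) {X Y : ∀ i, E i}
    (hX : ∀ t : ℝ, AdP L (ex L (t • X)) Y - Y ∈ h) : brP L X Y ∈ h := by
  have ht : Tendsto (fun t : ℝ => t⁻¹ • (AdP L (ex L (t • X)) Y - Y)) (𝓝[≠] 0)
      (𝓝 (brP L X Y)) := by
    rw [tendsto_pi_nhds]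
    intro i
    have : CompleteSpace (E i) := FiniteDimensional.complete ℝ (E i)
    have h1 := (LG.op_hasDerivAt ((L i).ad (X i)) (Y i)).tendsto_slope_zero
    refine h1.congr fun t => ?_
    rw [Pi.smul_apply, Pi.sub_apply, j960_AdP_ex, zero_add, zero_smul, NormedSpace.exp_zero,
      Pi.smul_apply, map_smul]
    rfl
  refine hcl.mem_of_tendsto ht (Eventually.of_forall fun t => ?_)
  exact Submodule.smul_mem _ _ (hX t)

theorem j960_AdP_one (X : ∀ i, E i) : AdP L 1 X = X := by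
  funext i
  show ((L i).Ad 1 : E i →L[ℝ] E i) (X i) = X i
  rw [map_one]
  rfl

theorem j960_AdP_mul (a b : ∀ i, H i) (X : ∀ i, E i) :
    AdP L (a * b) X = AdP L a (AdP L b X) := by
  funext i
  show ((L i).Ad (a i * b i) : E i →L[ℝ] E i) (X i) = _
  rw [map_mul]
  rfl

theorem j960_AdP_sub (a : ∀ i, H i) (X Y : ∀ i, E i) :
    AdP L a (X - Y) = AdP L a X - AdP L a Y := by
  funext i
  exact map_sub _ _ _

theorem j960_cont (X : ∀ i, E i) : Continuous fun g : ∀ i, H i => AdP L g X := by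
  refine continuous_pi fun i => ?_
  have h1 : Continuous fun g : ∀ i, H i => ((L i).Ad (g i) : E i →L[ℝ] E i) :=
    Units.continuous_val.comp ((L i).continuous_Ad.comp (continuous_apply i))
  exact h1.clm_apply continuous_const

/-- JOB H. A closed subalgebra inside the Lie algebra of the closure of its group. -/
theorem closure_facts (h : Submodule ℝ (∀ i, E i)) (hcl : IsClosed (h : Set (∀ i, E i)))
    (hlie : ∀ X ∈ h, ∀ Y ∈ h, brP L X Y ∈ h) (G : Subgroup (∀ i, H i))
    (hG : IsClosed (G : Set (∀ i, H i))) (hGh : (G : Set (∀ i, H i)) = closure (LS L h : Set (∀ i, H i))) :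
    h ≤ gL L G hG ∧
    (∀ g ∈ G, ∀ X ∈ gL L G hG, AdP L g X ∈ gL L G hG) ∧
    (∀ g ∈ G, ∀ X ∈ h, AdP L g X ∈ h) ∧
    (∀ X ∈ gL L G hG, ∀ Y ∈ h, brP L X Y ∈ h) ∧
    (∀ g ∈ G, ∀ X ∈ gL L G hG, AdP L g X - X ∈ h) ∧
    (∀ X ∈ gL L G hG, ∀ Y ∈ gL L G hG, brP L X Y ∈ h) := by
  have hLG : ∀ g ∈ LS L h, g ∈ G := by
    intro g hg
    have h1 : g ∈ (G : Set (∀ i, H i)) := by
      rw [hGh]
      exact subset_closure hg
    exact h1
  have h1 : h ≤ gL L G hG := by
    intro X hX t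
    exact hLG _ (ex_mem_LS L (h.smul_mem t hX))
  have h2 : ∀ g ∈ G, ∀ X ∈ gL L G hG, AdP L g X ∈ gL L G hG := by
    intro g hg X hX t
    rw [← AdP_smul, ex_AdP]
    exact G.mul_mem (G.mul_mem hg (hX t)) (G.inv_mem hg)
  have h3' : ∀ g ∈ LS L h, (∀ X ∈ h, AdP L g X ∈ h) ∧ (∀ X ∈ h, AdP L g⁻¹ X ∈ h) := by
    intro g hg
    rw [LS] at hg
    induction hg using Subgroup.closure_induction with
    | mem g hg =>
      obtain ⟨X, hX, rfl⟩ := hg
      have key : ∀ X ∈ h, ∀ Y ∈ h, AdP L (ex L X) Y ∈ h := by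
        intro X hX Y hY
        have h4 := j960_A L hcl (hlie X hX) (hlie X hX Y hY)
        have h5 := h.add_mem h4 hY
        rwa [sub_add_cancel] at h5
      refine ⟨key X hX, ?_⟩
      rw [← ex_neg]
      exact key (-X) (h.neg_mem hX)
    | one =>
      rw [inv_one]
      refine ⟨fun X hX => ?_, fun X hX => ?_⟩
      · rw [j960_AdP_one]; exact hX
      · rw [j960_AdP_one]; exact hX
    | mul a b _ _ ha hb =>
      refine ⟨fun X hX => ?_, fun X hX => ?_⟩
      · rw [j960_AdP_mul]; exact ha.1 _ (hb.1 X hX)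
      · rw [mul_inv_rev, j960_AdP_mul]; exact hb.2 _ (ha.2 X hX)
    | inv a _ ha =>
      rw [inv_inv]
      exact ⟨ha.2, ha.1⟩
  have h3 : ∀ g ∈ G, ∀ X ∈ h, AdP L g X ∈ h := by
    intro g hg X hX
    have h4 : (G : Set (∀ i, H i)) ⊆ (fun g => AdP L g X) ⁻¹' (h : Set (∀ i, E i)) := by
      rw [hGh]
      refine closure_minimal ?_ (hcl.preimage (j960_cont L X))
      intro g hg
      exact (h3' g hg).1 X hX
    exact h4 hg
  have h4 : ∀ X ∈ gL L G hG, ∀ Y ∈ h, brP L X Y ∈ h := by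
    intro X hX Y hY
    refine j960_B L hcl fun t => h.sub_mem (h3 _ (hX t) Y hY) hY
  have h5' : ∀ X ∈ gL L G hG, ∀ g ∈ LS L h, AdP L g X - X ∈ h := by
    intro X hX g hg
    have hgG := hLG g hg
    rw [LS] at hg
    induction hg using Subgroup.closure_induction with
    | mem g hg =>
      obtain ⟨Y, hY, rfl⟩ := hg
      refine j960_A L hcl (hlie Y hY) ?_
      rw [j960_anti]
      exact h.neg_mem (h4 X hX Y hY)
    | one =>
      rw [j960_AdP_one, sub_self]
      exact h.zero_mem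
    | mul a b ha' hb' ha hb =>
      have ha1 : a ∈ G := hLG a ha'
      have hb1 : b ∈ G := hLG b hb'
      have h6 : AdP L (a * b) X - X = AdP L a (AdP L b X - X) + (AdP L a X - X) := by
        rw [j960_AdP_mul, j960_AdP_sub]
        abel
      rw [h6]
      exact h.add_mem (h3 a ha1 _ (hb hb1)) (ha ha1)
    | inv a ha' ha =>
      have ha1 : a ∈ G := hLG a ha'
      have h6 : AdP L a⁻¹ X - X = - AdP L a⁻¹ (AdP L a X - X) := by
        rw [j960_AdP_sub, ← j960_AdP_mul, inv_mul_cancel, j960_AdP_one]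
        abel
      rw [h6]
      exact h.neg_mem (h3 _ (G.inv_mem ha1) _ (ha ha1))
  have h5 : ∀ g ∈ G, ∀ X ∈ gL L G hG, AdP L g X - X ∈ h := by
    intro g hg X hX
    have h6 : (G : Set (∀ i, H i)) ⊆ (fun g => AdP L g X - X) ⁻¹' (h : Set (∀ i, E i)) := by
      rw [hGh]
      refine closure_minimal ?_ (hcl.preimage ((j960_cont L X).sub continuous_const))
      intro g hg
      exact h5' X hX g hg
    exact h6 hg
  refine ⟨h1, h2, h3, h4, h5, ?_⟩
  intro X hX Y hY
  exact j960_B L hcl fun t => h5 _ (hX t) Y hY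

end PL
end Pool.Agent.TH77
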