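import Pool.Agent.TH77.AN.NilC
import Pool.Agent.TH370.J879

set_option autoImplicit false
set_option linter.unusedSectionVars false

namespace Pool.Agent.TH77
open Filter Topology Set Metric Asymptotics
namespace LG
variable {H : Type*} [Group H] [TopologicalSpace H] [IsTopologicalGroup H] [T2Space H]
  {E : Type*} [NormedAddCommGroup E] [NormedSpace ℝ E] [FiniteDimensional ℝ E] (L : LG H E)

/-- the average of the exponentials -/
noncomputable def j962_Psi (P : E) (n : ℕ) : E →L[ℝ] E :=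
  (1 / (n : ℝ)) • ∑ k ∈ Finset.range n, NormedSpace.exp (((k : ℝ) / n) • L.ad P)

theorem j962_Psi_apply (P : E) (n : ℕ) (x : E) : L.j962_Psi P n x = (1 / (n : ℝ)) •
    ∑ k ∈ Finset.range n, NormedSpace.exp (((k : ℝ) / n) • L.ad P) x := by
  rw [j962_Psi, smul_apply, sum_apply]

theorem j962_bound (P : E) : ∃ C : ℝ, 1 ≤ C ∧ ∀ s ∈ Icc (0 : ℝ) 1,
    ‖(NormedSpace.exp (s • L.ad P) : E →L[ℝ] E)‖ ≤ C := by
  have : CompleteSpace E := FiniteDimensional.complete ℝ E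
  have hc : Continuous fun s : ℝ => (NormedSpace.exp (s • L.ad P) : E →L[ℝ] E) := by
    refine continuous_iff_continuousAt.2 fun s => ?_
    exact (LG.exp_analyticAt (F := E →L[ℝ] E) (s • L.ad P)).continuousAt.comp
      (f := fun s : ℝ => s • L.ad P) (by fun_prop)
  obtain ⟨C, hC⟩ := (isCompact_Icc (a := (0 : ℝ)) (b := 1)).exists_bound_of_continuousOn
    (f := fun s : ℝ => (NormedSpace.exp (s • L.ad P) : E →L[ℝ] E)) hc.continuousOn
  exact ⟨max C 1, le_max_right _ _, fun s hs => (hC s hs).trans (le_max_left _ _)⟩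

theorem j962_Psi_norm (P : E) : ∃ C : ℝ, 1 ≤ C ∧ ∀ n : ℕ, 0 < n → ‖L.j962_Psi P n‖ ≤ C := by
  obtain ⟨C, hC1, hC⟩ := L.j962_bound P
  refine ⟨C, hC1, fun n hn => ?_⟩
  have hnR : (0 : ℝ) < n := by exact_mod_cast hn
  rw [j962_Psi, norm_smul]
  calc ‖(1 / (n : ℝ))‖ * ‖∑ k ∈ Finset.range n, NormedSpace.exp (((k : ℝ) / n) • L.ad P)‖ ≤
      ‖(1 / (n : ℝ))‖ * ∑ k ∈ Finset.range n, C := by
        refine mul_le_mul_of_nonneg_left ((norm_sum_le _ _).trans ?_) (norm_nonneg _)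
        refine Finset.sum_le_sum fun k hk => hC _ ⟨by positivity, ?_⟩
        rw [div_le_one hnR]
        exact_mod_cast (Finset.mem_range.1 hk).le
    _ = C := by
        rw [Finset.sum_const, Finset.card_range, nsmul_eq_mul, Real.norm_of_nonneg (by positivity)]
        field_simp

theorem j962_f_Psi (f : E →ₗ[ℝ] ℝ) (hf : ∀ x y, f (L.ad x y) = 0) (P : E) (n : ℕ) (hn : 0 < n)
    (x : E) : f (L.j962_Psi P n x) = f x := by
  have hnR : (0 : ℝ) < n := by exact_mod_cast hn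
  have h1 : ∀ s : ℝ, f (NormedSpace.exp (s • L.ad P) x) = f x := by
    intro s
    have h2 : ∀ y, (s • L.ad P) y ∈ LinearMap.ker f := by
      intro y
      rw [LinearMap.mem_ker, smul_apply, map_smul, hf, smul_zero]
    have h3 := exp_sub_mem (s • L.ad P) (LinearMap.ker f) (fun y _ => h2 y) x (h2 x)
    rw [LinearMap.mem_ker, map_sub, sub_eq_zero] at h3
    exact h3
  rw [j962_Psi_apply, map_smul, map_sum, Finset.sum_congr rfl fun k _ => h1 _, Finset.sum_const,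
    Finset.card_range, nsmul_eq_mul, smul_eq_mul]
  field_simp

theorem j962_lower {V : ℕ → Submodule ℝ E} {m : ℕ} (hV : IsFlag V m) (P : E)
    (hP : L.ad P ∈ Str V) : ∃ C : ℝ, 0 < C ∧ ∀ n : ℕ, 0 < n → ∀ x : E,
      ‖x‖ ≤ C * ‖L.j962_Psi P n x‖ := by
  obtain ⟨K, hK1, hK⟩ := L.j962_Psi_norm P
  refine ⟨∑ j ∈ Finset.range (m + 1), (1 + K) ^ j, ?_, fun n hn x => ?_⟩
  · refine Finset.sum_pos (fun j _ => by positivity) ⟨0, Finset.mem_range.2 (by omega)⟩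
  · have hnR : (0 : ℝ) < n := by exact_mod_cast hn
    set N : E →L[ℝ] E := 1 - L.j962_Psi P n with hN
    have hNS : N ∈ Str V := by
      intro k v hv
      have h1 : N v = -((1 / (n : ℝ)) •
          ∑ j ∈ Finset.range n, (NormedSpace.exp (((j : ℝ) / n) • L.ad P) v - v)) := by
        rw [hN, sub_apply, j962_Psi_apply, Finset.sum_sub_distrib, Finset.sum_const,
          Finset.card_range, smul_sub, ← Nat.cast_smul_eq_nsmul ℝ, smul_smul,
          one_div_mul_cancel hnR.ne', one_smul, neg_sub]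
        rfl
      rw [h1]
      refine Submodule.neg_mem _ (Submodule.smul_mem _ _ (Submodule.sum_mem _ fun j _ => ?_))
      exact exp_Str hV ((Str V).smul_mem _ hP) k v hv
    have hNm : ∀ j, ∀ v, (N ^ j) v ∈ V j := by
      intro j
      induction j with
      | zero => intro v; rw [hV.zero]; trivial
      | succ j ih =>
        intro v
        rw [pow_succ']
        exact hNS j _ (ih v)
    have hN0 : N ^ (m + 1) = 0 := by
      refine ContinuousLinearMap.ext fun v => ?_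
      have h2 := hV.mono m (hNm (m + 1) v)
      rw [hV.bot, Submodule.mem_bot] at h2
      exact h2
    have hgeo : (∑ j ∈ Finset.range (m + 1), N ^ j) * L.j962_Psi P n = 1 := by
      have h1 := geom_sum_mul_neg N (m + 1)
      rw [hN0, sub_zero] at h1
      have h2 : L.j962_Psi P n = 1 - N := by rw [hN]; abel
      rw [h2]
      exact h1
    have hx : x = (∑ j ∈ Finset.range (m + 1), N ^ j) (L.j962_Psi P n x) := by
      have h1 := congrArg (fun T : E →L[ℝ] E => T x) hgeo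
      exact h1.symm
    have hNn : ‖N‖ ≤ 1 + K := by
      have h1 : ‖(1 : E →L[ℝ] E)‖ ≤ 1 := ContinuousLinearMap.norm_id_le
      calc ‖N‖ ≤ ‖(1 : E →L[ℝ] E)‖ + ‖L.j962_Psi P n‖ := norm_sub_le _ _
        _ ≤ 1 + K := add_le_add h1 (hK n hn)
    calc ‖x‖ = ‖(∑ j ∈ Finset.range (m + 1), N ^ j) (L.j962_Psi P n x)‖ := by rw [← hx]
      _ ≤ ‖∑ j ∈ Finset.range (m + 1), N ^ j‖ * ‖L.j962_Psi P n x‖ :=
        ContinuousLinearMap.le_opNorm _ _
      _ ≤ (∑ j ∈ Finset.range (m + 1), (1 + K) ^ j) * ‖L.j962_Psi P n x‖ := by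
        refine mul_le_mul_of_nonneg_right ((norm_sum_le _ _).trans ?_) (norm_nonneg _)
        refine Finset.sum_le_sum fun j _ => ?_
        rcases Nat.eq_zero_or_pos j with h1 | h1
        · rw [h1, pow_zero, pow_zero]
          exact ContinuousLinearMap.norm_id_le
        · exact (norm_pow_le' N h1).trans (pow_le_pow_left₀ (norm_nonneg _) hNn j)

theorem j962_core (P0 : E) (δ w : ℝ → E) (hδ : Tendsto δ (𝓝 0) (𝓝 0))
    (hw : Tendsto w (𝓝 0) (𝓝 0))
    (hexp : ∀ᶠ h in 𝓝 (0 : ℝ), L.exp (P0 + δ h) * L.exp (-P0) = L.exp (w h)) (ε : ℝ)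
    (hε : 0 < ε) : ∀ᶠ h in 𝓝 (0 : ℝ), ∃ n : ℕ, 0 < n ∧
      ‖w h - L.j962_Psi P0 n (δ h)‖ ≤ ε * ‖δ h‖ := by
  obtain ⟨K, hK1, hK⟩ := L.j962_Psi_norm P0
  obtain ⟨r, hr, hinj⟩ := L.inj
  have h1 := hδ.eventually (L.exp_diff P0 ε hε)
  have h2 : ∀ᶠ h in 𝓝 (0 : ℝ), ‖δ h‖ < r / (ε + K) := by
    have h3 := hδ (ball_mem_nhds (0 : E) (show 0 < r / (ε + K) by positivity))
    filter_upwards [h3] with h hh
    simpa using hh
  have h3 : ∀ᶠ h in 𝓝 (0 : ℝ), w h ∈ ball (0 : E) r := hw (ball_mem_nhds (0 : E) hr)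
  filter_upwards [h1, h2, h3, hexp] with h h1 h2 h3 h4
  obtain ⟨w', hw', n, hn, hn'⟩ := h1
  rw [← j962_Psi_apply] at hn'
  have h5 : w' ∈ ball (0 : E) r := by
    rw [mem_ball_zero_iff]
    calc ‖w'‖ = ‖(w' - L.j962_Psi P0 n (δ h)) + L.j962_Psi P0 n (δ h)‖ := by rw [sub_add_cancel]
      _ ≤ ‖w' - L.j962_Psi P0 n (δ h)‖ + ‖L.j962_Psi P0 n (δ h)‖ := norm_add_le _ _
      _ ≤ ε * ‖δ h‖ + K * ‖δ h‖ := by
        refine add_le_add hn' (((L.j962_Psi P0 n).le_opNorm _).trans ?_)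
        exact mul_le_mul_of_nonneg_right (hK n hn) (norm_nonneg _)
      _ = ‖δ h‖ * (ε + K) := by ring
      _ < r := by
        rw [lt_div_iff₀ (by positivity)] at h2
        exact h2
  have h6 : w h = w' := hinj h3 h5 (by rw [← hw', h4])
  rw [h6]
  exact ⟨n, hn, hn'⟩

theorem j962_f_core (f : E →ₗ[ℝ] ℝ) (hf : ∀ x y, f (L.ad x y) = 0) (P0 : E) (δ w : ℝ → E)
    (hcore : ∀ ε : ℝ, 0 < ε → ∀ᶠ h in 𝓝 (0 : ℝ), ∃ n : ℕ, 0 < n ∧
      ‖w h - L.j962_Psi P0 n (δ h)‖ ≤ ε * ‖δ h‖) :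
    (fun h => f (w h) - f (δ h)) =o[𝓝 0] δ := by
  set F : E →L[ℝ] ℝ := LinearMap.toContinuousLinearMap f with hF
  have hFf : ∀ x, F x = f x := fun x => rfl
  rw [isLittleO_iff]
  intro c hc
  have hF0 : 0 < ‖F‖ + 1 := by positivity
  filter_upwards [hcore (c / (‖F‖ + 1)) (by positivity)] with h hh
  obtain ⟨n, hn, hn'⟩ := hh
  have h1 : f (w h) - f (δ h) = F (w h - L.j962_Psi P0 n (δ h)) := by
    rw [map_sub, hFf, hFf, L.j962_f_Psi f hf P0 n hn]
  rw [h1]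
  calc ‖F (w h - L.j962_Psi P0 n (δ h))‖ ≤ ‖F‖ * ‖w h - L.j962_Psi P0 n (δ h)‖ := F.le_opNorm _
    _ ≤ (‖F‖ + 1) * (c / (‖F‖ + 1) * ‖δ h‖) := by
      refine mul_le_mul (by linarith) hn' (norm_nonneg _) hF0.le
    _ = c * ‖δ h‖ := by field_simp

/-- JOB K1. -/
theorem exp_diff_f {V : ℕ → Submodule ℝ E} {m : ℕ} (hV : IsFlag V m) (f : E →ₗ[ℝ] ℝ)
    (hf : ∀ x y, f (L.ad x y) = 0) (P : ℝ → E) (t : ℝ) (hP : ContinuousAt P t)
    (hPn : L.ad (P t) ∈ Str V) (w : ℝ → E) (c : ℝ)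
    (hw : ∀ᶠ h in 𝓝 (0 : ℝ), L.exp (P (t + h)) = L.exp (w h) * L.exp (P t))
    (hw0 : w =O[𝓝 0] fun h => h)
    (hfw : (fun h => f (w h) - c * h) =o[𝓝 0] fun h => h) :
    HasDerivAt (fun s => f (P s)) c t := by
  set δ : ℝ → E := fun h => P (t + h) - P t with hδ
  have hδ0 : Tendsto δ (𝓝 0) (𝓝 0) := by
    have h1 : Tendsto (fun h : ℝ => t + h) (𝓝 0) (𝓝 t) := by
      have : Continuous fun h : ℝ => t + h := by fun_prop
      exact this.tendsto' 0 t (add_zero t)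
    have h2 := (hP.tendsto.comp h1).sub_const (P t)
    rw [sub_self] at h2
    exact h2
  have hwt : Tendsto w (𝓝 0) (𝓝 0) := hw0.trans_tendsto tendsto_id
  have hexp : ∀ᶠ h in 𝓝 (0 : ℝ), L.exp (P t + δ h) * L.exp (-(P t)) = L.exp (w h) := by
    filter_upwards [hw] with h hh
    have h1 : P t + δ h = P (t + h) := add_sub_cancel (P t) (P (t + h))
    rw [h1, hh, L.exp_neg, mul_inv_cancel_right]
  have hcore := L.j962_core (P t) δ w hδ0 hwt hexp
  obtain ⟨C, hC, hlow⟩ := L.j962_lower hV (P t) hPn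
  have hδw : δ =O[𝓝 0] w := by
    refine IsBigO.of_bound (2 * C) ?_
    filter_upwards [hcore (1 / (2 * C)) (by positivity)] with h hh
    obtain ⟨n, hn, hn'⟩ := hh
    have h1 := hlow n hn (δ h)
    have h2 : ‖L.j962_Psi (P t) n (δ h)‖ ≤ ‖w h‖ + 1 / (2 * C) * ‖δ h‖ := by
      calc ‖L.j962_Psi (P t) n (δ h)‖ = ‖w h - (w h - L.j962_Psi (P t) n (δ h))‖ := by
            rw [sub_sub_cancel]
        _ ≤ ‖w h‖ + ‖w h - L.j962_Psi (P t) n (δ h)‖ := norm_sub_le _ _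
        _ ≤ _ := add_le_add_right hn' _
    have h3 : ‖δ h‖ ≤ C * ‖w h‖ + ‖δ h‖ / 2 := by
      calc ‖δ h‖ ≤ C * ‖L.j962_Psi (P t) n (δ h)‖ := h1
        _ ≤ C * (‖w h‖ + 1 / (2 * C) * ‖δ h‖) := mul_le_mul_of_nonneg_left h2 hC.le
        _ = _ := by field_simp
    linarith
  have hδO : δ =O[𝓝 0] fun h : ℝ => h := hδw.trans hw0
  have hfo := (L.j962_f_core f hf (P t) δ w hcore).trans_isBigO hδO
  rw [hasDerivAt_iff_isLittleO_nhds_zero]
  refine (hfw.sub hfo).congr_left fun h => ?_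
  rw [hδ, map_sub, smul_eq_mul]
  ring

/-- JOB K2. The increments of `t ↦ exp (Y + t δ)`. -/
theorem exp_diff_line (f : E →ₗ[ℝ] ℝ) (hf : ∀ x y, f (L.ad x y) = 0) (Q δ : E) :
    ∃ w : ℝ → E, (∀ᶠ h in 𝓝 (0 : ℝ), L.exp (Q + h • δ) = L.exp (w h) * L.exp Q) ∧
      (w =O[𝓝 0] fun h => h) ∧ (fun h => f (w h) - f δ * h) =o[𝓝 0] fun h => h := by
  classical
  obtain ⟨K, hK1, hK⟩ := L.j962_Psi_norm Q
  have hd0 : Tendsto (fun h : ℝ => h • δ) (𝓝 0) (𝓝 0) := by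
    have : Continuous fun h : ℝ => h • δ := by fun_prop
    exact this.tendsto' 0 0 (zero_smul ℝ δ)
  have h1 := hd0.eventually (L.exp_diff Q 1 one_pos)
  set Good : ℝ → E → Prop := fun h w' => L.exp (Q + h • δ) * L.exp (-Q) = L.exp w' ∧
    ‖w'‖ ≤ (1 + K) * ‖h • δ‖ with hGood
  have h2 : ∀ᶠ h in 𝓝 (0 : ℝ), ∃ w', Good h w' := by
    filter_upwards [h1] with h hh
    obtain ⟨w', hw', n, hn, hn'⟩ := hh
    rw [← j962_Psi_apply] at hn'
    refine ⟨w', hw', ?_⟩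
    calc ‖w'‖ = ‖(w' - L.j962_Psi Q n (h • δ)) + L.j962_Psi Q n (h • δ)‖ := by
          rw [sub_add_cancel]
      _ ≤ ‖w' - L.j962_Psi Q n (h • δ)‖ + ‖L.j962_Psi Q n (h • δ)‖ := norm_add_le _ _
      _ ≤ 1 * ‖h • δ‖ + K * ‖h • δ‖ := by
        refine add_le_add hn' (((L.j962_Psi Q n).le_opNorm _).trans ?_)
        exact mul_le_mul_of_nonneg_right (hK n hn) (norm_nonneg _)
      _ = _ := by ring
  set w : ℝ → E := fun h => if hh : ∃ w', Good h w' then hh.choose else 0 with hw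
  have h3 : ∀ᶠ h in 𝓝 (0 : ℝ), Good h (w h) := by
    filter_upwards [h2] with h hh
    rw [hw]
    simp only [dif_pos hh]
    exact hh.choose_spec
  have hwO : w =O[𝓝 0] fun h => h := by
    refine IsBigO.of_bound ((1 + K) * ‖δ‖) ?_
    filter_upwards [h3] with h hh
    calc ‖w h‖ ≤ (1 + K) * ‖h • δ‖ := hh.2
      _ = _ := by rw [norm_smul]; ring
  have hwt : Tendsto w (𝓝 0) (𝓝 0) := hwO.trans_tendsto tendsto_id
  have hcore := L.j962_core Q (fun h => h • δ) w hd0 hwt (h3.mono fun h hh => hh.1)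
  refine ⟨w, ?_, hwO, ?_⟩
  · filter_upwards [h3] with h hh
    rw [← hh.1, L.exp_neg, inv_mul_cancel_right]
  · have hfo := L.j962_f_core f hf Q (fun h => h • δ) w hcore
    have hO : (fun h : ℝ => h • δ) =O[𝓝 0] fun h : ℝ => h := by
      refine IsBigO.of_bound ‖δ‖ (Eventually.of_forall fun h => ?_)
      rw [norm_smul, mul_comm]
    refine (hfo.trans_isBigO hO).congr_left fun h => ?_
    rw [map_smul, smul_eq_mul]
    ring

end LG
end Pool.Agent.TH77
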