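import Pool.Agent.TH806.LM.Defs
import Pool.Agent.TH73.N4_SHT

set_option autoImplicit false

/-!
# LM-SHM: from windows to short intervals, both directions, measurable sets
(helper883, job 3001; the lower direction follows Pool/Agent/TH959/LK_SH.lean of helper959)
-/

namespace Pool.Agent.TH883.LM_SHM

open Finset Filter Topology MeasureTheory Complex
open Pool.Agent.H306R2.SM (om)
open Pool.Agent.H262R4.TM (Rng)
open Pool.Agent.H965R2.SMT1 (Ph Ph_nonneg Ph_le_one om_nonneg)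
open Pool.Agent.TH73.N4_FIN (SS kk kk_ev)
open Pool.Agent.TH73.N4_SHT (phR phL)
open Pool.Agent.W184.NZ (om_int)
open Pool.Agent.TH806 (om_poly_int)

noncomputable section

/-- superposition of windows, measurable functions -/
lemma ss_swap' {f : ℝ → ℝ} (hf : Measurable f) (hf0 : ∀ t, 0 ≤ f t) {k : ℕ} (hk : 1 ≤ k) {a b : ℝ}
    (ha : 0 < a) (hab : a ≤ b) :
    SS k a b f = ∫⁻ t in Set.Ioi (0:ℝ), ENNReal.ofReal (f t) *
      ENNReal.ofReal (Ph k (k * t / b) - Ph k (k * t / a)) := by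
  have hmeas : Measurable (Function.uncurry fun (x t : ℝ) =>
      ENNReal.ofReal (om k (k / x) t * f t)) := by
    unfold om Function.uncurry
    fun_prop
  unfold SS
  rw [lintegral_lintegral_swap hmeas.aemeasurable]
  refine setLIntegral_congr_fun measurableSet_Ioi fun t ht => ?_
  have h2 : ∀ x, ENNReal.ofReal (om k (k / x) t * f t) =
        ENNReal.ofReal (f t) * ENNReal.ofReal (om k (k / x) t) := by
    intro x
    rw [mul_comm, ENNReal.ofReal_mul (hf0 t)]
  simp_rw [h2]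
  rw [lintegral_const_mul' _ _ ENNReal.ofReal_ne_top, om_int hk ht ha hab]

/-- upper bound for the superposition of windows -/
lemma ss_up {f : ℝ → ℝ} (hf : Measurable f) (hf0 : ∀ t, 0 ≤ f t) {k : ℕ} (hk : 1 ≤ k)
    {a b A B E : ℝ} (ha : 0 < a) (hab : a ≤ b) (hA : 0 < A) (hAB : A ≤ B) (hE : 0 ≤ E)
    (hl : ∀ t, 0 < t → t ≤ A → f t * (1 - Ph k (k * t / a)) ≤ E)
    (htail : ∀ t, B < t → f t * Ph k (k * t / b) ≤ E * B ^ 2 * t ^ (-2 : ℝ)) :
    SS k a b f ≤ (∫⁻ t in Set.Ioc A B, ENNReal.ofReal (f t)) + ENNReal.ofReal (E * A + E * B) := by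
  have hb : 0 < b := ha.trans_le hab
  have hB : 0 < B := hA.trans_le hAB
  rw [ss_swap' hf hf0 hk ha hab]
  have hsplit : Set.Ioi (0 : ℝ) = Set.Ioc 0 A ∪ (Set.Ioc A B ∪ Set.Ioi B) := by
    rw [Set.Ioc_union_Ioi_eq_Ioi hAB, Set.Ioc_union_Ioi_eq_Ioi hA.le]
  have hd1 : Disjoint (Set.Ioc 0 A) (Set.Ioc A B ∪ Set.Ioi B) := by
    rw [Set.Ioc_union_Ioi_eq_Ioi hAB]
    exact Set.Ioc_disjoint_Ioi le_rfl
  rw [hsplit, lintegral_union (measurableSet_Ioc.union measurableSet_Ioi) hd1,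
    lintegral_union measurableSet_Ioi (Set.Ioc_disjoint_Ioi le_rfl)]
  rw [ENNReal.ofReal_add (by positivity) (by positivity)]
  have hre : ∀ p q r : ENNReal, p + (q + r) = q + (p + r) := by
    intro p q r
    rw [← add_assoc, add_comm p q, add_assoc]
  rw [hre]
  refine add_le_add ?_ (add_le_add ?_ ?_)
  · apply setLIntegral_mono' measurableSet_Ioc
    intro t ht
    have ht0 : 0 < t := hA.trans ht.1
    have h1 : Ph k (k * t / b) ≤ 1 := Ph_le_one k (by positivity)
    have h2 := Ph_nonneg k (u := k * t / a) (by positivity)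
    calc ENNReal.ofReal (f t) * ENNReal.ofReal (Ph k (k * t / b) - Ph k (k * t / a))
        ≤ ENNReal.ofReal (f t) * 1 := by
          gcongr
          exact ENNReal.ofReal_le_one.2 (by linarith)
      _ = ENNReal.ofReal (f t) := mul_one _
  · have h1 : ENNReal.ofReal (E * A) = ∫⁻ _ in Set.Ioc 0 A, ENNReal.ofReal E := by
      rw [setLIntegral_const, Real.volume_Ioc, ← ENNReal.ofReal_mul hE, sub_zero]
    rw [h1]
    apply setLIntegral_mono' measurableSet_Ioc
    intro t ht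
    rw [← ENNReal.ofReal_mul (hf0 t)]
    refine ENNReal.ofReal_le_ofReal (le_trans (mul_le_mul_of_nonneg_left ?_ (hf0 t)) (hl t ht.1 ht.2))
    have := Ph_le_one k (u := k * t / b) (by have := ht.1; positivity)
    linarith
  · have hint : IntegrableOn (fun t : ℝ => E * B ^ 2 * t ^ (-2 : ℝ)) (Set.Ioi B) :=
      (integrableOn_Ioi_rpow_of_lt (by norm_num) hB).const_mul _
    have h1 : ENNReal.ofReal (E * B) =
        ∫⁻ t in Set.Ioi B, ENNReal.ofReal (E * B ^ 2 * t ^ (-2 : ℝ)) := by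
      rw [← ofReal_integral_eq_lintegral_ofReal hint, integral_const_mul,
        integral_Ioi_rpow_of_lt (by norm_num) hB]
      · congr 1
        norm_num
        rw [Real.rpow_neg_one]
        field_simp
      · filter_upwards [ae_restrict_mem measurableSet_Ioi] with t ht
        exact mul_nonneg (by positivity) (Real.rpow_nonneg (hB.trans ht).le _)
    rw [h1]
    apply setLIntegral_mono' measurableSet_Ioi
    intro t ht
    have ht0 : 0 < t := hB.trans ht
    rw [← ENNReal.ofReal_mul (hf0 t)]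
    refine ENNReal.ofReal_le_ofReal (le_trans (mul_le_mul_of_nonneg_left ?_ (hf0 t)) (htail t ht))
    have := Ph_nonneg k (u := k * t / a) (by positivity)
    linarith

/-- lower bound for the superposition of windows -/
lemma ss_low' {f : ℝ → ℝ} (hf : Measurable f) (hf0 : ∀ t, 0 ≤ f t) {k : ℕ} (hk : 1 ≤ k)
    {a b A B : ℝ} (ha : 0 < a) (hab : a ≤ b) (hA : 0 < A)
    (hPh : ∀ t ∈ Set.Ioc A B, 1 / 2 ≤ Ph k (k * t / b) - Ph k (k * t / a)) :
    (∫⁻ t in Set.Ioc A B, ENNReal.ofReal (f t)) ≤ 2 * SS k a b f := by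
  rw [ss_swap' hf hf0 hk ha hab]
  have hsub : Set.Ioc A B ⊆ Set.Ioi (0:ℝ) := fun t ht => hA.trans ht.1
  refine le_trans ?_ (mul_le_mul' le_rfl (lintegral_mono_set hsub))
  rw [← lintegral_const_mul' _ _ (by norm_num)]
  apply setLIntegral_mono' measurableSet_Ioc
  intro t ht
  have h1 : (1 : ENNReal) ≤ 2 * ENNReal.ofReal (Ph k (k * t / b) - Ph k (k * t / a)) := by
    have h2 : (2 : ENNReal) = ENNReal.ofReal 2 := by norm_num
    rw [h2, ← ENNReal.ofReal_mul (by norm_num)]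
    rw [← ENNReal.ofReal_one]
    apply ENNReal.ofReal_le_ofReal
    linarith [hPh t ht]
  calc ENNReal.ofReal (f t) = ENNReal.ofReal (f t) * 1 := (mul_one _).symm
    _ ≤ ENNReal.ofReal (f t) * (2 * ENNReal.ofReal (Ph k (k * t / b) - Ph k (k * t / a))) :=
        mul_le_mul' le_rfl h1
    _ = 2 * (ENNReal.ofReal (f t) *
        ENNReal.ofReal (Ph k (k * t / b) - Ph k (k * t / a))) := by ring

lemma inner_eq {f : ℝ → ℝ} (hf0 : ∀ t, 0 ≤ f t) {k : ℕ} {x : ℝ} (hx : 0 < x)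
    (hi : IntegrableOn (fun t => om k (k / x) t * f t) (Set.Ioi 0)) :
    ∫⁻ t in Set.Ioi (0:ℝ), ENNReal.ofReal (om k (k / x) t * f t) =
      ENNReal.ofReal (∫ t in Set.Ioi (0:ℝ), om k (k / x) t * f t) := by
  rw [← ofReal_integral_eq_lintegral_ofReal hi]
  filter_upwards [ae_restrict_mem measurableSet_Ioi] with t ht
  exact mul_nonneg (om_nonneg (by positivity) (le_of_lt ht)) (hf0 t)

lemma ss_ge {f : ℝ → ℝ} (hf0 : ∀ t, 0 ≤ f t) {k : ℕ}
    {a b w : ℝ} (ha : 0 < a) (hw : 0 ≤ w)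
    (h : ∀ x ∈ Set.Ioc a b, IntegrableOn (fun t => om k (k / x) t * f t) (Set.Ioi 0) ∧
      w ≤ ∫ t in Set.Ioi (0:ℝ), om k (k / x) t * f t) :
    ENNReal.ofReal (w * (b - a)) ≤ SS k a b f := by
  unfold SS
  have e2 : ∫⁻ _ in Set.Ioc a b, ENNReal.ofReal w = ENNReal.ofReal (w * (b - a)) := by
    rw [setLIntegral_const, Real.volume_Ioc, ← ENNReal.ofReal_mul hw]
  rw [← e2]
  apply setLIntegral_mono' measurableSet_Ioc
  intro x hx
  have hx0 : 0 < x := ha.trans hx.1
  rw [inner_eq hf0 hx0 (h x hx).1]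
  exact ENNReal.ofReal_le_ofReal (h x hx).2

lemma ss_le {f : ℝ → ℝ} (hf0 : ∀ t, 0 ≤ f t) {k : ℕ}
    {a b w : ℝ} (ha : 0 < a) (hw : 0 ≤ w)
    (h : ∀ x ∈ Set.Ioc a b, IntegrableOn (fun t => om k (k / x) t * f t) (Set.Ioi 0) ∧
      ∫ t in Set.Ioi (0:ℝ), om k (k / x) t * f t ≤ w) :
    SS k a b f ≤ ENNReal.ofReal (w * (b - a)) := by
  unfold SS
  have e2 : ∫⁻ _ in Set.Ioc a b, ENNReal.ofReal w = ENNReal.ofReal (w * (b - a)) := by
    rw [setLIntegral_const, Real.volume_Ioc, ← ENNReal.ofReal_mul hw]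
  rw [← e2]
  apply setLIntegral_mono' measurableSet_Ioc
  intro x hx
  have hx0 : 0 < x := ha.trans hx.1
  rw [inner_eq hf0 hx0 (h x hx).1]
  exact ENNReal.ofReal_le_ofReal (h x hx).2

/-- the transition is negligible -/
lemma small_ev {α A : ℝ} (hα : α < 1) :
    ∀ᶠ T : ℝ in atTop, 24 * Real.exp (-(3 / 512) * Real.log T ^ (2 - 2 * α)) *
      Real.log T ^ (α + A) ≤ 1 := by
  have hs : 0 < 2 - 2 * α := by linarith
  have h1 : Tendsto (fun T : ℝ => Real.log T ^ (2 - 2 * α)) atTop atTop :=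
    (tendsto_rpow_atTop hs).comp Real.tendsto_log_atTop
  have h2 := (tendsto_rpow_mul_exp_neg_mul_atTop_nhds_zero ((α + A) / (2 - 2 * α)) (3 / 512)
    (by norm_num)).comp h1
  have h3 := h2.eventually_le_const (show (0:ℝ) < 1 / 24 by norm_num)
  filter_upwards [h3, Real.tendsto_log_atTop.eventually_ge_atTop 1] with T hT hL
  have hL0 : 0 ≤ Real.log T := by linarith
  simp only [Function.comp_apply] at hT
  rw [← Real.rpow_mul hL0, mul_div_cancel₀ _ hs.ne'] at hT
  linarith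

/-- the parameters -/
structure Par (A T H ρ E : ℝ) : Prop where
  T0 : 0 < T
  H0 : 0 < H
  HT : H ≤ T
  ρ0 : 0 < ρ
  ρ1 : ρ ≤ 1 / 8
  ρT : ρ * T ≤ H / 8
  c2 : 2 ≤ ρ ^ 2 / 8 * (kk T : ℝ)
  Ed : E = Real.exp (-(ρ ^ 2 / 8 * (kk T : ℝ)))
  w0 : ∀ w : ℝ, 1 / Real.log T ^ A ≤ w → 0 < w ∧ 24 * (E * T) ≤ H * w

lemma par_ev (α A : ℝ) (hα0 : 0 ≤ α) (hα1 : α < 1) : ∀ᶠ T : ℝ in atTop,
    1 ≤ kk T ∧ (∀ x ∈ Set.Icc (T / 2) (4 * T), Rng x (kk T)) ∧
    ∀ H : ℝ, T / Real.log T ^ α ≤ H → H ≤ T → ∃ ρ E : ℝ, Par A T H ρ E := by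
  have hs : 0 < 2 - 2 * α := by linarith
  have h1 : Tendsto (fun T : ℝ => Real.log T ^ (2 - 2 * α)) atTop atTop :=
    (tendsto_rpow_atTop hs).comp Real.tendsto_log_atTop
  filter_upwards [small_ev (A := A) hα1, h1.eventually_ge_atTop (1024 / 3), kk_ev,
    eventually_ge_atTop 1, Real.tendsto_log_atTop.eventually_ge_atTop 1] with T hsm hy hk hT1 hL
  have hT : 0 < T := by linarith
  have h9 : T ^ ((9:ℝ)/10) ≤ T := by
    calc T ^ ((9:ℝ)/10) ≤ T ^ (1:ℝ) := Real.rpow_le_rpow_of_exponent_le hT1 (by norm_num)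
      _ = T := Real.rpow_one T
  have h90 : 0 < T ^ ((9:ℝ)/10) := by positivity
  refine ⟨hk.1, fun x hx => (hk.2.2 x ⟨by linarith [hx.1], by linarith [hx.2]⟩).1, ?_⟩
  intro H hH1 hH2
  have hL0 : 0 < Real.log T := by linarith
  set L := Real.log T with hLdef
  set La := L ^ α with hLa
  have hLa1 : 1 ≤ La := Real.one_le_rpow hL hα0
  have hLa0 : 0 < La := by linarith
  set ρ := 1 / (8 * La) with hρd
  have hρ0 : 0 < ρ := by positivity
  have hρ1 : ρ ≤ 1 / 8 := by
    rw [hρd, div_le_div_iff₀ (by positivity) (by norm_num)]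
    linarith
  have hH0 : 0 < H := lt_of_lt_of_le (by positivity) hH1
  have hρT : ρ * T ≤ H / 8 := by
    have : ρ * T = (T / La) / 8 := by rw [hρd]; field_simp
    rw [this]
    linarith
  -- the exponent
  set c : ℝ := ρ ^ 2 / 8 * (kk T : ℝ) with hc
  have hc1 : 3 / 512 * L ^ (2 - 2 * α) ≤ c := by
    have e1 : L ^ (2 - 2 * α) * La ^ 2 = L ^ 2 := by
      rw [hLa, ← Real.rpow_natCast (L ^ α) 2, ← Real.rpow_mul hL0.le, ← Real.rpow_add hL0,
        ← Real.rpow_natCast L 2]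
      congr 1
      push_cast
      ring
    have e2 : 3 / 512 * L ^ (2 - 2 * α) = ρ ^ 2 / 8 * (3 * L ^ 2) := by
      rw [← e1, hρd]
      field_simp
      ring
    rw [e2, hc]
    exact mul_le_mul_of_nonneg_left hk.2.1 (by positivity)
  have hc2 : 2 ≤ c := by linarith
  set E := Real.exp (-c) with hE
  have hE0 : 0 ≤ E := (Real.exp_pos _).le
  have hEs : 24 * (E * L ^ (α + A)) ≤ 1 := by
    have e1 : E ≤ Real.exp (-(3 / 512) * L ^ (2 - 2 * α)) := Real.exp_le_exp.2 (by linarith)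
    have e2 : E * L ^ (α + A) ≤ Real.exp (-(3 / 512) * L ^ (2 - 2 * α)) * L ^ (α + A) :=
      mul_le_mul_of_nonneg_right e1 (Real.rpow_nonneg hL0.le _)
    linarith
  refine ⟨ρ, E, hT, hH0, hH2, hρ0, hρ1, hρT, hc2, hE, fun w hw => ?_⟩
  have hw0 : 0 < w := lt_of_lt_of_le (by positivity) hw
  refine ⟨hw0, ?_⟩
  have e1 : L ^ (α + A) = La * L ^ A := by rw [hLa, Real.rpow_add hL0]
  have hLA : 0 < L ^ A := Real.rpow_pos_of_pos hL0 _
  have e2 : T / La * (1 / L ^ A) ≤ H * w :=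
    mul_le_mul hH1 hw (by positivity) hH0.le
  refine le_trans ?_ e2
  rw [e1] at hEs
  rw [div_mul_div_comm, mul_one, le_div_iff₀ (by positivity)]
  calc 24 * (E * T) * (La * L ^ A) = (24 * (E * (La * L ^ A))) * T := by ring
    _ ≤ 1 * T := mul_le_mul_of_nonneg_right hEs hT.le
    _ = T := one_mul T

lemma lower {A T H ρ E : ℝ} (hp : Par A T H ρ E) (hk : 1 ≤ kk T) (S : Set ℝ)
    (hS : MeasurableSet S) (w : ℝ) (hw : 1 / Real.log T ^ A ≤ w)
    (hwin : ∀ x ∈ Set.Icc (T / 2) (4 * T),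
      w ≤ ∫ t in Set.Ioi (0:ℝ) ∩ S, om (kk T) ((kk T : ℝ) / x) t) :
    1 / 2 * (H * w) ≤ volume.real (Set.Icc T (T + H) ∩ S) := by
  obtain ⟨hT, hH0, hH2, hρ0, hρ1, hρT, hc2, hE, hw0⟩ := hp
  obtain ⟨hw0, h5⟩ := hw0 w hw
  have hE0 : 0 ≤ E := by rw [hE]; exact (Real.exp_pos _).le
  set c : ℝ := ρ ^ 2 / 8 * (kk T : ℝ) with hc
  -- the end points
  set a := (1 + ρ) * T with had
  set b := (T + H) / (1 + ρ) with hbd
  have ha0 : 0 < a := by positivity
  have hb0 : 0 < b := by positivity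
  have haT2 : T ≤ a := by nlinarith [mul_pos hρ0 hT]
  have hbb : (1 + ρ) * b = T + H := by rw [hbd]; field_simp
  have hbT : b ≤ T + H := div_le_self (by linarith) (by linarith)
  have hblow : (1 - ρ) * (T + H) ≤ b := by
    rw [hbd, le_div_iff₀ (by positivity)]
    nlinarith [mul_pos (mul_pos hρ0 hρ0) (add_pos hT hH0)]
  have hba : 5 / 8 * H ≤ b - a := by
    have : ρ * H ≤ ρ * T := mul_le_mul_of_nonneg_left hH2 hρ0.le
    rw [had]
    nlinarith
  set f : ℝ → ℝ := S.indicator fun _ => 1 with hfd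
  have hf : Measurable f := measurable_const.indicator hS
  have hf1 : ∀ t, 0 ≤ f t ∧ f t ≤ 1 := by
    intro t
    by_cases ht : t ∈ S
    · rw [hfd, Set.indicator_of_mem ht]; norm_num
    · rw [hfd, Set.indicator_of_notMem ht]; norm_num
  have hint : ∀ x : ℝ, 0 < x → IntegrableOn (fun t => om (kk T) ((kk T : ℝ) / x) t * f t)
      (Set.Ioi 0) := by
    intro x hx
    have hkk : (0:ℝ) < kk T := by exact_mod_cast hk
    have hi : IntegrableOn (fun t => om (kk T) ((kk T : ℝ) / x) t * (1 : ℝ)) (Set.Ioi 0) :=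
      om_poly_int (by positivity) continuous_const (C := 1) 0 (fun t _ => by
        rw [abs_of_nonneg zero_le_one, pow_zero, mul_one])
    have h2 : (fun t => om (kk T) ((kk T : ℝ) / x) t * f t) =
        S.indicator fun t => om (kk T) ((kk T : ℝ) / x) t * 1 := by
      funext t
      by_cases ht : t ∈ S
      · rw [hfd, Set.indicator_of_mem ht, Set.indicator_of_mem ht]
      · rw [hfd, Set.indicator_of_notMem ht, Set.indicator_of_notMem ht, mul_zero]
    rw [h2]
    exact hi.indicator hS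
  have hval : ∀ x : ℝ, ∫ t in Set.Ioi (0:ℝ) ∩ S, om (kk T) ((kk T : ℝ) / x) t =
      ∫ t in Set.Ioi (0:ℝ), om (kk T) ((kk T : ℝ) / x) t * f t := by
    intro x
    rw [← setIntegral_indicator hS]
    refine setIntegral_congr_fun measurableSet_Ioi fun t _ => ?_
    by_cases ht : t ∈ S
    · simp only [hfd, Set.indicator_of_mem ht, mul_one]
    · simp only [hfd, Set.indicator_of_notMem ht, mul_zero]
  have h2 := ss_ge (fun t => (hf1 t).1) (k := kk T) (a := a) (b := b) ha0 hw0.le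
    (fun x hx => ⟨hint x (ha0.trans hx.1), by
      rw [← hval]
      exact hwin x ⟨by linarith [hx.1], by linarith [hx.2]⟩⟩)
  have h3 := ss_up hf (fun t => (hf1 t).1) hk (a := a) (b := b) (A := T) (B := T + H) (E := E)
    ha0 (by linarith) hT (by linarith) hE0
    (fun t ht0 htT => by
      have p1 := phR hρ0 (by linarith) (kk T) ht0 (b := a) (by
        rw [had]; exact mul_le_mul_of_nonneg_left htT (by positivity))
      have p2 : 0 ≤ 1 - Ph (kk T) ((kk T : ℕ) * t / a) := by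
        have := Ph_le_one (kk T) (u := (kk T : ℕ) * t / a) (by positivity)
        linarith
      calc f t * (1 - Ph (kk T) ((kk T : ℕ) * t / a)) ≤ 1 * (1 - Ph (kk T) ((kk T : ℕ) * t / a)) :=
            mul_le_mul_of_nonneg_right (hf1 t).2 p2
        _ ≤ E := by rw [one_mul, hE]; exact p1)
    (fun t ht => by
      have ht0 : 0 < t := by linarith
      have p1 := phL hρ0 (by linarith) (kk T) hb0 (t := t) (by rw [hbb]; exact ht.le)
      have p0 := Ph_nonneg (kk T) (u := (kk T : ℕ) * t / b) (by positivity)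
      set v := t / b with hv
      have hv1 : 1 ≤ v := by rw [hv, le_div_iff₀ hb0]; linarith
      have p4 : Real.exp (-(ρ ^ 2 / 8 * v * (kk T : ℝ))) ≤ E * (v ^ 2)⁻¹ := by
        have q1 : v ^ 2 ≤ Real.exp (2 * (v - 1)) := by
          have q2 : v ≤ Real.exp (v - 1) := by
            have := Real.add_one_le_exp (v - 1)
            linarith
          calc v ^ 2 ≤ Real.exp (v - 1) ^ 2 := pow_le_pow_left₀ (by linarith) q2 2
            _ = Real.exp (2 * (v - 1)) := by rw [← Real.exp_nat_mul]; norm_num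
        have q3 : Real.exp (-(2 * (v - 1))) ≤ (v ^ 2)⁻¹ := by
          rw [Real.exp_neg]
          exact inv_anti₀ (by positivity) q1
        calc Real.exp (-(ρ ^ 2 / 8 * v * (kk T : ℝ))) ≤ Real.exp (-c + -(2 * (v - 1))) := by
              apply Real.exp_le_exp.2
              have : ρ ^ 2 / 8 * v * (kk T : ℝ) = c * v := by rw [hc]; ring
              rw [this]
              nlinarith
          _ = E * Real.exp (-(2 * (v - 1))) := by rw [Real.exp_add, hE]
          _ ≤ E * (v ^ 2)⁻¹ := mul_le_mul_of_nonneg_left q3 hE0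
      have p5 : (v ^ 2)⁻¹ ≤ (T + H) ^ 2 * t ^ (-2 : ℝ) := by
        have e2 : t ^ (-2 : ℝ) = (t ^ 2)⁻¹ := by
          rw [Real.rpow_neg ht0.le]; congr 1
          rw [← Real.rpow_natCast]; norm_num
        rw [e2, hv, div_pow, inv_div, div_eq_mul_inv]
        refine mul_le_mul_of_nonneg_right ?_ (by positivity)
        exact pow_le_pow_left₀ hb0.le hbT 2
      calc f t * Ph (kk T) ((kk T : ℕ) * t / b) ≤ 1 * Ph (kk T) ((kk T : ℕ) * t / b) :=
            mul_le_mul_of_nonneg_right (hf1 t).2 p0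
        _ ≤ E * (v ^ 2)⁻¹ := by rw [one_mul]; exact p1.trans p4
        _ ≤ E * ((T + H) ^ 2 * t ^ (-2 : ℝ)) := mul_le_mul_of_nonneg_left p5 hE0
        _ = E * (T + H) ^ 2 * t ^ (-2 : ℝ) := by ring)
  have h4 := h2.trans h3
  have hvol : ∫⁻ t in Set.Ioc T (T + H), ENNReal.ofReal (f t) = volume (Set.Ioc T (T + H) ∩ S) := by
    have e1 : (fun t => ENNReal.ofReal (f t)) = S.indicator fun _ => 1 := by
      funext t
      by_cases ht : t ∈ S
      · rw [hfd, Set.indicator_of_mem ht, Set.indicator_of_mem ht]; simp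
      · rw [hfd, Set.indicator_of_notMem ht, Set.indicator_of_notMem ht]; simp
    rw [e1, lintegral_indicator hS, setLIntegral_one, Measure.restrict_apply hS, Set.inter_comm]
  have hfin : volume (Set.Icc T (T + H) ∩ S) ≠ ⊤ :=
    ne_top_of_le_ne_top (by rw [Real.volume_Icc]; exact ENNReal.ofReal_ne_top)
      (measure_mono Set.inter_subset_left)
  have hle : volume (Set.Ioc T (T + H) ∩ S) ≤
      ENNReal.ofReal (volume.real (Set.Icc T (T + H) ∩ S)) := by
    rw [Measure.real, ENNReal.ofReal_toReal hfin]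
    exact measure_mono (Set.inter_subset_inter_left _ Set.Ioc_subset_Icc_self)
  have h4' : ENNReal.ofReal (w * (b - a)) ≤ ENNReal.ofReal
      (volume.real (Set.Icc T (T + H) ∩ S) + (E * T + E * (T + H))) := by
    rw [ENNReal.ofReal_add measureReal_nonneg (by positivity)]
    refine h4.trans ?_
    rw [hvol]
    exact add_le_add hle le_rfl
  have hV0 : 0 ≤ volume.real (Set.Icc T (T + H) ∩ S) := measureReal_nonneg
  rw [ENNReal.ofReal_le_ofReal_iff (by positivity)] at h4'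
  have h6 : E * (T + H) ≤ 2 * (E * T) := by
    have := mul_le_mul_of_nonneg_left hH2 hE0
    linarith
  have h7 : w * (5 / 8 * H) ≤ w * (b - a) := mul_le_mul_of_nonneg_left hba hw0.le
  nlinarith

lemma upper {A T H ρ E : ℝ} (hp : Par A T H ρ E) (hk : 1 ≤ kk T) (f : ℝ → ℝ) (hf : Measurable f)
    (hf0 : ∀ t, 0 ≤ f t) (w : ℝ) (hw : 0 ≤ w)
    (hwin : ∀ x ∈ Set.Icc (T / 2) (4 * T),
      IntegrableOn (fun t => om (kk T) ((kk T : ℝ) / x) t * f t) (Set.Ioi 0) ∧
        ∫ t in Set.Ioi (0:ℝ), om (kk T) ((kk T : ℝ) / x) t * f t ≤ w) :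
    ∫ t in Set.Icc T (T + H), f t ≤ 8 * (H * w) := by
  obtain ⟨hT, hH0, hH2, hρ0, hρ1, hρT, hc2, hE, -⟩ := hp
  have hE0 : 0 ≤ E := by rw [hE]; exact (Real.exp_pos _).le
  have hE4 : E ≤ 1 / 4 := by
    have h1 : E ≤ Real.exp (-2) := by
      rw [hE]
      exact Real.exp_le_exp.2 (by linarith)
    have h2 : (4 : ℝ) ≤ Real.exp 2 := by
      have h3 : (2 : ℝ) ≤ Real.exp 1 := by
        have := Real.add_one_le_exp (1 : ℝ)
        linarith
      have h4 : Real.exp 2 = Real.exp 1 ^ 2 := by rw [← Real.exp_nat_mul]; norm_num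
      rw [h4]
      nlinarith
    have h3 : Real.exp (-2) ≤ 1 / 4 := by
      rw [Real.exp_neg, inv_eq_one_div]
      exact one_div_le_one_div_of_le (by norm_num) h2
    linarith
  set a := T / (1 + ρ) with had
  set b := (1 + ρ) * (T + H) with hbd
  have ha0 : 0 < a := by positivity
  have haa : (1 + ρ) * a = T := by rw [had]; field_simp
  have hb0 : 0 < b := by positivity
  have haT : a ≤ T := div_le_self hT.le (by linarith)
  have hTb : T ≤ b := by nlinarith [mul_pos hρ0 hT, mul_pos hρ0 hH0]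
  have halow : (1 - ρ) * T ≤ a := by
    rw [had, le_div_iff₀ (by positivity)]
    nlinarith [mul_pos (mul_pos hρ0 hρ0) hT]
  have hba : b - a ≤ 2 * H := by
    have : ρ * H ≤ ρ * T := mul_le_mul_of_nonneg_left hH2 hρ0.le
    rw [hbd]
    nlinarith
  have haT2 : T / 2 ≤ a := by nlinarith
  have hb4 : b ≤ 4 * T := by
    rw [hbd]
    nlinarith [mul_pos hρ0 hT, mul_pos hρ0 hH0]
  have h1 := ss_low' hf hf0 hk (a := a) (b := b) (A := T) (B := T + H) ha0 (by linarith) hT
    (fun t ht => by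
      have ht0 : 0 < t := hT.trans ht.1
      have p1 := phR hρ0 (by linarith) (kk T) ht0 (b := b) (by
        rw [hbd]; exact mul_le_mul_of_nonneg_left ht.2 (by positivity))
      have p2 := phL hρ0 (by linarith) (kk T) ha0 (t := t) (by rw [haa]; exact ht.1.le)
      have p3 : Real.exp (-(ρ ^ 2 / 8 * (t / a) * (kk T : ℝ))) ≤ Real.exp (-(ρ ^ 2 / 8 * (kk T : ℝ))) := by
        apply Real.exp_le_exp.mpr
        have q1 : 1 ≤ t / a := by rw [le_div_iff₀ ha0]; linarith [ht.1]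
        have q2 : 0 ≤ ρ ^ 2 / 8 * (kk T : ℝ) := by positivity
        nlinarith
      rw [← hE] at p1 p3
      linarith)
  have h2 := ss_le hf0 (k := kk T) (a := a) (b := b) ha0 hw
    (fun x hx => hwin x ⟨by linarith [hx.1], by linarith [hx.2]⟩)
  have h3 : ∫⁻ t in Set.Ioc T (T + H), ENNReal.ofReal (f t) ≤ ENNReal.ofReal (8 * (H * w)) := by
    refine h1.trans ((mul_le_mul' le_rfl h2).trans ?_)
    have e2 : (2 : ENNReal) = ENNReal.ofReal 2 := by norm_num
    rw [e2, ← ENNReal.ofReal_mul (by norm_num)]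
    apply ENNReal.ofReal_le_ofReal
    have := mul_le_mul_of_nonneg_left hba hw
    nlinarith [mul_nonneg hw hH0.le]
  rw [integral_Icc_eq_integral_Ioc, integral_eq_lintegral_of_nonneg_ae
    (Eventually.of_forall hf0) hf.aestronglyMeasurable]
  refine ENNReal.toReal_le_of_le_ofReal (by positivity) h3

theorem t_SHM : Pool.Agent.TH806.LM.P_SHM := by
  intro α A hα0 hα1 hA
  refine ⟨kk, ?_⟩
  filter_upwards [par_ev α A hα0 hα1] with T hT
  obtain ⟨hk, hR, hP⟩ := hT
  refine ⟨hR, ?_⟩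
  intro H hH1 hH2
  obtain ⟨ρ, E, hp⟩ := hP H hH1 hH2
  exact ⟨fun S hS w hw hwin => lower hp hk S hS w hw hwin,
    fun f hf hf0 w hw hwin => upper hp hk f hf hf0 w hw hwin⟩

end

end Pool.Agent.TH883.LM_SHM
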