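import Pool.Agent.TH981.LO.Bas

set_option autoImplicit false

open Pool.Agent.TH981.LO
open scoped BigOperators symmDiff MeasureTheory

namespace Pool.Agent.TH883.J469

section abs

variable {V E : Type} [DecidableEq V] [DecidableEq E] (G : MG V E)

theorem fkp_false (w : E → ℝ) (F : Finset E) : G.fkp w F (fun _ => False) = 0 := by
  unfold MG.fkp MG.PS
  simp

theorem fkp_union {ι : Type} {w : E → ℝ} {F : Finset E}
    (hw0 : ∀ e ∈ F, 0 ≤ w e) (hw1 : ∀ e ∈ F, w e ≤ 1) (s : Finset ι) (Q : ι → Finset E → Prop) :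
    G.fkp w F (fun ω => ∃ i ∈ s, Q i ω) ≤ ∑ i ∈ s, G.fkp w F (Q i) := by
  classical
  induction s using Finset.induction_on with
  | empty =>
    simp only [Finset.notMem_empty, false_and, exists_false, Finset.sum_empty]
    rw [fkp_false]
  | insert a s ha ih =>
    rw [Finset.sum_insert ha]
    refine le_trans ?_ (add_le_add le_rfl ih)
    refine le_trans ?_ (G.fkp_or (Q a) (fun ω => ∃ i ∈ s, Q i ω) hw0 hw1)
    refine G.fkp_imp hw0 hw1 fun ω _ h => ?_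
    obtain ⟨i, hi, h⟩ := h
    rw [Finset.mem_insert] at hi
    rcases hi with rfl | hi
    · exact Or.inl h
    · exact Or.inr ⟨i, hi, h⟩

end abs

variable {d : ℕ}

open Classical in
/-- the blocks of the cluster -/
noncomputable def BL (k : ℕ) (ω : Finset (Ed d)) (U : Finset (Vt d)) : Finset (Vt d) :=
  ((lat d).clF ω U).image (blk k)

/-- bound for the probability that all blocks of `J` are bad -/
theorem fkp_all_bad {x : ℝ} (hx0 : 0 < x) (hx1 : x < 1) {δ : ℝ} (hδ0 : 0 < δ) (hδ1 : δ ≤ 1)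
    {k : ℕ} (h4 : S_SEP d)
    (h1 : ∀ (D : Finset (Ed d)) (J : Finset (Vt d)),
      (∀ j ∈ J, ∀ j' ∈ J, j ≠ j' → 5 ≤ nm (j - j')) →
      (lat d).fkp (fun _ => x) D (fun ω => ∀ j ∈ J, Bad k j ω) ≤ (δ ^ (5 ^ d)) ^ J.card)
    (D : Finset (Ed d)) (J : Finset (Vt d)) :
    (lat d).fkp (fun _ => x) D (fun ω => ∀ j ∈ J, Bad k j ω) ≤ δ ^ J.card := by
  obtain ⟨J', hJ', hsep, hcard⟩ := h4 J
  have e1 : (lat d).fkp (fun _ => x) D (fun ω => ∀ j ∈ J, Bad k j ω) ≤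
      (lat d).fkp (fun _ => x) D (fun ω => ∀ j ∈ J', Bad k j ω) :=
    (lat d).fkp_imp (fun _ _ => hx0.le) (fun _ _ => hx1.le) fun ω _ h j hj => h j (hJ' hj)
  refine e1.trans ((h1 D J' hsep).trans ?_)
  rw [← pow_mul]
  exact pow_le_pow_of_le_one hδ0.le hδ1 hcard

/-- bound for the probability that the set of blocks is `B` -/
theorem fkp_BL_eq {x : ℝ} (hx0 : 0 < x) (hx1 : x < 1) {δ : ℝ} (hδ0 : 0 < δ) (hδ1 : δ ≤ 1)
    {k : ℕ} (hk : 1 ≤ k) (h2 : S_BLK d) (h4 : S_SEP d)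
    (h1 : ∀ (D : Finset (Ed d)) (J : Finset (Vt d)),
      (∀ j ∈ J, ∀ j' ∈ J, j ≠ j' → 5 ≤ nm (j - j')) →
      (lat d).fkp (fun _ => x) D (fun ω => ∀ j ∈ J, Bad k j ω) ≤ (δ ^ (5 ^ d)) ^ J.card)
    (D : Finset (Ed d)) (U B : Finset (Vt d)) :
    (lat d).fkp (fun _ => x) D (fun ω => BL k ω U = B) ≤
      (2 * δ) ^ B.card * (δ⁻¹ ^ (3 ^ d)) ^ U.card := by
  classical
  set r := B.card - 3 ^ d * U.card with hr
  have hw0 : ∀ e ∈ D, 0 ≤ (fun _ : Ed d => x) e := fun _ _ => hx0.le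
  have hw1 : ∀ e ∈ D, (fun _ : Ed d => x) e ≤ 1 := fun _ _ => hx1.le
  have e1 : (lat d).fkp (fun _ => x) D (fun ω => BL k ω U = B) ≤
      ∑ J ∈ B.powerset.filter (fun J => r ≤ J.card),
        (lat d).fkp (fun _ => x) D (fun ω => ∀ j ∈ J, Bad k j ω) := by
    refine le_trans ?_ (fkp_union (lat d) hw0 hw1 _ (fun J ω => ∀ j ∈ J, Bad k j ω))
    refine (lat d).fkp_imp hw0 hw1 fun ω _ h => ?_
    refine ⟨B.filter (fun j => Bad k j ω), ?_, fun j hj => (Finset.mem_filter.1 hj).2⟩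
    rw [Finset.mem_filter, Finset.mem_powerset]
    refine ⟨Finset.filter_subset _ _, ?_⟩
    have h3 := (h2 k ω U hk).2.1
    have h5 : (B.filter (fun j => ¬ Bad k j ω)).card ≤ 3 ^ d * U.card := by
      rw [← h]
      unfold BL
      exact h3
    have h6 := Finset.card_filter_add_card_filter_not (s := B) (fun j => Bad k j ω)
    omega
  refine e1.trans ?_
  have e2 : ∀ J ∈ B.powerset.filter (fun J => r ≤ J.card),
      (lat d).fkp (fun _ => x) D (fun ω => ∀ j ∈ J, Bad k j ω) ≤ δ ^ r := by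
    intro J hJ
    refine (fkp_all_bad hx0 hx1 hδ0 hδ1 h4 h1 D J).trans ?_
    exact pow_le_pow_of_le_one hδ0.le hδ1 (Finset.mem_filter.1 hJ).2
  refine (Finset.sum_le_card_nsmul _ _ _ e2).trans ?_
  rw [nsmul_eq_mul]
  have e3 : (((B.powerset.filter (fun J => r ≤ J.card)).card : ℕ) : ℝ) ≤ 2 ^ B.card := by
    have : (B.powerset.filter (fun J => r ≤ J.card)).card ≤ 2 ^ B.card := by
      rw [← Finset.card_powerset]
      exact Finset.card_filter_le _ _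
    exact_mod_cast this
  have e4 : δ ^ r ≤ δ ^ B.card * (δ⁻¹ ^ (3 ^ d)) ^ U.card := by
    rw [← pow_mul]
    have h5 : δ ^ r * δ ^ (3 ^ d * U.card) ≤ δ ^ B.card := by
      rw [← pow_add]
      exact pow_le_pow_of_le_one hδ0.le hδ1 (by omega)
    have h6 : 0 < δ ^ (3 ^ d * U.card) := pow_pos hδ0 _
    rw [inv_pow, ← div_eq_mul_inv, le_div_iff₀ h6]
    exact h5
  calc (((B.powerset.filter (fun J => r ≤ J.card)).card : ℕ) : ℝ) * δ ^ r
      ≤ 2 ^ B.card * (δ ^ B.card * (δ⁻¹ ^ (3 ^ d)) ^ U.card) :=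
        mul_le_mul e3 e4 (pow_nonneg hδ0.le _) (by positivity)
    _ = _ := by rw [mul_pow, mul_assoc]

theorem sum_half_le (s : Finset ℕ) : ∑ m ∈ s, (1 / 2 : ℝ) ^ m ≤ 2 := by
  have h := summable_geometric_two
  have h2 := h.sum_le_tsum s (fun i _ => by positivity)
  rw [tsum_geometric_two] at h2
  exact h2

theorem ct (d : ℕ) (x : ℝ) (hx0 : 0 < x) (hx1 : x < 1) (h1 : S_BADS d x) (h2 : S_BLK d)
    (h3 : S_ANIMAL d) (h4 : S_SEP d) : S_CT d x := by
  classical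
  set δ : ℝ := (1 / 2) ^ (3 ^ d + 3) with hδ
  have hδ0 : 0 < δ := by positivity
  have hδ1 : δ ≤ 1 := pow_le_one₀ (by norm_num) (by norm_num)
  obtain ⟨k, hk, h1⟩ := h1 (δ ^ (5 ^ d)) (pow_pos hδ0 _)
  have hkd : (0 : ℝ) < (k : ℝ) ^ d := by
    have : (0 : ℝ) < k := by exact_mod_cast hk
    positivity
  refine ⟨Real.log 2 / (k : ℝ) ^ d, div_pos (Real.log_pos (by norm_num)) hkd,
    2 * δ⁻¹ ^ (3 ^ d), ?_, ?_⟩
  · have : 1 ≤ δ⁻¹ ^ (3 ^ d) := one_le_pow₀ ((one_le_inv₀ hδ0).2 hδ1)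
    linarith
  intro D U L
  have hw0 : ∀ e ∈ D, 0 ≤ (fun _ : Ed d => x) e := fun _ _ => hx0.le
  have hw1 : ∀ e ∈ D, (fun _ : Ed d => x) e ≤ 1 := fun _ _ => hx1.le
  -- the case of an empty `U`
  by_cases hU : U = ∅
  · subst hU
    rw [Finset.card_empty, pow_zero, one_mul]
    by_cases hL : L = 0
    · subst hL
      simp only [Nat.cast_zero, mul_zero, Real.exp_zero]
      exact (lat d).fkp_le_one _ hw0 hw1
    · have e1 : (lat d).fkp (fun _ => x) D (fun ω => L ≤ ((lat d).clF ω ∅).card) ≤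
          (lat d).fkp (fun _ => x) D (fun _ => False) := by
        refine (lat d).fkp_imp hw0 hw1 fun ω _ h => ?_
        have e2 : (lat d).clF ω ∅ = ∅ := by
          rw [Finset.eq_empty_iff_forall_notMem]
          intro v hv
          obtain ⟨u, hu, _⟩ := (lat d).mem_clF.1 hv
          exact absurd hu (Finset.notMem_empty _)
        rw [e2, Finset.card_empty] at h
        omega
      rw [fkp_false] at e1
      exact e1.trans (Real.exp_pos _).le
  have hUc : 1 ≤ U.card := Finset.card_pos.2 (Finset.nonempty_iff_ne_empty.2 hU)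
  -- the possible block sets
  set 𝓑 : Finset (Finset (Vt d)) :=
    (D.powerset.image (fun ω => BL k ω U)).filter (fun B => L ≤ k ^ d * B.card) with h𝓑
  set K : ℝ := (δ⁻¹ ^ (3 ^ d)) ^ U.card with hK
  have hK0 : 0 ≤ K := by positivity
  have e1 : (lat d).fkp (fun _ => x) D (fun ω => L ≤ ((lat d).clF ω U).card) ≤
      ∑ B ∈ 𝓑, (2 * δ) ^ B.card * K := by
    refine le_trans ?_ (Finset.sum_le_sum fun B _ =>
      fkp_BL_eq hx0 hx1 hδ0 hδ1 hk h2 h4 h1 D U B)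
    refine le_trans ?_ (fkp_union (lat d) hw0 hw1 𝓑 (fun B ω => BL k ω U = B))
    refine (lat d).fkp_imp hw0 hw1 fun ω hω h => ?_
    refine ⟨BL k ω U, ?_, rfl⟩
    rw [h𝓑, Finset.mem_filter]
    refine ⟨Finset.mem_image.2 ⟨ω, Finset.mem_powerset.2 hω, rfl⟩, ?_⟩
    have h5 := (h2 k ω U hk).1
    refine h.trans ?_
    unfold BL
    exact h5
  -- counting
  have e2 : ∀ m : ℕ, (𝓑.filter (fun B => B.card = m)).card ≤ 2 ^ (3 ^ d * m) := by
    intro m
    refine h3 m (U.image (blk k)) _ ?_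
    intro B hB
    rw [Finset.mem_filter, h𝓑, Finset.mem_filter, Finset.mem_image] at hB
    obtain ⟨⟨⟨ω, _, rfl⟩, _⟩, hm⟩ := hB
    refine ⟨hm, ?_, ?_⟩
    · unfold BL
      exact Finset.image_subset_image ((lat d).subset_clF ω U)
    · intro j hj
      have h5 := (h2 k ω U hk).2.2 j (by unfold BL at hj; exact hj)
      obtain ⟨u, hu, h6⟩ := h5
      refine ⟨u, hu, ?_⟩
      unfold BL
      exact h6
  have e3 : ∑ B ∈ 𝓑, (2 * δ) ^ B.card * K =
      ∑ m ∈ 𝓑.image Finset.card, ((𝓑.filter (fun B => B.card = m)).card : ℝ) *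
        ((2 * δ) ^ m * K) := by
    have := Finset.sum_comp (s := 𝓑) (fun m : ℕ => (2 * δ) ^ m * K) Finset.card
    rw [this]
    refine Finset.sum_congr rfl fun m _ => ?_
    rw [nsmul_eq_mul]
  have e4 : ∀ m ∈ 𝓑.image Finset.card,
      ((𝓑.filter (fun B => B.card = m)).card : ℝ) * ((2 * δ) ^ m * K) ≤
        (1 / 2) ^ m * (Real.exp (-(Real.log 2 / (k : ℝ) ^ d) * L) * K) := by
    intro m hm
    rw [Finset.mem_image] at hm
    obtain ⟨B, hB, hBm⟩ := hm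
    have hL : L ≤ k ^ d * m := by
      rw [h𝓑, Finset.mem_filter, hBm] at hB
      exact hB.2
    have h5 : ((𝓑.filter (fun B => B.card = m)).card : ℝ) ≤ (2 ^ (3 ^ d)) ^ m := by
      rw [← pow_mul]
      exact_mod_cast e2 m
    have h6 : ((2 : ℝ) ^ (3 ^ d)) ^ m * (2 * δ) ^ m = (1 / 2) ^ m * (1 / 2) ^ m := by
      rw [← mul_pow, ← mul_pow]
      congr 1
      rw [hδ, pow_add]
      have : (2 : ℝ) ^ (3 ^ d) * (1 / 2) ^ (3 ^ d) = 1 := by
        rw [← mul_pow]; norm_num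
      calc (2 : ℝ) ^ (3 ^ d) * (2 * ((1 / 2) ^ (3 ^ d) * (1 / 2) ^ 3))
          = ((2 : ℝ) ^ (3 ^ d) * (1 / 2) ^ (3 ^ d)) * (2 * (1 / 2) ^ 3) := by ring
        _ = 1 / 2 * (1 / 2) := by rw [this]; norm_num
    have h7 : (1 / 2 : ℝ) ^ m ≤ Real.exp (-(Real.log 2 / (k : ℝ) ^ d) * L) := by
      have h8 : (1 / 2 : ℝ) ^ m = Real.exp (-(Real.log 2) * m) := by
        rw [one_div, inv_pow, neg_mul, Real.exp_neg, mul_comm, Real.exp_nat_mul,
          Real.exp_log (by norm_num)]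
      rw [h8, Real.exp_le_exp, neg_mul, neg_mul, neg_le_neg_iff, div_mul_eq_mul_div,
        div_le_iff₀ hkd, mul_assoc]
      refine mul_le_mul_of_nonneg_left ?_ (Real.log_nonneg (by norm_num))
      rw [mul_comm]
      exact_mod_cast hL
    calc ((𝓑.filter (fun B => B.card = m)).card : ℝ) * ((2 * δ) ^ m * K)
        ≤ (2 ^ (3 ^ d)) ^ m * ((2 * δ) ^ m * K) :=
          mul_le_mul_of_nonneg_right h5 (by positivity)
      _ = (1 / 2) ^ m * ((1 / 2) ^ m * K) := by rw [← mul_assoc, h6, mul_assoc]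
      _ ≤ _ := mul_le_mul_of_nonneg_left (mul_le_mul_of_nonneg_right h7 hK0) (by positivity)
  refine e1.trans ?_
  rw [e3]
  refine (Finset.sum_le_sum e4).trans ?_
  rw [← Finset.sum_mul]
  have e5 : (2 : ℝ) * K ≤ (2 * δ⁻¹ ^ (3 ^ d)) ^ U.card := by
    rw [mul_pow]
    refine mul_le_mul_of_nonneg_right ?_ hK0
    calc (2 : ℝ) = 2 ^ 1 := by norm_num
      _ ≤ 2 ^ U.card := pow_le_pow_right₀ (by norm_num) hUc
  have hexp := (Real.exp_pos (-(Real.log 2 / (k : ℝ) ^ d) * L)).le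
  calc (∑ m ∈ 𝓑.image Finset.card, (1 / 2 : ℝ) ^ m) *
        (Real.exp (-(Real.log 2 / (k : ℝ) ^ d) * L) * K)
      ≤ 2 * (Real.exp (-(Real.log 2 / (k : ℝ) ^ d) * L) * K) :=
        mul_le_mul_of_nonneg_right (sum_half_le _) (mul_nonneg hexp hK0)
    _ = 2 * K * Real.exp (-(Real.log 2 / (k : ℝ) ^ d) * L) := by ring
    _ ≤ _ := mul_le_mul_of_nonneg_right e5 hexp

end Pool.Agent.TH883.J469

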