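import Pool.Agent.TH981.LO.Bas

set_option autoImplicit false

open Pool.Agent.TH981.LO
open scoped BigOperators symmDiff MeasureTheory

namespace Pool.Agent.TH883.J471

section abs

variable {V E : Type} [DecidableEq V] [DecidableEq E] (G : MG V E)

theorem L_sum {ι : Type} (w : E → ℝ) (F : Finset E) (A : V → ZMod 2) (s : Finset ι)
    (f : ι → Finset E → ℝ) :
    G.L w F A (fun η => ∑ i ∈ s, f i η) = ∑ i ∈ s, G.L w F A (f i) := by
  classical
  unfold MG.L
  rw [Finset.sum_comm]
  refine Finset.sum_congr rfl fun η _ => ?_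
  rw [Finset.mul_sum]

theorem L_eq_zero_of_Z {w : E → ℝ} {F : Finset E} {A : V → ZMod 2} (hw : ∀ e ∈ F, 0 < w e)
    (h : G.Z w F A = 0) (f : Finset E → ℝ) : G.L w F A f = 0 := by
  classical
  unfold MG.Z MG.L at h
  unfold MG.L
  have hnn : ∀ η ∈ F.powerset.filter (fun η => G.bd η = A), 0 ≤ (∏ e ∈ η, w e) * (1 : ℝ) := by
    intro η hη
    have h1 := Finset.mem_powerset.mp (Finset.mem_filter.mp hη).1
    exact mul_nonneg (Finset.prod_nonneg fun e he => (hw e (h1 he)).le) zero_le_one
  have h2 := (Finset.sum_eq_zero_iff_of_nonneg hnn).1 h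
  refine Finset.sum_eq_zero fun η hη => ?_
  exfalso
  have h3 := h2 η hη
  have h1 := Finset.mem_powerset.mp (Finset.mem_filter.mp hη).1
  have h4 : 0 < ∏ e ∈ η, w e := Finset.prod_pos fun e he => hw e (h1 he)
  rw [mul_one] at h3
  exact h4.ne' h3

theorem exists_of_Z_ne {w : E → ℝ} {F : Finset E} {A : V → ZMod 2} (h : G.Z w F A ≠ 0) :
    ∃ η ⊆ F, G.bd η = A := by
  classical
  by_contra hcon
  push Not at hcon
  apply h
  unfold MG.Z MG.L
  refine Finset.sum_eq_zero fun η hη => ?_
  rw [Finset.mem_filter, Finset.mem_powerset] at hη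
  exact absurd hη.2 (hcon η hη.1)

end abs

variable {d : ℕ}

/-- the sphere of radius `t` is crossed at most `n'` times by the cluster of `U` outside the box
of radius `t` -/
def good (U : Finset (Vt d)) (n' t : ℕ) (η : Finset (Ed d)) : Prop :=
  (((lat d).clF (η \ EB d t) U).filter (fun v => nm v = t)).card ≤ n'

/-- `t` is the largest good radius below `T` -/
def big (U : Finset (Vt d)) (n' T t : ℕ) (η : Finset (Ed d)) : Prop :=
  good U n' t η ∧ ∀ t', t < t' → t' < T → ¬ good U n' t' η

theorem exists_big (U : Finset (Vt d)) (n' T h : ℕ) (η : Finset (Ed d))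
    (hex : ∃ t, h ≤ t ∧ t < T ∧ good U n' t η) :
    ∃ t, h ≤ t ∧ t < T ∧ big U n' T t η := by
  classical
  obtain ⟨t, h1, h2, h3⟩ := hex
  have hne : ((Finset.Ico h T).filter (fun t => good U n' t η)).Nonempty :=
    ⟨t, by rw [Finset.mem_filter, Finset.mem_Ico]; exact ⟨⟨h1, h2⟩, h3⟩⟩
  have hm := Finset.max'_mem _ hne
  rw [Finset.mem_filter, Finset.mem_Ico] at hm
  refine ⟨_, hm.1.1, hm.1.2, hm.2, ?_⟩
  intro t' h4 h5 h6
  have := Finset.le_max' _ t' (by
    rw [Finset.mem_filter, Finset.mem_Ico]; exact ⟨⟨by omega, h5⟩, h6⟩ :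
    t' ∈ (Finset.Ico h T).filter (fun t => good U n' t η))
  omega

theorem big_unique {U : Finset (Vt d)} {n' T t t' : ℕ} {η : Finset (Ed d)}
    (h : big U n' T t η) (h' : big U n' T t' η) (ht : t < T) (ht' : t' < T) : t = t' := by
  rcases lt_trichotomy t t' with h1 | h1 | h1
  · exact absurd h'.1 (h.2 t' h1 ht')
  · exact h1
  · exact absurd h.1 (h'.2 t h1 ht)

open Classical in
theorem partition_one (U : Finset (Vt d)) (n' T h : ℕ) (η : Finset (Ed d)) :
    (1 : ℝ) = (∑ t ∈ Finset.Ico h T, if big U n' T t η then 1 else 0) +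
      if (∃ t, h ≤ t ∧ t < T ∧ good U n' t η) then 0 else 1 := by
  by_cases hex : ∃ t, h ≤ t ∧ t < T ∧ good U n' t η
  · rw [if_pos hex, add_zero]
    obtain ⟨t, h1, h2, h3⟩ := exists_big U n' T h η hex
    rw [Finset.sum_eq_single_of_mem t (Finset.mem_Ico.2 ⟨h1, h2⟩), if_pos h3]
    intro t' ht' hne
    rw [if_neg]
    intro h4
    exact hne (big_unique h4 h3 (Finset.mem_Ico.1 ht').2 h2)
  · rw [if_neg hex, Finset.sum_eq_zero, zero_add]
    intro t ht
    rw [if_neg]
    intro h4
    exact hex ⟨t, (Finset.mem_Ico.1 ht).1, (Finset.mem_Ico.1 ht).2, h4.1⟩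

theorem card_big (U : Finset (Vt d)) (n' T h : ℕ) (η : Finset (Ed d))
    (hex : ¬ ∃ t, h ≤ t ∧ t < T ∧ good U n' t η) :
    (n' + 1) * (T - h) ≤ ((lat d).clF η U).card := by
  classical
  have h1 : ∀ t ∈ Finset.Ico h T,
      n' + 1 ≤ (((lat d).clF η U).filter (fun v => nm v = t)).card := by
    intro t ht
    rw [Finset.mem_Ico] at ht
    have h2 : ¬ good U n' t η := fun h3 => hex ⟨t, ht.1, ht.2, h3⟩
    unfold good at h2
    push Not at h2
    refine h2.trans_le (Finset.card_le_card ?_)
    exact Finset.filter_subset_filter _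
      ((lat d).clF_mono Finset.sdiff_subset (Finset.Subset.refl _))
  have h2 : ∑ t ∈ Finset.Ico h T, (n' + 1) ≤
      ∑ t ∈ Finset.Ico h T, (((lat d).clF η U).filter (fun v => nm v = t)).card :=
    Finset.sum_le_sum h1
  rw [Finset.sum_const, Nat.card_Ico, smul_eq_mul, mul_comm] at h2
  refine h2.trans ?_
  rw [← Finset.card_biUnion]
  · refine Finset.card_le_card ?_
    intro v hv
    rw [Finset.mem_biUnion] at hv
    obtain ⟨t, _, h3⟩ := hv
    exact (Finset.mem_filter.1 h3).1
  · intro t _ t' _ hne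
    refine Finset.disjoint_left.2 ?_
    intro v h3 h4
    exact hne ((Finset.mem_filter.1 h3).2.symm.trans (Finset.mem_filter.1 h4).2)

/-- outside the box the cluster only depends on `ζ` -/
theorem clF_union {t t' : ℕ} (htt : t ≤ t') {D ζ η' : Finset (Ed d)} {U : Finset (Vt d)}
    (hη' : η' ⊆ D \ (lat d).tch (D \ EB d t) ((lat d).clF ζ U)) :
    (lat d).clF ((ζ ∪ η') \ EB d t') U = (lat d).clF (ζ \ EB d t') U := by
  classical
  apply Finset.Subset.antisymm
  · refine (lat d).clF_subset_of_closed ((lat d).subset_clF _ _) ?_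
    intro e he
    rw [Finset.mem_sdiff, Finset.mem_union] at he
    obtain ⟨h1 | h1, h2⟩ := he
    · exact (lat d).s_mem_clF_iff (Finset.mem_sdiff.2 ⟨h1, h2⟩)
    · have h3 := hη' h1
      rw [Finset.mem_sdiff] at h3
      have h4 : e ∉ EB d t := fun h => h2 (EB_mono htt h)
      have hW : (lat d).clF (ζ \ EB d t') U ⊆ (lat d).clF ζ U :=
        (lat d).clF_mono Finset.sdiff_subset (Finset.Subset.refl _)
      have h5 : ¬ ((lat d).s e ∈ (lat d).clF ζ U ∨ (lat d).t e ∈ (lat d).clF ζ U) := by
        intro h6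
        apply h3.2
        unfold MG.tch
        rw [Finset.mem_filter, Finset.mem_sdiff]
        exact ⟨⟨h3.1, h4⟩, h6⟩
      push Not at h5
      exact ⟨fun h => absurd (hW h) h5.1, fun h => absurd (hW h) h5.2⟩
  · exact (lat d).clF_mono (Finset.sdiff_subset_sdiff Finset.subset_union_left
      (Finset.Subset.refl _)) (Finset.Subset.refl _)

theorem good_union {t t' : ℕ} (htt : t ≤ t') {n' : ℕ} {D ζ η' : Finset (Ed d)}
    {U : Finset (Vt d)}
    (hη' : η' ⊆ D \ (lat d).tch (D \ EB d t) ((lat d).clF ζ U)) :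
    good U n' t' (ζ ∪ η') ↔ good U n' t' ζ := by
  unfold good
  rw [clF_union htt hη']

theorem big_union {t n' T : ℕ} {D ζ η' : Finset (Ed d)} {U : Finset (Vt d)}
    (hη' : η' ⊆ D \ (lat d).tch (D \ EB d t) ((lat d).clF ζ U)) :
    big U n' T t (ζ ∪ η') ↔ big U n' T t ζ := by
  unfold big
  rw [good_union le_rfl hη']
  refine and_congr Iff.rfl ?_
  refine forall_congr' fun t' => ?_
  refine forall_congr' fun h1 => ?_
  rw [good_union h1.le hη']

theorem f_union {t h : ℕ} (hht : h ≤ t) {D ζ η' : Finset (Ed d)} (hζ : ζ ⊆ D \ EB d t)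
    {f : Finset (Ed d) → ℝ} (hf : LocS (EB d h) f) : f (ζ ∪ η') = f η' := by
  rw [hf (ζ ∪ η'), hf η']
  congr 1
  ext e
  rw [Finset.mem_inter, Finset.mem_inter, Finset.mem_union]
  constructor
  · rintro ⟨h1 | h1, h2⟩
    · exact absurd (EB_mono hht h2) (Finset.mem_sdiff.1 (hζ h1)).2
    · exact ⟨h1, h2⟩
  · rintro ⟨h1, h2⟩
    exact ⟨Or.inr h1, h2⟩

theorem zmod2_ne_zero {a : ZMod 2} (h : a ≠ 0) : a = 1 := by
  revert h; revert a; decide

/-- the new source set -/
theorem exists_sources {t T : ℕ} (htT : t < T) {D ζ : Finset (Ed d)}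
    {U : Finset (Vt d)} (hU : ∀ u ∈ U, nm u = T) (hζ : ζ ⊆ D \ EB d t) (hcon : (lat d).con ζ U)
    {η' : Finset (Ed d)} (hη' : η' ⊆ D \ (lat d).tch (D \ EB d t) ((lat d).clF ζ U))
    (hbd : (lat d).bd η' = ind U + (lat d).bd ζ) :
    ∃ U' : Finset (Vt d), U' ⊆ ((lat d).clF ζ U).filter (fun v => nm v = t) ∧
      ind U + (lat d).bd ζ = ind U' := by
  classical
  have key : ∀ v, (ind U + (lat d).bd ζ) v ≠ 0 → v ∈ (lat d).clF ζ U ∧ nm v = t := by
    intro v hv
    by_cases h1 : v ∈ (lat d).clF ζ U
    · refine ⟨h1, ?_⟩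
      rcases lt_trichotomy (nm v) t with h2 | h2 | h2
      · exfalso
        apply hv
        have h3 : v ∉ U := fun h => by have := hU v h; omega
        have h4 : (lat d).bd ζ v = 0 := by
          apply (lat d).bd_eq_zero_of_not_touch
          intro e he
          have h5 := (Finset.mem_sdiff.1 (hζ he)).2
          rw [mem_EB] at h5
          rw [lat_s, lat_t]
          constructor
          · intro h6
            apply h5
            have h7 := nm_add_le e.1 (ev e.2)
            rw [nm_ev] at h7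
            rw [h6] at h7 ⊢
            omega
          · intro h6
            apply h5
            have h7 := nm_sub_le (e.1 + ev e.2) (ev e.2)
            rw [nm_ev, add_sub_cancel_right] at h7
            rw [h6] at h7 ⊢
            omega
        show ind U v + (lat d).bd ζ v = 0
        rw [h4]
        unfold ind
        rw [if_neg h3, add_zero]
      · exact h2
      · exfalso
        apply hv
        rw [← hbd]
        apply (lat d).bd_eq_zero_of_not_touch
        intro e he
        have h5 := Finset.mem_sdiff.1 (hη' he)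
        have h6 : ∀ (_ : (lat d).s e = v ∨ (lat d).t e = v), False := by
          intro h7
          have h8 : e ∉ EB d t := by
            rw [mem_EB]
            rintro ⟨h9, h10⟩
            rw [lat_s, lat_t] at h7
            rcases h7 with h7 | h7
            · rw [h7] at h9; omega
            · rw [h7] at h10; omega
          apply h5.2
          unfold MG.tch
          rw [Finset.mem_filter, Finset.mem_sdiff]
          refine ⟨⟨h5.1, h8⟩, ?_⟩
          rcases h7 with h7 | h7
          · left; rw [h7]; exact h1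
          · right; rw [h7]; exact h1
        exact ⟨fun h => h6 (Or.inl h), fun h => h6 (Or.inr h)⟩
    · exfalso
      apply hv
      have h3 : v ∉ U := fun h => h1 ((lat d).subset_clF ζ U h)
      have h4 : (lat d).bd ζ v = 0 := by
        apply (lat d).bd_eq_zero_of_not_touch
        intro e he
        have h5 := hcon e he
        have h6 := ((lat d).s_mem_clF_iff he).1 h5
        constructor
        · rintro rfl; exact h1 h5
        · rintro rfl; exact h1 h6
      show ind U v + (lat d).bd ζ v = 0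
      rw [h4]
      unfold ind
      rw [if_neg h3, add_zero]
  refine ⟨((lat d).clF ζ U).filter (fun v => nm v = t ∧ (ind U + (lat d).bd ζ) v = 1), ?_, ?_⟩
  · intro v hv
    rw [Finset.mem_filter] at hv ⊢
    exact ⟨hv.1, hv.2.1⟩
  · funext v
    unfold ind
    by_cases h0 : (ind U + (lat d).bd ζ) v = 0
    · have h2 : v ∉ ((lat d).clF ζ U).filter
          (fun v => nm v = t ∧ (ind U + (lat d).bd ζ) v = 1) := by
        rw [Finset.mem_filter]
        rintro ⟨_, _, h3⟩
        rw [h0] at h3
        exact absurd h3 (by decide)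
      unfold ind at h0 h2
      rw [if_neg h2]
      exact h0
    · obtain ⟨h3, h4⟩ := key v h0
      have h5 := zmod2_ne_zero h0
      have h2 : v ∈ ((lat d).clF ζ U).filter
          (fun v => nm v = t ∧ (ind U + (lat d).bd ζ) v = 1) := by
        rw [Finset.mem_filter]
        exact ⟨h3, h4, h5⟩
      unfold ind at h5 h2
      rw [if_pos h2]
      exact h5

open Classical in
theorem step_t (hexpl : S_EXPL) {x : ℝ} {T h n' : ℕ} {D : Finset (Ed d)} {U : Finset (Vt d)}
    {f : Finset (Ed d) → ℝ} {a : ℝ} (hx0 : 0 < x) (hD : EB d T ⊆ D)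
    (hU : ∀ u ∈ U, nm u = T) (hf : LocS (EB d h) f)
    (hyp : ∀ (t : ℕ) (D' : Finset (Ed d)) (U' : Finset (Vt d)), h ≤ t → t < T → EB d t ⊆ D' →
      (∀ u ∈ U', nm u = t) → U'.card ≤ n' → ZZ d x D' (ind U') ≠ 0 → EE d x D' (ind U') f ≤ a)
    {t : ℕ} (ht : h ≤ t) (htT : t < T) :
    LL d x D (ind U) (fun η => f η * if big U n' T t η then 1 else 0) ≤
      a * LL d x D (ind U) (fun η => if big U n' T t η then 1 else 0) := by
  unfold LL
  rw [hexpl (lat d) (fun _ => x) D (EB d t) (ind U) U
      (fun η => f η * if big U n' T t η then 1 else 0),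
    hexpl (lat d) (fun _ => x) D (EB d t) (ind U) U (fun η => if big U n' T t η then 1 else 0),
    Finset.mul_sum]
  refine Finset.sum_le_sum fun ζ hζ => ?_
  rw [Finset.mem_filter, Finset.mem_powerset] at hζ
  obtain ⟨hζ, hcon⟩ := hζ
  have hprod : 0 ≤ ∏ e ∈ ζ, (fun _ : Ed d => x) e := Finset.prod_nonneg fun _ _ => hx0.le
  rw [mul_left_comm]
  refine mul_le_mul_of_nonneg_left ?_ hprod
  set D' := D \ (lat d).tch (D \ EB d t) ((lat d).clF ζ U) with hD'
  by_cases hb : big U n' T t ζ
  · have e1 : (lat d).L (fun _ => x) D' (ind U + (lat d).bd ζ)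
        (fun η' => f (ζ ∪ η') * if big U n' T t (ζ ∪ η') then 1 else 0) =
        (lat d).L (fun _ => x) D' (ind U + (lat d).bd ζ) f := by
      refine (lat d).L_congr _ (fun _ _ => rfl) fun η' hη' _ => ?_
      rw [if_pos ((big_union hη').2 hb), mul_one, f_union ht hζ hf]
    have e2 : (lat d).L (fun _ => x) D' (ind U + (lat d).bd ζ)
        (fun η' => if big U n' T t (ζ ∪ η') then 1 else 0) =
        (lat d).Z (fun _ => x) D' (ind U + (lat d).bd ζ) := by
      refine (lat d).L_congr _ (fun _ _ => rfl) fun η' hη' _ => ?_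
      rw [if_pos ((big_union hη').2 hb)]
    rw [e1, e2]
    by_cases hZ : (lat d).Z (fun _ => x) D' (ind U + (lat d).bd ζ) = 0
    · rw [hZ, mul_zero, L_eq_zero_of_Z (lat d) (fun _ _ => hx0) hZ]
    · obtain ⟨η', hη', hbd⟩ := exists_of_Z_ne (lat d) hZ
      obtain ⟨U', hU', hind⟩ := exists_sources htT hU hζ hcon hη' hbd
      rw [hind] at hZ ⊢
      have hpos : 0 < (lat d).Z (fun _ => x) D' (ind U') :=
        lt_of_le_of_ne ((lat d).Z_nonneg _ fun _ _ => hx0.le) (Ne.symm hZ)
      have h1 := hyp t D' U' ht htT ?_ ?_ ?_ hZ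
      · unfold EE MG.ex at h1
        rwa [div_le_iff₀ hpos] at h1
      · intro e he
        rw [hD', Finset.mem_sdiff]
        refine ⟨hD (EB_mono htT.le he), ?_⟩
        intro h2
        unfold MG.tch at h2
        rw [Finset.mem_filter, Finset.mem_sdiff] at h2
        exact h2.1.2 he
      · intro u hu
        exact (Finset.mem_filter.1 (hU' hu)).2
      · refine (Finset.card_le_card hU').trans ?_
        have h2 := hb.1
        unfold good at h2
        have h3 : ζ \ EB d t = ζ := by
          rw [Finset.sdiff_eq_self_iff_disjoint, Finset.disjoint_left]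
          intro e he
          exact (Finset.mem_sdiff.1 (hζ he)).2
        rwa [h3] at h2
  · have e1 : (lat d).L (fun _ => x) D' (ind U + (lat d).bd ζ)
        (fun η' => f (ζ ∪ η') * if big U n' T t (ζ ∪ η') then 1 else 0) =
        (lat d).L (fun _ => x) D' (ind U + (lat d).bd ζ) (fun _ => 0 * 0) := by
      refine (lat d).L_congr _ (fun _ _ => rfl) fun η' hη' _ => ?_
      rw [if_neg (fun h => hb ((big_union hη').1 h)), mul_zero, mul_zero]
    have e2 : (lat d).L (fun _ => x) D' (ind U + (lat d).bd ζ)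
        (fun η' => if big U n' T t (ζ ∪ η') then 1 else 0) =
        (lat d).L (fun _ => x) D' (ind U + (lat d).bd ζ) (fun _ => 0 * 0) := by
      refine (lat d).L_congr _ (fun _ _ => rfl) fun η' hη' _ => ?_
      rw [if_neg (fun h => hb ((big_union hη').1 h)), mul_zero]
    rw [e1, e2, (lat d).L_smul]
    simp

theorem stepdet (hexpl : S_EXPL) (d : ℕ) : S_STEPDET d := by
  classical
  intro x T h n' D U f a hx0 hx1 hhT hD hU hf hf1 ha hyp hZ
  have hpos : 0 < (lat d).Z (fun _ => x) D (ind U) :=
    lt_of_le_of_ne ((lat d).Z_nonneg _ fun _ _ => hx0.le) (Ne.symm hZ)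
  have hwnn : ∀ e ∈ D, 0 ≤ (fun _ : Ed d => x) e := fun _ _ => hx0.le
  unfold EE MG.ex
  rw [← mul_div_cancel_right₀ a hpos.ne', ← add_div]
  refine div_le_div_of_nonneg_right ?_ hpos.le
  have e1 : (lat d).L (fun _ => x) D (ind U) f =
      ∑ t ∈ Finset.Ico h T, (lat d).L (fun _ => x) D (ind U)
        (fun η => f η * if big U n' T t η then 1 else 0) +
      (lat d).L (fun _ => x) D (ind U)
        (fun η => f η * if (∃ t, h ≤ t ∧ t < T ∧ good U n' t η) then 0 else 1) := by
    rw [← L_sum, ← (lat d).L_add]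
    refine (lat d).L_congr _ (fun _ _ => rfl) fun η _ _ => ?_
    rw [← Finset.mul_sum, ← mul_add, ← partition_one U n' T h η, mul_one]
  rw [e1]
  refine add_le_add ?_ ?_
  · calc ∑ t ∈ Finset.Ico h T, (lat d).L (fun _ => x) D (ind U)
          (fun η => f η * if big U n' T t η then 1 else 0)
        ≤ ∑ t ∈ Finset.Ico h T, a * (lat d).L (fun _ => x) D (ind U)
          (fun η => if big U n' T t η then 1 else 0) := by
          refine Finset.sum_le_sum fun t ht => ?_
          rw [Finset.mem_Ico] at ht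
          exact step_t hexpl hx0 hD hU hf hyp ht.1 ht.2
      _ = a * (lat d).L (fun _ => x) D (ind U)
          (fun η => ∑ t ∈ Finset.Ico h T, if big U n' T t η then 1 else 0) := by
          rw [← Finset.mul_sum, L_sum]
      _ ≤ a * (lat d).Z (fun _ => x) D (ind U) := by
          refine mul_le_mul_of_nonneg_left ?_ ha
          refine (lat d).L_mono _ hwnn fun η _ _ => ?_
          have h1 := partition_one U n' T h η
          have h2 : (0 : ℝ) ≤ if (∃ t, h ≤ t ∧ t < T ∧ good U n' t η) then 0 else 1 := by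
            split_ifs
            · exact le_rfl
            · exact zero_le_one
          linarith
  · refine (lat d).L_mono _ hwnn fun η _ _ => ?_
    by_cases hex : ∃ t, h ≤ t ∧ t < T ∧ good U n' t η
    · rw [if_pos hex, mul_zero]
      split_ifs
      · exact zero_le_one
      · exact le_rfl
    · rw [if_neg hex, mul_one, if_pos (card_big U n' T h η hex)]
      exact hf1 η

end Pool.Agent.TH883.J471

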