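import Pool.Agent.TH64.Basic
import Pool.Agent.Helper180.FreeMetric

/-!
# The free group of rank 2 with its word length is a `Hyp` (job 478)
-/

set_option autoImplicit false

namespace Pool.Agent.TH883.J478

open Pool.Agent.TH64 Pool.Agent.Helper180

theorem finite_norm_le (n : ℕ) : {g : FreeGroup (Fin 2) | g.norm ≤ n}.Finite := by
  have h1 : {l : List (Fin 2 × Bool) | l.length ≤ n}.Finite := List.finite_length_le _ n
  refine Set.Finite.of_injOn (f := FreeGroup.toWord) (t := {l | l.length ≤ n}) ?_ ?_ h1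
  · intro g hg
    exact hg
  · intro a _ b _ h
    exact FreeGroup.toWord_injective h

/-- the free group of rank 2 with its word length -/
def freeHyp : Hyp (FreeGroup (Fin 2)) where
  len := FreeGroup.norm
  D := 0
  len_one := FreeGroup.norm_one
  eq_one g h := FreeGroup.norm_eq_zero.1 h
  len_inv g := FreeGroup.norm_inv_eq
  len_mul g h := FreeGroup.norm_mul_le g h
  fp' u v w z := by
    have e : ∀ a b : FreeGroup (Fin 2), (u⁻¹ * a)⁻¹ * (u⁻¹ * b) = a⁻¹ * b := by
      intro a b; group
    have h := FreeMetric.gp_hyp (u⁻¹ * w) (u⁻¹ * v) (u⁻¹ * z)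
    unfold FreeMetric.gp at h
    rw [e, e, e] at h
    have e2 : (w⁻¹ * v).norm = (v⁻¹ * w).norm := by
      rw [← FreeGroup.norm_inv_eq]
      congr 1
      group
    rw [e2] at h
    omega
  step g k hk := by
    obtain ⟨z, h1, h2⟩ := FreeMetric.exists_initial g k hk
    refine ⟨z, h1, ?_⟩
    omega
  fin := finite_norm_le

theorem free_hyp : Nonempty (Hyp (FreeGroup (Fin 2))) := ⟨freeHyp⟩

theorem free_torsion_free (a : FreeGroup (Fin 2)) (ha : IsOfFinOrder a) : a = 1 := by
  obtain ⟨n, hn, h⟩ := isOfFinOrder_iff_pow_eq_one.1 ha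
  exact (pow_eq_one_iff_left hn.ne').1 h

end Pool.Agent.TH883.J478

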