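import Pool.Agent.TH883.J471

set_option autoImplicit false

open Pool.Agent.TH981.LO
open scoped BigOperators symmDiff MeasureTheory

namespace Pool.Agent.TH883.J490

open Pool.Agent.TH883.J471 (L_sum)

section abs

variable {V E : Type} [DecidableEq V] [DecidableEq E] (G : MG V E)

theorem bw_nonneg {w : E → ℝ} {F ω : Finset E} (hw0 : ∀ e, 0 ≤ w e) (hw1 : ∀ e, w e ≤ 1) :
    0 ≤ bw w F ω := by
  unfold bw
  refine mul_nonneg (Finset.prod_nonneg fun e _ => hw0 e) (Finset.prod_nonneg fun e _ => ?_)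
  linarith [hw1 e]

theorem abs_L_le {w : E → ℝ} {F : Finset E} {A : V → ZMod 2} (hw : ∀ e ∈ F, 0 ≤ w e)
    {f : Finset E → ℝ} {b : ℝ} (hf : ∀ η ⊆ F, |f η| ≤ b) : |G.L w F A f| ≤ b * G.Z w F A := by
  have h1 : G.L w F A (fun _ => b * 1) = b * G.Z w F A := G.L_smul w F A b (fun _ => 1)
  have h2 : G.L w F A (fun _ => (-b) * 1) = (-b) * G.Z w F A := G.L_smul w F A (-b) (fun _ => 1)
  rw [abs_le]
  constructor
  · rw [← neg_mul, ← h2]
    refine G.L_mono A hw fun η hη _ => ?_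
    rw [mul_one]
    exact (abs_le.1 (hf η hη)).1
  · rw [← h1]
    refine G.L_mono A hw fun η hη _ => ?_
    rw [mul_one]
    exact (abs_le.1 (hf η hη)).2

/-- bound for the pair sum through the domain Markov property -/
theorem abs_markl_le (hm : S_MARKL) {w : E → ℝ} {F : Finset E} {U : Finset V}
    (hw0 : ∀ e, 0 ≤ w e) (hw1 : ∀ e, w e ≤ 1) {k : Finset V → ℝ} {g : Finset E → ℝ} {M : ℝ}
    (hk : ∀ κ, 0 ≤ k κ)
    (hM : ∀ ω₁ ⊆ F, G.con ω₁ U → ∀ η₁ ⊆ ω₁, k (G.clF ω₁ U) ≠ 0 →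
      |G.L w (G.off F (G.clF ω₁ U)) 0 (fun η₂ => g (η₁ ∪ η₂))| ≤
        M * G.Z w (G.off F (G.clF ω₁ U)) 0) :
    |G.PS w F (ind U) (fun ω η => k (G.clF ω U) * g η)| ≤
      M * G.PS w F (ind U) (fun ω _ => k (G.clF ω U) * 1) := by
  classical
  rw [hm G w F U k g, hm G w F U k (fun _ => 1), Finset.mul_sum]
  refine (Finset.abs_sum_le_sum_abs _ _).trans ?_
  refine Finset.sum_le_sum fun ω₁ hω₁ => ?_
  rw [Finset.mem_filter, Finset.mem_powerset] at hω₁
  have hnn : 0 ≤ bw w (G.tch F (G.clF ω₁ U)) ω₁ * k (G.clF ω₁ U) :=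
    mul_nonneg (bw_nonneg hw0 hw1) (hk _)
  rw [abs_mul, abs_of_nonneg hnn, mul_left_comm]
  by_cases h0 : k (G.clF ω₁ U) = 0
  · rw [h0, mul_zero, zero_mul, zero_mul]
  refine mul_le_mul_of_nonneg_left ?_ hnn
  rw [Finset.mul_sum]
  refine (Finset.abs_sum_le_sum_abs _ _).trans ?_
  refine Finset.sum_le_sum fun η₁ hη₁ => ?_
  rw [Finset.mem_filter, Finset.mem_powerset] at hη₁
  exact hM ω₁ hω₁.1 hω₁.2 η₁ hη₁.1 h0

end abs

variable {d : ℕ}

/-- `f` does not see `η₁` if the cluster is far away -/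
theorem loc_union {m ρ : ℕ} (hm : m ≤ ρ) {f : Finset (Ed d) → ℝ} (hf : LocS (EB d m) f)
    {ω₁ η₁ : Finset (Ed d)} {U : Finset (Vt d)} (hcon : (lat d).con ω₁ U) (hη₁ : η₁ ⊆ ω₁)
    {v : Vt d} (hv : ∀ u ∈ (lat d).clF ω₁ U, ρ < nm (u + v)) (η₂ : Finset (Ed d)) :
    f (shF v (η₁ ∪ η₂)) = f (shF v η₂) := by
  rw [hf (shF v (η₁ ∪ η₂)), hf (shF v η₂)]
  congr 1
  rw [shF_union]
  ext e
  rw [Finset.mem_inter, Finset.mem_inter, Finset.mem_union]
  constructor
  · rintro ⟨h1 | h1, h2⟩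
    · exfalso
      rw [mem_shF] at h1
      have h3 := hv _ (hcon _ (hη₁ h1))
      rw [lat_s] at h3
      rw [mem_EB] at h2
      have h4 : (e.1 - v, e.2).1 + v = e.1 := by simp
      rw [h4] at h3
      omega
    · exact ⟨h1, h2⟩
  · rintro ⟨h1, h2⟩
    exact ⟨Or.inr h1, h2⟩

/-- the shifted complement of a cluster that is far away contains `EB d ρ` -/
theorem sub_shF_off {ρ R : ℕ} (hρ : ρ + R / 2 ≤ R) {κ : Finset (Vt d)} {v : Vt d}
    (hvb : v ∈ box d (R / 2)) (hv : ∀ u ∈ κ, ρ < nm (u + v)) :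
    ∀ e ∈ EB d ρ, e ∈ shF v ((lat d).off (EB d R) κ) := by
  intro e he
  rw [mem_shF]
  rw [mem_EB] at he
  rw [mem_box] at hvb
  unfold MG.off
  rw [Finset.mem_filter, mem_EB, lat_s, lat_t]
  have e1 : nm (e.1 - v) ≤ nm e.1 + nm v := nm_sub_le _ _
  have e2 : nm (e.1 - v + ev e.2) ≤ nm (e.1 + ev e.2) + nm v := by
    rw [show e.1 - v + ev e.2 = e.1 + ev e.2 - v by abel]
    exact nm_sub_le _ _
  refine ⟨⟨?_, ?_⟩, ?_, ?_⟩
  · show nm (e.1 - v) ≤ R
    omega
  · show nm (e.1 - v + ev e.2) ≤ R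
    omega
  · intro h
    have h2 : ρ < nm (e.1 - v + v) := hv _ h
    rw [sub_add_cancel] at h2
    omega
  · intro h
    have h2 : ρ < nm (e.1 - v + ev e.2 + v) := hv _ h
    rw [show e.1 - v + ev e.2 + v = e.1 + ev e.2 by abel] at h2
    omega

/-- the number of bad translations -/
theorem card_bad (ρ : ℕ) (B κ : Finset (Vt d)) :
    (B.filter (fun v => ∃ u ∈ κ, nm (u + v) ≤ ρ)).card ≤ κ.card * (2 * ρ + 1) ^ d := by
  classical
  have h1 : B.filter (fun v => ∃ u ∈ κ, nm (u + v) ≤ ρ) ⊆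
      κ.biUnion (fun u => (box d ρ).image (fun z => z - u)) := by
    intro v hv
    rw [Finset.mem_filter] at hv
    obtain ⟨_, u, hu, h⟩ := hv
    rw [Finset.mem_biUnion]
    refine ⟨u, hu, Finset.mem_image.2 ⟨u + v, mem_box.2 h, by abel⟩⟩
  refine (Finset.card_le_card h1).trans ?_
  refine Finset.card_biUnion_le.trans ?_
  refine (Finset.sum_le_card_nsmul _ _ ((2 * ρ + 1) ^ d) fun u _ => ?_).trans ?_
  · refine Finset.card_image_le.trans ?_
    rw [card_box]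
  · rw [smul_eq_mul]

open Classical in
/-- the main estimate at a fixed radius -/
theorem main {x : ℝ} (hx0 : 0 < x) (hx1 : x < 1) (hmk : S_MARKL) {m ρ R Lc : ℕ}
    {U : Finset (Vt d)} {f : Finset (Ed d) → ℝ} {e₀ β τ : ℝ} (hmρ : m ≤ ρ) (hρ : ρ + R / 2 ≤ R)
    (hf1 : ∀ η, |f η| ≤ 1) (hf : LocS (EB d m) f) (he₀ : |e₀| ≤ 1) (hβ : 0 ≤ β)
    (hloc : ∀ D₁ : Finset (Ed d), (∀ e ∈ EB d ρ, e ∈ D₁) → |EE d x D₁ 0 f - e₀| ≤ β)
    (hZ : ZZ d x (EB d R) (ind U) ≠ 0)
    (htail : (lat d).PS (fun _ => x) (EB d R) (ind U)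
        (fun ω _ => if Lc ≤ ((lat d).clF ω U).card then 1 else 0) ≤
          τ * ZZ d x (EB d R) (ind U)) :
    |((box d (R / 2)).card : ℝ)⁻¹ *
            ∑ v ∈ box d (R / 2), EE d x (EB d R) (ind U) (fun η => f (shF v η)) - e₀| ≤
      β + 2 * (Lc * (2 * ρ + 1) ^ d) / ((box d (R / 2)).card : ℝ) + 2 * τ := by
  set B := box d (R / 2) with hB
  set N : ℝ := (B.card : ℝ) with hN
  have hNpos : 0 < N := by
    rw [hN, Nat.cast_pos, Finset.card_pos]
    exact ⟨0, by rw [hB, mem_box, nm_zero]; exact Nat.zero_le _⟩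
  set F := EB d R with hF
  set w : Ed d → ℝ := fun _ => x with hw
  have hw0 : ∀ e, 0 ≤ w e := fun _ => hx0.le
  have hw1 : ∀ e, w e ≤ 1 := fun _ => hx1.le
  have hZpos : 0 < (lat d).Z w F (ind U) :=
    lt_of_le_of_ne ((lat d).Z_nonneg _ fun _ _ => hx0.le) (Ne.symm hZ)
  set g : Finset (Ed d) → ℝ := fun η => ∑ v ∈ B, (f (shF v η) + (-e₀) * 1) with hg
  have hterm : ∀ v η, |f (shF v η) + (-e₀) * 1| ≤ 2 := by
    intro v η
    have h1 := hf1 (shF v η)
    rw [abs_le] at h1 he₀ ⊢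
    constructor <;> linarith [h1.1, h1.2, he₀.1, he₀.2]
  have hg2 : ∀ η, |g η| ≤ 2 * N := by
    intro η
    refine (Finset.abs_sum_le_sum_abs _ _).trans ?_
    refine (Finset.sum_le_card_nsmul _ _ 2 fun v _ => hterm v η).trans ?_
    rw [nsmul_eq_mul, mul_comm]
  -- the identity
  have hid : N⁻¹ * ∑ v ∈ B, EE d x F (ind U) (fun η => f (shF v η)) - e₀ =
      (lat d).L w F (ind U) g / (N * (lat d).Z w F (ind U)) := by
    have h1 : (lat d).L w F (ind U) g =
        ∑ v ∈ B, ((lat d).L w F (ind U) (fun η => f (shF v η)) +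
          (-e₀) * (lat d).Z w F (ind U)) := by
      rw [hg, L_sum]
      refine Finset.sum_congr rfl fun v _ => ?_
      rw [(lat d).L_add, (lat d).L_smul]
      rfl
    rw [h1, Finset.sum_add_distrib, Finset.sum_const, nsmul_eq_mul, ← hN]
    unfold EE MG.ex
    rw [← Finset.sum_div]
    field_simp
    ring
  rw [hid, abs_div, abs_of_pos (mul_pos hNpos hZpos), div_le_iff₀ (mul_pos hNpos hZpos)]
  -- split
  set k : Finset (Vt d) → ℝ := fun κ => if Lc ≤ κ.card then 0 else 1 with hk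
  have hk0 : ∀ κ, 0 ≤ k κ := by
    intro κ
    rw [hk]
    dsimp only
    split_ifs
    · exact le_rfl
    · exact zero_le_one
  have hsplit : (lat d).L w F (ind U) g =
      (lat d).PS w F (ind U) (fun ω η => k ((lat d).clF ω U) * g η) +
      (lat d).PS w F (ind U) (fun ω η =>
        (if Lc ≤ ((lat d).clF ω U).card then 1 else 0) * g η) := by
    rw [← (lat d).PS_eta w F (ind U) g, ← (lat d).PS_add]
    refine (lat d).PS_congr _ (fun _ _ => rfl) fun ω _ η _ _ => ?_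
    rw [hk]
    dsimp only
    split_ifs
    · rw [zero_mul, one_mul, zero_add]
    · rw [zero_mul, one_mul, add_zero]
  -- the second part
  have hsecond : |(lat d).PS w F (ind U) (fun ω η =>
        (if Lc ≤ ((lat d).clF ω U).card then 1 else 0) * g η)| ≤
      2 * N * (τ * (lat d).Z w F (ind U)) := by
    have h1 : |(lat d).PS w F (ind U) (fun ω η =>
        (if Lc ≤ ((lat d).clF ω U).card then 1 else 0) * g η)| ≤
        (lat d).PS w F (ind U) (fun ω η =>
        (2 * N) * (if Lc ≤ ((lat d).clF ω U).card then 1 else 0)) := by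
      rw [abs_le]
      constructor
      · have h2 : -(lat d).PS w F (ind U) (fun ω η =>
            (2 * N) * (if Lc ≤ ((lat d).clF ω U).card then 1 else 0)) =
            (lat d).PS w F (ind U) (fun ω η =>
            (-(2 * N)) * (if Lc ≤ ((lat d).clF ω U).card then 1 else 0)) := by
          rw [(lat d).PS_smul, (lat d).PS_smul]
          ring
        rw [h2]
        refine (lat d).PS_mono _ (fun e _ => hw0 e) (fun e _ => hw1 e) fun ω _ η _ _ => ?_
        have h3 := abs_le.1 (hg2 η)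
        split_ifs
        · linarith [h3.1]
        · rw [mul_zero, zero_mul]
      · refine (lat d).PS_mono _ (fun e _ => hw0 e) (fun e _ => hw1 e) fun ω _ η _ _ => ?_
        have h3 := abs_le.1 (hg2 η)
        split_ifs
        · linarith [h3.2]
        · rw [mul_zero, zero_mul]
    refine h1.trans ?_
    rw [(lat d).PS_smul]
    exact mul_le_mul_of_nonneg_left htail (by linarith)
  -- the first part
  have hfirst : |(lat d).PS w F (ind U) (fun ω η => k ((lat d).clF ω U) * g η)| ≤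
      (N * β + 2 * (Lc * (2 * ρ + 1) ^ d)) * (lat d).Z w F (ind U) := by
    have h1 := abs_markl_le (lat d) hmk (w := w) (F := F) (U := U) hw0 hw1 (k := k) (g := g)
      (M := N * β + 2 * (Lc * (2 * ρ + 1) ^ d)) hk0 ?_
    · refine h1.trans ?_
      refine mul_le_mul_of_nonneg_left ?_ (by positivity)
      rw [MG.Z, ← (lat d).PS_eta w F (ind U) (fun _ => 1)]
      refine (lat d).PS_mono _ (fun e _ => hw0 e) (fun e _ => hw1 e) fun ω _ η _ _ => ?_
      rw [hk]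
      dsimp only
      split_ifs
      · rw [zero_mul]; exact zero_le_one
      · rw [mul_one]
    · intro ω₁ _ hcon η₁ hη₁ hk1
      have hcard : ((lat d).clF ω₁ U).card ≤ Lc := by
        by_contra hcon2
        apply hk1
        rw [hk]
        dsimp only
        rw [if_pos (by omega)]
      set κ := (lat d).clF ω₁ U with hκ
      set D' := (lat d).off F κ with hD'
      have hZ' : 0 < (lat d).Z w D' 0 :=
        lt_of_lt_of_le one_pos ((lat d).one_le_Z_zero fun e _ => hw0 e)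
      have e1 : (lat d).L w D' 0 (fun η₂ => g (η₁ ∪ η₂)) =
          ∑ v ∈ B, (lat d).L w D' 0 (fun η₂ => f (shF v (η₁ ∪ η₂)) + (-e₀) * 1) := by
        rw [hg, L_sum]
      rw [e1]
      refine (Finset.abs_sum_le_sum_abs _ _).trans ?_
      have e2 : ∀ v ∈ B, |(lat d).L w D' 0 (fun η₂ => f (shF v (η₁ ∪ η₂)) + (-e₀) * 1)| ≤
          (β + 2 * (if (∃ u ∈ κ, nm (u + v) ≤ ρ) then 1 else 0)) * (lat d).Z w D' 0 := by
        intro v hv
        by_cases hbad : ∃ u ∈ κ, nm (u + v) ≤ ρ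
        · rw [if_pos hbad]
          have h3 := abs_L_le (lat d) (w := w) (F := D') (A := 0) (fun e _ => hw0 e)
            (f := fun η₂ => f (shF v (η₁ ∪ η₂)) + (-e₀) * 1) (b := 2)
            (fun η₂ _ => hterm v _)
          refine h3.trans ?_
          refine mul_le_mul_of_nonneg_right ?_ hZ'.le
          linarith
        · rw [if_neg hbad]
          push Not at hbad
          have h3 : (lat d).L w D' 0 (fun η₂ => f (shF v (η₁ ∪ η₂)) + (-e₀) * 1) =
              (lat d).L w D' 0 (fun η₂ => f (shF v η₂)) + (-e₀) * (lat d).Z w D' 0 := by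
            rw [(lat d).L_add, (lat d).L_smul]
            congr 1
            refine (lat d).L_congr _ (fun _ _ => rfl) fun η₂ _ _ => ?_
            exact loc_union hmρ hf hcon hη₁ hbad η₂
          have h4 := hloc (shF v D') (sub_shF_off hρ hv hbad)
          have h5 : (lat d).L w (shF v D') 0 f = (lat d).L w D' 0 (fun η₂ => f (shF v η₂)) :=
            LL_shF x v D' 0 f
          have h6 : (lat d).Z w (shF v D') 0 = (lat d).Z w D' 0 := LL_shF x v D' 0 (fun _ => 1)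
          unfold EE MG.ex at h4
          rw [h5, h6] at h4
          rw [h3]
          have h7 : (lat d).L w D' 0 (fun η₂ => f (shF v η₂)) + (-e₀) * (lat d).Z w D' 0 =
              ((lat d).L w D' 0 (fun η₂ => f (shF v η₂)) / (lat d).Z w D' 0 - e₀) *
                (lat d).Z w D' 0 := by
            rw [sub_mul, div_mul_cancel₀ _ hZ'.ne']
            ring
          rw [h7, abs_mul, abs_of_pos hZ', mul_zero, add_zero]
          exact mul_le_mul_of_nonneg_right h4 hZ'.le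
      refine (Finset.sum_le_sum e2).trans ?_
      rw [← Finset.sum_mul]
      refine mul_le_mul_of_nonneg_right ?_ hZ'.le
      rw [Finset.sum_add_distrib, Finset.sum_const, nsmul_eq_mul, ← Finset.mul_sum,
        Finset.sum_boole]
      have e3 : ((B.filter (fun v => ∃ u ∈ κ, nm (u + v) ≤ ρ)).card : ℝ) ≤
          Lc * (2 * ρ + 1) ^ d := by
        have h3 := card_bad ρ B κ
        have h4 : κ.card * (2 * ρ + 1) ^ d ≤ Lc * (2 * ρ + 1) ^ d :=
          Nat.mul_le_mul_right _ hcard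
        exact_mod_cast h3.trans h4
      linarith
  rw [hsplit]
  refine (abs_add_le _ _).trans ((add_le_add hfirst hsecond).trans (le_of_eq ?_))
  field_simp

/-- number of vertices on a sphere -/
theorem pow_diff (a b : ℝ) (hb : 0 ≤ b) (hab : b ≤ a) (n : ℕ) :
    a ^ (n + 1) ≤ b ^ (n + 1) + (n + 1) * (a - b) * a ^ n := by
  induction n with
  | zero => simp
  | succ n ih =>
    have ha : 0 ≤ a := hb.trans hab
    have h1 : b ^ (n + 1) ≤ a ^ (n + 1) := pow_le_pow_left₀ hb hab _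
    have h2 : a ^ (n + 1 + 1) = a * a ^ (n + 1) := by ring
    have h3 : a * a ^ (n + 1) ≤ a * (b ^ (n + 1) + (n + 1) * (a - b) * a ^ n) :=
      mul_le_mul_of_nonneg_left ih ha
    have h4 : 0 ≤ (a - b) * (a ^ (n + 1) - b ^ (n + 1)) :=
      mul_nonneg (by linarith) (by linarith)
    push_cast
    have h5 : a * (b ^ (n + 1) + (n + 1) * (a - b) * a ^ n) =
        b ^ (n + 1 + 1) + (a - b) * b ^ (n + 1) + (n + 1) * (a - b) * a ^ (n + 1) := by ring
    nlinarith [h4]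

theorem card_sphere {R : ℕ} (hR : 1 ≤ R) (hd : 1 ≤ d) {U : Finset (Vt d)}
    (hU : ∀ u ∈ U, nm u = R) :
    (U.card : ℝ) ≤ (2 * d * 3 ^ (d - 1)) * (R : ℝ) ^ (d - 1) := by
  classical
  have h1 : U ∪ box d (R - 1) ⊆ box d R := by
    intro v hv
    rw [Finset.mem_union, mem_box] at hv
    rw [mem_box]
    rcases hv with hv | hv
    · exact (hU v hv).le
    · omega
  have h2 : Disjoint U (box d (R - 1)) := by
    rw [Finset.disjoint_left]
    intro v hv hv2
    rw [mem_box, hU v hv] at hv2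
    omega
  have h3 := Finset.card_le_card h1
  rw [Finset.card_union_of_disjoint h2, card_box, card_box] at h3
  have hR' : (1 : ℝ) ≤ R := by exact_mod_cast hR
  obtain ⟨n, rfl⟩ : ∃ n, d = n + 1 := ⟨d - 1, by omega⟩
  have h4 := pow_diff (2 * R + 1) (2 * (R - 1 : ℕ) + 1) (by positivity)
    (by push_cast [Nat.cast_sub hR]; linarith) n
  have h5 : (U.card : ℝ) + (2 * ((R - 1 : ℕ) : ℝ) + 1) ^ (n + 1) ≤ (2 * (R : ℝ) + 1) ^ (n + 1) := by
    exact_mod_cast h3
  have h6 : (2 * (R : ℝ) + 1) - (2 * ((R - 1 : ℕ) : ℝ) + 1) = 2 := by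
    push_cast [Nat.cast_sub hR]
    ring
  rw [h6] at h4
  have h7 : (2 * (R : ℝ) + 1) ^ n ≤ (3 * R) ^ n := pow_le_pow_left₀ (by positivity) (by linarith) _
  rw [mul_pow] at h7
  have h8 : (n + 1 : ℝ) * 2 * (2 * (R : ℝ) + 1) ^ n ≤ (n + 1 : ℝ) * 2 * (3 ^ n * (R : ℝ) ^ n) :=
    mul_le_mul_of_nonneg_left h7 (by positivity)
  have h9 : n + 1 - 1 = n := by omega
  rw [h9]
  push_cast
  linarith

/-- the exponent -/
theorem exponent_le {A B a : ℝ} (hA : 0 ≤ A) (hB : 0 ≤ B) (hd : 2 ≤ d) {R : ℕ} (hR : 1 ≤ R)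
    (hRa : A + B + 1 ≤ a * R) :
    A * (R : ℝ) ^ (d - 1) + B * R - a * (R : ℝ) ^ d ≤ -(R : ℝ) := by
  have hR' : (1 : ℝ) ≤ R := by exact_mod_cast hR
  have h1 : (R : ℝ) ≤ (R : ℝ) ^ (d - 1) := by
    calc (R : ℝ) = (R : ℝ) ^ 1 := (pow_one _).symm
      _ ≤ (R : ℝ) ^ (d - 1) := pow_le_pow_right₀ hR' (by omega)
  have h2 : (R : ℝ) ^ d = R * (R : ℝ) ^ (d - 1) := by
    rw [← pow_succ']
    congr 1
    omega
  rw [h2]
  have h3 : 0 ≤ (R : ℝ) ^ (d - 1) := by positivity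
  have h4 : (A + B + 1) * (R : ℝ) ^ (d - 1) ≤ (a * R) * (R : ℝ) ^ (d - 1) :=
    mul_le_mul_of_nonneg_right hRa h3
  have h5 : B * R ≤ B * (R : ℝ) ^ (d - 1) := mul_le_mul_of_nonneg_left h1 hB
  nlinarith

theorem exists_exp_small {c : ℝ} (hc : 0 < c) {ε : ℝ} (hε : 0 < ε) :
    ∃ n₀ : ℕ, ∀ n : ℕ, n₀ ≤ n → Real.exp (-c * n) ≤ ε := by
  obtain ⟨n₀, hn₀⟩ := exists_nat_gt (-(Real.log ε) / c)
  refine ⟨n₀, fun n hn => ?_⟩
  rw [div_lt_iff₀ hc] at hn₀
  rw [← Real.exp_log hε, Real.exp_le_exp]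
  have h1 : (n₀ : ℝ) ≤ n := by exact_mod_cast hn
  nlinarith

theorem fv2 (d : ℕ) (x : ℝ) (hd : 2 ≤ d) (hx0 : 0 < x) (hx1 : x < 1) (h0 : S_MARKL)
    (h1 : S_STAIL d x) (h2 : S_TJ d) (h3 : S_EVEN d) (hl : S_LOC d x) : S_FV2 d x := by
  classical
  intro m ε hε
  obtain ⟨cs, hcs, Cs, hCs, hst⟩ := h1
  obtain ⟨cl, hcl, hl⟩ := hl
  obtain ⟨Cl, hCl, hl⟩ := hl m
  -- the choice of `ρ`
  obtain ⟨n₀, hn₀⟩ := exists_exp_small hcl (ε := ε / (4 * (Cl + 1))) (by positivity)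
  set ρ := max m n₀ with hρ
  have hmρ : m ≤ ρ := le_max_left _ _
  have hβ : Cl * Real.exp (-cl * ρ) ≤ ε / 4 := by
    have h4 := hn₀ ρ (le_max_right _ _)
    have h5 : Cl * Real.exp (-cl * ρ) ≤ Cl * (ε / (4 * (Cl + 1))) :=
      mul_le_mul_of_nonneg_left h4 hCl
    refine h5.trans ?_
    rw [← mul_div_assoc, div_le_div_iff₀ (by positivity) (by norm_num)]
    nlinarith
  set Q : ℝ := (2 * (ρ : ℝ) + 1) ^ d with hQ
  have hQ1 : 1 ≤ Q := one_le_pow₀ (by linarith [(Nat.cast_nonneg ρ : (0 : ℝ) ≤ ρ)])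
  have hQ0 : 0 < Q := by linarith
  set θ : ℝ := ε / (16 * Q) with hθ
  have hθ0 : 0 < θ := by positivity
  set lx : ℝ := Real.log x⁻¹ with hlx
  have hlx0 : 0 < lx := Real.log_pos ((one_lt_inv₀ hx0).2 hx1)
  set sd : ℝ := 2 * d * 3 ^ (d - 1) with hsd
  have hsd0 : 0 < sd := by
    have : (0 : ℝ) < d := by exact_mod_cast (by omega : 0 < d)
    positivity
  set δ : ℝ := cs * θ / (2 * sd * lx) with hδ
  have hδ0 : 0 < δ := by positivity
  obtain ⟨K, hK0, hK⟩ := h2 δ hδ0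
  set A : ℝ := sd * Real.log Cs with hA
  have hA0 : 0 ≤ A := mul_nonneg hsd0.le (Real.log_nonneg hCs)
  set B : ℝ := K * lx with hB
  have hB0 : 0 ≤ B := mul_nonneg hK0 hlx0.le
  set a : ℝ := cs * θ / 2 with ha
  have ha0 : 0 < a := by positivity
  obtain ⟨n₁, hn₁⟩ := exists_exp_small one_pos (ε := ε / 8) (by positivity)
  obtain ⟨n₂, hn₂⟩ := exists_nat_gt ((A + B + 1) / a)
  obtain ⟨n₃, hn₃⟩ := exists_nat_gt (16 * Q / ε)
  refine ⟨1 + 2 * ρ + n₁ + n₂ + n₃, ?_⟩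
  intro R R' U f hR hR' hU hZ hf1 hf
  have hR1 : 1 ≤ R := by omega
  have hRr : (1 : ℝ) ≤ R := by exact_mod_cast hR1
  set Lc : ℕ := ⌈θ * (R : ℝ) ^ d⌉₊ with hLc
  have hLc1 : θ * (R : ℝ) ^ d ≤ Lc := Nat.le_ceil _
  have hLc2 : (Lc : ℝ) < θ * (R : ℝ) ^ d + 1 := Nat.ceil_lt_add_one (by positivity)
  have hRd : (R : ℝ) ≤ (R : ℝ) ^ d := by
    calc (R : ℝ) = (R : ℝ) ^ 1 := (pow_one _).symm
      _ ≤ (R : ℝ) ^ d := pow_le_pow_right₀ hRr (by omega)
  -- cheap join
  obtain ⟨η₀, hη₀, hbd, hcard⟩ := hK R U (fun u hu => mem_box.2 (hU u hu).le) (h3 x _ U hZ)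
  have hUc := card_sphere hR1 (by omega : 1 ≤ d) hU
  rw [← hsd] at hUc
  have hZpos : 0 < ZZ d x (EB d R) (ind U) :=
    lt_of_le_of_ne ((lat d).Z_nonneg _ fun _ _ => hx0.le) (Ne.symm hZ)
  have htail0 := hst (EB d R) η₀ U Lc hη₀ hbd
  have htail : Cs ^ U.card * Real.exp (-cs * Lc) * (x⁻¹) ^ η₀.card ≤ ε / 8 := by
    have e1 : Cs ^ U.card = Real.exp (U.card * Real.log Cs) := by
      rw [Real.exp_nat_mul, Real.exp_log (by linarith)]
    have e2 : (x⁻¹) ^ η₀.card = Real.exp (η₀.card * lx) := by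
      rw [Real.exp_nat_mul, hlx, Real.exp_log (inv_pos.2 hx0)]
    rw [e1, e2, ← Real.exp_add, ← Real.exp_add]
    refine le_trans ?_ (hn₁ R (by omega))
    rw [Real.exp_le_exp]
    have e3 : (U.card : ℝ) * Real.log Cs ≤ A * (R : ℝ) ^ (d - 1) := by
      have := mul_le_mul_of_nonneg_right hUc (Real.log_nonneg hCs)
      rw [hA]
      linarith
    have e4 : (η₀.card : ℝ) * lx ≤ a * (R : ℝ) ^ d + B * R := by
      have h5 : (η₀.card : ℝ) ≤ δ * (sd * (R : ℝ) ^ (d - 1)) * R + K * R := by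
        refine hcard.trans ?_
        have h6 : δ * U.card ≤ δ * (sd * (R : ℝ) ^ (d - 1)) :=
          mul_le_mul_of_nonneg_left hUc hδ0.le
        have h7 : δ * U.card * R ≤ δ * (sd * (R : ℝ) ^ (d - 1)) * R :=
          mul_le_mul_of_nonneg_right h6 (by positivity)
        linarith
      have h6 := mul_le_mul_of_nonneg_right h5 hlx0.le
      have h7 : (δ * (sd * (R : ℝ) ^ (d - 1)) * R + K * R) * lx = a * (R : ℝ) ^ d + B * R := by
        have h8 : (R : ℝ) ^ d = (R : ℝ) ^ (d - 1) * R := by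
          rw [← pow_succ]
          congr 1
          omega
        rw [h8, hδ, ha, hB]
        field_simp
      rw [h7] at h6
      exact h6
    have e5 : cs * (θ * (R : ℝ) ^ d) ≤ cs * Lc := mul_le_mul_of_nonneg_left hLc1 hcs.le
    have e6 : cs * (θ * (R : ℝ) ^ d) = 2 * (a * (R : ℝ) ^ d) := by rw [ha]; ring
    have e7 := exponent_le (d := d) hA0 hB0 hd (a := a) (R := R) hR1 (by
      rw [div_lt_iff₀ ha0] at hn₂
      have h5 : (n₂ : ℝ) ≤ R := by exact_mod_cast (by omega : n₂ ≤ R)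
      nlinarith)
    linarith
  have htail' : (lat d).PS (fun _ => x) (EB d R) (ind U)
        (fun ω _ => if Lc ≤ ((lat d).clF ω U).card then 1 else 0) ≤
          ε / 8 * ZZ d x (EB d R) (ind U) :=
    htail0.trans (mul_le_mul_of_nonneg_right htail hZpos.le)
  -- apply the main estimate
  have he₀ : |EE d x (EB d R') 0 f| ≤ 1 := by
    have hZ' : 0 < (lat d).Z (fun _ => x) (EB d R') 0 :=
      lt_of_lt_of_le one_pos ((lat d).one_le_Z_zero fun _ _ => hx0.le)
    unfold EE MG.ex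
    rw [abs_div, abs_of_pos hZ', div_le_iff₀ hZ']
    exact abs_L_le (lat d) (fun _ _ => hx0.le) fun η _ => hf1 η
  have hmain := main (d := d) hx0 hx1 h0 (m := m) (ρ := ρ) (R := R) (Lc := Lc) (U := U) (f := f)
    (e₀ := EE d x (EB d R') 0 f) (β := Cl * Real.exp (-cl * ρ)) (τ := ε / 8) hmρ (by omega)
    hf1 hf he₀ (by positivity) ?_ hZ htail'
  · refine hmain.trans ?_
    have hN : (R : ℝ) ^ d ≤ ((box d (R / 2)).card : ℝ) := by
      rw [card_box]
      have h5 : R ≤ 2 * (R / 2) + 1 := by omega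
      exact_mod_cast Nat.pow_le_pow_left h5 d
    have hNpos : 0 < ((box d (R / 2)).card : ℝ) := lt_of_lt_of_le (by positivity) hN
    have h5 : 2 * ((Lc : ℝ) * (2 * (ρ : ℝ) + 1) ^ d) / ((box d (R / 2)).card : ℝ) ≤ ε / 4 := by
      rw [← hQ, div_le_iff₀ hNpos]
      have h6 : ε / 4 * (R : ℝ) ^ d ≤ ε / 4 * ((box d (R / 2)).card : ℝ) :=
        mul_le_mul_of_nonneg_left hN (by positivity)
      refine le_trans ?_ h6
      have h7 : (Lc : ℝ) * Q ≤ (θ * (R : ℝ) ^ d + 1) * Q :=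
        mul_le_mul_of_nonneg_right hLc2.le hQ0.le
      have h8 : (θ * (R : ℝ) ^ d + 1) * Q = ε / 16 * (R : ℝ) ^ d + Q := by
        rw [hθ]
        field_simp
      have h9 : Q ≤ ε / 16 * (R : ℝ) ^ d := by
        rw [div_lt_iff₀ hε] at hn₃
        have h10 : (n₃ : ℝ) ≤ (R : ℝ) ^ d := by
          have : (n₃ : ℝ) ≤ R := by exact_mod_cast (by omega : n₃ ≤ R)
          linarith
        have h11 : (n₃ : ℝ) * ε ≤ (R : ℝ) ^ d * ε := mul_le_mul_of_nonneg_right h10 hε.le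
        linarith
      linarith
    linarith
  · intro D₁ hD₁
    refine hl D₁ (EB d R') ρ f hf1 hf fun e he => ?_
    exact ⟨fun _ => EB_mono (by omega) he, fun _ => hD₁ e he⟩

end Pool.Agent.TH883.J490

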