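import Pool.Agent.TH981.LO.Bas

set_option autoImplicit false

open Pool.Agent.TH981.LO
open scoped BigOperators symmDiff MeasureTheory ENNReal

namespace Pool.Agent.TH883.J493

open MeasureTheory

variable {d : ℕ}

/-- restriction to the edges outside `S` -/
def prj (S : Finset (Ed d)) (η : Om d) (e : {e : Ed d // e ∉ S}) : Bool := η e.1

/-- gluing -/
def glu (S ξ : Finset (Ed d)) (ζ : {e : Ed d // e ∉ S} → Bool) : Om d :=
  fun e => if h : e ∈ S then decide (e ∈ ξ) else ζ ⟨e, h⟩

/-- replace `η` on `S` by `ξ` -/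
def sp (S ξ : Finset (Ed d)) (η : Om d) : Om d := glu S ξ (prj S η)

theorem sp_apply_mem {S ξ : Finset (Ed d)} {η : Om d} {e : Ed d} (h : e ∈ S) :
    sp S ξ η e = decide (e ∈ ξ) := by
  unfold sp glu
  rw [dif_pos h]

theorem sp_apply_not_mem {S ξ : Finset (Ed d)} {η : Om d} {e : Ed d} (h : e ∉ S) :
    sp S ξ η e = η e := by
  unfold sp glu prj
  rw [dif_neg h]

theorem measurable_prj (S : Finset (Ed d)) : Measurable (prj S) := by
  refine measurable_pi_lambda _ fun e => ?_
  exact measurable_pi_apply e.1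

theorem measurable_glu (S ξ : Finset (Ed d)) : Measurable (glu S ξ) := by
  refine measurable_pi_lambda _ fun e => ?_
  unfold glu
  by_cases h : e ∈ S
  · simp only [dif_pos h]
    exact measurable_const
  · simp only [dif_neg h]
    exact measurable_pi_apply _

theorem measurable_sp (S ξ : Finset (Ed d)) : Measurable (sp S ξ) :=
  (measurable_glu S ξ).comp (measurable_prj S)

theorem outS_iff {S : Finset (Ed d)} {F : Set (Om d)} :
    MeasurableSet[outS S] F ↔ ∃ F' : Set ({e : Ed d // e ∉ S} → Bool), MeasurableSet F' ∧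
      prj S ⁻¹' F' = F := by
  rfl

theorem outS_preimage_sp (S ξ : Finset (Ed d)) {A : Set (Om d)} (hA : MeasurableSet A) :
    MeasurableSet[outS S] (sp S ξ ⁻¹' A) :=
  outS_iff.2 ⟨glu S ξ ⁻¹' A, measurable_glu S ξ hA, rfl⟩

theorem preimage_sp_of_outS {S : Finset (Ed d)} (ξ : Finset (Ed d)) {F : Set (Om d)}
    (hF : MeasurableSet[outS S] F) : sp S ξ ⁻¹' F = F := by
  obtain ⟨F', _, rfl⟩ := outS_iff.1 hF
  ext η
  simp only [Set.mem_preimage]
  have : prj S (sp S ξ η) = prj S η := by
    funext e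
    exact sp_apply_not_mem e.2
  rw [this]

theorem measurableSet_of_outS {S : Finset (Ed d)} {F : Set (Om d)}
    (hF : MeasurableSet[outS S] F) : MeasurableSet F := by
  obtain ⟨F', hF', rfl⟩ := outS_iff.1 hF
  exact measurable_prj S hF'

theorem restr_subset (S : Finset (Ed d)) (η : Om d) : restr S η ⊆ S := Finset.filter_subset _ _

theorem restr_sp {S ξ : Finset (Ed d)} (h : ξ ⊆ S) (η : Om d) : restr S (sp S ξ η) = ξ := by
  ext e
  unfold restr
  rw [Finset.mem_filter]
  constructor
  · rintro ⟨h1, h2⟩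
    rw [sp_apply_mem h1] at h2
    exact of_decide_eq_true h2
  · intro h1
    refine ⟨h h1, ?_⟩
    rw [sp_apply_mem (h h1)]
    exact decide_eq_true h1

theorem sp_restr {S : Finset (Ed d)} (η : Om d) : sp S (restr S η) η = η := by
  funext e
  by_cases h : e ∈ S
  · rw [sp_apply_mem h]
    unfold restr
    simp [h]
  · exact sp_apply_not_mem h

theorem measurableSet_restr (S ξ : Finset (Ed d)) : MeasurableSet {η : Om d | restr S η = ξ} := by
  by_cases h : ξ ⊆ S
  · have : {η : Om d | restr S η = ξ} = ⋂ e ∈ S, {η : Om d | η e = decide (e ∈ ξ)} := by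
      ext η
      simp only [Set.mem_ofPred_eq, Set.mem_iInter]
      constructor
      · rintro rfl e he
        simp [restr, he]
      · intro hh
        ext e
        unfold restr
        rw [Finset.mem_filter]
        constructor
        · rintro ⟨h1, h2⟩
          rw [hh e h1] at h2
          exact of_decide_eq_true h2
        · intro h1
          refine ⟨h h1, ?_⟩
          rw [hh e (h h1)]
          exact decide_eq_true h1
    rw [this]
    refine Finset.measurableSet_biInter _ fun e _ => ?_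
    exact measurable_pi_apply e (measurableSet_singleton _)
  · have : {η : Om d | restr S η = ξ} = ∅ := by
      ext η
      simp only [Set.mem_ofPred_eq, Set.mem_empty_iff_false, iff_false]
      rintro rfl
      exact h (restr_subset S η)
    rw [this]
    exact MeasurableSet.empty

theorem measurable_outN (S : Finset (Ed d)) (v : Vt d) :
    Measurable (fun η : Om d => ((TE {v}).filter (fun e => e ∉ S ∧ η e = true)).card) := by
  have : (fun η : Om d => ((TE {v}).filter (fun e => e ∉ S ∧ η e = true)).card) =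
      fun η : Om d => ∑ e ∈ TE {v}, if (e ∉ S ∧ η e = true) then 1 else 0 := by
    funext η
    rw [Finset.card_filter]
  rw [this]
  refine Finset.measurable_sum _ fun e _ => ?_
  refine Measurable.ite ?_ measurable_const measurable_const
  by_cases h : e ∈ S
  · simp [h]
  · simp only [h, not_false_eq_true, true_and]
    exact measurableSet_eq_fun (measurable_pi_apply e) measurable_const

theorem measurableSet_outPar (S : Finset (Ed d)) (v : Vt d) (c : ZMod 2) :
    MeasurableSet {η : Om d | c = outPar S η v} := by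
  have : {η : Om d | c = outPar S η v} =
      (fun η : Om d => ((TE {v}).filter (fun e => e ∉ S ∧ η e = true)).card) ⁻¹'
        {n : ℕ | c = (n : ZMod 2)} := rfl
  rw [this]
  exact measurable_outN S v (Set.to_countable _).measurableSet

theorem measurable_loopW (x : ℝ) (S : Finset (Ed d)) (VG : Finset (Vt d)) (ξ : Finset (Ed d)) :
    Measurable (fun η : Om d => loopW x VG (outPar S η) ξ) := by
  unfold loopW
  refine Measurable.ite ?_ measurable_const measurable_const
  have : {η : Om d | ∀ v ∈ VG, (lat d).bd ξ v = outPar S η v} =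
      ⋂ v ∈ VG, {η : Om d | (lat d).bd ξ v = outPar S η v} := by
    ext η
    simp
  rw [this]
  exact Finset.measurableSet_biInter _ fun v _ => measurableSet_outPar S v _

theorem measurable_ell (x : ℝ) (S : Finset (Ed d)) (VG : Finset (Vt d)) (ξ : Finset (Ed d)) :
    Measurable (fun η : Om d => ell x S VG (outPar S η) ξ) := by
  unfold ell
  exact (measurable_loopW x S VG ξ).div
    (Finset.measurable_sum _ fun ξ' _ => measurable_loopW x S VG ξ')

theorem loopW_nonneg {x : ℝ} (hx : 0 < x) (VG : Finset (Vt d)) (b : Vt d → ZMod 2)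
    (ξ : Finset (Ed d)) : 0 ≤ loopW x VG b ξ := by
  unfold loopW
  split_ifs
  · positivity
  · exact le_rfl

theorem ell_nonneg {x : ℝ} (hx : 0 < x) (S : Finset (Ed d)) (VG : Finset (Vt d))
    (b : Vt d → ZMod 2) (ξ : Finset (Ed d)) : 0 ≤ ell x S VG b ξ := by
  unfold ell
  exact div_nonneg (loopW_nonneg hx VG b ξ) (Finset.sum_nonneg fun ξ' _ => loopW_nonneg hx VG b ξ')

theorem sum_ell_le_one {x : ℝ} (hx : 0 < x) (S : Finset (Ed d)) (VG : Finset (Vt d))
    (b : Vt d → ZMod 2) : ∑ ξ ∈ S.powerset, ell x S VG b ξ ≤ 1 := by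
  unfold ell
  rw [← Finset.sum_div]
  exact div_self_le_one _

/-- the density -/
noncomputable def gd (x : ℝ) (S : Finset (Ed d)) (VG : Finset (Vt d)) (ξ : Finset (Ed d))
    (η : Om d) : ℝ≥0∞ := ENNReal.ofReal (ell x S VG (outPar S η) ξ)

theorem measurable_gd (x : ℝ) (S : Finset (Ed d)) (VG : Finset (Vt d)) (ξ : Finset (Ed d)) :
    Measurable (gd x S VG ξ) := (measurable_ell x S VG ξ).ennreal_ofReal

theorem sum_gd_le_one {x : ℝ} (hx : 0 < x) (S : Finset (Ed d)) (VG : Finset (Vt d)) (η : Om d) :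
    ∑ ξ ∈ S.powerset, gd x S VG ξ η ≤ 1 := by
  unfold gd
  rw [← ENNReal.ofReal_sum_of_nonneg fun ξ _ => ell_nonneg hx S VG _ ξ]
  rw [← ENNReal.ofReal_one]
  exact ENNReal.ofReal_le_ofReal (sum_ell_le_one hx S VG _)

/-- the resampling operator -/
noncomputable def TT (x : ℝ) (S : Finset (Ed d)) (VG : Finset (Vt d)) (ρ : Measure (Om d)) :
    Measure (Om d) :=
  ∑ ξ ∈ S.powerset, (ρ.withDensity (gd x S VG ξ)).map (sp S ξ)

theorem TT_apply (x : ℝ) (S : Finset (Ed d)) (VG : Finset (Vt d)) (ρ : Measure (Om d))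
    {A : Set (Om d)} (hA : MeasurableSet A) :
    TT x S VG ρ A = ∑ ξ ∈ S.powerset, ∫⁻ η in sp S ξ ⁻¹' A, gd x S VG ξ η ∂ρ := by
  unfold TT
  rw [Measure.finsetSum_apply]
  refine Finset.sum_congr rfl fun ξ _ => ?_
  rw [Measure.map_apply (measurable_sp S ξ) hA,
    withDensity_apply _ (measurable_sp S ξ hA)]

theorem TT_mono (x : ℝ) (S : Finset (Ed d)) (VG : Finset (Vt d)) {ρ ρ' : Measure (Om d)}
    (h : ρ ≤ ρ') : TT x S VG ρ ≤ TT x S VG ρ' := by
  refine Measure.le_iff.2 fun A hA => ?_
  rw [TT_apply x S VG ρ hA, TT_apply x S VG ρ' hA]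
  refine Finset.sum_le_sum fun ξ _ => ?_
  exact lintegral_mono' (Measure.restrict_mono le_rfl h) le_rfl

theorem TT_add (x : ℝ) (S : Finset (Ed d)) (VG : Finset (Vt d)) (ρ ρ' : Measure (Om d)) :
    TT x S VG (ρ + ρ') = TT x S VG ρ + TT x S VG ρ' := by
  ext A hA
  rw [Measure.add_apply, TT_apply x S VG ρ hA, TT_apply x S VG ρ' hA, TT_apply x S VG _ hA,
    ← Finset.sum_add_distrib]
  refine Finset.sum_congr rfl fun ξ _ => ?_
  rw [Measure.restrict_add, lintegral_add_measure]

theorem TT_univ_le {x : ℝ} (hx : 0 < x) (S : Finset (Ed d)) (VG : Finset (Vt d))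
    (ρ : Measure (Om d)) : TT x S VG ρ Set.univ ≤ ρ Set.univ := by
  rw [TT_apply x S VG ρ MeasurableSet.univ]
  simp only [Set.preimage_univ, Measure.restrict_univ]
  rw [← lintegral_finsetSum _ fun ξ _ => measurable_gd x S VG ξ]
  calc ∫⁻ η, ∑ ξ ∈ S.powerset, gd x S VG ξ η ∂ρ ≤ ∫⁻ _, 1 ∂ρ :=
        lintegral_mono fun η => sum_gd_le_one hx S VG η
    _ = ρ Set.univ := by simp

/-- the DLR equation for `(S, VG)` -/
def Dlr (x : ℝ) (S : Finset (Ed d)) (VG : Finset (Vt d)) (μ : Measure (Om d)) : Prop :=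
  ∀ ξ ∈ S.powerset, ∀ F : Set (Om d), MeasurableSet[outS S] F →
      μ ({η | restr S η = ξ} ∩ F) =
        ∫⁻ η in F, ENNReal.ofReal (ell x S VG (outPar S η) ξ) ∂μ

theorem dlr_iff (x : ℝ) (S : Finset (Ed d)) (VG : Finset (Vt d)) (μ : Measure (Om d)) :
    Dlr x S VG μ ↔ TT x S VG μ = μ := by
  constructor
  · intro h
    ext A hA
    rw [TT_apply x S VG μ hA]
    have e1 : ∀ ξ ∈ S.powerset, ∫⁻ η in sp S ξ ⁻¹' A, gd x S VG ξ η ∂μ =
        μ ({η | restr S η = ξ} ∩ A) := by
      intro ξ hξ
      have h1 := h ξ hξ (sp S ξ ⁻¹' A) (outS_preimage_sp S ξ hA)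
      unfold gd
      rw [← h1]
      congr 1
      ext η
      simp only [Set.mem_inter_iff, Set.mem_ofPred_eq, Set.mem_preimage]
      constructor
      · rintro ⟨rfl, h2⟩
        rw [sp_restr] at h2
        exact ⟨rfl, h2⟩
      · rintro ⟨rfl, h2⟩
        rw [sp_restr]
        exact ⟨rfl, h2⟩
    rw [Finset.sum_congr rfl e1]
    have e2 : A = ⋃ ξ ∈ S.powerset, ({η | restr S η = ξ} ∩ A) := by
      ext η
      simp only [Set.mem_iUnion, Set.mem_inter_iff, Set.mem_ofPred_eq, exists_prop]
      constructor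
      · intro h2
        exact ⟨restr S η, Finset.mem_powerset.2 (restr_subset S η), rfl, h2⟩
      · rintro ⟨_, _, _, h2⟩
        exact h2
    conv_rhs => rw [e2]
    rw [measure_biUnion_finset]
    · intro ξ _ ξ' _ hne
      refine Set.disjoint_left.2 ?_
      rintro η ⟨h1, _⟩ ⟨h2, _⟩
      exact hne (h1.symm.trans h2)
    · intro ξ _
      exact (measurableSet_restr S ξ).inter hA
  · intro h ξ hξ F hF
    have hFm := measurableSet_of_outS hF
    conv_lhs => rw [← h]
    rw [TT_apply x S VG μ ((measurableSet_restr S ξ).inter hFm)]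
    rw [Finset.sum_eq_single_of_mem ξ hξ]
    · have e : sp S ξ ⁻¹' ({η | restr S η = ξ} ∩ F) = F := by
        rw [Set.preimage_inter, preimage_sp_of_outS ξ hF]
        have : sp S ξ ⁻¹' {η | restr S η = ξ} = Set.univ := by
          ext η
          simp only [Set.mem_preimage, Set.mem_ofPred_eq, Set.mem_univ, iff_true]
          exact restr_sp (Finset.mem_powerset.1 hξ) η
        rw [this, Set.univ_inter]
      rw [e]
      rfl
    · intro ξ' hξ' hne
      have e : sp S ξ' ⁻¹' ({η | restr S η = ξ} ∩ F) = ∅ := by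
        ext η
        simp only [Set.mem_preimage, Set.mem_inter_iff, Set.mem_ofPred_eq,
          Set.mem_empty_iff_false, iff_false]
        rintro ⟨h1, _⟩
        rw [restr_sp (Finset.mem_powerset.1 hξ') η] at h1
        exact hne h1
      rw [e]
      simp

theorem subg (d : ℕ) (x : ℝ) (hx0 : 0 < x) : S_SUBG d x := by
  intro μ ν _ _ hμ hν S VG hSV
  have hμ' : TT x S VG μ = μ := (dlr_iff x S VG μ).1 (hμ S VG hSV)
  have hν' : TT x S VG ν = ν := (dlr_iff x S VG ν).1 (hν S VG hSV)
  refine (dlr_iff x S VG (μ - ν)).2 ?_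
  have h1 : μ ≤ (μ - ν) + ν := Measure.sub_le_iff_le_add.1 le_rfl
  have h2 : μ - ν ≤ TT x S VG (μ - ν) := by
    refine Measure.sub_le_iff_le_add.2 ?_
    have h3 := TT_mono x S VG h1
    rw [TT_add, hμ', hν'] at h3
    exact h3
  symm
  exact Measure.eq_of_le_of_measure_univ_eq h2
    (le_antisymm (h2 Set.univ) (TT_univ_le hx0 S VG _))

end Pool.Agent.TH883.J493

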