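import Pool.Agent.TH883.J493

set_option autoImplicit false

open Pool.Agent.TH981.LO
open scoped BigOperators symmDiff MeasureTheory ENNReal

namespace Pool.Agent.TH883.J494

open MeasureTheory Pool.Agent.TH883.J493

variable {d : ℕ}

/-- cylinder event -/
def cyl (m : ℕ) (P : Finset (Ed d) → Prop) : Set (Om d) := {η | P (restr (EB d m) η)}

theorem measurableSet_cyl (m : ℕ) (P : Finset (Ed d) → Prop) : MeasurableSet (cyl (d := d) m P) := by
  classical
  have : cyl (d := d) m P = ⋃ ξ ∈ (EB d m).powerset.filter P, {η : Om d | restr (EB d m) η = ξ} := by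
    ext η
    simp only [cyl, Set.mem_ofPred_eq, Set.mem_iUnion, Finset.mem_filter, Finset.mem_powerset,
      exists_prop]
    constructor
    · intro h
      exact ⟨_, ⟨restr_subset _ _, h⟩, rfl⟩
    · rintro ⟨ξ, ⟨_, h2⟩, rfl⟩
      exact h2
  rw [this]
  exact Finset.measurableSet_biUnion _ fun ξ _ => measurableSet_restr _ ξ

theorem restr_inter {S S' : Finset (Ed d)} (h : S' ⊆ S) (η : Om d) :
    restr S η ∩ S' = restr S' η := by
  ext e
  unfold restr
  simp only [Finset.mem_inter, Finset.mem_filter]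
  constructor
  · rintro ⟨⟨_, h2⟩, h3⟩
    exact ⟨h3, h2⟩
  · rintro ⟨h1, h2⟩
    exact ⟨⟨h h1, h2⟩, h1⟩

theorem shF_restr_inter {m R : ℕ} (h : m + 1 ≤ R) (i : Fin d) (η : Om d) :
    shF (ev i) (restr (EB d R) η) ∩ EB d m = restr (EB d m) (shO (ev i) η) := by
  ext e
  unfold restr
  rw [Finset.mem_inter, Finset.mem_filter, mem_shF, Finset.mem_filter]
  constructor
  · rintro ⟨⟨_, h2⟩, h3⟩
    exact ⟨h3, h2⟩
  · rintro ⟨h1, h2⟩
    refine ⟨⟨?_, h2⟩, h1⟩
    rw [mem_EB] at h1 ⊢
    have e1 : nm (e.1 - ev i) ≤ nm e.1 + 1 := by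
      have := nm_sub_le e.1 (ev i)
      rwa [nm_ev] at this
    have e2 : nm (e.1 - ev i + ev e.2) ≤ nm (e.1 + ev e.2) + 1 := by
      have := nm_sub_le (e.1 + ev e.2) (ev i)
      rw [nm_ev] at this
      rwa [show e.1 - ev i + ev e.2 = e.1 + ev e.2 - ev i by abel]
    constructor
    · show nm (e.1 - ev i) ≤ R
      omega
    · show nm (e.1 - ev i + ev e.2) ≤ R
      omega

/-- the algebra of cylinder events -/
def CA (d : ℕ) : Set (Set (Om d)) := {A | ∃ (m : ℕ) (P : Finset (Ed d) → Prop), A = cyl m P}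

theorem isSetAlgebra_CA (d : ℕ) : IsSetAlgebra (CA d) where
  empty_mem := ⟨0, fun _ => False, by ext; simp [cyl]⟩
  compl_mem := by
    rintro _ ⟨m, P, rfl⟩
    exact ⟨m, fun ξ => ¬ P ξ, rfl⟩
  union_mem := by
    rintro _ _ ⟨m, P, rfl⟩ ⟨m', P', rfl⟩
    refine ⟨max m m', fun ξ => P (ξ ∩ EB d m) ∨ P' (ξ ∩ EB d m'), ?_⟩
    ext η
    simp only [cyl, Set.mem_union, Set.mem_ofPred_eq]
    rw [restr_inter (EB_mono (le_max_left m m')), restr_inter (EB_mono (le_max_right m m'))]

theorem exists_mem_EB (e : Ed d) : ∃ m, e ∈ EB d m :=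
  ⟨max (nm e.1) (nm (e.1 + ev e.2)), mem_EB.2 ⟨le_max_left _ _, le_max_right _ _⟩⟩

theorem generate_CA (d : ℕ) :
    (MeasurableSpace.pi : MeasurableSpace (Om d)) = MeasurableSpace.generateFrom (CA d) := by
  apply le_antisymm
  · refine iSup_le fun e => ?_
    rw [← measurable_iff_comap_le]
    obtain ⟨m, hm⟩ := exists_mem_EB e
    refine @measurable_to_bool _ (MeasurableSpace.generateFrom (CA d)) _ ?_
    apply MeasurableSpace.measurableSet_generateFrom
    refine ⟨m, fun ξ => e ∈ ξ, ?_⟩
    ext η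
    simp [cyl, restr, hm]
  · refine MeasurableSpace.generateFrom_le ?_
    rintro _ ⟨m, P, rfl⟩
    exact measurableSet_cyl m P

open Classical in
theorem cyl_le {x : ℝ} (h2 : S_TRANS d x) (C : ℝ) (m : ℕ) (ε : ℝ) (R₀ : ℕ) (i : Fin d)
    (P : Finset (Ed d) → Prop)
    (h1 : ∀ (R : ℕ) (U : Finset (Vt d)),
      R₀ ≤ R → (∀ u ∈ U, nm u = R) → ZZ d x (EB d R) (ind U) ≠ 0 →
      EE d x (EB d R) (ind U) (fun η => if P (shF (ev i) η) then 1 else 0) ≤
        C * EE d x (EB d R) (ind U) (fun η => if P η then 1 else 0) + ε)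
    (hP : LocS (EB d m) P) (μ : Measure (Om d)) [IsFiniteMeasure μ] (hμ : IsGibbs d x μ) :
    (μ.map (shO (ev i))).real (cyl m P) ≤ C * μ.real (cyl m P) + ε * μ.real Set.univ := by
  set R := max R₀ (m + 1) with hR
  have hR1 : R₀ ≤ R := le_max_left _ _
  have hR2 : m + 1 ≤ R := le_max_right _ _
  have key := h2 μ inferInstance hμ R
    (fun η => (if P (shF (ev i) η) then 1 else 0) + (-C) * (if P η then 1 else 0)) ε ?_
  · have hsh : Measurable (shO (ev i) : Om d → Om d) := by
      refine measurable_pi_lambda _ fun e => ?_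
      exact measurable_pi_apply _
    have e1 : ∀ η : Om d, (if P (shF (ev i) (restr (EB d R) η)) then (1 : ℝ) else 0) =
        (shO (ev i) ⁻¹' cyl m P).indicator 1 η := by
      intro η
      rw [Set.indicator_apply]
      have : P (shF (ev i) (restr (EB d R) η)) ↔ η ∈ shO (ev i) ⁻¹' cyl m P := by
        rw [hP, shF_restr_inter hR2]
        rfl
      simp only [this, Pi.one_apply]
    have e2 : ∀ η : Om d, (if P (restr (EB d R) η) then (1 : ℝ) else 0) =
        (cyl m P).indicator 1 η := by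
      intro η
      rw [Set.indicator_apply]
      have : P (restr (EB d R) η) ↔ η ∈ cyl m P := by
        rw [hP, restr_inter (EB_mono (by omega))]
        rfl
      simp only [this, Pi.one_apply]
    simp only [e1, e2] at key
    have hm1 : MeasurableSet (cyl (d := d) m P) := measurableSet_cyl m P
    have hm2 : MeasurableSet (shO (ev i) ⁻¹' cyl (d := d) m P) := hsh hm1
    rw [integral_add, integral_const_mul, integral_indicator_one hm1,
      integral_indicator_one hm2] at key
    · rw [map_measureReal_apply hsh hm1]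
      linarith
    · exact (integrable_const (1 : ℝ)).indicator hm2
    · exact ((integrable_const (1 : ℝ)).indicator hm1).const_mul _
  · intro U hU hZ
    have h3 := h1 R U hR1 hU hZ
    unfold EE MG.ex at h3 ⊢
    rw [MG.L_add, MG.L_smul, add_div, mul_div_assoc]
    linarith

theorem acg (d : ℕ) (x : ℝ) (hx0 : 0 < x) (h1 : S_FV1 d x) (h2 : S_TRANS d x) : S_ACG d x := by
  classical
  intro μ i _ hμ
  obtain ⟨C, hC, h1⟩ := h1
  have hsh : Measurable (shO (ev i) : Om d → Om d) := by
    refine measurable_pi_lambda _ fun e => ?_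
    exact measurable_pi_apply _
  have key : ∀ (m : ℕ) (P : Finset (Ed d) → Prop),
      (μ.map (shO (ev i))).real (cyl m P) ≤ C * μ.real (cyl m P) := by
    intro m P
    -- make `P` local
    have e0 : cyl (d := d) m P = cyl m (fun ξ => P (ξ ∩ EB d m)) := by
      ext η
      simp only [cyl, Set.mem_ofPred_eq]
      rw [restr_inter (Finset.Subset.refl _)]
    have hloc : LocS (EB d m) (fun ξ => P (ξ ∩ EB d m)) := by
      intro ξ
      show P (ξ ∩ EB d m) = P (ξ ∩ EB d m ∩ EB d m)
      rw [Finset.inter_assoc, Finset.inter_self]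
    rw [e0]
    refine le_of_forall_pos_le_add fun δ hδ => ?_
    have hpos : 0 < μ.real Set.univ + 1 := by
      have : 0 ≤ μ.real Set.univ := measureReal_nonneg
      linarith
    obtain ⟨R₀, hR₀⟩ := h1 m (δ / (μ.real Set.univ + 1)) (div_pos hδ hpos)
    have h3 := cyl_le h2 C m (δ / (μ.real Set.univ + 1)) R₀ i (fun ξ => P (ξ ∩ EB d m))
      (fun R U a b c => hR₀ R U i _ a b c hloc) hloc μ hμ
    refine h3.trans ?_
    have h4 : δ / (μ.real Set.univ + 1) * μ.real Set.univ ≤ δ := by
      rw [div_mul_eq_mul_div, div_le_iff₀ hpos]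
      nlinarith
    linarith
  set ν := μ.map (shO (ev i)) with hν
  have hνf : IsFiniteMeasure ν := by
    rw [hν]
    exact Measure.isFiniteMeasure_map μ _
  have hdense := Measure.MeasureDense.of_generateFrom_isSetAlgebra_finite (μ + ν)
    (isSetAlgebra_CA d) (generate_CA d)
  refine Measure.AbsolutelyContinuous.mk fun A hA h0 => ?_
  have h0' : μ.real A = 0 := by rw [measureReal_def, h0, ENNReal.toReal_zero]
  have hν0 : ν.real A ≤ 0 := by
    refine le_of_forall_pos_le_add fun δ hδ => ?_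
    have hC1 : 0 < C + 1 := by linarith
    obtain ⟨B, ⟨m, P, hB⟩, hAB⟩ := hdense.approx A hA (measure_ne_top _ _) (δ / (C + 1))
      (div_pos hδ hC1)
    have hBm : MeasurableSet B := by rw [hB]; exact measurableSet_cyl m P
    have h3 := key m P
    rw [← hB] at h3
    have hAB' : (μ + ν).real (A ∆ B) < δ / (C + 1) := by
      rw [measureReal_def]
      exact (ENNReal.lt_ofReal_iff_toReal_lt (measure_ne_top _ _)).1 hAB
    rw [measureReal_add_apply] at hAB'
    have h4 : μ.real B ≤ μ.real A + μ.real (A ∆ B) := by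
      refine (measureReal_mono ?_).trans (measureReal_union_le A (A ∆ B))
      intro η hη
      by_cases h : η ∈ A
      · exact Or.inl h
      · exact Or.inr (Or.inr ⟨hη, h⟩)
    have h5 : ν.real A ≤ ν.real B + ν.real (A ∆ B) := by
      refine (measureReal_mono ?_).trans (measureReal_union_le B (A ∆ B))
      intro η hη
      by_cases h : η ∈ B
      · exact Or.inl h
      · exact Or.inr (Or.inl ⟨hη, h⟩)
    have h6 : (0 : ℝ) ≤ μ.real (A ∆ B) := measureReal_nonneg
    have h7 : (0 : ℝ) ≤ ν.real (A ∆ B) := measureReal_nonneg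
    rw [h0', zero_add] at h4
    have h8 : C * μ.real B ≤ C * μ.real (A ∆ B) := mul_le_mul_of_nonneg_left h4 hC
    have h9 : (C + 1) * (μ.real (A ∆ B) + ν.real (A ∆ B)) < δ := by
      rwa [lt_div_iff₀ hC1, mul_comm] at hAB'
    nlinarith
  have h10 : ν.real A = 0 := le_antisymm hν0 measureReal_nonneg
  rw [measureReal_def, ENNReal.toReal_eq_zero_iff] at h10
  exact h10.resolve_right (measure_ne_top _ _)

end Pool.Agent.TH883.J494

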