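import Pool.Agent.TH981.LO.Bas

set_option autoImplicit false

open Pool.Agent.TH981.LO
open scoped BigOperators symmDiff MeasureTheory

namespace Pool.Agent.TH883.J495

open MeasureTheory

theorem null_iter {Ω : Type} [MeasurableSpace Ω] (τ : Ω → Ω) (𝓖 : Set (Measure Ω))
    (hτ : Measurable τ) (hmap : ∀ μ ∈ 𝓖, μ.map τ ∈ 𝓖) (hac : ∀ μ ∈ 𝓖, μ.map τ ≪ μ)
    (T : Set Ω) (hT : MeasurableSet T) :
    ∀ (k : ℕ) (ρ : Measure Ω), ρ ∈ 𝓖 → ρ T = 0 → ρ (τ^[k] ⁻¹' T) = 0 := by
  intro k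
  induction k with
  | zero => intro ρ _ h; simpa using h
  | succ k ih =>
    intro ρ hρ h
    have h1 := ih (ρ.map τ) (hmap ρ hρ) (hac ρ hρ h)
    rw [Measure.map_apply hτ ((hτ.iterate k) hT)] at h1
    rw [Function.iterate_succ, Set.preimage_comp]
    exact h1

theorem hahn : S_HAHN := by
  intro Ω _ τ 𝓖 hτ hfin hsub hmap hac μ hμ
  have hμf := hfin μ hμ
  have hμ1 := hmap μ hμ
  have hμ1f := hfin _ hμ1
  set μ1 := μ.map τ with hμ1def
  set ν := μ - μ1 with hν
  set ν' := μ1 - μ with hν'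
  have hνG : ν ∈ 𝓖 := hsub _ hμ _ hμ1
  have hν'G : ν' ∈ 𝓖 := hsub _ hμ1 _ hμ
  have hνf := hfin ν hνG
  have hν'f := hfin ν' hν'G
  obtain ⟨T, hT, hT1, hT2⟩ := Measure.mutually_singular_measure_sub (μ := μ) (ν := μ1)
  -- `ν T = 0`, `ν' Tᶜ = 0`
  have e1 : ∀ A : Set Ω, MeasurableSet A → μ.real A + ν'.real A = μ1.real A + ν.real A := by
    intro A hA
    have h := Measure.sub_toSignedMeasure_eq_toSignedMeasure_sub (μ := μ) (ν := μ1)
    have h2 := congrArg (fun s => s A) h
    simp only [VectorMeasure.sub_apply] at h2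
    rw [Measure.toSignedMeasure_apply_measurable hA, Measure.toSignedMeasure_apply_measurable hA,
      Measure.toSignedMeasure_apply_measurable hA, Measure.toSignedMeasure_apply_measurable hA] at h2
    linarith
  have n1 : ∀ k : ℕ, ν.real (τ^[k] ⁻¹' Tᶜ) = ν.real Set.univ := by
    intro k
    have h1 := null_iter τ 𝓖 hτ hmap hac T hT k ν hνG hT1
    have h2 : ν.real (τ^[k] ⁻¹' T) = 0 := by
      rw [measureReal_def, h1, ENNReal.toReal_zero]
    have h3 := measureReal_add_measureReal_compl (μ := ν) ((hτ.iterate k) hT)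
    rw [h2, zero_add] at h3
    rw [Set.preimage_compl]
    exact h3
  have n2 : ∀ k : ℕ, ν'.real (τ^[k] ⁻¹' Tᶜ) = 0 := by
    intro k
    have h1 := null_iter τ 𝓖 hτ hmap hac Tᶜ hT.compl k ν' hν'G hT2
    rw [measureReal_def, h1, ENNReal.toReal_zero]
  have a1 : ∀ k : ℕ, μ.real (τ^[k] ⁻¹' Tᶜ) = μ.real (τ^[k+1] ⁻¹' Tᶜ) + ν.real Set.univ := by
    intro k
    have h := e1 _ ((hτ.iterate k) hT.compl)
    rw [n1, n2, add_zero] at h
    rw [h]
    congr 1
    rw [hμ1def, map_measureReal_apply hτ ((hτ.iterate k) hT.compl), Function.iterate_succ,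
      Set.preimage_comp]
  have a2 : ∀ k : ℕ, μ.real (Tᶜ) = μ.real (τ^[k] ⁻¹' Tᶜ) + k * ν.real Set.univ := by
    intro k
    induction k with
    | zero => simp
    | succ k ih =>
      rw [ih, a1 k]
      push_cast
      ring
  have hν0 : ν.real Set.univ = 0 := by
    by_contra hne
    have hpos : 0 < ν.real Set.univ := lt_of_le_of_ne measureReal_nonneg (Ne.symm hne)
    obtain ⟨n, hn⟩ := exists_nat_gt (μ.real (Tᶜ) / ν.real Set.univ)
    rw [div_lt_iff₀ hpos] at hn
    have := a2 n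
    have h0 : 0 ≤ μ.real (τ^[n] ⁻¹' Tᶜ) := measureReal_nonneg
    linarith
  have hν'0 : ν'.real Set.univ = 0 := by
    have h := e1 Set.univ MeasurableSet.univ
    rw [hν0, hμ1def, map_measureReal_apply hτ MeasurableSet.univ, Set.preimage_univ] at h
    linarith
  ext A hA
  have h := e1 A hA
  have b1 : ν.real A = 0 := le_antisymm ((measureReal_mono (Set.subset_univ A)).trans hν0.le)
    measureReal_nonneg
  have b2 : ν'.real A = 0 := le_antisymm ((measureReal_mono (Set.subset_univ A)).trans hν'0.le)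
    measureReal_nonneg
  rw [b1, b2, add_zero, add_zero] at h
  rw [measureReal_def, measureReal_def] at h
  exact ((ENNReal.toReal_eq_toReal_iff' (measure_ne_top _ _) (measure_ne_top _ _)).1 h).symm

end Pool.Agent.TH883.J495

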