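import Mathlib
set_option autoImplicit false

namespace Pool.Agent.TH77.AN
open LieAlgebra LieModule
open scoped TensorProduct

/-- a nonzero submodule killed by `⁅L, A⁆` -/
private theorem j876_exists_killed {k L M : Type*} [Field k] [CharZero k] [IsAlgClosed k]
    [LieRing L] [LieAlgebra k L] [AddCommGroup M] [Module k M] [LieRingModule L M]
    [LieModule k L M] [FiniteDimensional k M] [Nontrivial M] (A : LieIdeal k L) [IsSolvable A] :
    ∃ N : LieSubmodule k L M, N ≠ ⊥ ∧ ∀ x : L, ∀ a ∈ A, ∀ m ∈ N, ⁅⁅x, a⁆, m⁆ = 0 := by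
  obtain ⟨χ, hχ⟩ : ∃ χ : Module.Dual k A, Nontrivial (weightSpace M χ) :=
    exists_nontrivial_weightSpace_of_isSolvable k A M
  let N : LieSubmodule k L M := weightSpaceOfIsLieTower k M χ
  have hN : ∀ m, m ∈ N ↔ ∀ a : A, ⁅a, m⁆ = χ a • m := by
    intro m
    have h1 : m ∈ N ↔ m ∈ weightSpace M χ := Iff.rfl
    rw [h1, mem_weightSpace]
  refine ⟨N, ?_, ?_⟩
  · intro h
    obtain ⟨⟨m, hm⟩, hm0⟩ := exists_ne (0 : weightSpace M χ)
    apply hm0
    apply Subtype.ext
    have h1 : m ∈ N := hm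
    rw [h, LieSubmodule.mem_bot] at h1
    exact h1
  · intro x a ha m hm
    have h1 : ⁅x, m⁆ ∈ N := N.lie_mem hm
    rw [hN] at hm h1
    have h2 := hm ⟨a, ha⟩
    have h3 := h1 ⟨a, ha⟩
    have h4 : ⁅a, m⁆ = χ ⟨a, ha⟩ • m := h2
    have h5 : ⁅a, ⁅x, m⁆⁆ = χ ⟨a, ha⟩ • ⁅x, m⁆ := h3
    rw [lie_lie, h4, h5, lie_smul, sub_self]

/-- `⁅L, A⁆` acts nilpotently -/
private theorem j876_nil {k L : Type*} [Field k] [CharZero k] [IsAlgClosed k]
    [LieRing L] [LieAlgebra k L] (A : LieIdeal k L) [IsSolvable A] (n : ℕ) :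
    ∀ (M : Type*) [AddCommGroup M] [Module k M] [LieRingModule L M]
    [LieModule k L M] [FiniteDimensional k M], Module.finrank k M ≤ n →
    ∀ z ∈ ⁅(⊤ : LieIdeal k L), A⁆, _root_.IsNilpotent (toEnd k L M z) := by
  induction n with
  | zero =>
    intro M _ _ _ _ _ h z _
    have h1 : Subsingleton M := Module.finrank_zero_iff.1 (Nat.le_zero.1 h)
    exact ⟨1, LinearMap.ext fun m => Subsingleton.elim _ _⟩
  | succ n ih =>
    intro M _ _ _ _ _ h z hz
    rcases subsingleton_or_nontrivial M with h1 | h1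
    · exact ⟨1, LinearMap.ext fun m => Subsingleton.elim _ _⟩
    · obtain ⟨N, hN0, hN⟩ := j876_exists_killed (M := M) A
      have hk : ∀ m ∈ N, ⁅z, m⁆ = 0 := by
        intro m hm
        have hz' : z ∈ (⁅(⊤ : LieIdeal k L), A⁆).toSubmodule := hz
        rw [LieSubmodule.lieIdeal_oper_eq_linear_span'] at hz'
        have hle : Submodule.span k {w | ∃ x ∈ (⊤ : LieIdeal k L), ∃ a ∈ A, ⁅x, a⁆ = w} ≤
            LinearMap.ker ((LinearMap.applyₗ (R := k) m).comp
              (toEnd k L M : L →ₗ[k] Module.End k M)) := by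
          rw [Submodule.span_le]
          rintro w ⟨x, -, a, ha, rfl⟩
          exact hN x a ha m hm
        exact hle hz'
      have hfr : Module.finrank k (M ⧸ N) ≤ n := by
        have h2 : Module.finrank k N ≠ 0 := by
          intro h3
          apply hN0
          have h4 := Submodule.finrank_eq_zero.1 h3
          exact (LieSubmodule.toSubmodule_eq_bot N).1 h4
        have h3 := Submodule.finrank_quotient_add_finrank N.toSubmodule
        have h4 : Module.finrank k (M ⧸ N) = Module.finrank k (M ⧸ N.toSubmodule) := rfl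
        have h5 : Module.finrank k N = Module.finrank k N.toSubmodule := rfl
        omega
      obtain ⟨j, hj⟩ := ih (M ⧸ N) hfr z hz
      refine ⟨j + 1, ?_⟩
      refine LinearMap.ext fun m => ?_
      have h2 : ∀ i : ℕ, (LieSubmodule.Quotient.mk ((toEnd k L M z ^ i) m) : M ⧸ N) =
          (toEnd k L (M ⧸ N) z ^ i) (LieSubmodule.Quotient.mk m) := by
        intro i
        induction i with
        | zero => rfl
        | succ i ih =>
          rw [pow_succ', pow_succ', Module.End.mul_apply, Module.End.mul_apply, ← ih]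
          rfl
      have h3 : (toEnd k L M z ^ j) m ∈ N := by
        rw [← LieSubmodule.Quotient.mk_eq_zero]
        refine (h2 j).trans ?_
        rw [hj]
        rfl
      rw [pow_succ', Module.End.mul_apply]
      exact hk _ h3

/-- real case -/
private theorem j876_nil_real {L M : Type*} [LieRing L] [LieAlgebra ℝ L] [FiniteDimensional ℝ L]
    [AddCommGroup M] [Module ℝ M] [FiniteDimensional ℝ M] [LieRingModule L M] [LieModule ℝ L M] :
    ∀ z ∈ ⁅(⊤ : LieIdeal ℝ L), radical ℝ L⁆, _root_.IsNilpotent (toEnd ℝ L M z) := by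
  intro z hz
  obtain ⟨m, hm⟩ := IsSolvable.solvable ℝ (radical ℝ L)
  rw [LieIdeal.derivedSeries_eq_bot_iff] at hm
  have hs : IsSolvable ((radical ℝ L).baseChange ℂ) := by
    refine IsSolvable.mk (R := ℂ) (k := m) ?_
    rw [LieIdeal.derivedSeries_eq_bot_iff, derivedSeriesOfIdeal_baseChange, hm,
      LieSubmodule.baseChange_bot]
  have hz' : (1 : ℂ) ⊗ₜ[ℝ] z ∈ ⁅(⊤ : LieIdeal ℂ (ℂ ⊗[ℝ] L)), (radical ℝ L).baseChange ℂ⁆ := by
    rw [← LieSubmodule.baseChange_top, ← LieSubmodule.lie_baseChange]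
    exact LieSubmodule.tmul_mem_baseChange_of_mem 1 hz
  have h1 := j876_nil ((radical ℝ L).baseChange ℂ) (Module.finrank ℂ (ℂ ⊗[ℝ] M)) (ℂ ⊗[ℝ] M) le_rfl
    _ hz'
  rw [toEnd_baseChange] at h1
  have hbc_inj : Function.Injective (Module.End.baseChangeHom ℝ ℂ M) :=
    LinearMap.baseChangeHom_injective ℝ M ℂ
  rw [← IsNilpotent.map_iff hbc_inj]
  exact h1

/-- JOB A. Flag on which `⁅L, rad L⁆` acts strictly. -/
theorem exists_flag {L M : Type*} [LieRing L] [LieAlgebra ℝ L] [FiniteDimensional ℝ L]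
    [AddCommGroup M] [Module ℝ M] [FiniteDimensional ℝ M] [LieRingModule L M] [LieModule ℝ L M] :
    ∃ V : ℕ → LieSubmodule ℝ L M, V 0 = ⊤ ∧ (∀ k, V (k + 1) ≤ V k) ∧ (∃ m, V m = ⊥) ∧
      ∀ k, ∀ x y : L, y ∈ radical ℝ L → ∀ v ∈ V k, ⁅⁅x, y⁆, v⁆ ∈ V (k + 1) := by
  set I : LieIdeal ℝ L := ⁅(⊤ : LieIdeal ℝ L), radical ℝ L⁆ with hI
  have hnil : LieModule.IsNilpotent I M := by
    rw [LieModule.isNilpotent_iff_forall' (R := ℝ)]
    intro z
    exact j876_nil_real (L := L) (M := M) (z : L) z.2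
  obtain ⟨m, hm⟩ := (LieModule.isNilpotent_iff ℝ I M).1 hnil
  refine ⟨fun k => I.lcs M k, rfl, ?_, ⟨m, ?_⟩, ?_⟩
  · intro k
    show I.lcs M (k + 1) ≤ I.lcs M k
    rw [LieIdeal.lcs_succ]
    exact LieSubmodule.lie_le_right _ _
  · have h1 := LieIdeal.coe_lcs_eq I M m
    rw [hm] at h1
    rw [← LieSubmodule.toSubmodule_eq_bot, h1]
    rfl
  · intro k x y hy v hv
    show _ ∈ I.lcs M (k + 1)
    rw [LieIdeal.lcs_succ]
    exact LieSubmodule.lie_mem_lie (LieSubmodule.lie_mem_lie (LieSubmodule.mem_top x) hy) hv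

end Pool.Agent.TH77.AN
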