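import Mathlib
set_option autoImplicit false
set_option linter.unusedSectionVars false

namespace Pool.Agent.TH77.AN
open Filter Topology Set

section inj
variable {E : Type*} [NormedAddCommGroup E] [NormedSpace ℝ E] [FiniteDimensional ℝ E]

private theorem j877_exp_sum {A : E →L[ℝ] E} {N : ℕ} (hA : A ^ N = 0) (t : ℝ) :
    NormedSpace.exp (t • A) = ∑ n ∈ Finset.range N, ((n.factorial : ℝ)⁻¹ * t ^ n) • A ^ n := by
  have h1 := NormedSpace.exp_eq_tsum (𝕂 := ℝ) (𝔸 := E →L[ℝ] E)
  rw [h1]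
  show ∑' n : ℕ, ((n.factorial : ℝ)⁻¹) • (t • A) ^ n = _
  rw [tsum_eq_sum (s := Finset.range N)]
  · refine Finset.sum_congr rfl fun n _ => ?_
    rw [smul_pow, smul_smul]
  · intro n hn
    rw [Finset.mem_range, not_lt] at hn
    rw [smul_pow, pow_eq_zero_of_le hn hA, smul_zero, smul_zero]

/-- JOB B1. -/
theorem exp_inj_nil {E : Type*} [NormedAddCommGroup E] [NormedSpace ℝ E] [FiniteDimensional ℝ E]
    {A B : E →L[ℝ] E} (hA : IsNilpotent A) (hB : IsNilpotent B)
    (h : NormedSpace.exp A = NormedSpace.exp B) : A = B := by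
  obtain ⟨a, ha⟩ := hA
  obtain ⟨b, hb⟩ := hB
  set N := max (max a b) 2 with hN
  have hAN : A ^ N = 0 := pow_eq_zero_of_le (by omega) ha
  have hBN : B ^ N = 0 := pow_eq_zero_of_le (by omega) hb
  rw [← sub_eq_zero]
  rw [← Module.forall_dual_apply_eq_zero_iff ℝ]
  intro f
  set p : Polynomial ℝ := ∑ n ∈ Finset.range N,
    Polynomial.monomial n ((n.factorial : ℝ)⁻¹ * f (A ^ n - B ^ n)) with hp
  have hev : ∀ t : ℕ, p.IsRoot (t : ℝ) := by
    intro t
    have h1 : NormedSpace.exp ((t : ℝ) • A) = NormedSpace.exp ((t : ℝ) • B) := by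
      letI : NormedAlgebra ℚ (E →L[ℝ] E) := NormedAlgebra.restrictScalars ℚ ℝ _
      rw [Nat.cast_smul_eq_nsmul, Nat.cast_smul_eq_nsmul, NormedSpace.exp_nsmul,
        NormedSpace.exp_nsmul, h]
    rw [j877_exp_sum hAN, j877_exp_sum hBN] at h1
    have h2 := congrArg f h1
    rw [map_sum, map_sum, ← sub_eq_zero, ← Finset.sum_sub_distrib] at h2
    rw [Polynomial.IsRoot, hp, Polynomial.eval_finsetSum, ← h2]
    refine Finset.sum_congr rfl fun n _ => ?_
    rw [Polynomial.eval_monomial, map_smul, map_smul, map_sub, smul_eq_mul, smul_eq_mul]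
    ring
  have hp0 : p = 0 := by
    refine Polynomial.eq_zero_of_infinite_isRoot p ?_
    refine Set.infinite_of_injective_forall_mem (f := fun t : ℕ => (t : ℝ)) Nat.cast_injective hev
  have hc : p.coeff 1 = f (A - B) := by
    rw [hp, Polynomial.finsetSum_coeff]
    rw [Finset.sum_eq_single 1]
    · rw [Polynomial.coeff_monomial, if_pos rfl, pow_one, pow_one, Nat.factorial_one, Nat.cast_one,
        inv_one, one_mul]
    · intro n _ hn
      rw [Polynomial.coeff_monomial, if_neg hn]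
    · intro h1
      rw [Finset.mem_range] at h1
      omega
  rw [← hc, hp0, Polynomial.coeff_zero]

end inj

section ulog
variable {E : Type*} [NormedAddCommGroup E] [NormedSpace ℝ E] [FiniteDimensional ℝ E]

/-- operators shifting the flag by `j` -/
private def j877_F (V : ℕ → Submodule ℝ E) (j : ℕ) : Submodule ℝ (E →L[ℝ] E) where
  carrier := {n | ∀ i, ∀ v ∈ V i, n v ∈ V (i + j)}
  add_mem' := by
    intro a b ha hb i v hv
    exact (V (i + j)).add_mem (ha i v hv) (hb i v hv)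
  zero_mem' := fun i v _ => (V (i + j)).zero_mem
  smul_mem' := by
    intro c a ha i v hv
    exact (V (i + j)).smul_mem c (ha i v hv)

private theorem j877_mem {V : ℕ → Submodule ℝ E} {j : ℕ} {n : E →L[ℝ] E} :
    n ∈ j877_F V j ↔ ∀ i, ∀ v ∈ V i, n v ∈ V (i + j) := Iff.rfl

private theorem j877_mul {V : ℕ → Submodule ℝ E} {i j l : ℕ} {a b : E →L[ℝ] E}
    (ha : a ∈ j877_F V i) (hb : b ∈ j877_F V j) (hl : j + i = l) : a * b ∈ j877_F V l := by
  intro n v hv
  have h1 := ha _ _ (hb n v hv)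
  rw [add_assoc, hl] at h1
  exact h1

private theorem j877_mono {V : ℕ → Submodule ℝ E} (hmono : ∀ k, V (k + 1) ≤ V k) {i j : ℕ}
    (hij : i ≤ j) : j877_F V j ≤ j877_F V i := by
  intro n hn l v hv
  exact antitone_nat_of_succ_le hmono (Nat.add_le_add_left hij l) (hn l v hv)

private theorem j877_pow {V : ℕ → Submodule ℝ E} {L : E →L[ℝ] E} (hL : L ∈ j877_F V 1) (n : ℕ) :
    L ^ n ∈ j877_F V n := by
  induction n with
  | zero =>
    rw [pow_zero]
    exact fun i v hv => hv
  | succ n ih =>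
    rw [pow_succ]
    exact j877_mul ih hL (by omega)

private theorem j877_pow_sub {V : ℕ → Submodule ℝ E} {j : ℕ} {L e : E →L[ℝ] E}
    (hL : L ∈ j877_F V 1) (hLe : L + e ∈ j877_F V 1) (he : e ∈ j877_F V j) (n : ℕ) :
    (L + e) ^ (n + 1) - L ^ (n + 1) ∈ j877_F V (j + n) := by
  induction n with
  | zero =>
    rw [zero_add, pow_one, pow_one, add_sub_cancel_left, add_zero]
    exact he
  | succ n ih =>
    have h1 : (L + e) ^ (n + 1 + 1) - L ^ (n + 1 + 1) =
        (L + e) * ((L + e) ^ (n + 1) - L ^ (n + 1)) + e * L ^ (n + 1) := by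
      rw [pow_succ' (L + e) (n + 1), pow_succ' L (n + 1)]
      noncomm_ring
    rw [h1]
    exact Submodule.add_mem _ (j877_mul hLe ih (by omega))
      (j877_mul he (j877_pow hL (n + 1)) (by omega))

private theorem j877_exp_sub {V : ℕ → Submodule ℝ E} (hmono : ∀ k, V (k + 1) ≤ V k) {j : ℕ}
    {L e : E →L[ℝ] E} (hL : L ∈ j877_F V 1) (hLe : L + e ∈ j877_F V 1) (he : e ∈ j877_F V j) :
    NormedSpace.exp (L + e) - NormedSpace.exp L - e ∈ j877_F V (j + 1) := by
  have h1 : HasSum (fun n : ℕ => ((n.factorial : ℝ)⁻¹) • ((L + e) ^ n - L ^ n))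
      (NormedSpace.exp (L + e) - NormedSpace.exp L) := by
    have h2 := (NormedSpace.exp_series_hasSum_exp' (𝕂 := ℝ) (L + e)).sub
      (NormedSpace.exp_series_hasSum_exp' (𝕂 := ℝ) L)
    simpa only [smul_sub] using h2
  rw [← hasSum_nat_add_iff' 2] at h1
  have h2 : ∑ i ∈ Finset.range 2, (((i.factorial : ℝ)⁻¹) • ((L + e) ^ i - L ^ i)) = e := by
    rw [Finset.sum_range_succ, Finset.sum_range_one]
    simp
  rw [h2] at h1
  have hcl : IsClosed (j877_F V (j + 1) : Set (E →L[ℝ] E)) :=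
    Submodule.closed_of_finiteDimensional _
  refine hcl.mem_of_tendsto h1 (Eventually.of_forall fun s => ?_)
  refine Submodule.sum_mem _ fun n _ => Submodule.smul_mem _ _ ?_
  exact j877_mono hmono (by omega) (j877_pow_sub hL hLe he (n + 1))

/-- the iteration -/
private noncomputable def j877_it (k : ℕ) : (E →L[ℝ] E) → (E →L[ℝ] E) :=
  match k with
  | 0 => fun _ => 0
  | k + 1 => fun u => j877_it k u + u - NormedSpace.exp (j877_it k u)

private theorem j877_it_analytic (k : ℕ) : AnalyticOnNhd ℝ (j877_it (E := E) k) univ := by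
  induction k with
  | zero => exact analyticOnNhd_const
  | succ k ih =>
    have h1 : AnalyticOnNhd ℝ (fun u : E →L[ℝ] E => NormedSpace.exp (j877_it k u)) univ := by
      intro u hu
      exact (NormedSpace.exp_analytic (𝕂 := ℝ) _).comp (ih u hu)
    exact (ih.add analyticOnNhd_id).sub h1

private theorem j877_it_mem {V : ℕ → Submodule ℝ E} (hmono : ∀ k, V (k + 1) ≤ V k)
    {u : E →L[ℝ] E} (hu : u - 1 ∈ j877_F V 1) (k : ℕ) :
    j877_it k u ∈ j877_F V 1 ∧ u - NormedSpace.exp (j877_it k u) ∈ j877_F V (k + 1) := by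
  induction k with
  | zero =>
    refine ⟨Submodule.zero_mem _, ?_⟩
    show u - NormedSpace.exp (0 : E →L[ℝ] E) ∈ _
    rw [NormedSpace.exp_zero]
    exact hu
  | succ k ih =>
    obtain ⟨ih1, ih2⟩ := ih
    have h0 : j877_it (k + 1) u = j877_it k u + (u - NormedSpace.exp (j877_it k u)) := by
      show j877_it k u + u - NormedSpace.exp (j877_it k u) = _
      abel
    have h1 : j877_it (k + 1) u ∈ j877_F V 1 := by
      rw [h0]
      exact Submodule.add_mem _ ih1 (j877_mono hmono (by omega) ih2)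
    refine ⟨h1, ?_⟩
    rw [h0] at h1 ⊢
    have h2 := j877_exp_sub hmono ih1 h1 ih2
    have h3 : u - NormedSpace.exp (j877_it k u + (u - NormedSpace.exp (j877_it k u))) =
        -(NormedSpace.exp (j877_it k u + (u - NormedSpace.exp (j877_it k u))) -
          NormedSpace.exp (j877_it k u) - (u - NormedSpace.exp (j877_it k u))) := by abel
    rw [h3]
    exact Submodule.neg_mem _ h2

/-- JOB B2. Logarithm of unipotent operators with respect to a flag. -/
theorem exists_ulog {E : Type*} [NormedAddCommGroup E] [NormedSpace ℝ E] [FiniteDimensional ℝ E]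
    (V : ℕ → Submodule ℝ E) (h0 : V 0 = ⊤) (hmono : ∀ k, V (k + 1) ≤ V k) (m : ℕ) (hm : V m = ⊥) :
    ∃ Λ : (E →L[ℝ] E) → (E →L[ℝ] E), AnalyticOnNhd ℝ Λ univ ∧
      ∀ u : E →L[ℝ] E, (∀ k, ∀ v ∈ V k, u v - v ∈ V (k + 1)) →
        (∀ k, ∀ v ∈ V k, Λ u v ∈ V (k + 1)) ∧ NormedSpace.exp (Λ u) = u := by
  refine ⟨j877_it m, j877_it_analytic m, ?_⟩
  intro u hu
  have hu1 : u - 1 ∈ j877_F V 1 := hu
  obtain ⟨h1, h2⟩ := j877_it_mem hmono hu1 m
  refine ⟨h1, ?_⟩
  have h3 : u - NormedSpace.exp (j877_it m u) = 0 := by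
    refine ContinuousLinearMap.ext fun v => ?_
    have h4 := h2 0 v (by rw [h0]; exact Submodule.mem_top)
    have h5 : V (0 + (m + 1)) ≤ V m := antitone_nat_of_succ_le hmono (by omega)
    have h6 := h5 h4
    rw [hm, Submodule.mem_bot] at h6
    exact h6
  exact (sub_eq_zero.1 h3).symm

end ulog

end Pool.Agent.TH77.AN
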